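import Pool.Agent.Lib.MP_cb27ba_nt.BD.Spec

/-!
# MP_cb27ba_nt, module BOGO: Bogolyubov's lemma in `ZMod N`
-/

set_option autoImplicit false

namespace MPcb27

open Finset
open scoped Pointwise ComplexConjugate

namespace Bogo

variable {N : ℕ} [Fact N.Prime]

/-- the standard character -/
noncomputable def ee (x : ZMod N) : ℂ := ZMod.stdAddChar x

theorem ee_add (x y : ZMod N) : ee (x + y) = ee x * ee y := AddChar.map_add_eq_mul _ _ _

theorem ee_neg (x : ZMod N) : ee (-x) = conj (ee x) := AddChar.map_neg_eq_conj _ _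

theorem ee_zero : ee (0 : ZMod N) = 1 := AddChar.map_zero_eq_one _

theorem ee_re (x : ZMod N) : (ee x).re = Real.cos (2 * Real.pi * (x.val : ℝ) / N) := by
  unfold ee
  rw [ZMod.stdAddChar_apply, ZMod.toCircle_apply]
  have : (2 * Real.pi * Complex.I * (x.val : ℂ) / N : ℂ) =
      ((2 * Real.pi * (x.val : ℝ) / N : ℝ) : ℂ) * Complex.I := by
    push_cast
    ring
  rw [this, Complex.exp_ofReal_mul_I_re]

theorem sum_ee (v : ZMod N) : ∑ r : ZMod N, ee (r * v) = if v = 0 then (N : ℂ) else 0 := by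
  have h := AddChar.sum_mulShift (R := ZMod N) (R' := ℂ) v (ZMod.isPrimitive_stdAddChar N)
  rw [ZMod.card] at h
  unfold ee
  rw [h]
  split_ifs
  · rfl
  · simp

/-- the Fourier transform of the indicator function -/
noncomputable def F (S : Finset (ZMod N)) (r : ZMod N) : ℂ := ∑ s ∈ S, ee (r * s)

theorem mul_conj (S : Finset (ZMod N)) (r : ZMod N) :
    F S r * conj (F S r) = ∑ q ∈ S ×ˢ S, ee (r * (q.1 - q.2)) := by
  unfold F
  rw [map_sum, Finset.sum_mul_sum, Finset.sum_product]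
  refine Finset.sum_congr rfl fun s _ => Finset.sum_congr rfl fun t _ => ?_
  rw [← ee_neg, ← ee_add]
  congr 1
  ring

theorem parseval (S : Finset (ZMod N)) :
    ∑ r : ZMod N, F S r * conj (F S r) = (N : ℂ) * #S := by
  simp only [mul_conj]
  rw [Finset.sum_comm]
  simp only [sum_ee, sub_eq_zero]
  rw [Finset.sum_product]
  have : ∀ s ∈ S, ∑ t ∈ S, (if s = t then (N : ℂ) else 0) = N := by
    intro s hs
    rw [Finset.sum_ite_eq, if_pos hs]
  rw [Finset.sum_congr rfl this, Finset.sum_const, nsmul_eq_mul, mul_comm]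

theorem parseval_real (S : Finset (ZMod N)) :
    ∑ r : ZMod N, ‖F S r‖ ^ 2 = (N : ℝ) * #S := by
  have h := parseval S
  simp only [Complex.mul_conj'] at h
  exact_mod_cast h

theorem sum4 (S : Finset (ZMod N)) (x : ZMod N)
    (hx : ¬ ∃ s₁ ∈ S, ∃ s₂ ∈ S, ∃ s₃ ∈ S, ∃ s₄ ∈ S, x = s₁ + s₂ - s₃ - s₄) :
    ∑ r : ZMod N, (F S r * conj (F S r)) * (F S r * conj (F S r)) * ee (-(r * x)) = 0 := by
  have h1 : ∀ r : ZMod N, (F S r * conj (F S r)) * (F S r * conj (F S r)) * ee (-(r * x)) =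
      ∑ Q ∈ (S ×ˢ S) ×ˢ (S ×ˢ S), ee (r * (Q.1.1 - Q.1.2 + (Q.2.1 - Q.2.2) - x)) := by
    intro r
    have h2 : ∑ Q ∈ (S ×ˢ S) ×ˢ (S ×ˢ S), ee (r * (Q.1.1 - Q.1.2 + (Q.2.1 - Q.2.2) - x)) =
        ∑ q ∈ S ×ˢ S, ∑ q' ∈ S ×ˢ S, ee (r * (q.1 - q.2 + (q'.1 - q'.2) - x)) :=
      Finset.sum_product _ _ _
    rw [h2, mul_conj, Finset.sum_mul_sum, Finset.sum_mul]
    refine Finset.sum_congr rfl fun q _ => ?_
    rw [Finset.sum_mul]
    refine Finset.sum_congr rfl fun q' _ => ?_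
    rw [← ee_add, ← ee_add]
    congr 1
    ring
  simp only [h1]
  rw [Finset.sum_comm]
  refine Finset.sum_eq_zero fun Q hQ => ?_
  rw [sum_ee, if_neg]
  intro h0
  rw [Finset.mem_product, Finset.mem_product, Finset.mem_product] at hQ
  refine hx ⟨Q.1.1, hQ.1.1, Q.2.1, hQ.2.1, Q.1.2, hQ.1.2, Q.2.2, hQ.2.2, ?_⟩
  rw [sub_eq_zero] at h0
  rw [← h0]
  ring

end Bogo

theorem specBogo : SpecBogo := by
  classical
  intro N _ S hS
  have hN : (0 : ℝ) < N := by exact_mod_cast (Fact.out : N.Prime).pos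
  have hSpos : (0 : ℝ) < #S := by exact_mod_cast hS.card_pos
  have hSN : (#S : ℝ) ≤ N := by
    have := Finset.card_le_univ S
    rw [ZMod.card] at this
    exact_mod_cast this
  set θ : ℝ := (#S : ℝ) ^ 3 / (2 * N) with hθ
  have hθpos : 0 < θ := by positivity
  have hpar := Bogo.parseval_real S
  refine ⟨univ.filter fun r => θ ≤ ‖Bogo.F S r‖ ^ 2, ?_, ?_⟩
  · set n : ℝ := (#(univ.filter fun r => θ ≤ ‖Bogo.F S r‖ ^ 2) : ℝ) with hn
    have h1 : n * θ ≤ N * #S := by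
      rw [← hpar, hn, ← nsmul_eq_mul]
      refine (Finset.card_nsmul_le_sum _ (fun r => ‖Bogo.F S r‖ ^ 2) _ ?_).trans ?_
      · intro r hr
        exact (Finset.mem_filter.1 hr).2
      · exact Finset.sum_le_sum_of_subset_of_nonneg (Finset.filter_subset _ _)
          fun r _ _ => by positivity
    have h2 : n * (#S : ℝ) ^ 3 ≤ (N : ℝ) * #S * (2 * N) := by
      rw [hθ, mul_div_assoc', div_le_iff₀ (by positivity)] at h1
      exact h1
    have h3 : (n * (#S : ℝ) ^ 2) * #S ≤ (2 * (N : ℝ) ^ 2) * #S := by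
      nlinarith
    exact le_of_mul_le_mul_right h3 hSpos
  · intro x hx
    by_contra hne
    have h4 := Bogo.sum4 S x hne
    have h5 : ∑ r : ZMod N, (‖Bogo.F S r‖ ^ 2) ^ 2 *
        Real.cos (2 * Real.pi * ((r * x).val : ℝ) / N) = 0 := by
      have h6 := congrArg Complex.re h4
      rw [Complex.re_sum, Complex.zero_re] at h6
      rw [← h6]
      refine Finset.sum_congr rfl fun r _ => ?_
      have h7 : Bogo.F S r * conj (Bogo.F S r) * (Bogo.F S r * conj (Bogo.F S r)) =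
          (((‖Bogo.F S r‖ ^ 2) ^ 2 : ℝ) : ℂ) := by
        rw [Complex.mul_conj']
        push_cast
        ring
      rw [h7, Complex.re_ofReal_mul, Bogo.ee_neg, Complex.conj_re, Bogo.ee_re]
    -- the term `r = 0`
    have hF0 : ‖Bogo.F S 0‖ ^ 2 = (#S : ℝ) ^ 2 := by
      unfold Bogo.F
      simp only [zero_mul, Bogo.ee_zero]
      rw [Finset.sum_const, nsmul_eq_mul, mul_one, Complex.norm_natCast]
    have h0R : θ ≤ ‖Bogo.F S 0‖ ^ 2 := by
      rw [hF0, hθ, div_le_iff₀ (by positivity)]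
      nlinarith [mul_nonneg (sq_nonneg (#S : ℝ)) (by linarith : (0 : ℝ) ≤ 2 * N - #S)]
    have hlow : ∀ r : ZMod N, (if r = 0 then (#S : ℝ) ^ 4 else 0) - θ * ‖Bogo.F S r‖ ^ 2 ≤
        (‖Bogo.F S r‖ ^ 2) ^ 2 * Real.cos (2 * Real.pi * ((r * x).val : ℝ) / N) := by
      intro r
      by_cases hr0 : r = 0
      · subst hr0
        rw [if_pos rfl, zero_mul, ZMod.val_zero, Nat.cast_zero, mul_zero, zero_div, Real.cos_zero,
          mul_one, hF0]
        have : 0 ≤ θ * (#S : ℝ) ^ 2 := by positivity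
        nlinarith
      · rw [if_neg hr0, zero_sub]
        by_cases hr : θ ≤ ‖Bogo.F S r‖ ^ 2
        · have h1 := hx r (Finset.mem_filter.2 ⟨Finset.mem_univ _, hr⟩)
          have h2 : 0 ≤ θ * ‖Bogo.F S r‖ ^ 2 := by positivity
          have h3 : 0 ≤ (‖Bogo.F S r‖ ^ 2) ^ 2 *
              Real.cos (2 * Real.pi * ((r * x).val : ℝ) / N) := by positivity
          linarith
        · push Not at hr
          have h1 := Real.neg_one_le_cos (2 * Real.pi * ((r * x).val : ℝ) / N)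
          have h2 : 0 ≤ ‖Bogo.F S r‖ ^ 2 := by positivity
          have h3 : (‖Bogo.F S r‖ ^ 2) ^ 2 ≤ θ * ‖Bogo.F S r‖ ^ 2 := by nlinarith
          have h4 : 0 ≤ (‖Bogo.F S r‖ ^ 2) ^ 2 := by positivity
          nlinarith
    have h8 := Finset.sum_le_sum fun r (_ : r ∈ (univ : Finset (ZMod N))) => hlow r
    rw [h5, Finset.sum_sub_distrib, ← Finset.mul_sum, hpar, Finset.sum_ite_eq' ,
      if_pos (Finset.mem_univ _)] at h8
    have h9 : θ * ((N : ℝ) * #S) = (#S : ℝ) ^ 4 / 2 := by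
      rw [hθ]
      field_simp
    rw [h9] at h8
    have : 0 < (#S : ℝ) ^ 4 := by positivity
    linarith

end MPcb27
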