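import Pool.Agent.Lib.MP_cb27ba_nt.BD.Det

section
/-!
# MP_cb27ba_nt, project BD, module DUAL (helper42): the dual system
-/
set_option autoImplicit false

namespace MPcb27.Dual

open Finset MPcb27 MPcb27.Basic

variable {ι : Type} [Fintype ι] [DecidableEq ι] {p : ℕ}

/-- the integral multiple `E = p * (inverse transpose of h)` -/
lemma exists_E (h : Matrix ι ι ℤ) (hdet : h.det.natAbs = p) :
    ∃ E : ι → ι → ℤ, (∀ i j, ∑ k, h i k * E j k = if i = j then (p : ℤ) else 0) ∧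
      ∀ i k, ∑ j, E j i * h j k = if i = k then (p : ℤ) else 0 := by
  have h1 := Matrix.mul_adjugate h
  have h2 := Matrix.adjugate_mul h
  rcases Int.natAbs_eq h.det with hd | hd <;> rw [hdet] at hd
  · refine ⟨fun j k => h.adjugate k j, fun i j => ?_, fun i k => ?_⟩
    · have := congrFun (congrFun h1 i) j
      rw [hd] at this
      simpa [Matrix.mul_apply, Matrix.one_apply] using this
    · have := congrFun (congrFun h2 i) k
      rw [hd] at this
      simpa [Matrix.mul_apply, Matrix.one_apply] using this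
  · refine ⟨fun j k => -h.adjugate k j, fun i j => ?_, fun i k => ?_⟩
    · have := congrFun (congrFun h1 i) j
      rw [hd] at this
      have h3 : ∑ k, h i k * -h.adjugate k j = -∑ k, h i k * h.adjugate k j := by
        simp
      rw [h3]
      simp only [Matrix.mul_apply, Matrix.smul_apply, Matrix.one_apply, smul_eq_mul] at this
      rw [this]
      split_ifs <;> simp
    · have := congrFun (congrFun h2 i) k
      rw [hd] at this
      have h3 : ∑ j, -h.adjugate i j * h j k = -∑ j, h.adjugate i j * h j k := by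
        simp
      rw [h3]
      simp only [Matrix.mul_apply, Matrix.smul_apply, Matrix.one_apply, smul_eq_mul] at this
      rw [this]
      split_ifs <;> simp

/-- the real pairing `⟨u, ∑ X_i E_i⟩` -/
noncomputable def pr (E : ι → ι → ℤ) (X u : ι → ℝ) : ℝ :=
  ∑ i, X i * ∑ k, u k * (E i k : ℝ)

/-- the integer pairing -/
def pz (E : ι → ι → ℤ) (X u : ι → ℤ) : ℤ :=
  ∑ i, X i * ∑ k, u k * E i k

omit [DecidableEq ι] in
lemma pr_rv (E : ι → ι → ℤ) (X u : ι → ℤ) : pr E (rv X) (rv u) = (pz E X u : ℝ) := by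
  simp [pr, pz, rv]

omit [DecidableEq ι] in
lemma pr_add_left (E : ι → ι → ℤ) (X X' u : ι → ℝ) : pr E (X + X') u = pr E X u + pr E X' u := by
  simp [pr, add_mul, sum_add_distrib]

omit [DecidableEq ι] in
lemma pr_smul_left (E : ι → ι → ℤ) (c : ℝ) (X u : ι → ℝ) : pr E (c • X) u = c * pr E X u := by
  simp [pr, mul_sum, mul_assoc]

omit [DecidableEq ι] in
lemma pr_add_right (E : ι → ι → ℤ) (X u u' : ι → ℝ) : pr E X (u + u') = pr E X u + pr E X u' := by
  simp [pr, add_mul, mul_add, sum_add_distrib]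

omit [DecidableEq ι] in
lemma pr_smul_right (E : ι → ι → ℤ) (c : ℝ) (X u : ι → ℝ) : pr E X (c • u) = c * pr E X u := by
  unfold pr
  rw [mul_sum]
  refine sum_congr rfl fun i _ => ?_
  have h : ∑ k, (c • u) k * (E i k : ℝ) = c * ∑ k, u k * (E i k : ℝ) := by
    simp [mul_sum, mul_assoc]
  rw [h]
  ring

/-- coefficient bound for a good basis -/
lemma coeff_bound {κ : ℝ} {c : ι → ZMod p} {N : ι → ℝ} {h : Matrix ι ι ℤ}
    (hg : IsGB κ c N h) {E : ι → ι → ℤ}
    (hE : ∀ i k, ∑ j, E j i * h j k = if i = k then (p : ℤ) else 0) (u : ι → ℝ) (j : ι) :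
    |∑ k, u k * (E j k : ℝ)| * wn N (rv (h j)) ≤ κ * (p * wn N u) := by
  have h1 := hg.good (fun j => ∑ k, u k * (E j k : ℝ))
  have h2 : (fun i => ∑ j, (∑ k, u k * (E j k : ℝ)) * (h j i : ℝ)) = fun i => (p : ℝ) * u i := by
    ext i
    simp only [sum_mul]
    rw [sum_comm]
    have : ∀ k ∈ (univ : Finset ι), ∑ j, u k * (E j k : ℝ) * (h j i : ℝ) =
        if k = i then (p : ℝ) * u i else 0 := by
      intro k _
      have h3 := hE k i
      have h4 : (∑ j, (E j k : ℝ) * (h j i : ℝ)) = if k = i then (p : ℝ) else 0 := by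
        have := congrArg (fun z : ℤ => (z : ℝ)) h3
        simp only [Int.cast_sum, Int.cast_mul] at this
        rw [this]
        split_ifs <;> simp
      have h5 : ∑ j, u k * (E j k : ℝ) * (h j i : ℝ) = u k * ∑ j, (E j k : ℝ) * (h j i : ℝ) := by
        rw [mul_sum]
        exact sum_congr rfl fun _ _ => by ring
      rw [h5, h4]
      split_ifs with hki
      · rw [hki]; ring
      · ring
    rw [sum_congr rfl this]
    simp
  rw [h2, wn_smul, Nat.abs_cast] at h1
  refine le_trans ?_ h1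
  exact single_le_sum (f := fun j => |∑ k, u k * (E j k : ℝ)| * wn N (rv (h j)))
    (fun _ _ => mul_nonneg (abs_nonneg _) (wn_nonneg _ _)) (mem_univ j)

/-- the pairing bound -/
lemma pr_bound {κ s : ℝ} {c : ι → ZMod p} {N : ι → ℝ} {h : Matrix ι ι ℤ} (hs : 0 < s)
    (hg : IsGB κ c N h) {E : ι → ι → ℤ}
    (hE : ∀ i k, ∑ j, E j i * h j k = if i = k then (p : ℤ) else 0)
    (hpos : ∀ i, 0 < wn N (rv (h i))) (X u : ι → ℝ) :
    |pr E X u| ≤ (Fintype.card ι * κ * s) * (p * wn N u) *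
      wn (fun i => s * wn N (rv (h i))) X := by
  have hN' : ∀ i, 0 < s * wn N (rv (h i)) := fun i => mul_pos hs (hpos i)
  unfold pr
  refine (abs_sum_le_sum_abs _ _).trans ?_
  have : ∀ i ∈ (univ : Finset ι), |X i * ∑ k, u k * (E i k : ℝ)| ≤
      (κ * s) * (p * wn N u) * wn (fun i => s * wn N (rv (h i))) X := by
    intro i _
    rw [abs_mul]
    have h1 := abs_le_wn hN' X i
    have h2 := coeff_bound hg hE u i
    have h3 : |∑ k, u k * (E i k : ℝ)| ≤ κ * (p * wn N u) / wn N (rv (h i)) := by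
      rw [le_div_iff₀ (hpos i)]
      exact h2
    refine (mul_le_mul h1 h3 (abs_nonneg _) (mul_nonneg (hN' i).le (wn_nonneg _ _))).trans
      (le_of_eq ?_)
    have := (hpos i).ne'
    field_simp
  refine (sum_le_sum this).trans (le_of_eq ?_)
  simp
  ring

/-- the coefficients of the dual system -/
lemma exists_a' [Fact p.Prime] {κ : ℝ} {a : ι → ZMod p} {N : ι → ℝ} {h : Matrix ι ι ℤ}
    (ha : a ≠ 0) (hg : IsGB κ a N h) {E : ι → ι → ℤ}
    (hE : ∀ i j, ∑ k, h i k * E j k = if i = j then (p : ℤ) else 0) :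
    ∃ a' : ι → ZMod p, ∀ j k, (E j k : ZMod p) = a' j * a k := by
  obtain ⟨i0, hi0⟩ : ∃ i, a i ≠ 0 := by
    by_contra hcon
    push Not at hcon
    exact ha (funext hcon)
  refine ⟨fun j => (E j i0 : ZMod p) / a i0, fun j k => ?_⟩
  obtain ⟨t, ht⟩ := ZMod.intCast_surjective (a k / a i0)
  have hw : lin a (Pi.single k 1 - t • Pi.single i0 1) = 0 := by
    rw [lin_sub, lin_smul, lin_single, lin_single, ht]
    field_simp
    simp
  obtain ⟨m, hm⟩ := hg.gen _ hw
  have h1 : ∑ i, (Pi.single k 1 - t • Pi.single i0 1 : ι → ℤ) i * E j i = p * m j := by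
    simp only [hm, sum_mul]
    rw [sum_comm]
    have : ∀ i ∈ (univ : Finset ι), ∑ x, m i * h i x * E j x =
        if i = j then (p : ℤ) * m j else 0 := by
      intro i _
      have h5 : ∑ x, m i * h i x * E j x = m i * ∑ x, h i x * E j x := by
        rw [mul_sum]
        exact sum_congr rfl fun _ _ => by ring
      rw [h5, hE i j]
      split_ifs with hij
      · rw [hij]; ring
      · ring
    rw [sum_congr rfl this]
    simp
  have h2 : ∑ i, (Pi.single k 1 - t • Pi.single i0 1 : ι → ℤ) i * E j i = E j k - t * E j i0 := by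
    simp [sub_mul, sum_sub_distrib, Pi.single_apply]
  rw [h2] at h1
  have h3 := congrArg (fun z : ℤ => (z : ZMod p)) h1
  simp only [Int.cast_sub, Int.cast_mul, Int.cast_natCast, ht, CharP.cast_eq_zero, zero_mul] at h3
  have h4 : (E j k : ZMod p) = a k / a i0 * (E j i0 : ZMod p) := by
    linear_combination h3
  rw [h4]
  ring

omit [DecidableEq ι] in
/-- the pairing modulo `p` -/
lemma pz_cast {a a' : ι → ZMod p} {E : ι → ι → ℤ} (ha' : ∀ j k, (E j k : ZMod p) = a' j * a k)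
    (X u : ι → ℤ) : ((pz E X u : ℤ) : ZMod p) = lin a' X * lin a u := by
  unfold pz lin
  push_cast
  rw [sum_mul]
  refine sum_congr rfl fun i _ => ?_
  rw [mul_assoc]
  congr 1
  rw [mul_sum]
  refine sum_congr rfl fun k _ => ?_
  rw [ha' i k]
  ring

/-- pairing with a row of `h` -/
lemma pr_row {h : Matrix ι ι ℤ} {E : ι → ι → ℤ}
    (hE : ∀ i j, ∑ k, h i k * E j k = if i = j then (p : ℤ) else 0) (X : ι → ℝ) (j : ι) :
    pr E X (rv (h j)) = p * X j := by
  unfold pr rv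
  have : ∀ i ∈ (univ : Finset ι), X i * ∑ k, (h j k : ℝ) * (E i k : ℝ) =
      if i = j then (p : ℝ) * X j else 0 := by
    intro i _
    have h4 : (∑ k, (h j k : ℝ) * (E i k : ℝ)) = if j = i then (p : ℝ) else 0 := by
      have := congrArg (fun z : ℤ => (z : ℝ)) (hE j i)
      simp only [Int.cast_sum, Int.cast_mul] at this
      rw [this]
      split_ifs <;> simp
    rw [h4]
    by_cases hij : i = j
    · subst hij; simp [mul_comm]
    · rw [if_neg (Ne.symm hij), if_neg hij, mul_zero]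
  rw [sum_congr rfl this]
  simp

/-- the big pairing on `ι ⊕ ι` -/
noncomputable def PR (E : ι → ι → ℤ) (W w : ι ⊕ ι → ℝ) : ℝ :=
  pr E (fun i => W (Sum.inr i)) (fun i => w (Sum.inl i)) +
    pr E (fun i => W (Sum.inl i)) (fun i => w (Sum.inr i))

/-- the big integer pairing -/
def PZ (E : ι → ι → ℤ) (W w : ι ⊕ ι → ℤ) : ℤ :=
  pz E (fun i => W (Sum.inr i)) (fun i => w (Sum.inl i)) +
    pz E (fun i => W (Sum.inl i)) (fun i => w (Sum.inr i))

omit [DecidableEq ι] in
lemma PR_rv (E : ι → ι → ℤ) (W w : ι ⊕ ι → ℤ) : PR E (rv W) (rv w) = (PZ E W w : ℝ) := by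
  unfold PR PZ
  push_cast
  rw [← pr_rv, ← pr_rv]
  rfl

/-- the pairing as a linear map into the dual space -/
noncomputable def BB (E : ι → ι → ℤ) : (ι ⊕ ι → ℝ) →ₗ[ℝ] Module.Dual ℝ (ι ⊕ ι → ℝ) :=
  LinearMap.mk₂ ℝ (PR E)
    (fun W W' w => by
      unfold PR
      have h1 := pr_add_left E (fun i => W (Sum.inr i)) (fun i => W' (Sum.inr i))
        (fun i => w (Sum.inl i))
      have h2 := pr_add_left E (fun i => W (Sum.inl i)) (fun i => W' (Sum.inl i))
        (fun i => w (Sum.inr i))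
      simp only [Pi.add_def] at h1 h2 ⊢
      rw [h1, h2]; ring)
    (fun c W w => by
      unfold PR
      have h1 := pr_smul_left E c (fun i => W (Sum.inr i)) (fun i => w (Sum.inl i))
      have h2 := pr_smul_left E c (fun i => W (Sum.inl i)) (fun i => w (Sum.inr i))
      simp only [Pi.smul_def] at h1 h2 ⊢
      rw [h1, h2, smul_eq_mul]; ring)
    (fun W w w' => by
      unfold PR
      have h1 := pr_add_right E (fun i => W (Sum.inr i)) (fun i => w (Sum.inl i))
        (fun i => w' (Sum.inl i))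
      have h2 := pr_add_right E (fun i => W (Sum.inl i)) (fun i => w (Sum.inr i))
        (fun i => w' (Sum.inr i))
      simp only [Pi.add_def] at h1 h2 ⊢
      rw [h1, h2]; ring)
    (fun c W w => by
      unfold PR
      have h1 := pr_smul_right E c (fun i => W (Sum.inr i)) (fun i => w (Sum.inl i))
      have h2 := pr_smul_right E c (fun i => W (Sum.inl i)) (fun i => w (Sum.inr i))
      simp only [Pi.smul_def] at h1 h2 ⊢
      rw [h1, h2, smul_eq_mul]; ring)

omit [DecidableEq ι] in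
lemma BB_apply (E : ι → ι → ℤ) (W w : ι ⊕ ι → ℝ) : BB E W w = PR E W w := rfl

lemma BB_injective [Fact p.Prime] {h : Matrix ι ι ℤ} {E : ι → ι → ℤ}
    (hE : ∀ i j, ∑ k, h i k * E j k = if i = j then (p : ℤ) else 0) :
    Function.Injective (BB E) := by
  have hp : (p : ℝ) ≠ 0 := by
    exact_mod_cast (Fact.out : p.Prime).ne_zero
  rw [← LinearMap.ker_eq_bot, LinearMap.ker_eq_bot']
  intro W hW
  have hz : ∀ X : ι → ℝ, pr E X (fun _ => 0) = 0 := by
    intro X
    simp [pr]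
  ext i
  rcases i with i | i
  · have h1 : BB E W (Sum.elim (fun _ => 0) (rv (h i))) = 0 := by rw [hW]; rfl
    rw [BB_apply] at h1
    unfold PR at h1
    simp only [Sum.elim_inl, Sum.elim_inr] at h1
    rw [hz, zero_add, pr_row hE] at h1
    exact (mul_eq_zero.mp h1).resolve_left hp
  · have h1 : BB E W (Sum.elim (rv (h i)) (fun _ => 0)) = 0 := by rw [hW]; rfl
    rw [BB_apply] at h1
    unfold PR at h1
    simp only [Sum.elim_inl, Sum.elim_inr] at h1
    rw [hz, add_zero, pr_row hE] at h1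
    exact (mul_eq_zero.mp h1).resolve_left hp

/-- two sets which pair to zero span spaces of complementary dimension -/
lemma finrank_le_of_pair [Fact p.Prime] {h : Matrix ι ι ℤ} {E : ι → ι → ℤ}
    (hE : ∀ i j, ∑ k, h i k * E j k = if i = j then (p : ℤ) else 0)
    (A B : Set (ι ⊕ ι → ℝ)) (hAB : ∀ W ∈ A, ∀ w ∈ B, PR E W w = 0) :
    Module.finrank ℝ (Submodule.span ℝ A) + Module.finrank ℝ (Submodule.span ℝ B) ≤
      2 * Fintype.card ι := by
  have h1 : ∀ W ∈ Submodule.span ℝ A, ∀ w ∈ Submodule.span ℝ B, BB E W w = 0 := by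
    intro W hW w hw
    induction hW using Submodule.span_induction with
    | mem W hW =>
      induction hw using Submodule.span_induction with
      | mem w hw => exact hAB W hW w hw
      | zero => simp
      | add x y _ _ hx hy => rw [map_add, hx, hy, add_zero]
      | smul c x _ hx => rw [map_smul, hx, smul_zero]
    | zero => simp
    | add x y _ _ hx hy => rw [map_add, LinearMap.add_apply, hx, hy, add_zero]
    | smul c x _ hx => rw [map_smul, LinearMap.smul_apply, hx, smul_zero]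
  have h2 : (Submodule.span ℝ A).map (BB E) ≤ (Submodule.span ℝ B).dualAnnihilator := by
    rintro _ ⟨W, hW, rfl⟩
    rw [Submodule.mem_dualAnnihilator]
    intro w hw
    exact h1 W hW w hw
  have h3 := Submodule.finrank_mono h2
  rw [← (Submodule.equivMapOfInjective (BB E) (BB_injective hE) (Submodule.span ℝ A)).finrank_eq] at h3
  have h4 := Subspace.finrank_add_finrank_dualAnnihilator_eq (Submodule.span ℝ B)
  rw [Module.finrank_fintype_fun_eq_card, Fintype.card_sum] at h4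
  omega

/-! ### the dual system is a system -/

section

variable [Fact p.Prime] {κ₁ κ s T : ℝ} {a a' : ι → ZMod p} {N : ι → ℝ} {h : Matrix ι ι ℤ}
  {E : ι → ι → ℤ}

omit [Fact p.Prime] in
lemma row_ne_zero (hp : p ≠ 0) (hdet : h.det.natAbs = p) (i : ι) : h i ≠ 0 := by
  intro h0
  have : h.det = 0 := Matrix.det_eq_zero_of_row_eq_zero i (fun j => congrFun h0 j)
  rw [this] at hdet
  exact hp (by simpa using hdet.symm)

lemma row_big (hS : Sys a N T) (hg : IsGB κ₁ a N h) (i : ι) : T < wn N (rv (h i)) :=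
  hS.2 _ (row_ne_zero (Fact.out : p.Prime).ne_zero hg.det i) (hg.mem i)

lemma sys_dual (hs : 0 < s) (hT : 1 ≤ s * T) (hS : Sys a N T) (hg : IsGB κ₁ a N h)
    (hE1 : ∀ i j, ∑ k, h i k * E j k = if i = j then (p : ℤ) else 0)
    (hE2 : ∀ i k, ∑ j, E j i * h j k = if i = k then (p : ℤ) else 0)
    (ha' : ∀ j k, (E j k : ZMod p) = a' j * a k) (hκ1 : 0 ≤ κ₁)
    (hκ : Fintype.card ι * κ₁ < κ) :
    Sys a' (fun i => s * wn N (rv (h i))) (1 / (κ * s)) := by
  have hT0 : 0 < T := by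
    by_contra hcon
    push Not at hcon
    nlinarith
  have hpos : ∀ i, 0 < wn N (rv (h i)) := fun i => hT0.trans (row_big hS hg i)
  have hN' : ∀ i, 0 < s * wn N (rv (h i)) := fun i => mul_pos hs (hpos i)
  have hp : (0 : ℝ) < p := by exact_mod_cast (Fact.out : p.Prime).pos
  refine ⟨fun i => ?_, fun z hz hlin => ?_⟩
  · have := row_big hS hg i
    nlinarith
  · have hκ0 : 0 < κ := lt_of_le_of_lt (by positivity) hκ
    have hwpos : 0 < wn (fun i => s * wn N (rv (h i))) (rv z) := wn_pos hN' (rv_ne_zero hz)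
    have hy : ∃ k, ∑ i, z i * E i k ≠ 0 := by
      by_contra hcon
      push Not at hcon
      apply hz
      ext j
      have h1 := pr_row hE1 (rv z) j
      have h2 : pr E (rv z) (rv (h j)) = 0 := by
        rw [pr_rv]
        have h3 : pz E z (h j) = ∑ k, h j k * ∑ i, z i * E i k := by
          unfold pz
          simp only [mul_sum]
          rw [sum_comm]
          exact sum_congr rfl fun k _ => sum_congr rfl fun i _ => by ring
        rw [h3]
        simp [hcon]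
      rw [h2] at h1
      have h4 : (rv z j : ℝ) = 0 := by
        rcases mul_eq_zero.mp h1.symm with h5 | h5
        · exact absurd h5 hp.ne'
        · exact h5
      have : (z j : ℝ) = 0 := h4
      exact_mod_cast this
    obtain ⟨k, hk⟩ := hy
    have hdvd : (p : ℤ) ∣ ∑ i, z i * E i k := by
      rw [← ZMod.intCast_zmod_eq_zero_iff_dvd]
      push_cast
      have : ∑ i, (z i : ZMod p) * (E i k : ZMod p) = lin a' z * a k := by
        unfold lin
        rw [sum_mul]
        exact sum_congr rfl fun i _ => by rw [ha' i k]; ring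
      rw [this, hlin, zero_mul]
    have hge : (p : ℤ) ≤ |∑ i, z i * E i k| :=
      Int.le_of_dvd (abs_pos.mpr hk) ((dvd_abs _ _).mpr hdvd)
    have hge' : (p : ℝ) ≤ |pr E (rv z) (Pi.single k 1)| := by
      have h3 : pr E (rv z) (Pi.single k 1) = ((∑ i, z i * E i k : ℤ) : ℝ) := by
        unfold pr rv
        push_cast
        refine sum_congr rfl fun i _ => ?_
        congr 1
        simp [Pi.single_apply]
      rw [h3]
      exact_mod_cast hge
    have hb := pr_bound hs hg hE2 hpos (rv z) (Pi.single k 1)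
    rw [wn_single (Sys.pos hS)] at hb
    have h1N : |(1 : ℝ)| / N k ≤ 1 := by
      rw [abs_one, div_le_one (Sys.pos hS k)]
      exact hS.1 k
    have h5 : (p : ℝ) ≤ (Fintype.card ι * κ₁ * s) * (p * 1) *
        wn (fun i => s * wn N (rv (h i))) (rv z) := by
      refine (hge'.trans hb).trans ?_
      refine mul_le_mul_of_nonneg_right ?_ hwpos.le
      refine mul_le_mul_of_nonneg_left ?_ (by positivity)
      exact mul_le_mul_of_nonneg_left h1N hp.le
    have h6 : 1 ≤ (Fintype.card ι * κ₁) * (s * wn (fun i => s * wn N (rv (h i))) (rv z)) := by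
      have : (p : ℝ) * 1 ≤ p * ((Fintype.card ι * κ₁) *
          (s * wn (fun i => s * wn N (rv (h i))) (rv z))) := by
        calc (p : ℝ) * 1 = p := mul_one _
          _ ≤ _ := h5
          _ = _ := by ring
      exact le_of_mul_le_mul_left this hp
    rw [div_lt_iff₀ (by positivity)]
    have h7 : (Fintype.card ι * κ₁) * (s * wn (fun i => s * wn N (rv (h i))) (rv z)) <
        κ * (s * wn (fun i => s * wn N (rv (h i))) (rv z)) :=
      mul_lt_mul_of_pos_right hκ (by positivity)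
    calc (1 : ℝ) ≤ _ := h6
      _ < _ := h7
      _ = _ := by ring

/-! ### orthogonality -/

lemma pair_zero (hs : 0 < s) (hg : IsGB κ₁ a N h)
    (hE2 : ∀ i k, ∑ j, E j i * h j k = if i = k then (p : ℤ) else 0)
    (ha' : ∀ j k, (E j k : ZMod p) = a' j * a k) (hκ1 : 0 ≤ κ₁)
    (hpos : ∀ i, 0 < wn N (rv (h i)))
    (hκ : 2 * (Fintype.card ι * κ₁) < κ) (l : ZMod p) (W w : ι ⊕ ι → ℤ)
    (hW : W ∈ ball (cl a' (-l)) (N2 (fun i => s * wn N (rv (h i)))) (1 / (κ * s)))
    (hw : w ∈ ball (cl a l) (N2 N) 1) : PR E (rv W) (rv w) = 0 := by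
  have hp : (0 : ℝ) < p := by exact_mod_cast (Fact.out : p.Prime).pos
  have hκ0 : 0 < κ := lt_of_le_of_lt (by positivity) hκ
  obtain ⟨hW1, hW2⟩ := hW
  obtain ⟨hw1, hw2⟩ := hw
  rw [lin_cl] at hW1 hw1
  have hdvd : (p : ℤ) ∣ PZ E W w := by
    rw [← ZMod.intCast_zmod_eq_zero_iff_dvd]
    unfold PZ
    push_cast
    rw [pz_cast ha', pz_cast ha']
    linear_combination (lin a' fun i => W (Sum.inr i)) * hw1 +
      (lin a fun i => w (Sum.inr i)) * hW1
  have hb1 := pr_bound hs hg hE2 hpos (fun i => rv W (Sum.inr i)) (fun i => rv w (Sum.inl i))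
  have hb2 := pr_bound hs hg hE2 hpos (fun i => rv W (Sum.inl i)) (fun i => rv w (Sum.inr i))
  have e1 : wn N (fun i => rv w (Sum.inl i)) ≤ 1 := (wn_inl_le N (rv w)).trans hw2
  have e2 : wn N (fun i => rv w (Sum.inr i)) ≤ 1 := (wn_inr_le N (rv w)).trans hw2
  have e3 : wn (fun i => s * wn N (rv (h i))) (fun i => rv W (Sum.inl i)) ≤ 1 / (κ * s) :=
    (wn_inl_le _ (rv W)).trans hW2
  have e4 : wn (fun i => s * wn N (rv (h i))) (fun i => rv W (Sum.inr i)) ≤ 1 / (κ * s) :=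
    (wn_inr_le _ (rv W)).trans hW2
  have f1 : |pr E (fun i => rv W (Sum.inr i)) (fun i => rv w (Sum.inl i))| ≤
      (Fintype.card ι * κ₁ * s) * (p * 1) * (1 / (κ * s)) := by
    refine hb1.trans (mul_le_mul ?_ e4 (wn_nonneg _ _) (by positivity))
    exact mul_le_mul_of_nonneg_left (mul_le_mul_of_nonneg_left e1 hp.le) (by positivity)
  have f2 : |pr E (fun i => rv W (Sum.inl i)) (fun i => rv w (Sum.inr i))| ≤
      (Fintype.card ι * κ₁ * s) * (p * 1) * (1 / (κ * s)) := by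
    refine hb2.trans (mul_le_mul ?_ e3 (wn_nonneg _ _) (by positivity))
    exact mul_le_mul_of_nonneg_left (mul_le_mul_of_nonneg_left e2 hp.le) (by positivity)
  have f3 : (Fintype.card ι * κ₁ * s) * (p * 1) * (1 / (κ * s)) =
      p * ((Fintype.card ι * κ₁) / κ) := by
    have := hs.ne'
    have := hκ0.ne'
    field_simp
  have f4 : |PR E (rv W) (rv w)| < p := by
    unfold PR
    refine lt_of_le_of_lt (abs_add_le _ _) ?_
    rw [f3] at f1 f2
    refine lt_of_le_of_lt (add_le_add f1 f2) ?_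
    have : (Fintype.card ι * κ₁) / κ < 1 / 2 := by
      rw [div_lt_div_iff₀ hκ0 (by norm_num)]
      linarith
    nlinarith
  rw [PR_rv] at f4 ⊢
  have f5 : |PZ E W w| < (p : ℤ) := by
    have : ((|PZ E W w| : ℤ) : ℝ) < ((p : ℤ) : ℝ) := by
      push_cast
      exact f4
    exact_mod_cast this
  rw [Int.eq_zero_of_abs_lt_dvd hdvd f5]
  simp

lemma rk_add_rk (hs : 0 < s) (hg : IsGB κ₁ a N h)
    (hE1 : ∀ i j, ∑ k, h i k * E j k = if i = j then (p : ℤ) else 0)
    (hE2 : ∀ i k, ∑ j, E j i * h j k = if i = k then (p : ℤ) else 0)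
    (ha' : ∀ j k, (E j k : ZMod p) = a' j * a k) (hκ1 : 0 ≤ κ₁)
    (hpos : ∀ i, 0 < wn N (rv (h i)))
    (hκ : 2 * (Fintype.card ι * κ₁) < κ) (l : ZMod p) :
    rk (cl a' (-l)) (N2 (fun i => s * wn N (rv (h i)))) (1 / (κ * s)) + rk (cl a l) (N2 N) 1 ≤
      2 * Fintype.card ι := by
  unfold rk
  refine finrank_le_of_pair hE1 _ _ ?_
  rintro _ ⟨W, hW, rfl⟩ _ ⟨w, hw, rfl⟩
  exact pair_zero hs hg hE2 ha' hκ1 hpos hκ l W w hW hw

/-! ### the dual basis -/

lemma exists_W {κ₂ : ℝ} {l : ZMod p} {g : Matrix (ι ⊕ ι) (ι ⊕ ι) ℤ} (ha : a ≠ 0)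
    (hg : IsGB κ₁ a N h) (hG : IsGB κ₂ (cl a l) (N2 N) g)
    (hE2 : ∀ i k, ∑ j, E j i * h j k = if i = k then (p : ℤ) else 0)
    (ha' : ∀ j k, (E j k : ZMod p) = a' j * a k) :
    ∃ W : ι ⊕ ι → ι ⊕ ι → ℤ, (∀ j, lin (cl a' (-l)) (W j) = 0) ∧
      (∀ j i, |(W j i : ℝ)| * wn (N2 N) (rv (g j)) ≤
        κ₂ * Sum.elim (fun i => wn N (rv (h i))) (fun i => wn N (rv (h i))) i) ∧
      ∀ m : ι ⊕ ι → ℤ, (∀ i, ∑ j, m j * W j i = 0) → m = 0 := by
  have hp0 : p ≠ 0 := (Fact.out : p.Prime).ne_zero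
  have hz : lin a (fun _ : ι => (0 : ℤ)) = 0 := lin_zero a
  have hA : ∀ i, ∃ m : ι ⊕ ι → ℤ, ∀ k, (Sum.elim (h i) (fun _ => 0) : ι ⊕ ι → ℤ) k =
      ∑ j, m j * g j k := by
    intro i
    refine hG.gen _ ?_
    rw [lin_cl]
    simp only [Sum.elim_inl, Sum.elim_inr]
    rw [hz, mul_zero, sub_zero]
    exact hg.mem i
  have hB : ∀ i, ∃ m : ι ⊕ ι → ℤ, ∀ k, (Sum.elim (fun _ => 0) (h i) : ι ⊕ ι → ℤ) k =
      ∑ j, m j * g j k := by
    intro i
    refine hG.gen _ ?_
    rw [lin_cl]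
    simp only [Sum.elim_inl, Sum.elim_inr]
    have : lin a (fun i_1 => h i i_1) = 0 := hg.mem i
    rw [hz, this, mul_zero, sub_zero]
  choose A hA using hA
  choose B hB using hB
  have hgdet : g.det ≠ 0 := by
    intro h0
    have := hG.det
    rw [h0] at this
    exact hp0 (by simpa using this.symm)
  have hhdet : h.det ≠ 0 := by
    intro h0
    have := hg.det
    rw [h0] at this
    exact hp0 (by simpa using this.symm)
  have hsum : ∀ (u v : ι → ℤ) (m : ι ⊕ ι → ℤ),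
      (∀ k, (Sum.elim u v : ι ⊕ ι → ℤ) k = ∑ j, m j * g j k) → ∀ j,
      pz E (fun i => A i j) u + pz E (fun i => B i j) v = p * m j := by
    intro u v m hm
    have hp1 : ∀ (u : ι → ℤ) (k : ι), ∑ i, (∑ k', u k' * E i k') * h i k = p * u k := by
      intro u k
      simp only [sum_mul]
      rw [sum_comm]
      have : ∀ k' ∈ (univ : Finset ι), ∑ x, u k' * E x k' * h x k =
          if k' = k then (p : ℤ) * u k else 0 := by
        intro k' _
        have h5 : ∑ x, u k' * E x k' * h x k = u k' * ∑ x, E x k' * h x k := by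
          rw [mul_sum]
          exact sum_congr rfl fun _ _ => by ring
        rw [h5, hE2 k' k]
        split_ifs with hij
        · rw [hij]; ring
        · ring
      rw [sum_congr rfl this]
      simp
    have key : Matrix.vecMul (fun j => pz E (fun i => A i j) u + pz E (fun i => B i j) v -
        p * m j) g = 0 := by
      ext k
      have e0 : Matrix.vecMul (fun j => pz E (fun i => A i j) u + pz E (fun i => B i j) v -
          p * m j) g k = ∑ j, pz E (fun i => A i j) u * g j k +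
          ∑ j, pz E (fun i => B i j) v * g j k - p * ∑ j, m j * g j k := by
        simp only [Matrix.vecMul, dotProduct, sub_mul, add_mul, sum_sub_distrib, sum_add_distrib]
        rw [mul_sum]
        congr 1
        exact sum_congr rfl fun _ _ => by ring
      have e : ∀ (A : ι → ι ⊕ ι → ℤ) (c : ι → ℤ), ∑ j, (∑ i, A i j * c i) * g j k =
          ∑ i, c i * ∑ j, A i j * g j k := by
        intro A c
        simp only [sum_mul, mul_sum]
        rw [sum_comm]
        exact sum_congr rfl fun i _ => sum_congr rfl fun j _ => by ring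
      have e1 : ∑ j, pz E (fun i => A i j) u * g j k =
          ∑ i, (∑ k', u k' * E i k') * (Sum.elim (h i) (fun _ => 0) : ι ⊕ ι → ℤ) k := by
        unfold pz
        rw [e]
        exact sum_congr rfl fun i _ => by rw [hA i k]
      have e2 : ∑ j, pz E (fun i => B i j) v * g j k =
          ∑ i, (∑ k', v k' * E i k') * (Sum.elim (fun _ => 0) (h i) : ι ⊕ ι → ℤ) k := by
        unfold pz
        rw [e]
        exact sum_congr rfl fun i _ => by rw [hB i k]
      rw [e0, e1, e2, ← hm k]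
      rcases k with k | k
      · simp only [Sum.elim_inl, mul_zero, sum_const_zero, add_zero]
        rw [hp1 u k]
        simp
      · simp only [Sum.elim_inr, mul_zero, sum_const_zero, zero_add]
        rw [hp1 v k]
        simp
    have := Matrix.eq_zero_of_vecMul_eq_zero hgdet key
    intro j
    have h7 := congrFun this j
    simp only [Pi.zero_apply] at h7
    linarith
  refine ⟨fun j => Sum.elim (fun i => B i j) (fun i => A i j), ?_, ?_, ?_⟩
  · intro j
    obtain ⟨i0, hi0⟩ : ∃ i, a i ≠ 0 := by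
      by_contra hcon
      push Not at hcon
      exact ha (funext hcon)
    obtain ⟨t, ht⟩ := ZMod.intCast_surjective (1 / a i0)
    obtain ⟨t', ht'⟩ := ZMod.intCast_surjective (l / a i0)
    have hu : lin a (Pi.single i0 t') = l := by
      rw [lin_single, ht']
      field_simp
    have hv : lin a (Pi.single i0 t) = 1 := by
      rw [lin_single, ht]
      field_simp
    have hmem : lin (cl a l) (Sum.elim (Pi.single i0 t') (Pi.single i0 t)) = 0 := by
      rw [lin_cl]
      simp only [Sum.elim_inl, Sum.elim_inr]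
      have e1 : (lin a fun i => (Pi.single i0 t' : ι → ℤ) i) = l := hu
      have e2 : (lin a fun i => (Pi.single i0 t : ι → ℤ) i) = 1 := hv
      rw [e1, e2]
      ring
    obtain ⟨m, hm⟩ := hG.gen _ hmem
    have h8 := hsum _ _ m hm j
    have h9 := congrArg (fun z : ℤ => (z : ZMod p)) h8
    simp only [Int.cast_add, Int.cast_mul, Int.cast_natCast, CharP.cast_eq_zero, zero_mul] at h9
    rw [pz_cast ha', pz_cast ha', hu, hv] at h9
    rw [lin_cl]
    simp only [Sum.elim_inl, Sum.elim_inr]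
    linear_combination h9
  · have hnorm1 : ∀ i, wn (N2 N) (rv (Sum.elim (h i) (fun _ => 0))) = wn N (rv (h i)) := by
      intro i
      have h1 := wn_sum_elim N N (rv (Sum.elim (h i) (fun _ : ι => (0:ℤ))))
      have h2 : wn N (fun i_1 => rv (Sum.elim (h i) (fun _ : ι => (0:ℤ))) (Sum.inr i_1)) = 0 := by
        have : (fun i_1 => rv (Sum.elim (h i) (fun _ : ι => (0:ℤ))) (Sum.inr i_1)) =
            fun _ : ι => (0 : ℝ) := by
          ext x; simp [rv]
        rw [this, wn_zero']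
      rw [h2] at h1
      have h3 : (fun i_1 => rv (Sum.elim (h i) (fun _ : ι => (0:ℤ))) (Sum.inl i_1)) = rv (h i) := by
        ext x; simp [rv]
      rw [h3] at h1
      have h4 : wn (N2 N) (rv (Sum.elim (h i) (fun _ => 0))) ^ 2 = wn N (rv (h i)) ^ 2 := by
        rw [N2, h1]; ring
      exact (pow_left_inj₀ (wn_nonneg _ _) (wn_nonneg _ _) (by norm_num)).mp h4
    have hnorm2 : ∀ i, wn (N2 N) (rv (Sum.elim (fun _ => 0) (h i))) = wn N (rv (h i)) := by
      intro i
      have h1 := wn_sum_elim N N (rv (Sum.elim (fun _ : ι => (0:ℤ)) (h i)))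
      have h2 : wn N (fun i_1 => rv (Sum.elim (fun _ : ι => (0:ℤ)) (h i)) (Sum.inl i_1)) = 0 := by
        have : (fun i_1 => rv (Sum.elim (fun _ : ι => (0:ℤ)) (h i)) (Sum.inl i_1)) =
            fun _ : ι => (0 : ℝ) := by
          ext x; simp [rv]
        rw [this, wn_zero']
      rw [h2] at h1
      have h3 : (fun i_1 => rv (Sum.elim (fun _ : ι => (0:ℤ)) (h i)) (Sum.inr i_1)) = rv (h i) := by
        ext x; simp [rv]
      rw [h3] at h1
      have h4 : wn (N2 N) (rv (Sum.elim (fun _ => 0) (h i))) ^ 2 = wn N (rv (h i)) ^ 2 := by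
        rw [N2, h1]; ring
      exact (pow_left_inj₀ (wn_nonneg _ _) (wn_nonneg _ _) (by norm_num)).mp h4
    have hgen : ∀ (m : ι ⊕ ι → ℤ) (w : ι ⊕ ι → ℤ) (j : ι ⊕ ι), (∀ k, w k = ∑ j, m j * g j k) →
        |(m j : ℝ)| * wn (N2 N) (rv (g j)) ≤ κ₂ * wn (N2 N) (rv w) := by
      intro m w j hm
      have h1 := hG.good (fun j => (m j : ℝ))
      have h2 : (fun i => ∑ j, (m j : ℝ) * (g j i : ℝ)) = rv w := by
        ext i
        simp [rv, hm i]
      rw [h2] at h1
      refine le_trans ?_ h1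
      exact single_le_sum (f := fun j => |(m j : ℝ)| * wn (N2 N) (rv (g j)))
        (fun _ _ => mul_nonneg (abs_nonneg _) (wn_nonneg _ _)) (mem_univ j)
    rintro j (i | i)
    · simp only [Sum.elim_inl]
      rw [← hnorm2 i]
      exact hgen (B i) _ j (hB i)
    · simp only [Sum.elim_inr]
      rw [← hnorm1 i]
      exact hgen (A i) _ j (hA i)
  · intro m hm
    have hprod : (Matrix.of (Sum.elim A B) : Matrix (ι ⊕ ι) (ι ⊕ ι) ℤ) * g =
        Matrix.fromBlocks h 0 0 h := by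
      ext i k
      rcases i with i | i
      · rw [Matrix.mul_apply]
        have := hA i k
        simp only [Matrix.of_apply, Sum.elim_inl]
        rw [← this]
        rcases k with k | k <;> simp
      · rw [Matrix.mul_apply]
        have := hB i k
        simp only [Matrix.of_apply, Sum.elim_inr]
        rw [← this]
        rcases k with k | k <;> simp
    have hdetM : (Matrix.of (Sum.elim A B) : Matrix (ι ⊕ ι) (ι ⊕ ι) ℤ).det ≠ 0 := by
      intro h0
      have h1 := congrArg Matrix.det hprod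
      rw [Matrix.det_mul, h0, zero_mul, Matrix.det_fromBlocks_zero₂₁] at h1
      exact hhdet (by simpa using h1.symm)
    refine Matrix.eq_zero_of_mulVec_eq_zero hdetM ?_
    ext i
    rcases i with i | i
    · have := hm (Sum.inr i)
      simp only [Sum.elim_inr] at this
      simp only [Matrix.mulVec, dotProduct, Matrix.of_apply, Sum.elim_inl, Pi.zero_apply]
      rw [← this]
      exact sum_congr rfl fun _ _ => mul_comm _ _
    · have := hm (Sum.inl i)
      simp only [Sum.elim_inl] at this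
      simp only [Matrix.mulVec, dotProduct, Matrix.of_apply, Sum.elim_inr, Pi.zero_apply]
      rw [← this]
      exact sum_congr rfl fun _ _ => mul_comm _ _

lemma sqrt_le_self_nat (n : ℕ) : Real.sqrt (n : ℝ) ≤ n := by
  rcases Nat.eq_zero_or_pos n with h | h
  · subst h; simp
  · rw [Real.sqrt_le_left (by positivity)]
    have : (1 : ℝ) ≤ n := by exact_mod_cast h
    nlinarith

omit [DecidableEq ι] in
lemma W_norm {κ₂ : ℝ} {g : Matrix (ι ⊕ ι) (ι ⊕ ι) ℤ} (hs : 0 < s) (hκ2 : 0 ≤ κ₂)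
    (hpos : ∀ i, 0 < wn N (rv (h i))) {W : ι ⊕ ι → ι ⊕ ι → ℤ}
    (hW : ∀ j i, |(W j i : ℝ)| * wn (N2 N) (rv (g j)) ≤
        κ₂ * Sum.elim (fun i => wn N (rv (h i))) (fun i => wn N (rv (h i))) i)
    (j : ι ⊕ ι) (hν : 0 < wn (N2 N) (rv (g j))) :
    wn (N2 (fun i => s * wn N (rv (h i)))) (rv (W j)) ≤
      (2 * Fintype.card ι) * κ₂ / (s * wn (N2 N) (rv (g j))) := by
  have hN' : ∀ i, 0 < s * wn N (rv (h i)) := fun i => mul_pos hs (hpos i)
  have h1 := wn_le_sqrt (N2_pos hN') (x := rv (W j))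
    (c := κ₂ / (s * wn (N2 N) (rv (g j)))) (by positivity) (by
      intro i
      rw [div_mul_eq_mul_div, le_div_iff₀ (by positivity)]
      have h2 := hW j i
      have h3 : N2 (fun i => s * wn N (rv (h i))) i =
          s * Sum.elim (fun i => wn N (rv (h i))) (fun i => wn N (rv (h i))) i := by
        rcases i with i | i <;> simp [N2]
      rw [h3]
      have h4 : |rv (W j) i| = |(W j i : ℝ)| := rfl
      rw [h4]
      nlinarith)
  refine h1.trans ?_
  rw [mul_div_assoc]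
  refine mul_le_mul_of_nonneg_right ?_ (by positivity)
  refine (sqrt_le_self_nat _).trans ?_
  rw [Fintype.card_sum]
  push_cast
  linarith

lemma exists_big {κ₂ : ℝ} {l : ZMod p} {g : Matrix (ι ⊕ ι) (ι ⊕ ι) ℤ}
    (hG : IsGB κ₂ (cl a l) (N2 N) g) {T' : ℝ} (hrk : rk (cl a l) (N2 N) T' < 2 * Fintype.card ι) :
    ∃ j, T' < wn (N2 N) (rv (g j)) := by
  have hp0 : p ≠ 0 := (Fact.out : p.Prime).ne_zero
  by_contra hcon
  push Not at hcon
  have hdet : (g.map (Int.cast : ℤ → ℝ)).det ≠ 0 := by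
    rw [show g.map (Int.cast : ℤ → ℝ) = (Int.castRingHom ℝ).mapMatrix g from rfl,
      ← RingHom.map_det]
    intro h0
    have h1 : g.det = 0 := by
      have h2 : ((g.det : ℤ) : ℝ) = 0 := h0
      exact_mod_cast h2
    have := hG.det
    rw [h1] at this
    exact hp0 (by simpa using this.symm)
  have hli := Matrix.linearIndependent_rows_of_det_ne_zero hdet
  have h3 := le_rk (cl a l) (N2 N) T' (fun j => g j) (fun j => ⟨hG.mem j, hcon j⟩) hli
  rw [Fintype.card_sum] at h3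
  omega

lemma g_pos {κ₂ : ℝ} {l : ZMod p} {g : Matrix (ι ⊕ ι) (ι ⊕ ι) ℤ} (hN : ∀ i, 0 < N i)
    (hG : IsGB κ₂ (cl a l) (N2 N) g) (j : ι ⊕ ι) : 0 < wn (N2 N) (rv (g j)) := by
  refine wn_pos (N2_pos hN) (rv_ne_zero ?_)
  intro h0
  have : g.det = 0 := Matrix.det_eq_zero_of_row_eq_zero j (fun k => congrFun h0 k)
  have h1 := hG.det
  rw [this] at h1
  exact (Fact.out : p.Prime).ne_zero (by simpa using h1.symm)

/-- counting with independent (not necessarily good) vectors -/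
lemma count_lower {α : Type} [Fintype α] [DecidableEq α] {q : ℕ} (c : α → ZMod q) (M : α → ℝ)
    (hM : ∀ i, 0 < M i) (W : α → α → ℤ) (hW : ∀ j, lin c (W j) = 0)
    (hinj : ∀ m : α → ℤ, (∀ i, ∑ j, m j * W j i = 0) → m = 0) (t : α → ℝ) (ht : ∀ j, 0 ≤ t j)
    (hsum : ∑ j, t j * wn M (rv (W j)) ≤ 1) :
    ∏ j, max 1 (t j) ≤ cnt c M 1 := by
  have h1 : ∏ j, max 1 (t j) ≤ (((Fintype.piFinset fun j => Finset.Icc (-⌊t j⌋) ⌊t j⌋).card : ℕ)
      : ℝ) := by
    rw [Fintype.card_piFinset, Nat.cast_prod]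
    refine prod_le_prod (fun _ _ => by positivity) fun j _ => ?_
    have h2 : 0 ≤ ⌊t j⌋ := Int.floor_nonneg.mpr (ht j)
    rw [Int.card_Icc]
    have h3 : (((⌊t j⌋ + 1 - -⌊t j⌋).toNat : ℕ) : ℝ) = 2 * (⌊t j⌋ : ℝ) + 1 := by
      have h4 : (((⌊t j⌋ + 1 - -⌊t j⌋).toNat : ℕ) : ℤ) = 2 * ⌊t j⌋ + 1 := by
        rw [Int.toNat_of_nonneg (by omega)]
        ring
      exact_mod_cast h4
    rw [h3]
    have h5 : (0 : ℝ) ≤ (⌊t j⌋ : ℝ) := by exact_mod_cast h2
    have h6 := Int.lt_floor_add_one (t j)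
    exact max_le (by linarith) (by linarith)
  refine h1.trans ?_
  unfold cnt
  have h7 : (fun m : α → ℤ => (fun i => ∑ j, m j * W j i)) ''
      ((Fintype.piFinset fun j => Finset.Icc (-⌊t j⌋) ⌊t j⌋ : Finset (α → ℤ)) : Set (α → ℤ)) ⊆
      ball c M 1 := by
    rintro _ ⟨m, hm, rfl⟩
    rw [Finset.mem_coe, Fintype.mem_piFinset] at hm
    refine ⟨?_, ?_⟩
    · rw [lin_comb]
      exact sum_eq_zero fun j _ => by rw [hW j, mul_zero]
    · have h8 : rv (fun i => ∑ j, m j * W j i) = fun i => ∑ j, (m j : ℝ) * rv (W j) i := by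
        ext i
        simp [rv]
      rw [h8]
      refine (wn_comb_le M (fun j => (m j : ℝ)) (fun j => rv (W j))).trans ?_
      refine le_trans (sum_le_sum fun j _ => ?_) hsum
      refine mul_le_mul_of_nonneg_right ?_ (wn_nonneg _ _)
      have h9 := Finset.mem_Icc.mp (hm j)
      have h10 := Int.floor_le (t j)
      rw [abs_le]
      have h11 : ((-⌊t j⌋ : ℤ) : ℝ) ≤ (m j : ℝ) := by exact_mod_cast h9.1
      have h12 : (m j : ℝ) ≤ ((⌊t j⌋ : ℤ) : ℝ) := by exact_mod_cast h9.2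
      push_cast at h11
      constructor <;> linarith
  have h13 : Function.Injective (fun m : α → ℤ => (fun i => ∑ j, m j * W j i)) := by
    intro m m' hmm
    have h14 := hinj (m - m') (by
      intro i
      have := congrFun hmm i
      simp only at this
      simp only [Pi.sub_apply, sub_mul, sum_sub_distrib]
      linarith)
    exact sub_eq_zero.mp h14
  have h15 := Set.ncard_le_ncard h7 (ball_finite c hM 1)
  rw [Set.ncard_image_of_injective _ h13, Set.ncard_coe_finset] at h15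
  exact_mod_cast h15

end

theorem specDual (hL : SpecLat) (hC : SpecCnt) : SpecDual := by
  intro d
  obtain ⟨κ₁, hκ₁, H1⟩ := hL d
  obtain ⟨κ₂, hκ₂, H2⟩ := hL (2 * d)
  obtain ⟨C, hC1, H3⟩ := hC (2 * d) κ₂ hκ₂
  set c₀ : ℝ := 2 * d * κ₂ with hc₀
  have hc0 : 0 ≤ c₀ := by positivity
  set A : ℝ := 2 * d * c₀ + 1 with hA
  have hA1 : 1 ≤ A := by rw [hA]; nlinarith [Nat.cast_nonneg (α := ℝ) d]
  refine ⟨κ₁ * (2 * d + 1) + c₀ + C * A ^ (2 * d), ?_, ?_⟩
  · have h1 : 0 ≤ C * A ^ (2 * d) := by positivity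
    have h2 : κ₁ * 1 ≤ κ₁ * (2 * d + 1) :=
      mul_le_mul_of_nonneg_left (by linarith [Nat.cast_nonneg (α := ℝ) d]) (by linarith)
    linarith
  intro ι _ _ hcard p _ a N T s ha hS hs hs1 hsT
  set κ : ℝ := κ₁ * (2 * d + 1) + c₀ + C * A ^ (2 * d) with hκ
  have hCA : 0 ≤ C * A ^ (2 * d) := by positivity
  have hκA : C * A ^ (2 * d) ≤ κ := by
    have : 0 ≤ κ₁ * (2 * d + 1) := by positivity
    linarith
  have hκc : c₀ ≤ κ := by
    have : 0 ≤ κ₁ * (2 * d + 1) := by positivity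
    linarith
  have hκκ : κ₁ ≤ κ := by
    have h2 : κ₁ * 1 ≤ κ₁ * (2 * d + 1) :=
      mul_le_mul_of_nonneg_left (by linarith [Nat.cast_nonneg (α := ℝ) d]) (by linarith)
    linarith
  have hκ0 : 0 < κ := by linarith
  have hp : (0 : ℝ) < p := by exact_mod_cast (Fact.out : p.Prime).pos
  have hN : ∀ i, 0 < N i := Sys.pos hS
  obtain ⟨h, hh⟩ := H1 ι hcard p a ha N hN
  obtain ⟨E, hE1, hE2⟩ := exists_E h hh.det
  obtain ⟨a', ha'⟩ := exists_a' ha hh hE1
  have hT0 : 0 < T := by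
    by_contra hcon
    push Not at hcon
    nlinarith
  have hpos : ∀ i, 0 < wn N (rv (h i)) := fun i => hT0.trans (row_big hS hh i)
  have hN' : ∀ i, 0 < s * wn N (rv (h i)) := fun i => mul_pos hs (hpos i)
  have hcr : (Fintype.card ι : ℝ) = d := by rw [hcard]
  have hd0 : (0 : ℝ) ≤ d := Nat.cast_nonneg d
  have hκa : (Fintype.card ι : ℝ) * κ₁ < κ := by rw [hcr, hκ]; nlinarith
  have hκb : 2 * ((Fintype.card ι : ℝ) * κ₁) < κ := by rw [hcr, hκ]; nlinarith
  refine ⟨a', fun i => s * wn N (rv (h i)), ?_,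
    sys_dual hs hsT hS hh hE1 hE2 ha' (by linarith) hκa, ?_, ?_⟩
  · intro h0
    apply ha
    ext k
    have h1 : ∀ j i, (p : ℤ) ∣ E j i := by
      intro j i
      rw [← ZMod.intCast_zmod_eq_zero_iff_dvd, ha' j i, h0]
      simp
    choose E' hE' using h1
    have h2 : Pi.single k 1 = ∑ j, (E' j k) • h j := by
      ext i
      have h3 := hE2 k i
      have h4 : (p : ℤ) * (∑ j, E' j k * h j i) = if k = i then (p : ℤ) else 0 := by
        rw [← h3, mul_sum]
        exact sum_congr rfl fun j _ => by rw [hE' j k]; ring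
      have hp' : (p : ℤ) ≠ 0 := by exact_mod_cast (Fact.out : p.Prime).ne_zero
      rw [Finset.sum_apply]
      simp only [Pi.smul_apply, smul_eq_mul]
      by_cases hki : k = i
      · subst hki
        rw [if_pos rfl] at h4
        rw [Pi.single_eq_same]
        exact (mul_left_cancel₀ hp' (by rw [h4, mul_one])).symm
      · rw [if_neg hki] at h4
        rw [Pi.single_eq_of_ne (Ne.symm hki)]
        exact ((mul_eq_zero.mp h4).resolve_left hp').symm
    have h5 := lin_single a k 1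
    rw [h2, lin_sum] at h5
    have h6 : ∑ j, lin a (E' j k • h j) = 0 := by
      refine sum_eq_zero fun j _ => ?_
      rw [lin_smul]
      have := hh.mem j
      rw [this, mul_zero]
    rw [h6] at h5
    simpa using h5.symm
  · rw [prod_mul_distrib, prod_const, card_univ, hcard]
    have h1 := hh.hi
    have h2 : s ^ d ≤ 1 := pow_le_one₀ hs.le hs1
    have h3 : 0 ≤ ∏ i, wn N (rv (h i)) := prod_nonneg fun i _ => (hpos i).le
    have h4 : 0 ≤ (p : ℝ) / ∏ i, N i := div_nonneg hp.le (prod_nonneg fun i _ => (hN i).le)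
    calc s ^ d * ∏ i, wn N (rv (h i)) ≤ 1 * ∏ i, wn N (rv (h i)) :=
          mul_le_mul_of_nonneg_right h2 h3
      _ ≤ κ₁ * ((p : ℝ) / ∏ i, N i) := by rw [one_mul]; exact h1
      _ ≤ κ * ((p : ℝ) / ∏ i, N i) := mul_le_mul_of_nonneg_right hκκ h4
  intro l _
  obtain ⟨g, hg⟩ := H2 (ι ⊕ ι) (by rw [Fintype.card_sum, hcard]; ring) p (cl a l)
    (cl_ne_zero l ha) (N2 N) (N2_pos hN)
  obtain ⟨W, hW1, hW2, hW3⟩ := exists_W ha hh hg hE2 ha'
  have hν := g_pos hN hg
  have hWn := fun j => W_norm hs (by linarith : (0 : ℝ) ≤ κ₂) hpos hW2 j (hν j)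
  rw [hcr] at hWn
  refine ⟨?_, ?_, ?_⟩
  · have := rk_add_rk hs hh hE1 hE2 ha' (by linarith) hpos hκb l
    rwa [hcard] at this
  · intro T' hT' hrk
    rw [← hcard] at hrk
    obtain ⟨j, hj⟩ := exists_big hg hrk
    refine ⟨W j, ⟨hW1 j, (hWn j).trans ?_⟩, ?_⟩
    · refine div_le_div₀ hκ0.le hκc (by positivity) ?_
      exact mul_le_mul_of_nonneg_left hj.le hs.le
    · intro h0
      have h1 := hW3 (Pi.single j 1) (by
        intro i
        simp [Pi.single_apply, h0])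
      have h2 := congrFun h1 j
      simp at h2
  · have hcnt := (H3 (ι ⊕ ι) (by rw [Fintype.card_sum, hcard]; ring) p (cl a l) (N2 N) g
      (N2_pos hN) hg 1 zero_le_one).2.1
    have hlow := count_lower (cl a' (-l)) (N2 fun i => s * wn N (rv (h i))) (N2_pos hN') W hW1 hW3
      (fun j => s * wn (N2 N) (rv (g j)) / A)
      (fun j => div_nonneg (mul_pos hs (hν j)).le (by linarith)) (by
        have h1 : ∀ j ∈ (univ : Finset (ι ⊕ ι)), s * wn (N2 N) (rv (g j)) / A *
            wn (N2 fun i => s * wn N (rv (h i))) (rv (W j)) ≤ c₀ / A := by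
          intro j _
          refine (mul_le_mul_of_nonneg_left (hWn j)
            (div_nonneg (mul_pos hs (hν j)).le (by linarith))).trans (le_of_eq ?_)
          have := (hν j).ne'
          have := hs.ne'
          rw [hc₀]
          field_simp
        refine (sum_le_sum h1).trans ?_
        rw [sum_const, card_univ, Fintype.card_sum, hcard, nsmul_eq_mul, ← mul_div_assoc,
          div_le_one (by linarith)]
        rw [hA]
        push_cast
        linarith)
    have hmax : ∀ j ∈ (univ : Finset (ι ⊕ ι)), (s / A) * max 1 (wn (N2 N) (rv (g j))) ≤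
        max 1 (s * wn (N2 N) (rv (g j)) / A) := by
      intro j _
      have h1 : s / A ≤ 1 := by
        rw [div_le_one (by linarith)]
        linarith
      have h2 : 0 ≤ s / A := by positivity
      rcases le_total 1 (wn (N2 N) (rv (g j))) with h3 | h3
      · rw [max_eq_right h3]
        exact le_max_of_le_right (le_of_eq (by ring))
      · rw [max_eq_left h3, mul_one]
        exact le_max_of_le_left h1
    have hprod := prod_le_prod (fun j _ => by positivity) hmax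
    rw [prod_mul_distrib, prod_const, card_univ, Fintype.card_sum, hcard, ← two_mul] at hprod
    have hlow2 := hprod.trans hlow
    have hlo := hg.lo
    rw [N2_prod] at hlo
    have hNpos : 0 < ∏ i, N i := prod_pos fun i _ => hN i
    have hνpos : 0 < ∏ j, wn (N2 N) (rv (g j)) := prod_pos fun j _ => hν j
    have hmx : ∏ j, max 1 (1 / wn (N2 N) (rv (g j))) =
        (∏ j, max 1 (wn (N2 N) (rv (g j)))) / ∏ j, wn (N2 N) (rv (g j)) := by
      rw [← prod_div_distrib]
      refine prod_congr rfl fun j _ => ?_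
      have h1 := hν j
      rcases le_total 1 (wn (N2 N) (rv (g j))) with h3 | h3
      · rw [max_eq_right h3, div_self h1.ne', max_eq_left]
        rw [div_le_one h1]
        exact h3
      · rw [max_eq_left h3, max_eq_right]
        rw [le_div_iff₀ h1]
        linarith
    rw [hmx] at hcnt
    set P : ℝ := ∏ j, max 1 (wn (N2 N) (rv (g j))) with hP
    have hP0 : 0 ≤ P := prod_nonneg fun j _ => by positivity
    set cs : ℝ := cnt (cl a' (-l)) (N2 fun i => s * wn N (rv (h i))) 1 with hcs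
    have hP1 : P ≤ (A / s) ^ (2 * d) * cs := by
      have h1 : (A / s) ^ (2 * d) * ((s / A) ^ (2 * d) * P) = P := by
        rw [← mul_assoc, ← mul_pow]
        have : A / s * (s / A) = 1 := by
          have := hs.ne'
          have : A ≠ 0 := by linarith
          field_simp
        rw [this, one_pow, one_mul]
      rw [← h1]
      exact mul_le_mul_of_nonneg_left hlow2 (by positivity)
    have hinv : 1 / ∏ j, wn (N2 N) (rv (g j)) ≤ (∏ i, N i) ^ 2 / p := by
      rw [div_le_div_iff₀ hνpos hp]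
      rw [div_le_iff₀ (by positivity)] at hlo
      linarith
    have hcs0 : 0 ≤ cs := by
      rw [hcs]
      unfold cnt
      positivity
    calc cnt (cl a l) (N2 N) 1 ≤ C * (P / ∏ j, wn (N2 N) (rv (g j))) := hcnt
      _ = C * (P * (1 / ∏ j, wn (N2 N) (rv (g j)))) := by ring
      _ ≤ C * (((A / s) ^ (2 * d) * cs) * ((∏ i, N i) ^ 2 / p)) := by
          refine mul_le_mul_of_nonneg_left ?_ (by linarith)
          exact mul_le_mul hP1 hinv (by positivity) (by positivity)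
      _ = (C * A ^ (2 * d)) * ((∏ i, N i) ^ 2 / p) * (1 / s) ^ (2 * d) * cs := by
          rw [div_pow, div_pow, one_pow]; ring
      _ ≤ κ * ((∏ i, N i) ^ 2 / p) * (1 / s) ^ (2 * d) * cs := by
          gcongr

end MPcb27.Dual

theorem MPcb27.specDual (hL : MPcb27.SpecLat) (hC : MPcb27.SpecCnt) : MPcb27.SpecDual :=
  MPcb27.Dual.specDual hL hC
end

section
/-!
# MP_cb27ba_nt, project BD, module EN2 (helper42): the count needed in the Burgess argument
-/
set_option autoImplicit false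

namespace MPcb27.En2

open Finset MPcb27 MPcb27.Basic

variable {p : ℕ}

/-- sum over the nonzero `l` of the square of the number of pairs of ratio `l` -/
noncomputable def SQ [Fact p.Prime] {α : Type} (X : Finset α) (G : α → ZMod p) : ℝ :=
  ∑ l ∈ (univ : Finset (ZMod p)).filter (fun l => l ≠ 0),
    ((#((X ×ˢ X).filter (fun q => G q.1 = l * G q.2)) : ℕ) : ℝ) ^ 2

lemma count_le_sqrt [Fact p.Prime] {α β : Type} [DecidableEq α] [DecidableEq β] (X : Finset α)
    (Y : Finset β) (G : α → ZMod p) (K : β → ZMod p) (hX : ∀ x ∈ X, G x ≠ 0) :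
    ((#(((X ×ˢ Y) ×ˢ (X ×ˢ Y)).filter
      (fun q => G q.1.1 * K q.2.2 = G q.2.1 * K q.1.2)) : ℕ) : ℝ) ≤
      Real.sqrt (SQ X G) * Real.sqrt (SQ Y K) := by
  set F := ((X ×ˢ Y) ×ˢ (X ×ˢ Y)).filter (fun q => G q.1.1 * K q.2.2 = G q.2.1 * K q.1.2) with hF
  have h1 : #F = ∑ l ∈ (univ : Finset (ZMod p)).filter (fun l => l ≠ 0),
      #(F.filter (fun q => G q.1.1 / G q.2.1 = l)) := by
    refine card_eq_sum_card_fiberwise (fun q hq => ?_)
    have hq' := hq
    rw [hF, mem_coe, mem_filter, mem_product, mem_product, mem_product] at hq'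
    simp only [coe_filter, mem_univ, true_and, Set.mem_ofPred_eq]
    exact div_ne_zero (hX _ hq'.1.1.1) (hX _ hq'.1.2.1)
  have h2 : ∀ l ∈ (univ : Finset (ZMod p)).filter (fun l => l ≠ 0),
      #(F.filter (fun q => G q.1.1 / G q.2.1 = l)) ≤
        #((X ×ˢ X).filter (fun q => G q.1 = l * G q.2)) *
          #((Y ×ˢ Y).filter (fun q => K q.1 = l * K q.2)) := by
    intro l _
    rw [← card_product]
    refine card_le_card_of_injOn (fun q => ((q.1.1, q.2.1), (q.1.2, q.2.2))) ?_ ?_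
    · intro q hq
      rw [mem_coe, mem_filter, hF, mem_filter, mem_product, mem_product, mem_product] at hq
      obtain ⟨⟨⟨⟨hx, hy⟩, hx', hy'⟩, heq⟩, hl⟩ := hq
      have hG' := hX _ hx'
      have e1 : G q.1.1 = l * G q.2.1 := by
        rw [← hl]
        field_simp
      rw [mem_coe, mem_product, mem_filter, mem_filter, mem_product, mem_product]
      refine ⟨⟨⟨hx, hx'⟩, e1⟩, ⟨hy, hy'⟩, ?_⟩
      have e2 : G q.2.1 * K q.1.2 = G q.2.1 * (l * K q.2.2) := by
        rw [← heq, e1]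
        ring
      exact mul_left_cancel₀ hG' e2
    · intro q _ q' _ h
      simp only [Prod.mk.injEq] at h
      obtain ⟨⟨a1, a2⟩, a3, a4⟩ := h
      exact Prod.ext (Prod.ext a1 a3) (Prod.ext a2 a4)
  have h3 : ((#F : ℕ) : ℝ) ≤ ∑ l ∈ (univ : Finset (ZMod p)).filter (fun l => l ≠ 0),
      ((#((X ×ˢ X).filter (fun q => G q.1 = l * G q.2)) : ℕ) : ℝ) *
        ((#((Y ×ˢ Y).filter (fun q => K q.1 = l * K q.2)) : ℕ) : ℝ) := by
    rw [h1]
    push_cast
    refine sum_le_sum fun l hl => ?_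
    exact_mod_cast h2 l hl
  exact h3.trans (Real.sum_mul_le_sqrt_mul_sqrt _ _ _)

lemma sq_le_esum [Fact p.Prime] {α κ : Type} [DecidableEq α] [Fintype κ] [DecidableEq κ]
    (a : κ → ZMod p) (N : κ → ℝ) (hN : ∀ i, 0 < N i) (X : Finset α) (G : α → ZMod p)
    (f : α → κ → ℤ) (hf : ∀ x ∈ X, ∀ y ∈ X, f x = f y → x = y) (hG : ∀ x ∈ X, lin a (f x) = G x)
    (hG0 : ∀ x ∈ X, G x ≠ 0)
    (hn : ∀ x ∈ X, ∀ i, (2 * (Fintype.card κ : ℝ) + 1) * |(f x i : ℝ)| ≤ N i) :
    SQ X G ≤ esum a N (fun _ => True) := by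
  classical
  have hball : ∀ l : ZMod p, ∀ q ∈ (X ×ˢ X).filter (fun q => G q.1 = l * G q.2),
      (Sum.elim (f q.1) (f q.2) : κ ⊕ κ → ℤ) ∈ ball (cl a l) (N2 N) 1 := by
    intro l q hq
    rw [mem_filter, mem_product] at hq
    obtain ⟨⟨h1, h2⟩, h3⟩ := hq
    refine ⟨?_, ?_⟩
    · rw [lin_cl]
      simp only [Sum.elim_inl, Sum.elim_inr]
      have e1 : (lin a fun i => f q.1 i) = G q.1 := hG _ h1
      have e2 : (lin a fun i => f q.2 i) = G q.2 := hG _ h2
      rw [e1, e2, h3, sub_self]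
    · refine wn_le_sqrt_one (N2_pos hN) ?_
      have hsq : Real.sqrt (Fintype.card (κ ⊕ κ)) ≤ 2 * (Fintype.card κ : ℝ) + 1 := by
        rw [Fintype.card_sum, Real.sqrt_le_left (by positivity)]
        push_cast
        nlinarith [Nat.cast_nonneg (α := ℝ) (Fintype.card κ)]
      rintro (i | i)
      · refine le_trans (mul_le_mul_of_nonneg_right hsq (abs_nonneg _)) ?_
        simpa [rv, N2] using hn _ h1 i
      · refine le_trans (mul_le_mul_of_nonneg_right hsq (abs_nonneg _)) ?_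
        simpa [rv, N2] using hn _ h2 i
  have hle : ∀ l : ZMod p, ((#((X ×ˢ X).filter (fun q => G q.1 = l * G q.2)) : ℕ) : ℝ) ≤
      cnt (cl a l) (N2 N) 1 := by
    intro l
    unfold cnt
    have h1 : ((fun q : α × α => (Sum.elim (f q.1) (f q.2) : κ ⊕ κ → ℤ)) ''
        ((X ×ˢ X).filter (fun q => G q.1 = l * G q.2) : Finset (α × α))) ⊆
        ball (cl a l) (N2 N) 1 := by
      rintro _ ⟨q, hq, rfl⟩
      exact hball l q (mem_coe.mp hq)
    have h2 := Set.ncard_le_ncard h1 (ball_finite _ (N2_pos hN) 1)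
    rw [Set.InjOn.ncard_image ?_, Set.ncard_coe_finset] at h2
    · exact_mod_cast h2
    · intro q hq q' hq' hqq
      rw [mem_coe, mem_filter, mem_product] at hq hq'
      simp only at hqq
      have e1 : f q.1 = f q'.1 := by
        ext i
        exact congrFun hqq (Sum.inl i)
      have e2 : f q.2 = f q'.2 := by
        ext i
        exact congrFun hqq (Sum.inr i)
      exact Prod.ext (hf _ hq.1.1 _ hq'.1.1 e1) (hf _ hq.1.2 _ hq'.1.2 e2)
  have hes : esum a N (fun _ => True) = ∑ l ∈ (univ : Finset (ZMod p)).filter (fun l => l ≠ 0),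
      if 1 < cnt (cl a l) (N2 N) 1 then (cnt (cl a l) (N2 N) 1) ^ 2 else 0 := by
    unfold esum
    rw [← sum_filter, filter_filter]
    refine sum_congr ?_ fun _ _ => rfl
    ext l
    simp
  rw [hes]
  unfold SQ
  refine sum_le_sum fun l _ => ?_
  by_cases hne : ((X ×ˢ X).filter (fun q => G q.1 = l * G q.2)).Nonempty
  · obtain ⟨q, hq⟩ := hne
    have h1 : 1 < cnt (cl a l) (N2 N) 1 := by
      rw [one_lt_cnt_iff _ (N2_pos hN) zero_le_one]
      refine ⟨_, hball l q hq, ?_⟩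
      intro h0
      rw [mem_filter, mem_product] at hq
      apply hG0 _ hq.1.1
      rw [← hG _ hq.1.1]
      have : f q.1 = 0 := by
        ext i
        exact congrFun h0 (Sum.inl i)
      rw [this, lin_zero]
    rw [if_pos h1]
    exact pow_le_pow_left₀ (by positivity) (hle l) 2
  · rw [not_nonempty_iff_eq_empty] at hne
    rw [hne]
    simp only [card_empty, Nat.cast_zero, ne_eq, OfNat.ofNat_ne_zero, not_false_eq_true, zero_pow]
    split_ifs
    · positivity
    · exact le_rfl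

lemma linN_eq {ι : Type} [Fintype ι] (b : ι → ZMod p) (n : ι → ℕ) :
    linN b n = lin b (fun i => (n i : ℤ)) := by
  simp [linN, lin]

lemma big (K e : ℝ) (he : 0 < e) : ∃ P : ℕ, ∀ p : ℕ, P ≤ p → K ≤ (p : ℝ) ^ e := by
  have h := (tendsto_rpow_atTop he).comp (tendsto_natCast_atTop_atTop (R := ℝ))
  have h2 := h.eventually_ge_atTop K
  rw [Filter.eventually_atTop] at h2
  exact h2

/-- all the numerical requirements -/
structure Num (d : ℕ) (ε η δ η' c q : ℝ) : Prop where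
  q1 : 1 ≤ q
  hc : c = 2 * ((d : ℝ) + 1) + 1
  a1 : 2 * c ^ 2 * q ^ η' * q ^ η' ≤ q ^ η
  a2 : (2 * c ^ 2 * q ^ η') ^ (d + 1) * q ^ (1 / 2 - δ) ≤ q ^ (1 / 2 - δ / 2)
  a3 : 2 ^ d + q ^ (ε / 4) * (2 * c ^ 2 * q ^ η') ^ (d + 1) * c ^ d ≤ q ^ ε
  a4 : c * q ^ η' < q
  hη' : 0 < η'
  hη : 0 < η

lemma exists_num (d : ℕ) (ε η δ : ℝ) (hε : 0 < ε) (hη : 0 < η) (hδ : 0 < δ) :
    ∃ η' : ℝ, 0 < η' ∧ ∃ P : ℕ, ∀ p : ℕ, P ≤ p → Num d ε η δ η' (2 * ((d : ℝ) + 1) + 1) p := by
  have hd : (0 : ℝ) < (d : ℝ) + 1 := by positivity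
  set η' : ℝ := min (1 / 4) (min (η / 4) (min (δ / (8 * (d + 1))) (ε / (32 * (d + 1))))) with hη'
  have h0 : 0 < η' := by
    rw [hη']
    refine lt_min (by norm_num) (lt_min (by positivity) (lt_min (by positivity) (by positivity)))
  have e1 : η' ≤ 1 / 4 := min_le_left _ _
  have e2 : η' ≤ η / 4 := (min_le_right _ _).trans (min_le_left _ _)
  have e3 : η' ≤ δ / (8 * (d + 1)) :=
    (min_le_right _ _).trans ((min_le_right _ _).trans (min_le_left _ _))
  have e4 : η' ≤ ε / (32 * (d + 1)) :=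
    (min_le_right _ _).trans ((min_le_right _ _).trans (min_le_right _ _))
  have e3' : ((d : ℝ) + 1) * η' ≤ δ / 8 := by
    rw [le_div_iff₀ (by positivity)] at e3
    rw [le_div_iff₀ (by positivity)]
    linarith
  have e4' : ((d : ℝ) + 1) * η' ≤ ε / 32 := by
    rw [le_div_iff₀ (by positivity)] at e4
    rw [le_div_iff₀ (by positivity)]
    linarith
  set c : ℝ := 2 * ((d : ℝ) + 1) + 1 with hc
  have hc0 : 0 < c := by positivity
  obtain ⟨P3, h3⟩ := big (2 * c ^ 2) (η / 2) (by positivity)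
  obtain ⟨P4, h4⟩ := big ((2 * c ^ 2) ^ (d + 1)) (3 * δ / 8) (by positivity)
  obtain ⟨P5, h5⟩ := big (2 ^ d + (2 * c ^ 2) ^ (d + 1) * c ^ d) (ε / 2) (by positivity)
  obtain ⟨P6, h6⟩ := big (c + 1) (3 / 4) (by norm_num)
  refine ⟨η', h0, max (max P3 P4) (max (max P5 P6) 1), fun p hp => ?_⟩
  simp only [max_le_iff] at hp
  obtain ⟨⟨hp3, hp4⟩, ⟨hp5, hp6⟩, hp1⟩ := hp
  specialize h3 p hp3
  specialize h4 p hp4
  specialize h5 p hp5
  specialize h6 p hp6
  have hq1 : (1 : ℝ) ≤ p := by exact_mod_cast hp1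
  have hq0 : (0 : ℝ) < p := by linarith
  have hpow : ((p : ℝ) ^ η') ^ (d + 1) = (p : ℝ) ^ (((d : ℝ) + 1) * η') := by
    rw [← Real.rpow_natCast, ← Real.rpow_mul hq0.le]
    congr 1
    push_cast
    ring
  refine ⟨hq1, rfl, ?_, ?_, ?_, ?_, h0, hη⟩
  · have h7 : (p : ℝ) ^ η' * (p : ℝ) ^ η' ≤ (p : ℝ) ^ (η / 2) := by
      rw [← Real.rpow_add hq0]
      exact Real.rpow_le_rpow_of_exponent_le hq1 (by linarith)
    calc 2 * c ^ 2 * (p : ℝ) ^ η' * (p : ℝ) ^ η' = (2 * c ^ 2) * ((p : ℝ) ^ η' * (p : ℝ) ^ η') := by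
          ring
      _ ≤ (p : ℝ) ^ (η / 2) * (p : ℝ) ^ (η / 2) := mul_le_mul h3 h7 (by positivity) (by positivity)
      _ = (p : ℝ) ^ η := by rw [← Real.rpow_add hq0]; congr 1; ring
  · rw [mul_pow, hpow]
    have h7 : (p : ℝ) ^ (((d : ℝ) + 1) * η') ≤ (p : ℝ) ^ (δ / 8) :=
      Real.rpow_le_rpow_of_exponent_le hq1 e3'
    calc (2 * c ^ 2) ^ (d + 1) * (p : ℝ) ^ (((d : ℝ) + 1) * η') * (p : ℝ) ^ (1 / 2 - δ)
        ≤ (p : ℝ) ^ (3 * δ / 8) * (p : ℝ) ^ (δ / 8) * (p : ℝ) ^ (1 / 2 - δ) := by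
          gcongr
      _ = (p : ℝ) ^ (1 / 2 - δ / 2) := by
          rw [← Real.rpow_add hq0, ← Real.rpow_add hq0]
          congr 1
          ring
  · rw [mul_pow, hpow]
    have h7 : (p : ℝ) ^ (((d : ℝ) + 1) * η') ≤ (p : ℝ) ^ (ε / 4) :=
      Real.rpow_le_rpow_of_exponent_le hq1 (by linarith)
    have h8 : (1 : ℝ) ≤ (p : ℝ) ^ (ε / 2) := Real.one_le_rpow hq1 (by positivity)
    have h9 : (p : ℝ) ^ (ε / 4) * (p : ℝ) ^ (ε / 4) = (p : ℝ) ^ (ε / 2) := by
      rw [← Real.rpow_add hq0]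
      congr 1
      ring
    calc 2 ^ d + (p : ℝ) ^ (ε / 4) * ((2 * c ^ 2) ^ (d + 1) * (p : ℝ) ^ (((d : ℝ) + 1) * η')) * c ^ d
        ≤ 2 ^ d * (p : ℝ) ^ (ε / 2) +
          (p : ℝ) ^ (ε / 4) * ((2 * c ^ 2) ^ (d + 1) * (p : ℝ) ^ (ε / 4)) * c ^ d := by
          refine add_le_add ?_ ?_
          · exact le_mul_of_one_le_right (by positivity) h8
          · gcongr
      _ = (2 ^ d + (2 * c ^ 2) ^ (d + 1) * c ^ d) * (p : ℝ) ^ (ε / 2) := by
          rw [← h9]; ring
      _ ≤ (p : ℝ) ^ (ε / 2) * (p : ℝ) ^ (ε / 2) := by gcongr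
      _ = (p : ℝ) ^ ε := by rw [← Real.rpow_add hq0]; congr 1; ring
  · have h7 : (p : ℝ) ^ η' ≤ (p : ℝ) ^ (1 / 4 : ℝ) := Real.rpow_le_rpow_of_exponent_le hq1 e1
    have h8 : (p : ℝ) ^ (3 / 4 : ℝ) * (p : ℝ) ^ (1 / 4 : ℝ) = p := by
      rw [← Real.rpow_add hq0]
      norm_num
    have h9 : 0 < (p : ℝ) ^ (1 / 4 : ℝ) := Real.rpow_pos_of_pos hq0 _
    calc c * (p : ℝ) ^ η' ≤ c * (p : ℝ) ^ (1 / 4 : ℝ) := by gcongr
      _ < (p : ℝ) ^ (3 / 4 : ℝ) * (p : ℝ) ^ (1 / 4 : ℝ) := by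
          refine mul_lt_mul_of_pos_right ?_ h9
          linarith
      _ = p := h8

section

variable [Fact p.Prime] {ι : Type} [Fintype ι] [DecidableEq ι]

lemma mem_bx {H n : ι → ℕ} : n ∈ bx H ↔ ∀ i, n i < H i := by
  simp [bx]

/-- the system for the small box -/
lemma Y_bound {d : ℕ} {ε η δ η' c : ℝ}
    (hq : Num d ε η δ η' c p) (P : ℕ)
    (hP : ∀ (p : ℕ) [Fact p.Prime], P ≤ p →
      ∀ (ι : Type) [Fintype ι] [DecidableEq ι], Fintype.card ι = d →
      ∀ (a : ι → ZMod p) (N : ι → ℝ), Sys a N ((p : ℝ) ^ η') →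
        ∏ i, N i ≤ (p : ℝ) ^ (1 / 2 - δ / 2) →
        esum a N (fun _ => True) ≤ (p : ℝ) ^ (ε / 4) * (∏ i, N i) ^ 2) (hPp : P ≤ p)
    (hcard : Fintype.card ι = d) (b : ι → ZMod p) (H H' : ι → ℕ) (hH : ∀ i, 1 ≤ H i)
    (hH' : ∀ i, H' i ≤ H i) (hprop : Proper b H ((p : ℝ) ^ η))
    (hvol : ∏ i, (H i : ℝ) ≤ (p : ℝ) ^ (1 / 2 - δ)) :
    SQ ((bx (fun i => H' i + 1)).filter (fun m => m ≠ 0)) (linN b) ≤
      (p : ℝ) ^ (ε / 4) * (c ^ d * ∏ i, ((H' i : ℝ) + 1)) ^ 2 := by
  obtain ⟨hq1, hc, ha1, ha2, -, -, hη', hη⟩ := hq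
  have hc1 : 1 ≤ c := by rw [hc]; linarith [Nat.cast_nonneg (α := ℝ) d]
  have hq0 : (0 : ℝ) < p := by linarith
  have hqη : 1 ≤ (p : ℝ) ^ η' := Real.one_le_rpow hq1 hη'.le
  have hcr : (Fintype.card ι : ℝ) = d := by rw [hcard]
  set N : ι → ℝ := fun i => c * max 1 (H' i : ℝ) with hN
  have hN1 : ∀ i, 1 ≤ N i := by
    intro i
    have h1 : (1 : ℝ) ≤ max 1 (H' i : ℝ) := le_max_left _ _
    rw [hN]
    nlinarith
  have hN0 : ∀ i, 0 < N i := fun i => by linarith [hN1 i]
  have hmH : ∀ i, max 1 (H' i : ℝ) ≤ H i := fun i =>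
    max_le (by exact_mod_cast hH i) (by exact_mod_cast hH' i)
  have hsys : Sys b N ((p : ℝ) ^ η') := by
    refine ⟨hN1, fun x hx hl => ?_⟩
    by_contra hcon
    push Not at hcon
    refine hprop x hx (fun i => ?_) hl
    have h1 := abs_le_wn hN0 (rv x) i
    have h2 : |(x i : ℝ)| ≤ N i * (p : ℝ) ^ η' :=
      h1.trans (mul_le_mul_of_nonneg_left hcon (hN0 i).le)
    refine h2.trans ?_
    have h3 : N i ≤ (2 * c ^ 2 * (p : ℝ) ^ η') * H i := by
      have h4 : c ≤ 2 * c ^ 2 * (p : ℝ) ^ η' := by nlinarith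
      exact mul_le_mul h4 (hmH i) (by positivity) (by positivity)
    calc N i * (p : ℝ) ^ η' ≤ (2 * c ^ 2 * (p : ℝ) ^ η') * H i * (p : ℝ) ^ η' := by gcongr
      _ = (2 * c ^ 2 * (p : ℝ) ^ η' * (p : ℝ) ^ η') * H i := by ring
      _ ≤ (p : ℝ) ^ η * H i := by gcongr
  have hprodN : ∏ i, N i ≤ c ^ d * ∏ i, (H i : ℝ) := by
    rw [hN, prod_mul_distrib, prod_const, card_univ, hcard]
    refine mul_le_mul_of_nonneg_left ?_ (by positivity)
    exact prod_le_prod (fun i _ => by positivity) fun i _ => hmH i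
  have hvolN : ∏ i, N i ≤ (p : ℝ) ^ (1 / 2 - δ / 2) := by
    refine hprodN.trans (le_trans ?_ ha2)
    have h4 : c ≤ 2 * c ^ 2 * (p : ℝ) ^ η' := by nlinarith
    have h5 : c ^ d ≤ (2 * c ^ 2 * (p : ℝ) ^ η') ^ (d + 1) := by
      calc c ^ d ≤ c ^ (d + 1) := pow_le_pow_right₀ hc1 (Nat.le_succ d)
        _ ≤ _ := pow_le_pow_left₀ (by linarith) h4 _
    exact mul_le_mul h5 hvol (by positivity) (by positivity)
  have hes := hP p hPp ι hcard b N hsys hvolN
  have hsq := sq_le_esum b N hN0 ((bx (fun i => H' i + 1)).filter (fun m => m ≠ 0)) (linN b)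
    (fun m i => (m i : ℤ)) (by
      intro x _ y _ hxy
      ext i
      exact_mod_cast congrFun hxy i) (by
      intro x _
      rw [linN_eq]) (by
      intro x hx
      rw [mem_filter, mem_bx] at hx
      rw [linN_eq]
      refine hprop _ ?_ fun i => ?_
      · intro h0
        apply hx.2
        ext i
        simpa using congrFun h0 i
      · have h1 := hx.1 i
        have h2 : (x i : ℝ) ≤ H i := by exact_mod_cast (Nat.lt_succ_iff.mp h1).trans (hH' i)
        have h3 : |(((x i : ℕ) : ℤ) : ℝ)| = x i := by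
          push_cast
          exact abs_of_nonneg (by positivity)
        rw [h3]
        refine h2.trans (le_mul_of_one_le_left (by positivity) ?_)
        exact Real.one_le_rpow hq1 hη.le) (by
      intro x hx i
      rw [mem_filter, mem_bx] at hx
      have h1 := hx.1 i
      have h2 : (x i : ℝ) ≤ H' i := by exact_mod_cast (Nat.lt_succ_iff.mp h1)
      have h3 : |(((x i : ℕ) : ℤ) : ℝ)| = x i := by
        push_cast
        exact abs_of_nonneg (by positivity)
      rw [h3, hcr]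
      have h4 : 2 * (d : ℝ) + 1 ≤ c := by rw [hc]; linarith
      exact mul_le_mul h4 (h2.trans (le_max_right _ _)) (by positivity) (by linarith))
  refine (hsq.trans hes).trans ?_
  refine mul_le_mul_of_nonneg_left ?_ (by positivity)
  refine pow_le_pow_left₀ (prod_nonneg fun i _ => (hN0 i).le) ?_ 2
  rw [hN, prod_mul_distrib, prod_const, card_univ, hcard]
  refine mul_le_mul_of_nonneg_left ?_ (by positivity)
  refine prod_le_prod (fun i _ => by positivity) fun i _ => ?_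
  exact max_le (by linarith [Nat.cast_nonneg (α := ℝ) (H' i)]) (by linarith)

/-- the system for the shifted box, first case -/
lemma X_bound1 {d : ℕ} {ε η δ η' c : ℝ}
    (hq : Num d ε η δ η' c p) (P : ℕ)
    (hP : ∀ (p : ℕ) [Fact p.Prime], P ≤ p →
      ∀ (ι : Type) [Fintype ι] [DecidableEq ι], Fintype.card ι = d + 1 →
      ∀ (a : ι → ZMod p) (N : ι → ℝ), Sys a N ((p : ℝ) ^ η') →
        ∏ i, N i ≤ (p : ℝ) ^ (1 / 2 - δ / 2) →
        esum a N (fun _ => True) ≤ (p : ℝ) ^ (ε / 4) * (∏ i, N i) ^ 2) (hPp : P ≤ p)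
    (hcard : Fintype.card ι = d) (b : ι → ZMod p) (H : ι → ℕ)
    (hvol : ∏ i, (H i : ℝ) ≤ (p : ℝ) ^ (1 / 2 - δ)) (z : ZMod p)
    (hsys : Sys (fun o : Option ι => o.elim z b) (fun o => o.elim c (fun i => c * (H i : ℝ)))
      ((p : ℝ) ^ η')) :
    SQ ((bx H).filter (fun n => z + linN b n ≠ 0)) (fun n => z + linN b n) ≤
      (p : ℝ) ^ (ε / 4) * ((2 * c ^ 2 * (p : ℝ) ^ η') ^ (d + 1) * ∏ i, (H i : ℝ)) ^ 2 := by
  obtain ⟨hq1, hc, ha1, ha2, -, -, hη', hη⟩ := hq
  have hc1 : 1 ≤ c := by rw [hc]; linarith [Nat.cast_nonneg (α := ℝ) d]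
  have hq0 : (0 : ℝ) < p := by linarith
  have hqη : 1 ≤ (p : ℝ) ^ η' := Real.one_le_rpow hq1 hη'.le
  have hcr : (Fintype.card ι : ℝ) = d := by rw [hcard]
  have hcard' : Fintype.card (Option ι) = d + 1 := by rw [Fintype.card_option, hcard]
  have h4 : c ≤ 2 * c ^ 2 * (p : ℝ) ^ η' := by nlinarith
  have hN0 : ∀ o : Option ι, 0 < (o.elim c (fun i => c * (H i : ℝ)) : ℝ) := fun o =>
    Sys.pos hsys o
  have hprod : ∏ o : Option ι, (o.elim c (fun i => c * (H i : ℝ)) : ℝ) ≤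
      (2 * c ^ 2 * (p : ℝ) ^ η') ^ (d + 1) * ∏ i, (H i : ℝ) := by
    rw [Fintype.prod_option]
    simp only [Option.elim_none, Option.elim_some]
    rw [prod_mul_distrib, prod_const, card_univ, hcard, ← mul_assoc, ← pow_succ']
    exact mul_le_mul_of_nonneg_right (pow_le_pow_left₀ (by linarith) h4 _) (by positivity)
  have hvolN : ∏ o : Option ι, (o.elim c (fun i => c * (H i : ℝ)) : ℝ) ≤
      (p : ℝ) ^ (1 / 2 - δ / 2) := by
    refine hprod.trans (le_trans ?_ ha2)
    exact mul_le_mul_of_nonneg_left hvol (by positivity)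
  have hes := hP p hPp (Option ι) hcard' _ _ hsys hvolN
  have hsq := sq_le_esum (fun o : Option ι => o.elim z b)
    (fun o => o.elim c (fun i => c * (H i : ℝ))) hN0
    ((bx H).filter (fun n => z + linN b n ≠ 0)) (fun n => z + linN b n)
    (fun n o => o.elim 1 (fun i => (n i : ℤ))) (by
      intro x _ y _ hxy
      ext i
      have := congrFun hxy (some i)
      simp only [Option.elim_some] at this
      exact_mod_cast this) (by
      intro x _
      unfold lin linN
      rw [Fintype.sum_option]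
      simp) (by
      intro x hx
      rw [mem_filter] at hx
      exact hx.2) (by
      intro x hx o
      rw [mem_filter, mem_bx] at hx
      have h5 : 2 * ((Fintype.card (Option ι) : ℕ) : ℝ) + 1 = c := by
        rw [hcard', hc]
        push_cast
        ring
      rw [h5]
      rcases o with _ | i
      · simp
      · simp only [Option.elim_some]
        have h1 := hx.1 i
        have h2 : (x i : ℝ) ≤ H i := by exact_mod_cast h1.le
        have h3 : |(((x i : ℕ) : ℤ) : ℝ)| = x i := by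
          push_cast
          exact abs_of_nonneg (by positivity)
        rw [h3]
        exact mul_le_mul_of_nonneg_left h2 (by linarith))
  refine (hsq.trans hes).trans ?_
  refine mul_le_mul_of_nonneg_left ?_ (by positivity)
  exact pow_le_pow_left₀ (prod_nonneg fun o _ => (hN0 o).le) hprod 2

/-- the system for the shifted box, second case -/
lemma X_bound2 {d : ℕ} {ε η δ η' c : ℝ}
    (hq : Num d ε η δ η' c p) (P : ℕ)
    (hP : ∀ (p : ℕ) [Fact p.Prime], P ≤ p →
      ∀ (ι : Type) [Fintype ι] [DecidableEq ι], Fintype.card ι = d →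
      ∀ (a : ι → ZMod p) (N : ι → ℝ), Sys a N ((p : ℝ) ^ η') →
        ∏ i, N i ≤ (p : ℝ) ^ (1 / 2 - δ / 2) →
        esum a N (fun _ => True) ≤ (p : ℝ) ^ (ε / 4) * (∏ i, N i) ^ 2) (hPp : P ≤ p)
    (hcard : Fintype.card ι = d) (b : ι → ZMod p) (H : ι → ℕ) (hH : ∀ i, 1 ≤ H i)
    (hprop : Proper b H ((p : ℝ) ^ η))
    (hvol : ∏ i, (H i : ℝ) ≤ (p : ℝ) ^ (1 / 2 - δ)) (z : ZMod p)
    (hsys : ¬ Sys (fun o : Option ι => o.elim z b) (fun o => o.elim c (fun i => c * (H i : ℝ)))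
      ((p : ℝ) ^ η')) :
    SQ ((bx H).filter (fun n => z + linN b n ≠ 0)) (fun n => z + linN b n) ≤
      (p : ℝ) ^ (ε / 4) * ((2 * c ^ 2 * (p : ℝ) ^ η') ^ (d + 1) * ∏ i, (H i : ℝ)) ^ 2 := by
  obtain ⟨hq1, hc, ha1, ha2, -, ha4, hη', hη⟩ := hq
  have hc1 : 1 ≤ c := by rw [hc]; linarith [Nat.cast_nonneg (α := ℝ) d]
  have hq0 : (0 : ℝ) < p := by linarith
  have hqη : 1 ≤ (p : ℝ) ^ η' := Real.one_le_rpow hq1 hη'.le
  have hcr : (Fintype.card ι : ℝ) = d := by rw [hcard]
  have hHr : ∀ i, (1 : ℝ) ≤ H i := fun i => by exact_mod_cast hH i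
  have h4 : c ≤ 2 * c ^ 2 * (p : ℝ) ^ η' := by nlinarith
  have hB1 : 1 ≤ 2 * c ^ 2 * (p : ℝ) ^ η' := hc1.trans h4
  have hN1 : ∀ o : Option ι, 1 ≤ (o.elim c (fun i => c * (H i : ℝ)) : ℝ) := by
    intro o
    rcases o with _ | i
    · simpa using hc1
    · simp only [Option.elim_some]
      nlinarith [hHr i]
  have hN0 : ∀ o : Option ι, 0 < (o.elim c (fun i => c * (H i : ℝ)) : ℝ) := fun o => by
    linarith [hN1 o]
  obtain ⟨x, hx0, hxl, hxn⟩ : ∃ x : Option ι → ℤ, x ≠ 0 ∧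
      lin (fun o : Option ι => o.elim z b) x = 0 ∧
      wn (fun o => o.elim c (fun i => c * (H i : ℝ))) (rv x) ≤ (p : ℝ) ^ η' := by
    by_contra hcon
    push Not at hcon
    exact hsys ⟨hN1, fun x h1 h2 => hcon x h1 h2⟩
  set m : ℤ := x none with hm
  set y : ι → ℤ := fun i => x (some i) with hy
  have hmz : (m : ZMod p) * z + lin b y = 0 := by
    rw [← hxl]
    unfold lin
    rw [Fintype.sum_option]
    simp [hm, hy]
  have hmb : |(m : ℝ)| ≤ c * (p : ℝ) ^ η' := by
    have h1 := abs_le_wn hN0 (rv x) none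
    exact h1.trans (mul_le_mul_of_nonneg_left hxn (hN0 none).le)
  have hyb : ∀ i, |(y i : ℝ)| ≤ c * (H i : ℝ) * (p : ℝ) ^ η' := by
    intro i
    have h1 := abs_le_wn hN0 (rv x) (some i)
    exact h1.trans (mul_le_mul_of_nonneg_left hxn (hN0 (some i)).le)
  have hm0 : m ≠ 0 := by
    intro h0
    have hy0 : y ≠ 0 := by
      intro h1
      apply hx0
      ext o
      rcases o with _ | i
      · exact h0
      · exact congrFun h1 i
    refine hprop y hy0 (fun i => ?_) ?_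
    · refine (hyb i).trans ?_
      calc c * (H i : ℝ) * (p : ℝ) ^ η' ≤ (2 * c ^ 2 * (p : ℝ) ^ η') * (H i : ℝ) * (p : ℝ) ^ η' := by
            gcongr
        _ = (2 * c ^ 2 * (p : ℝ) ^ η' * (p : ℝ) ^ η') * H i := by ring
        _ ≤ (p : ℝ) ^ η * H i := by gcongr
    · rw [h0] at hmz
      simpa using hmz
  have hmp : (m : ZMod p) ≠ 0 := by
    intro h0
    rw [ZMod.intCast_zmod_eq_zero_iff_dvd] at h0
    apply hm0
    refine Int.eq_zero_of_abs_lt_dvd h0 ?_
    have : ((|m| : ℤ) : ℝ) < ((p : ℤ) : ℝ) := by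
      push_cast
      exact lt_of_le_of_lt hmb ha4
    exact_mod_cast this
  set b' : ι → ZMod p := fun i => b i / (m : ZMod p) with hb'
  have hlb' : ∀ w : ι → ℤ, lin b' w = lin b w / (m : ZMod p) := by
    intro w
    unfold lin
    rw [sum_div]
    exact sum_congr rfl fun i _ => by rw [hb']; ring
  set N : ι → ℝ := fun i => (2 * c ^ 2 * (p : ℝ) ^ η') * (H i : ℝ) with hN
  have hN1' : ∀ i, 1 ≤ N i := by
    intro i
    rw [hN]
    nlinarith [hHr i]
  have hN0' : ∀ i, 0 < N i := fun i => by linarith [hN1' i]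
  have hsys' : Sys b' N ((p : ℝ) ^ η') := by
    refine ⟨hN1', fun w hw hl => ?_⟩
    by_contra hcon
    push Not at hcon
    refine hprop w hw (fun i => ?_) ?_
    · have h1 := abs_le_wn hN0' (rv w) i
      have h2 : |(w i : ℝ)| ≤ N i * (p : ℝ) ^ η' :=
        h1.trans (mul_le_mul_of_nonneg_left hcon (hN0' i).le)
      refine h2.trans ?_
      calc N i * (p : ℝ) ^ η' = (2 * c ^ 2 * (p : ℝ) ^ η' * (p : ℝ) ^ η') * H i := by
            rw [hN]; ring
        _ ≤ (p : ℝ) ^ η * H i := by gcongr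
    · rw [hlb', div_eq_zero_iff] at hl
      exact hl.resolve_right hmp
  have hprod : ∏ i, N i ≤ (2 * c ^ 2 * (p : ℝ) ^ η') ^ (d + 1) * ∏ i, (H i : ℝ) := by
    rw [hN, prod_mul_distrib, prod_const, card_univ, hcard]
    exact mul_le_mul_of_nonneg_right (pow_le_pow_right₀ hB1 (Nat.le_succ d)) (by positivity)
  have hvolN : ∏ i, N i ≤ (p : ℝ) ^ (1 / 2 - δ / 2) := by
    refine hprod.trans (le_trans ?_ ha2)
    exact mul_le_mul_of_nonneg_left hvol (by positivity)
  have hes := hP p hPp ι hcard b' N hsys' hvolN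
  have hsq := sq_le_esum b' N hN0'
    ((bx H).filter (fun n => z + linN b n ≠ 0)) (fun n => z + linN b n)
    (fun n i => m * (n i : ℤ) - y i) (by
      intro n _ n' _ hnn
      ext i
      have := congrFun hnn i
      simp only [sub_left_inj] at this
      exact_mod_cast mul_left_cancel₀ hm0 this) (by
      intro n _
      rw [hlb', linN_eq]
      have h5 : (fun i => m * (n i : ℤ) - y i) = m • (fun i => (n i : ℤ)) - y := by
        ext i
        simp
      rw [h5, lin_sub, lin_smul]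
      have h6 : lin b y = -((m : ZMod p) * z) := by linear_combination hmz
      rw [h6]
      field_simp
      ring) (by
      intro n hn
      rw [mem_filter] at hn
      exact hn.2) (by
      intro n hn i
      rw [mem_filter, mem_bx] at hn
      have h1 := hn.1 i
      have h2 : (n i : ℝ) ≤ H i := by exact_mod_cast h1.le
      have h5 : |((m * (n i : ℤ) - y i : ℤ) : ℝ)| ≤ 2 * c * (p : ℝ) ^ η' * H i := by
        push_cast
        refine (abs_sub _ _).trans ?_
        rw [abs_mul]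
        have h6 : |(n i : ℝ)| ≤ H i := by
          rw [abs_of_nonneg (by positivity)]
          exact h2
        have h7 : |(m : ℝ)| * |(n i : ℝ)| ≤ c * (p : ℝ) ^ η' * H i :=
          mul_le_mul hmb h6 (abs_nonneg _) (by positivity)
        have h8 := hyb i
        linarith
      have h9 : 2 * ((Fintype.card ι : ℕ) : ℝ) + 1 ≤ c := by
        rw [hcard, hc]
        linarith
      calc (2 * ((Fintype.card ι : ℕ) : ℝ) + 1) * |((m * (n i : ℤ) - y i : ℤ) : ℝ)|
          ≤ c * (2 * c * (p : ℝ) ^ η' * H i) := mul_le_mul h9 h5 (abs_nonneg _) (by linarith)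
        _ = N i := by rw [hN]; ring)
  refine (hsq.trans hes).trans ?_
  refine mul_le_mul_of_nonneg_left ?_ (by positivity)
  exact pow_le_pow_left₀ (prod_nonneg fun o _ => (hN0' o).le) hprod 2

end

theorem specEn2 (hE : SpecEnergy) : SpecEn2 := by
  intro d ε η δ hε hη hδ
  obtain ⟨η', hη', P0, hnum⟩ := exists_num d ε η δ hε hη hδ
  obtain ⟨P1, hP1⟩ := hE d (ε / 4) η' (δ / 2) (by positivity) hη' (by positivity)
  obtain ⟨P2, hP2⟩ := hE (d + 1) (ε / 4) η' (δ / 2) (by positivity) hη' (by positivity)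
  refine ⟨max P0 (max P1 P2), ?_⟩
  intro p _ hp ι _ _ hcard b H H' hH hH' hprop hvol z
  simp only [max_le_iff] at hp
  obtain ⟨hp0, hp1, hp2⟩ := hp
  have hq := hnum p hp0
  set c : ℝ := 2 * ((d : ℝ) + 1) + 1 with hc
  have hY := Y_bound hq P1 hP1 hp1 hcard b H H' hH hH' hprop hvol
  have hX : SQ ((bx H).filter (fun n => z + linN b n ≠ 0)) (fun n => z + linN b n) ≤
      (p : ℝ) ^ (ε / 4) * ((2 * c ^ 2 * (p : ℝ) ^ η') ^ (d + 1) * ∏ i, (H i : ℝ)) ^ 2 := by
    by_cases hsys : Sys (fun o : Option ι => o.elim z b)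
        (fun o => o.elim c (fun i => c * (H i : ℝ))) ((p : ℝ) ^ η')
    · exact X_bound1 hq P2 hP2 hp2 hcard b H hvol z hsys
    · exact X_bound2 hq P1 hP1 hp1 hcard b H hH hprop hvol z hsys
  obtain ⟨hq1, -, ha1, ha2, ha3, ha4, -, -⟩ := hq
  have hc1 : 1 ≤ c := by rw [hc]; linarith [Nat.cast_nonneg (α := ℝ) d]
  have hq0 : (0 : ℝ) < p := by linarith
  have hqη : 1 ≤ (p : ℝ) ^ η := Real.one_le_rpow hq1 hη.le
  set X := (bx H).filter (fun n => z + linN b n ≠ 0) with hXd
  set Y := (bx (fun i => H' i + 1)).filter (fun m => m ≠ 0) with hYd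
  set V := ∏ i, (H i : ℝ) with hV
  set V' := ∏ i, ((H' i : ℝ) + 1) with hV'
  have hV0 : 0 ≤ V := by positivity
  have hV'0 : 0 ≤ V' := by positivity
  have hK : ∀ m ∈ bx (fun i => H' i + 1), m ≠ 0 → linN b m ≠ 0 := by
    intro m hm hm0
    rw [mem_bx] at hm
    rw [linN_eq]
    refine hprop _ ?_ fun i => ?_
    · intro h0
      apply hm0
      ext i
      simpa using congrFun h0 i
    · have h1 := hm i
      have h2 : (m i : ℝ) ≤ H i := by exact_mod_cast (Nat.lt_succ_iff.mp h1).trans (hH' i)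
      have h3 : |(((m i : ℕ) : ℤ) : ℝ)| = m i := by
        push_cast
        exact abs_of_nonneg (by positivity)
      rw [h3]
      exact h2.trans (le_mul_of_one_le_left (by positivity) hqη)
  have huniq : ∀ n ∈ bx H, ∀ n' ∈ bx H, z + linN b n = 0 → z + linN b n' = 0 → n = n' := by
    intro n hn n' hn' h1 h2
    rw [mem_bx] at hn hn'
    by_contra hne
    refine hprop ((fun i => (n i : ℤ)) - (fun i => (n' i : ℤ))) ?_ (fun i => ?_) ?_
    · intro h0
      apply hne
      ext i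
      have := congrFun h0 i
      simp only [Pi.sub_apply, Pi.zero_apply] at this
      omega
    · have e1 := hn i
      have e2 := hn' i
      have e3 : |(((fun i => (n i : ℤ)) - (fun i => (n' i : ℤ)) : ι → ℤ) i : ℝ)| ≤ H i := by
        have e4 : |((fun i => (n i : ℤ)) - (fun i => (n' i : ℤ)) : ι → ℤ) i| ≤ (H i : ℤ) := by
          simp only [Pi.sub_apply]
          rw [abs_le]
          constructor <;> omega
        exact_mod_cast e4
      exact e3.trans (le_mul_of_one_le_left (by positivity) hqη)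
    · rw [lin_sub, ← linN_eq, ← linN_eq]
      linear_combination h1 - h2
  set F := ((bx H ×ˢ bx (fun i => H' i + 1)) ×ˢ (bx H ×ˢ bx (fun i => H' i + 1))).filter
        (fun q => q.1.2 ≠ 0 ∧ q.2.2 ≠ 0 ∧
          (z + linN b q.1.1) * linN b q.2.2 = (z + linN b q.2.1) * linN b q.1.2) with hF
  have hsplit : #F ≤ #(F.filter (fun q => z + linN b q.1.1 = 0)) +
      #(((X ×ˢ Y) ×ˢ (X ×ˢ Y)).filter
        (fun q => (z + linN b q.1.1) * linN b q.2.2 = (z + linN b q.2.1) * linN b q.1.2)) := by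
    rw [← card_filter_add_card_filter_not (s := F) (fun q => z + linN b q.1.1 = 0)]
    refine Nat.add_le_add_left (card_le_card ?_) _
    intro q hq
    rw [mem_filter, hF, mem_filter, mem_product, mem_product, mem_product] at hq
    obtain ⟨⟨⟨⟨h1, h2⟩, h3, h4⟩, h5, h6, h7⟩, h8⟩ := hq
    rw [mem_filter, mem_product, mem_product, mem_product, hXd, hYd, mem_filter, mem_filter,
      mem_filter, mem_filter]
    refine ⟨⟨⟨⟨h1, h8⟩, h2, h5⟩, ⟨h3, ?_⟩, h4, h6⟩, h7⟩
    intro h9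
    rw [h9, zero_mul] at h7
    rcases mul_eq_zero.mp h7 with h10 | h10
    · exact h8 h10
    · exact hK _ h4 h6 h10
  have hF0 : #(F.filter (fun q => z + linN b q.1.1 = 0)) ≤
      #(bx (fun i => H' i + 1)) * #(bx (fun i => H' i + 1)) := by
    rw [← card_product]
    refine card_le_card_of_injOn (fun q => (q.1.2, q.2.2)) ?_ ?_
    · intro q hq
      rw [mem_coe, mem_filter, hF, mem_filter, mem_product, mem_product, mem_product] at hq
      rw [mem_coe, mem_product]
      exact ⟨hq.1.1.1.2, hq.1.1.2.2⟩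
    · intro q hq q' hq' hqq
      rw [mem_coe, mem_filter, hF, mem_filter, mem_product, mem_product, mem_product] at hq hq'
      simp only [Prod.mk.injEq] at hqq
      have key : ∀ q : ((ι → ℕ) × (ι → ℕ)) × ((ι → ℕ) × (ι → ℕ)),
          (((q.1.1 ∈ bx H ∧ q.1.2 ∈ bx (fun i => H' i + 1)) ∧ q.2.1 ∈ bx H ∧
            q.2.2 ∈ bx (fun i => H' i + 1)) ∧ q.1.2 ≠ 0 ∧ q.2.2 ≠ 0 ∧
            (z + linN b q.1.1) * linN b q.2.2 = (z + linN b q.2.1) * linN b q.1.2) ∧
            z + linN b q.1.1 = 0 → z + linN b q.2.1 = 0 := by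
        intro q hq
        have h7 := hq.1.2.2.2
        rw [hq.2, zero_mul] at h7
        exact (mul_eq_zero.mp h7.symm).resolve_right (hK _ hq.1.1.1.2 hq.1.2.1)
      refine Prod.ext (Prod.ext ?_ hqq.1) (Prod.ext ?_ hqq.2)
      · exact huniq _ hq.1.1.1.1 _ hq'.1.1.1.1 hq.2 hq'.2
      · exact huniq _ hq.1.1.2.1 _ hq'.1.1.2.1 (key q hq) (key q' hq')
  have hcardb : ((#(bx (fun i => H' i + 1)) : ℕ) : ℝ) = V' := by
    unfold bx
    rw [Fintype.card_piFinset, hV']
    push_cast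
    simp
  have hV'V : V' ≤ 2 ^ d * V := by
    rw [hV', hV, ← hcard, ← card_univ, ← prod_const, ← prod_mul_distrib]
    refine prod_le_prod (fun i _ => by positivity) fun i _ => ?_
    have e1 : (H' i : ℝ) ≤ H i := by exact_mod_cast hH' i
    have e2 : (1 : ℝ) ≤ H i := by exact_mod_cast hH i
    linarith
  have hmain := count_le_sqrt X Y (fun n => z + linN b n) (linN b) (fun n hn => by
    rw [hXd, mem_filter] at hn
    exact hn.2)
  have hs1 : Real.sqrt (SQ X (fun n => z + linN b n)) ≤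
      Real.sqrt ((p : ℝ) ^ (ε / 4)) * ((2 * c ^ 2 * (p : ℝ) ^ η') ^ (d + 1) * V) := by
    refine (Real.sqrt_le_sqrt hX).trans (le_of_eq ?_)
    rw [Real.sqrt_mul (by positivity), Real.sqrt_sq (by positivity)]
  have hs2 : Real.sqrt (SQ Y (linN b)) ≤
      Real.sqrt ((p : ℝ) ^ (ε / 4)) * (c ^ d * V') := by
    refine (Real.sqrt_le_sqrt hY).trans (le_of_eq ?_)
    rw [Real.sqrt_mul (by positivity), Real.sqrt_sq (by positivity)]
  have hsplit' : ((#F : ℕ) : ℝ) ≤ V' * V' + Real.sqrt (SQ X (fun n => z + linN b n)) *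
      Real.sqrt (SQ Y (linN b)) := by
    have e1 : ((#F : ℕ) : ℝ) ≤ ((#(F.filter (fun q => z + linN b q.1.1 = 0)) : ℕ) : ℝ) +
      ((#(((X ×ˢ Y) ×ˢ (X ×ˢ Y)).filter
        (fun q => (z + linN b q.1.1) * linN b q.2.2 = (z + linN b q.2.1) * linN b q.1.2)) : ℕ) : ℝ) := by
      exact_mod_cast hsplit
    have e2 : ((#(F.filter (fun q => z + linN b q.1.1 = 0)) : ℕ) : ℝ) ≤ V' * V' := by
      rw [← hcardb]
      exact_mod_cast hF0
    linarith
  refine hsplit'.trans ?_
  have e3 : Real.sqrt (SQ X (fun n => z + linN b n)) * Real.sqrt (SQ Y (linN b)) ≤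
      (p : ℝ) ^ (ε / 4) * (2 * c ^ 2 * (p : ℝ) ^ η') ^ (d + 1) * c ^ d * (V * V') := by
    refine (mul_le_mul hs1 hs2 (Real.sqrt_nonneg _) (by positivity)).trans (le_of_eq ?_)
    have e4 : Real.sqrt ((p : ℝ) ^ (ε / 4)) * Real.sqrt ((p : ℝ) ^ (ε / 4)) =
        (p : ℝ) ^ (ε / 4) := Real.mul_self_sqrt (by positivity)
    rw [show Real.sqrt ((p : ℝ) ^ (ε / 4)) * ((2 * c ^ 2 * (p : ℝ) ^ η') ^ (d + 1) * V) *
      (Real.sqrt ((p : ℝ) ^ (ε / 4)) * (c ^ d * V')) =
      (Real.sqrt ((p : ℝ) ^ (ε / 4)) * Real.sqrt ((p : ℝ) ^ (ε / 4))) *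
        (2 * c ^ 2 * (p : ℝ) ^ η') ^ (d + 1) * c ^ d * (V * V') from by ring, e4]
  have e5 : V' * V' ≤ 2 ^ d * (V * V') := by
    calc V' * V' ≤ (2 ^ d * V) * V' := mul_le_mul_of_nonneg_right hV'V hV'0
      _ = 2 ^ d * (V * V') := by ring
  calc V' * V' + Real.sqrt (SQ X (fun n => z + linN b n)) * Real.sqrt (SQ Y (linN b))
      ≤ 2 ^ d * (V * V') +
        (p : ℝ) ^ (ε / 4) * (2 * c ^ 2 * (p : ℝ) ^ η') ^ (d + 1) * c ^ d * (V * V') :=
        add_le_add e5 e3
    _ = (2 ^ d + (p : ℝ) ^ (ε / 4) * (2 * c ^ 2 * (p : ℝ) ^ η') ^ (d + 1) * c ^ d) * (V * V') := by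
        ring
    _ ≤ (p : ℝ) ^ ε * (V * V') := mul_le_mul_of_nonneg_right ha3 (by positivity)
    _ = (p : ℝ) ^ ε * V * V' := by ring

end MPcb27.En2

theorem MPcb27.specEn2 (hE : MPcb27.SpecEnergy) : MPcb27.SpecEn2 := MPcb27.En2.specEn2 hE
end

section
/-!
# MP_cb27ba_nt, project BD: module ENP
-/
set_option autoImplicit false

namespace MPcb27

open Finset Basic

namespace EnP

/-- powers of `p` beat constants -/
lemma exists_P (c s : ℝ) (hs : 0 < s) : ∃ P : ℕ, ∀ p : ℕ, P ≤ p → c ≤ (p : ℝ) ^ s := by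
  have h := (tendsto_rpow_atTop hs).comp tendsto_natCast_atTop_atTop
  have h2 := Filter.tendsto_atTop.mp h c
  rw [Filter.eventually_atTop] at h2
  obtain ⟨P, hP⟩ := h2
  exact ⟨P, fun p hp => hP p hp⟩

variable {p : ℕ} [Fact p.Prime]

/-- the nonzero pairs with ratio `l` -/
def RR (Q : Finset (ZMod p)) (l : ZMod p) : Finset (ZMod p × ZMod p) :=
  (Q ×ˢ Q).filter (fun x => x.1 ≠ 0 ∧ x.2 ≠ 0 ∧ x.1 = l * x.2)

/-- the count of the solutions -/
lemma count_le (Q : Finset (ZMod p)) :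
    #((Q ×ˢ Q ×ˢ Q ×ˢ Q).filter (fun x => x.1 * x.2.1 = x.2.2.1 * x.2.2.2)) ≤
      4 * #Q ^ 2 + ∑ l ∈ (univ : Finset (ZMod p)).filter (fun l => l ≠ 0), #(RR Q l) ^ 2 := by
  classical
  set S := (Q ×ˢ Q ×ˢ Q ×ˢ Q).filter (fun x => x.1 * x.2.1 = x.2.2.1 * x.2.2.2) with hS
  have h0 : S = S.filter (fun x => x.1 * x.2.1 = 0) ∪ S.filter (fun x => ¬ x.1 * x.2.1 = 0) :=
    (filter_union_filter_not_eq _ _).symm
  rw [h0]
  refine (card_union_le _ _).trans (add_le_add ?_ ?_)
  · -- a zero factor on each side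
    have hz : #((Q ×ˢ Q).filter (fun x => x.1 * x.2 = 0)) ≤ 2 * #Q := by
      have hsub : (Q ×ˢ Q).filter (fun x => x.1 * x.2 = 0) ⊆
          Q.image (fun x => ((0 : ZMod p), x)) ∪ Q.image (fun x => (x, (0 : ZMod p))) := by
        rintro ⟨x, y⟩ hxy
        simp only [mem_filter, mem_product] at hxy
        rw [mem_union, mem_image, mem_image]
        rcases mul_eq_zero.mp hxy.2 with h | h
        · exact Or.inl ⟨y, hxy.1.2, by rw [h]⟩
        · exact Or.inr ⟨x, hxy.1.1, by rw [h]⟩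
      refine (card_le_card hsub).trans ((card_union_le _ _).trans ?_)
      have h1 := card_image_le (s := Q) (f := fun x => ((0 : ZMod p), x))
      have h2 := card_image_le (s := Q) (f := fun x => (x, (0 : ZMod p)))
      omega
    have h1 : #(S.filter (fun x => x.1 * x.2.1 = 0)) ≤
        #(((Q ×ˢ Q).filter (fun x => x.1 * x.2 = 0)) ×ˢ
          ((Q ×ˢ Q).filter (fun x => x.1 * x.2 = 0))) := by
      refine card_le_card_of_injOn (fun x => ((x.1, x.2.1), (x.2.2.1, x.2.2.2))) ?_ ?_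
      · rintro ⟨x, y, z, w⟩ h
        simp only [hS, coe_filter, mem_filter, mem_product, Set.mem_ofPred_eq] at h
        simp only [coe_product, coe_filter, Set.mem_prod, mem_product, Set.mem_ofPred_eq]
        exact ⟨⟨⟨h.1.1.1, h.1.1.2.1⟩, h.2⟩, ⟨⟨h.1.1.2.2.1, h.1.1.2.2.2⟩, by rw [← h.1.2, h.2]⟩⟩
      · rintro ⟨x, y, z, w⟩ _ ⟨x', y', z', w'⟩ _ h
        simp only [Prod.mk.injEq] at h
        obtain ⟨⟨rfl, rfl⟩, rfl, rfl⟩ := h
        rfl
    refine h1.trans ?_
    rw [card_product]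
    nlinarith
  · have h1 : #(S.filter (fun x => ¬ x.1 * x.2.1 = 0)) ≤
        #(((univ : Finset (ZMod p)).filter (fun l => l ≠ 0)).sigma
          (fun l => RR Q l ×ˢ RR Q l)) := by
      refine card_le_card_of_injOn
        (fun x => ⟨x.1 * x.2.2.1⁻¹, ((x.1, x.2.2.1), (x.2.2.2, x.2.1))⟩) ?_ ?_
      · rintro ⟨x, y, z, w⟩ h
        simp only [hS, coe_filter, mem_filter, mem_product, Set.mem_ofPred_eq] at h
        obtain ⟨⟨⟨hx, hy, hz, hw⟩, he⟩, hne⟩ := h
        have hx0 : x ≠ 0 := fun h0 => hne (by rw [h0, zero_mul])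
        have hy0 : y ≠ 0 := fun h0 => hne (by rw [h0, mul_zero])
        have hne' : ¬ z * w = 0 := by rw [← he]; exact hne
        have hz0 : z ≠ 0 := fun h0 => hne' (by rw [h0, zero_mul])
        have hw0 : w ≠ 0 := fun h0 => hne' (by rw [h0, mul_zero])
        simp only [coe_sigma, Set.mem_sigma_iff, coe_filter, mem_univ, true_and,
          Set.mem_ofPred_eq, coe_product, Set.mem_prod, mem_coe, RR, mem_filter, mem_product]
        refine ⟨mul_ne_zero hx0 (inv_ne_zero hz0), ⟨⟨hx, hz⟩, hx0, hz0, ?_⟩,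
          ⟨⟨hw, hy⟩, hw0, hy0, ?_⟩⟩
        · field_simp
        · field_simp
          rw [mul_comm, ← he]
      · rintro ⟨x, y, z, w⟩ _ ⟨x', y', z', w'⟩ _ h
        simp only [Sigma.mk.injEq, heq_eq_eq, Prod.mk.injEq] at h
        obtain ⟨_, ⟨rfl, rfl⟩, rfl, rfl⟩ := h
        rfl
    refine h1.trans (le_of_eq ?_)
    rw [card_sigma]
    refine sum_congr rfl fun l _ => ?_
    rw [card_product, sq]

variable {ι : Type} [Fintype ι] [DecidableEq ι]

/-- pairs give lattice points -/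
lemma card_RR_lt (b : ι → ZMod p) (N : ι → ℝ) (hN : ∀ i, 0 < N i) (Q : Finset (ZMod p))
    (n : ZMod p → ι → ℤ) (hn : ∀ x ∈ Q, lin b (n x) = x)
    (hw : ∀ x ∈ Q, ∀ y ∈ Q, wn (N2 N) (rv (Sum.elim (n x) (n y))) ≤ 1) (l : ZMod p) :
    ((#(RR Q l) : ℕ) : ℝ) + 1 ≤ cnt (cl b l) (N2 N) 1 := by
  classical
  have hfin := ball_finite (cl b l) (N2_pos hN) 1
  have h1 : #(insert 0 ((RR Q l).image (fun x => (Sum.elim (n x.1) (n x.2) : ι ⊕ ι → ℤ)))) =
      #(RR Q l) + 1 := by
    rw [card_insert_of_notMem, card_image_of_injOn]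
    · rintro ⟨x, y⟩ hx ⟨x', y'⟩ hx' h
      simp only [RR, coe_filter, mem_product, Set.mem_ofPred_eq] at hx hx'
      have e1 : n x = n x' := by
        ext i
        exact congrFun h (Sum.inl i)
      have e2 : n y = n y' := by
        ext i
        exact congrFun h (Sum.inr i)
      have h1 : x = x' := by rw [← hn x hx.1.1, e1, hn x' hx'.1.1]
      have h2 : y = y' := by rw [← hn y hx.1.2, e2, hn y' hx'.1.2]
      rw [h1, h2]
    · intro h
      rw [mem_image] at h
      obtain ⟨⟨x, y⟩, hx, h⟩ := h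
      simp only [RR, mem_filter, mem_product] at hx
      have e1 : n x = 0 := by
        ext i
        exact congrFun h (Sum.inl i)
      apply hx.2.1
      rw [← hn x hx.1.1, e1, lin_zero]
  have h2 : ((insert 0 ((RR Q l).image
      (fun x => (Sum.elim (n x.1) (n x.2) : ι ⊕ ι → ℤ))) : Finset (ι ⊕ ι → ℤ)) : Set (ι ⊕ ι → ℤ)) ⊆
      ball (cl b l) (N2 N) 1 := by
    intro w hw'
    rw [coe_insert, Set.mem_insert_iff, mem_coe, mem_image] at hw'
    rcases hw' with rfl | ⟨⟨x, y⟩, hx, rfl⟩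
    · exact zero_mem_ball _ _ zero_le_one
    · simp only [RR, mem_filter, mem_product] at hx
      refine ⟨?_, hw x hx.1.1 y hx.1.2⟩
      rw [lin_cl]
      simp only [Sum.elim_inl, Sum.elim_inr]
      rw [hn x hx.1.1, hn y hx.1.2, hx.2.2.2, sub_self]
  have h3 := Set.ncard_le_ncard h2 hfin
  rw [Set.ncard_coe_finset, h1] at h3
  unfold cnt
  exact_mod_cast h3

lemma sum_RR_le (b : ι → ZMod p) (N : ι → ℝ) (hN : ∀ i, 0 < N i) (Q : Finset (ZMod p))
    (n : ZMod p → ι → ℤ) (hn : ∀ x ∈ Q, lin b (n x) = x)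
    (hw : ∀ x ∈ Q, ∀ y ∈ Q, wn (N2 N) (rv (Sum.elim (n x) (n y))) ≤ 1) :
    ((∑ l ∈ (univ : Finset (ZMod p)).filter (fun l => l ≠ 0), #(RR Q l) ^ 2 : ℕ) : ℝ) ≤
      esum b N (fun _ => True) := by
  classical
  push_cast
  unfold esum
  have h1 : ∀ l ∈ (univ : Finset (ZMod p)).filter (fun l => l ≠ 0), ((#(RR Q l) : ℕ) : ℝ) ^ 2 ≤
      if 1 < cnt (cl b l) (N2 N) 1 then (cnt (cl b l) (N2 N) 1) ^ 2 else 0 := by
    intro l _
    have h2 := card_RR_lt b N hN Q n hn hw l
    have h3 : (0 : ℝ) ≤ #(RR Q l) := by positivity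
    split_ifs with h
    · exact pow_le_pow_left₀ h3 (by linarith) 2
    · have : ((#(RR Q l) : ℕ) : ℝ) = 0 := by
        rw [not_lt] at h
        linarith
      rw [this]
      norm_num
  refine (sum_le_sum h1).trans (le_of_eq ?_)
  rw [← sum_filter, filter_filter]
  refine sum_congr ?_ fun _ _ => rfl
  ext l
  simp

/-- the number of points of a progression -/
lemma card_Q_le (b : ι → ZMod p) (H : ι → ℕ) (hH : ∀ i, 1 ≤ H i) (Q : Finset (ZMod p))
    (hQ : ∀ x ∈ Q, ∃ n : ι → ℤ, (∀ i, |n i| ≤ H i) ∧ x = lin b n) :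
    ((#Q : ℕ) : ℝ) ≤ 3 ^ (Fintype.card ι) * ∏ i, (H i : ℝ) := by
  classical
  have h1 : Q ⊆ (Fintype.piFinset (fun i => Finset.Icc (-(H i : ℤ)) (H i))).image (lin b) := by
    intro x hx
    obtain ⟨n, hn, rfl⟩ := hQ x hx
    rw [mem_image]
    refine ⟨n, ?_, rfl⟩
    rw [Fintype.mem_piFinset]
    intro i
    rw [Finset.mem_Icc]
    exact abs_le.mp (hn i)
  have h2 := (card_le_card h1).trans card_image_le
  rw [Fintype.card_piFinset] at h2
  have h3 : ((#Q : ℕ) : ℝ) ≤ ((∏ i, #(Finset.Icc (-(H i : ℤ)) (H i)) : ℕ) : ℝ) := by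
    exact_mod_cast h2
  refine h3.trans ?_
  push_cast
  have h4 : (3 : ℝ) ^ (Fintype.card ι) * ∏ i, (H i : ℝ) = ∏ i, (3 * (H i : ℝ)) := by
    rw [prod_mul_distrib, prod_const]
    rfl
  rw [h4]
  refine prod_le_prod (fun i _ => by positivity) fun i _ => ?_
  rw [Int.card_Icc]
  have h5 : ((H i : ℤ) + 1 - -(H i : ℤ)).toNat = 2 * H i + 1 := by omega
  rw [h5]
  have := hH i
  have h6 : (1 : ℝ) ≤ H i := by exact_mod_cast this
  push_cast
  linarith

end EnP

open EnP in
theorem specEnP (hE : SpecEnergy) : SpecEnP := by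
  intro d ε η δ hε hη hδ
  obtain ⟨P1, hP1⟩ := hE d (ε / 2) (η / 2) (δ / 2) (by positivity) (by positivity) (by positivity)
  set q : ℝ := Real.sqrt (2 * d) with hq
  set q1 : ℝ := max 1 q with hq1
  obtain ⟨P2, hP2⟩ := exists_P q1 (η / 2) (by positivity)
  obtain ⟨P3, hP3⟩ := exists_P (q1 ^ d) (δ / 2) (by positivity)
  obtain ⟨P4, hP4⟩ := exists_P (4 * 9 ^ d + q1 ^ (2 * d)) (ε / 2) (by positivity)
  refine ⟨max (max P1 P2) (max P3 (max P4 2)), ?_⟩
  intro p hp hPp b H hH hprop hvol Q hQ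
  have : Fact p.Prime := ⟨hp⟩
  have hp1 : P1 ≤ p := le_trans (le_trans (le_max_left _ _) (le_max_left _ _)) hPp
  have hp2 : P2 ≤ p := le_trans (le_trans (le_max_right _ _) (le_max_left _ _)) hPp
  have hp3 : P3 ≤ p := le_trans (le_trans (le_max_left _ _) (le_max_right _ _)) hPp
  have hp4 : P4 ≤ p := le_trans (le_trans (le_trans (le_max_left _ _) (le_max_right _ _))
    (le_max_right _ _)) hPp
  have hp0 : (0 : ℝ) < p := by exact_mod_cast hp.pos
  have hp1' : (1 : ℝ) ≤ p := by exact_mod_cast hp.one_lt.le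
  have hq1pos : 0 < q1 := lt_of_lt_of_le one_pos (le_max_left _ _)
  have hq1one : 1 ≤ q1 := le_max_left _ _
  have hqq1 : q ≤ q1 := le_max_right _ _
  set N : Fin d → ℝ := fun i => q1 * H i with hN
  have hHr : ∀ i, (1 : ℝ) ≤ H i := fun i => by exact_mod_cast hH i
  have hN1 : ∀ i, 1 ≤ N i := fun i => by
    rw [hN]
    exact one_le_mul_of_one_le_of_one_le hq1one (hHr i)
  have hNpos : ∀ i, 0 < N i := fun i => lt_of_lt_of_le one_pos (hN1 i)
  have hprodN : ∏ i, N i = q1 ^ d * ∏ i, (H i : ℝ) := by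
    rw [hN, prod_mul_distrib, prod_const, card_univ, Fintype.card_fin]
  have hprodH : 0 < ∏ i, (H i : ℝ) := prod_pos fun i _ => lt_of_lt_of_le one_pos (hHr i)
  have hSys : Sys b N ((p : ℝ) ^ (η / 2)) := by
    refine ⟨hN1, fun x hx hl => ?_⟩
    by_contra hcon
    rw [not_lt] at hcon
    refine hprop x hx (fun i => ?_) hl
    have h1 := abs_le_wn hNpos (rv x) i
    have h2 : |(x i : ℝ)| ≤ N i * (p : ℝ) ^ (η / 2) :=
      h1.trans (mul_le_mul_of_nonneg_left hcon (hNpos i).le)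
    refine h2.trans ?_
    have h3 : (p : ℝ) ^ η = (p : ℝ) ^ (η / 2) * (p : ℝ) ^ (η / 2) := by
      rw [← Real.rpow_add hp0]
      congr 1
      ring
    rw [h3, hN]
    have h4 := hP2 p hp2
    have h5 : (0 : ℝ) ≤ (p : ℝ) ^ (η / 2) := by positivity
    have h6 : (0 : ℝ) ≤ H i := by positivity
    calc q1 * (H i : ℝ) * (p : ℝ) ^ (η / 2) = (q1 * (p : ℝ) ^ (η / 2)) * H i := by ring
      _ ≤ ((p : ℝ) ^ (η / 2) * (p : ℝ) ^ (η / 2)) * H i := by gcongr
  have hvol' : ∏ i, N i ≤ (p : ℝ) ^ (1 / 2 - δ / 2) := by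
    rw [hprodN]
    calc q1 ^ d * ∏ i, (H i : ℝ) ≤ (p : ℝ) ^ (δ / 2) * (p : ℝ) ^ (1 / 2 - δ) := by
          gcongr
          exact hP3 p hp3
      _ = (p : ℝ) ^ (1 / 2 - δ / 2) := by
          rw [← Real.rpow_add hp0]
          congr 1
          ring
  have hen := hP1 p hp1 (Fin d) (Fintype.card_fin d) b N hSys hvol'
  choose! n hn1 hn2 using hQ
  have hw : ∀ x ∈ Q, ∀ y ∈ Q, wn (N2 N) (rv (Sum.elim (n x) (n y))) ≤ 1 := by
    intro x hx y hy
    refine wn_le_sqrt_one (N2_pos hNpos) fun i => ?_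
    have hcard : Real.sqrt (Fintype.card (Fin d ⊕ Fin d)) = q := by
      rw [Fintype.card_sum, Fintype.card_fin, hq]
      congr 1
      push_cast
      ring
    rw [hcard]
    have key : ∀ (m : Fin d → ℤ) (j : Fin d), |m j| ≤ (H j : ℤ) →
        q * |(m j : ℝ)| ≤ q1 * (H j : ℝ) := by
      intro m j hm
      have h1 : |(m j : ℝ)| ≤ H j := by exact_mod_cast hm
      have h0 : 0 ≤ q := Real.sqrt_nonneg _
      gcongr
    rcases i with i | i
    · exact key (n x) i (hn1 x hx i)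
    · exact key (n y) i (hn1 y hy i)
  have h1 := sum_RR_le b N hNpos Q n (fun x hx => (hn2 x hx).symm) hw
  have h2 := count_le Q
  have h3 := card_Q_le b H hH Q (fun x hx => ⟨n x, hn1 x hx, hn2 x hx⟩)
  rw [Fintype.card_fin] at h3
  have h4 : ((#((Q ×ˢ Q ×ˢ Q ×ˢ Q).filter
      (fun x => x.1 * x.2.1 = x.2.2.1 * x.2.2.2)) : ℕ) : ℝ) ≤
      4 * ((#Q : ℕ) : ℝ) ^ 2 + ((∑ l ∈ (univ : Finset (ZMod p)).filter (fun l => l ≠ 0),
        #(RR Q l) ^ 2 : ℕ) : ℝ) := by
    exact_mod_cast h2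
  refine h4.trans ?_
  have h5 : ((#Q : ℕ) : ℝ) ^ 2 ≤ (3 ^ d * ∏ i, (H i : ℝ)) ^ 2 := by gcongr
  have h6 := h1.trans hen
  rw [hprodN] at h6
  have hpe : (1 : ℝ) ≤ (p : ℝ) ^ (ε / 2) := Real.one_le_rpow hp1' (by positivity)
  calc 4 * ((#Q : ℕ) : ℝ) ^ 2 + _ ≤ 4 * (3 ^ d * ∏ i, (H i : ℝ)) ^ 2 +
        (p : ℝ) ^ (ε / 2) * (q1 ^ d * ∏ i, (H i : ℝ)) ^ 2 := add_le_add (by linarith) h6
    _ = (4 * 9 ^ d + (p : ℝ) ^ (ε / 2) * q1 ^ (2 * d)) * (∏ i, (H i : ℝ)) ^ 2 := by
        have e : (9 : ℝ) ^ d = (3 ^ d) ^ 2 := by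
          rw [← pow_mul, mul_comm, pow_mul]
          norm_num
        rw [e, pow_mul' q1 2 d]
        ring
    _ ≤ (p : ℝ) ^ (ε / 2) * (4 * 9 ^ d + q1 ^ (2 * d)) * (∏ i, (H i : ℝ)) ^ 2 := by
        gcongr
        have : (0 : ℝ) ≤ 4 * 9 ^ d := by positivity
        nlinarith
    _ ≤ (p : ℝ) ^ (ε / 2) * (p : ℝ) ^ (ε / 2) * (∏ i, (H i : ℝ)) ^ 2 := by
        gcongr
        exact hP4 p hp4
    _ = (p : ℝ) ^ ε * (∏ i, (H i : ℝ)) ^ 2 := by
        rw [← Real.rpow_add hp0]
        congr 2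
        ring

end MPcb27
end

section
/-!
# MP_cb27ba_nt, project BD: module FIN
-/
set_option autoImplicit false

namespace MPcb27

open Finset Basic
open scoped Pointwise

namespace Fin'

/-- powers of `p` beat constants -/
lemma exists_P (c s : ℝ) (hs : 0 < s) : ∃ P : ℕ, ∀ p : ℕ, P ≤ p → c ≤ (p : ℝ) ^ s := by
  have h := (tendsto_rpow_atTop hs).comp tendsto_natCast_atTop_atTop
  have h2 := Filter.tendsto_atTop.mp h c
  rw [Filter.eventually_atTop] at h2
  obtain ⟨P, hP⟩ := h2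
  exact ⟨P, fun p hp => hP p hp⟩

variable {p : ℕ} [Fact p.Prime]

/-- Plünnecke: `#(A + P0) ≤ K^5 #A` for `P0 ⊆ 2A - 2A` -/
lemma card_add_le (A P0 : Finset (ZMod p)) (hA : A.Nonempty) (K : ℝ)
    (hK : (#(A + A) : ℝ) ≤ K * #A)
    (hP : ∀ x ∈ P0, ∃ a₁ ∈ A, ∃ a₂ ∈ A, ∃ a₃ ∈ A, ∃ a₄ ∈ A, x = a₁ + a₂ - a₃ - a₄) :
    (#(A + P0) : ℝ) ≤ K ^ 5 * #A := by
  have hsub : A + P0 ⊆ 3 • A - 2 • A := by
    intro x hx
    obtain ⟨a, ha, y, hy, rfl⟩ := mem_add.mp hx
    obtain ⟨a₁, h1, a₂, h2, a₃, h3, a₄, h4, rfl⟩ := hP y hy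
    have e3 : (3 : ℕ) • A = A + A + A := by
      rw [show (3 : ℕ) = 2 + 1 from rfl, succ_nsmul, two_nsmul]
    rw [e3, two_nsmul]
    refine mem_sub.mpr ⟨a + a₁ + a₂, add_mem_add (add_mem_add ha h1) h2, a₃ + a₄,
      add_mem_add h3 h4, by ring⟩
  have h1 := pluennecke_ruzsa_inequality_nsmul_sub_nsmul_add hA A 3 2
  have hpos : (0 : ℝ) < #A := by exact_mod_cast hA.card_pos
  have h2 : ((#(3 • A - 2 • A) : ℕ) : ℝ) ≤ ((#(A + A) : ℝ) / #A) ^ 5 * #A := by
    have h := (NNRat.cast_le (K := ℝ)).mpr h1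
    push_cast at h
    exact h
  have h3 : (#(A + P0) : ℝ) ≤ ((#(3 • A - 2 • A) : ℕ) : ℝ) := by
    exact_mod_cast card_le_card hsub
  have h4 : (#(A + A) : ℝ) / #A ≤ K := by rwa [div_le_iff₀ hpos]
  have h5 : (0 : ℝ) ≤ (#(A + A) : ℝ) / #A := by positivity
  calc (#(A + P0) : ℝ) ≤ ((#(A + A) : ℝ) / #A) ^ 5 * #A := h3.trans h2
    _ ≤ K ^ 5 * #A := by gcongr

/-- splitting the bilinear sum into pieces -/
lemma sum_split (A B FA FB : Finset (ZMod p)) (f g : ZMod p → ZMod p)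
    (hf : ∀ a ∈ A, f a ∈ FA) (hg : ∀ b ∈ B, g b ∈ FB) (F : ZMod p → ZMod p → ℂ) :
    ∑ a ∈ A, ∑ b ∈ B, F a b = ∑ x ∈ FA, ∑ y ∈ FB,
      ∑ a ∈ A.filter (fun a => f a = x), ∑ b ∈ B.filter (fun b => g b = y), F a b := by
  rw [← sum_fiberwise_of_maps_to hf]
  refine sum_congr rfl fun x _ => ?_
  have h := sum_comm (s := FB) (t := A.filter (fun a => f a = x))
    (f := fun y a => ∑ b ∈ B.filter (fun b => g b = y), F a b)
  rw [h]
  refine sum_congr rfl fun a _ => ?_
  exact (sum_fiberwise_of_maps_to hg _).symm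

/-- Cauchy-Schwarz over the pieces -/
lemma sum_sqrt_le (A FA : Finset (ZMod p)) (f : ZMod p → ZMod p) (hf : ∀ a ∈ A, f a ∈ FA) :
    ∑ x ∈ FA, Real.sqrt (#(A.filter (fun a => f a = x)) : ℝ) ≤ Real.sqrt ((#FA : ℝ) * #A) := by
  have h1 : ∑ x ∈ FA, (#(A.filter (fun a => f a = x)) : ℝ) = #A := by
    have := card_eq_sum_card_fiberwise (s := A) (t := FA) (f := f) hf
    rw [this]
    push_cast
    rfl
  have h2 := sum_mul_sq_le_sq_mul_sq FA (fun _ => (1 : ℝ))
    (fun x => Real.sqrt (#(A.filter (fun a => f a = x)) : ℝ))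
  simp only [one_mul, one_pow, sum_const, nsmul_eq_mul, mul_one] at h2
  have h3 : ∑ x ∈ FA, Real.sqrt (#(A.filter (fun a => f a = x)) : ℝ) ^ 2 = #A := by
    rw [← h1]
    exact sum_congr rfl fun x _ => Real.sq_sqrt (by positivity)
  rw [h3] at h2
  exact Real.le_sqrt_of_sq_le h2

/-- the estimate of the bilinear sum from the estimates of the pieces -/
lemma bilinear_est (A B FA FB : Finset (ZMod p)) (f g : ZMod p → ZMod p)
    (hf : ∀ a ∈ A, f a ∈ FA) (hg : ∀ b ∈ B, g b ∈ FB) (F : ZMod p → ZMod p → ℂ) (M : ℝ)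
    (hM : 0 ≤ M)
    (h : ∀ x ∈ FA, ∀ y ∈ FB,
      ‖∑ a ∈ A.filter (fun a => f a = x), ∑ b ∈ B.filter (fun b => g b = y), F a b‖ ≤
        M * (Real.sqrt (#(A.filter (fun a => f a = x))) *
          Real.sqrt (#(B.filter (fun b => g b = y))))) :
    ‖∑ a ∈ A, ∑ b ∈ B, F a b‖ ≤
      M * (Real.sqrt ((#FA : ℝ) * #A) * Real.sqrt ((#FB : ℝ) * #B)) := by
  rw [sum_split A B FA FB f g hf hg]
  refine (norm_sum_le _ _).trans ?_
  refine (sum_le_sum fun x hx => (norm_sum_le _ _).trans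
    (sum_le_sum fun y hy => h x hx y hy)).trans ?_
  have e : ∑ x ∈ FA, ∑ y ∈ FB, M * (Real.sqrt (#(A.filter (fun a => f a = x))) *
        Real.sqrt (#(B.filter (fun b => g b = y)))) =
      M * ((∑ x ∈ FA, Real.sqrt (#(A.filter (fun a => f a = x)))) *
        ∑ y ∈ FB, Real.sqrt (#(B.filter (fun b => g b = y)))) := by
    rw [sum_mul_sum, mul_sum]
    refine sum_congr rfl fun x _ => ?_
    rw [mul_sum]
  rw [e]
  exact mul_le_mul_of_nonneg_left (mul_le_mul (sum_sqrt_le A FA f hf) (sum_sqrt_le B FB g hg)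
    (sum_nonneg fun _ _ => Real.sqrt_nonneg _) (Real.sqrt_nonneg _)) hM

lemma num_est (q q1 q2 V P0 a b u v C1 C2 : ℝ) (hq : 0 ≤ q) (hM : 0 ≤ q * V) (hV : V ≤ P0)
    (hP0 : 0 < P0) (hu : u ≤ C1 * a / P0) (hv : v ≤ C2 * b / P0) (ha : 0 ≤ a) (hb : 0 ≤ b)
    (hu0 : 0 ≤ u) (hv0 : 0 ≤ v) (hC1 : 0 ≤ C1) (hC2 : 0 ≤ C2)
    (h1 : Real.sqrt (C1 * C2) ≤ q1) (h2 : q * q1 = q2) :
    q * V * (Real.sqrt (u * a) * Real.sqrt (v * b)) ≤ q2 * a * b := by
  have e1 : Real.sqrt (u * a) * Real.sqrt (v * b) ≤ Real.sqrt (C1 * C2) * a * b / P0 := by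
    rw [← Real.sqrt_mul (by positivity)]
    have h2 : (u * a) * (v * b) ≤ (C1 * a / P0 * a) * (C2 * b / P0 * b) := by gcongr
    have h3 : (C1 * a / P0 * a) * (C2 * b / P0 * b) = (C1 * C2) * (a * b / P0) ^ 2 := by ring
    refine (Real.sqrt_le_sqrt (h2.trans_eq h3)).trans (le_of_eq ?_)
    rw [Real.sqrt_mul (by positivity), Real.sqrt_sq (by positivity)]
    ring
  calc q * V * (Real.sqrt (u * a) * Real.sqrt (v * b)) ≤
      q * V * (Real.sqrt (C1 * C2) * a * b / P0) := by gcongr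
    _ ≤ q * P0 * (Real.sqrt (C1 * C2) * a * b / P0) := by gcongr
    _ = q * Real.sqrt (C1 * C2) * a * b * (P0 * P0⁻¹) := by ring
    _ = q * Real.sqrt (C1 * C2) * a * b := by rw [mul_inv_cancel₀ hP0.ne', mul_one]
    _ ≤ q * q1 * a * b := by gcongr
    _ = q2 * a * b := by rw [h2]

end Fin'

open Fin' in
theorem finalDbl (hG : SpecGapP) (hF : SpecFr) : FinalDbl := by
  intro K L δ hδ
  set K' : ℝ := max K 1 with hK'
  set L' : ℝ := max L 1 with hL'
  obtain ⟨d, C, hF⟩ := hF K'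
  obtain ⟨τ, hτ, P, hG⟩ := hG d (δ / 2) (by positivity)
  set C' : ℝ := max C 1 with hC'
  set C1 : ℝ := K' ^ 5 with hC1
  set C2 : ℝ := L' * K' ^ 5 with hC2
  obtain ⟨P2, hP2⟩ := exists_P (C' * 2 ^ d) (δ / 2) (by positivity)
  obtain ⟨P3, hP3⟩ := exists_P (Real.sqrt (C1 * C2)) (τ / 2) (by positivity)
  refine ⟨τ / 2, by positivity, max P (max P2 P3), ?_⟩
  intro p _ hp A B hA hAA hAB χ hχ
  have hpP : P ≤ p := le_trans (le_max_left _ _) hp
  have hpP2 : P2 ≤ p := le_trans (le_trans (le_max_left _ _) (le_max_right _ _)) hp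
  have hpP3 : P3 ≤ p := le_trans (le_trans (le_max_right _ _) (le_max_right _ _)) hp
  have hp0 : (0 : ℝ) < p := by exact_mod_cast (Fact.out : p.Prime).pos
  have hK1 : 1 ≤ K' := le_max_right _ _
  have hL1 : 1 ≤ L' := le_max_right _ _
  have hC'1 : 1 ≤ C' := le_max_right _ _
  have hC1pos : 0 < C1 := by positivity
  have hC2pos : 0 < C2 := by positivity
  have hAne : A.Nonempty := by
    rw [← card_pos]
    have h0 : (0 : ℝ) < (p : ℝ) ^ (1 / 4 + δ) := by positivity
    have : (0 : ℝ) < #A := h0.trans hA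
    exact_mod_cast this
  have hApos : (0 : ℝ) < #A := by exact_mod_cast hAne.card_pos
  have hAA' : (#(A + A) : ℝ) ≤ K' * #A :=
    hAA.trans (mul_le_mul_of_nonneg_right (le_max_left _ _) hApos.le)
  have hAB' : (#(A + B) : ℝ) ≤ L' * #B :=
    hAB.trans (mul_le_mul_of_nonneg_right (le_max_left _ _) (by positivity))
  obtain ⟨b, H, hH1, hH2, hH3⟩ := hF p A hAne hAA'
  -- the progression
  set box : Finset (Fin d → ℤ) :=
    Fintype.piFinset (fun i => Finset.Icc (-(H i : ℤ)) (H i)) with hbox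
  have hmem : ∀ n : Fin d → ℤ, n ∈ box ↔ ∀ i, |n i| ≤ H i := by
    intro n
    rw [hbox, Fintype.mem_piFinset]
    refine forall_congr' fun i => ?_
    rw [Finset.mem_Icc, abs_le]
  set P0 : Finset (ZMod p) := box.image (lin b) with hP0
  have hP0card : (#P0 : ℝ) = ∏ i, (2 * (H i : ℝ) + 1) := by
    rw [hP0, card_image_of_injOn, hbox, Fintype.card_piFinset]
    · push_cast
      refine prod_congr rfl fun i _ => ?_
      rw [Int.card_Icc]
      have h5 : ((H i : ℤ) + 1 - -(H i : ℤ)).toNat = 2 * H i + 1 := by omega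
      rw [h5]
      push_cast
      ring
    · intro n hn n' hn' h
      rw [mem_coe, hmem] at hn hn'
      exact hH2 n n' hn hn' h
  have hP0pos : (0 : ℝ) < #P0 := by
    rw [hP0card]
    exact prod_pos fun i _ => by positivity
  have hP0ne : P0.Nonempty := by
    rw [← card_pos]
    exact_mod_cast hP0pos
  have hP0A : ∀ x ∈ P0, ∃ a₁ ∈ A, ∃ a₂ ∈ A, ∃ a₃ ∈ A, ∃ a₄ ∈ A, x = a₁ + a₂ - a₃ - a₄ := by
    intro x hx
    rw [hP0, mem_image] at hx
    obtain ⟨n, hn, rfl⟩ := hx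
    exact hH1 n ((hmem n).mp hn)
  have hAP : (#(A + P0) : ℝ) ≤ C1 * #A := card_add_le A P0 hAne K' hAA' hP0A
  have hBP : (#(B + P0) : ℝ) ≤ C2 * #B := by
    have h1 := ruzsa_triangle_inequality_add_add_add B A P0
    have h2 : (#(B + P0) : ℝ) * #A ≤ #(B + A) * #(A + P0) := by exact_mod_cast h1
    rw [add_comm B A] at h2
    have h3 : (#(B + P0) : ℝ) * #A ≤ (L' * #B) * (C1 * #A) := by
      refine h2.trans ?_
      gcongr
    have h4 : (L' * (#B : ℝ)) * (C1 * #A) = (C2 * #B) * #A := by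
      rw [hC1, hC2]
      ring
    rw [h4] at h3
    exact le_of_mul_le_mul_right h3 hApos
  obtain ⟨FA, hFA, hFAcard, hFAcov⟩ := ruzsa_covering_add (A := A) (B := P0)
    (K := C1 * #A / #P0) hP0ne (by rw [div_mul_cancel₀ _ hP0pos.ne']; exact hAP)
  obtain ⟨FB, hFB, hFBcard, hFBcov⟩ := ruzsa_covering_add (A := B) (B := P0)
    (K := C2 * #B / #P0) hP0ne (by rw [div_mul_cancel₀ _ hP0pos.ne']; exact hBP)
  -- the new side lengths
  set H' : Fin d → ℕ := fun i => max 1 (2 * H i) with hH'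
  have hdiff : ∀ z ∈ P0 - P0, ∃ n : Fin d → ℤ, (∀ i, |n i| ≤ H' i) ∧ z = lin b n := by
    intro z hz
    obtain ⟨x, hx, y, hy, rfl⟩ := mem_sub.mp hz
    rw [hP0, mem_image] at hx hy
    obtain ⟨n, hn, rfl⟩ := hx
    obtain ⟨n', hn', rfl⟩ := hy
    rw [hmem] at hn hn'
    refine ⟨n - n', fun i => ?_, (lin_sub b n n').symm⟩
    have h1 := hn i
    have h2 := hn' i
    have h3 : ((2 * H i : ℕ) : ℤ) ≤ (H' i : ℤ) := by
      exact_mod_cast le_max_right _ _
    have h4 : |(n - n') i| ≤ |n i| + |n' i| := by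
      rw [Pi.sub_apply]
      exact abs_sub _ _
    push_cast at h3
    omega
  have hcov : ∀ (S F : Finset (ZMod p)), S ⊆ F + (P0 - P0) → ∃ f : ZMod p → ZMod p,
      (∀ a ∈ S, f a ∈ F) ∧ ∀ a ∈ S, ∃ n : Fin d → ℤ, (∀ i, |n i| ≤ H' i) ∧
        a = f a + lin b n := by
    intro S F hSF
    have h1 : ∀ a ∈ S, ∃ x ∈ F, ∃ n : Fin d → ℤ, (∀ i, |n i| ≤ H' i) ∧ a = x + lin b n := by
      intro a ha
      obtain ⟨x, hx, z, hz, rfl⟩ := mem_add.mp (hSF ha)
      obtain ⟨n, hn, rfl⟩ := hdiff z hz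
      exact ⟨x, hx, n, hn, rfl⟩
    choose! f hf1 hf2 using h1
    exact ⟨f, hf1, hf2⟩
  obtain ⟨f, hf1, hf2⟩ := hcov A FA hFAcov
  obtain ⟨g, hg1, hg2⟩ := hcov B FB hFBcov
  have hH'1 : ∀ i, 1 ≤ H' i := fun i => le_max_left _ _
  have hH'up : ∏ i, (H' i : ℝ) ≤ #P0 := by
    rw [hP0card]
    refine prod_le_prod (fun i _ => by positivity) fun i _ => ?_
    have : H' i ≤ 2 * H i + 1 := by
      rw [hH']
      simp only
      omega
    exact_mod_cast this
  have hH'lo : (#P0 : ℝ) ≤ 2 ^ d * ∏ i, (H' i : ℝ) := by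
    rw [hP0card]
    have e : (2 : ℝ) ^ d * ∏ i, (H' i : ℝ) = ∏ i, (2 * (H' i : ℝ)) := by
      rw [prod_mul_distrib, prod_const, card_univ, Fintype.card_fin]
    rw [e]
    refine prod_le_prod (fun i _ => by positivity) fun i _ => ?_
    have : 2 * H i + 1 ≤ 2 * H' i := by
      rw [hH']
      simp only
      omega
    exact_mod_cast this
  have hvol : (p : ℝ) ^ (1 / 4 + δ / 2) ≤ ∏ i, (H' i : ℝ) := by
    have h1 : (#A : ℝ) ≤ C' * (2 ^ d * ∏ i, (H' i : ℝ)) := by
      have h2 : (#A : ℝ) ≤ C * #P0 := by rw [hP0card]; exact hH3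
      refine h2.trans ?_
      have h3 : C * (#P0 : ℝ) ≤ C' * #P0 :=
        mul_le_mul_of_nonneg_right (le_max_left _ _) hP0pos.le
      exact h3.trans (mul_le_mul_of_nonneg_left hH'lo (by linarith))
    have h2 : (p : ℝ) ^ (1 / 4 + δ) = (p : ℝ) ^ (1 / 4 + δ / 2) * (p : ℝ) ^ (δ / 2) := by
      rw [← Real.rpow_add hp0]
      congr 1
      ring
    have h3 := hP2 p hpP2
    have h4 : (p : ℝ) ^ (1 / 4 + δ / 2) * (C' * 2 ^ d) ≤ (∏ i, (H' i : ℝ)) * (C' * 2 ^ d) := by
      calc (p : ℝ) ^ (1 / 4 + δ / 2) * (C' * 2 ^ d) ≤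
          (p : ℝ) ^ (1 / 4 + δ / 2) * (p : ℝ) ^ (δ / 2) := by gcongr
        _ = (p : ℝ) ^ (1 / 4 + δ) := h2.symm
        _ ≤ #A := hA.le
        _ ≤ C' * (2 ^ d * ∏ i, (H' i : ℝ)) := h1
        _ = (∏ i, (H' i : ℝ)) * (C' * 2 ^ d) := by ring
    exact le_of_mul_le_mul_right h4 (by positivity)
  -- the estimate
  have hM : 0 ≤ (p : ℝ) ^ (-τ) * ∏ i, (H' i : ℝ) :=
    mul_nonneg (Real.rpow_nonneg hp0.le _) (prod_nonneg fun i _ => Nat.cast_nonneg _)
  have hpiece : ∀ x ∈ FA, ∀ y ∈ FB,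
      ‖∑ a ∈ A.filter (fun a => f a = x), ∑ b ∈ B.filter (fun b => g b = y), χ (a - b)‖ ≤
        (p : ℝ) ^ (-τ) * (∏ i, (H' i : ℝ)) *
          (Real.sqrt (#(A.filter (fun a => f a = x))) *
            Real.sqrt (#(B.filter (fun b => g b = y)))) := by
    intro x _ y _
    rw [← Real.sqrt_mul (Nat.cast_nonneg _)]
    refine hG p hpP b H' hH'1 hvol _ _ x y ?_ ?_ χ hχ
    · intro u hu
      rw [mem_filter] at hu
      obtain ⟨n, hn, he⟩ := hf2 u hu.1
      exact ⟨n, hn, by rw [← hu.2]; exact he⟩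
    · intro u hu
      rw [mem_filter] at hu
      obtain ⟨n, hn, he⟩ := hg2 u hu.1
      exact ⟨n, hn, by rw [← hu.2]; exact he⟩
  have hsum := bilinear_est A B FA FB f g hf1 hg1 (fun a b => χ (a - b)) _ hM hpiece
  refine hsum.trans ?_
  have h3 : (p : ℝ) ^ (-τ) * (p : ℝ) ^ (τ / 2) = (p : ℝ) ^ (-(τ / 2)) := by
    rw [← Real.rpow_add hp0]
    congr 1
    ring
  exact num_est _ _ _ _ _ _ _ _ _ C1 C2 (Real.rpow_nonneg hp0.le _) hM hH'up hP0pos hFAcard hFBcard
    (Nat.cast_nonneg _) (Nat.cast_nonneg _) (Nat.cast_nonneg _) (Nat.cast_nonneg _)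
    hC1pos.le hC2pos.le (hP3 p hpP3) h3

end MPcb27
end

section
/-!
# MP_cb27ba_nt, project BD: module FOUR
-/
set_option autoImplicit false

namespace MPcb27

open Finset

namespace Four

variable {p : ℕ} [Fact p.Prime]

theorem orth (x : ZMod p) :
    ∑ ψ : AddChar (ZMod p) ℂ, ψ x = if x = 0 then (p : ℂ) else 0 := by
  have := AddChar.sum_apply_eq_ite x
  rw [this, ZMod.card]

theorem inversion (f : ZMod p → ℂ) (x : ZMod p) :
    ∑ ψ : AddChar (ZMod p) ℂ, (∑ y, f y * ψ y) * ψ (-x) = (p : ℂ) * f x := by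
  have h1 : ∀ ψ : AddChar (ZMod p) ℂ, (∑ y, f y * ψ y) * ψ (-x) = ∑ y, f y * ψ (y - x) := by
    intro ψ
    rw [sum_mul]
    refine sum_congr rfl fun y _ => ?_
    rw [sub_eq_add_neg, AddChar.map_add_eq_mul]
    ring
  simp only [h1]
  rw [sum_comm]
  simp only [← mul_sum, orth]
  rw [sum_eq_single x]
  · simp [mul_comm]
  · intro y _ hy
    rw [if_neg (sub_ne_zero.mpr hy), mul_zero]
  · intro h
    exact absurd (mem_univ _) h

theorem conj_apply (ψ : AddChar (ZMod p) ℂ) (x : ZMod p) :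
    (starRingEnd ℂ) (ψ x) = ψ (-x) := by
  rw [AddChar.map_neg_eq_conj]

theorem parseval (A : Finset (ZMod p)) :
    ∑ ψ : AddChar (ZMod p) ℂ, ‖∑ a ∈ A, ψ a‖ ^ 2 = (p : ℝ) * #A := by
  have h : ((∑ ψ : AddChar (ZMod p) ℂ, ‖∑ a ∈ A, ψ a‖ ^ 2 : ℝ) : ℂ) = (p : ℂ) * #A := by
    push_cast
    have h1 : ∀ ψ : AddChar (ZMod p) ℂ, ((‖∑ a ∈ A, ψ a‖ : ℝ) : ℂ) ^ 2 =
        ∑ a ∈ A, ∑ a' ∈ A, ψ (a - a') := by
      intro ψ
      rw [← Complex.mul_conj', map_sum, sum_mul_sum]
      refine sum_congr rfl fun a _ => sum_congr rfl fun a' _ => ?_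
      rw [conj_apply, sub_eq_add_neg, AddChar.map_add_eq_mul]
    simp only [h1]
    rw [sum_comm]
    have h2 : ∀ a ∈ A, ∑ ψ : AddChar (ZMod p) ℂ, ∑ a' ∈ A, ψ (a - a') = (p : ℂ) := by
      intro a ha
      rw [sum_comm]
      simp only [orth]
      rw [sum_eq_single a]
      · simp
      · intro a' _ ha'
        rw [if_neg (sub_ne_zero.mpr ha'.symm)]
      · intro h
        exact absurd ha h
    rw [sum_congr rfl h2, sum_const, nsmul_eq_mul, mul_comm]
  exact_mod_cast h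

end Four

open Four in
theorem specFour : SpecFour := by
  intro p _ f M hM A B
  have hp : (0 : ℝ) < p := by exact_mod_cast (Fact.out : p.Prime).pos
  have hM0 : 0 ≤ M := (norm_nonneg _).trans (hM 0)
  have e1 : (p : ℂ) * ∑ a ∈ A, ∑ b ∈ B, f (a - b) =
      ∑ ψ : AddChar (ZMod p) ℂ, (∑ y, f y * ψ y) * ((∑ a ∈ A, ψ (-a)) * ∑ b ∈ B, ψ b) := by
    have h1 : ∀ ψ : AddChar (ZMod p) ℂ,
        (∑ y, f y * ψ y) * ((∑ a ∈ A, ψ (-a)) * ∑ b ∈ B, ψ b) =
        ∑ a ∈ A, ∑ b ∈ B, (∑ y, f y * ψ y) * ψ (-(a - b)) := by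
      intro ψ
      rw [sum_mul_sum, mul_sum]
      refine sum_congr rfl fun a _ => ?_
      rw [mul_sum]
      refine sum_congr rfl fun b _ => ?_
      rw [neg_sub, sub_eq_add_neg, add_comm b, AddChar.map_add_eq_mul]
    simp only [h1]
    conv_rhs => rw [sum_comm]
    rw [mul_sum]
    refine sum_congr rfl fun a _ => ?_
    conv_rhs => rw [sum_comm]
    rw [mul_sum]
    refine sum_congr rfl fun b _ => ?_
    rw [inversion]
  have e2 : ∀ ψ : AddChar (ZMod p) ℂ, ‖∑ a ∈ A, ψ (-a)‖ = ‖∑ a ∈ A, ψ a‖ := by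
    intro ψ
    have : ∑ a ∈ A, ψ (-a) = (starRingEnd ℂ) (∑ a ∈ A, ψ a) := by
      rw [map_sum]
      exact sum_congr rfl fun a _ => (conj_apply ψ a).symm
    rw [this, RCLike.norm_conj]
  have e3 : (p : ℝ) * ‖∑ a ∈ A, ∑ b ∈ B, f (a - b)‖ ≤
      M * ∑ ψ : AddChar (ZMod p) ℂ, ‖∑ a ∈ A, ψ a‖ * ‖∑ b ∈ B, ψ b‖ := by
    have h1 : (p : ℝ) * ‖∑ a ∈ A, ∑ b ∈ B, f (a - b)‖ =
        ‖(p : ℂ) * ∑ a ∈ A, ∑ b ∈ B, f (a - b)‖ := by
      rw [norm_mul, Complex.norm_natCast]
    rw [h1, e1, mul_sum]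
    refine (norm_sum_le _ _).trans (sum_le_sum fun ψ _ => ?_)
    rw [norm_mul, norm_mul, e2]
    exact mul_le_mul_of_nonneg_right (hM ψ) (by positivity)
  have e4 : (∑ ψ : AddChar (ZMod p) ℂ, ‖∑ a ∈ A, ψ a‖ * ‖∑ b ∈ B, ψ b‖) ≤
      (p : ℝ) * Real.sqrt ((#A : ℝ) * #B) := by
    have h2 := sum_mul_sq_le_sq_mul_sq univ (fun ψ : AddChar (ZMod p) ℂ => ‖∑ a ∈ A, ψ a‖)
      (fun ψ => ‖∑ b ∈ B, ψ b‖)
    rw [parseval, parseval] at h2
    have h3 : 0 ≤ (p : ℝ) * Real.sqrt ((#A : ℝ) * #B) := by positivity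
    refine (abs_le_of_sq_le_sq' ?_ h3).2
    rw [mul_pow, Real.sq_sqrt (by positivity)]
    refine h2.trans (le_of_eq ?_)
    ring
  have e5 : (p : ℝ) * ‖∑ a ∈ A, ∑ b ∈ B, f (a - b)‖ ≤
      (p : ℝ) * (M * Real.sqrt ((#A : ℝ) * #B)) := by
    refine e3.trans ?_
    have := mul_le_mul_of_nonneg_left e4 hM0
    linarith
  exact le_of_mul_le_mul_left e5 hp

end MPcb27
end

section
/-!
# MP_cb27ba_nt, project BD, module FR (helper42): a large proper progression inside `2A - 2A`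
-/
set_option autoImplicit false

namespace MPcb27.Fr

open Finset MPcb27 MPcb27.Basic
open scoped Pointwise NNRat

/-- Plünnecke–Ruzsa for `8A - 8A`. -/
lemma card_8 {p : ℕ} [Fact p.Prime] (A : Finset (ZMod p)) (hA : A.Nonempty) (K : ℝ)
    (hK : (#(A + A) : ℝ) ≤ K * #A) (T : Finset (ZMod p))
    (hT : ∀ v, v ∈ T ↔ ∃ s t : Fin 8 → ZMod p, (∀ i, s i ∈ A) ∧ (∀ i, t i ∈ A) ∧
        v = ∑ i, s i - ∑ i, t i) : (#T : ℝ) ≤ K ^ 16 * #A := by
  have h1 : T ⊆ 8 • A - 8 • A := by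
    intro v hv
    obtain ⟨s, t, hs, ht, rfl⟩ := (hT v).mp hv
    refine sub_mem_sub ?_ ?_
    · rw [mem_nsmul]
      exact ⟨fun i => ⟨s i, hs i⟩, List.sum_ofFn⟩
    · rw [mem_nsmul]
      exact ⟨fun i => ⟨t i, ht i⟩, List.sum_ofFn⟩
  have h2 := pluennecke_ruzsa_inequality_nsmul_sub_nsmul_add hA A 8 8
  have h3 : ((#(8 • A - 8 • A) : ℕ) : ℝ) ≤ ((#(A + A) : ℝ) / #A) ^ 16 * #A := by
    have h4 := (NNRat.cast_le (K := ℝ)).mpr h2
    push_cast at h4
    exact h4
  have hA0 : (0 : ℝ) < #A := by exact_mod_cast hA.card_pos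
  have h4 : (#(A + A) : ℝ) / #A ≤ K := by
    rw [div_le_iff₀ hA0]
    exact hK
  calc (#T : ℝ) ≤ ((#(8 • A - 8 • A) : ℕ) : ℝ) := by exact_mod_cast card_le_card h1
    _ ≤ ((#(A + A) : ℝ) / #A) ^ 16 * #A := h3
    _ ≤ K ^ 16 * #A := by gcongr

/-- the graph of the Freiman isomorphism -/
def Rel {p N : ℕ} (A : Finset (ZMod p)) (φ : ZMod p → ZMod N) (u : ZMod N) (x : ZMod p) : Prop :=
  ∃ a₁ ∈ A, ∃ a₂ ∈ A, ∃ a₃ ∈ A, ∃ a₄ ∈ A, x = a₁ + a₂ - a₃ - a₄ ∧
    u = φ a₁ + φ a₂ - φ a₃ - φ a₄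

lemma rel_add {p N : ℕ} {A : Finset (ZMod p)} {φ : ZMod p → ZMod N}
    (hφ : ∀ s t : Fin 8 → ZMod p, (∀ i, s i ∈ A) → (∀ i, t i ∈ A) →
        (∑ i, s i = ∑ i, t i ↔ ∑ i, φ (s i) = ∑ i, φ (t i)))
    {u v w : ZMod N} {x y z : ZMod p} (hu : Rel A φ u x) (hv : Rel A φ v y) (hw : Rel A φ w z) :
    u + v = w ↔ x + y = z := by
  obtain ⟨a₁, h1, a₂, h2, a₃, h3, a₄, h4, rfl, rfl⟩ := hu
  obtain ⟨b₁, g1, b₂, g2, b₃, g3, b₄, g4, rfl, rfl⟩ := hv
  obtain ⟨c₁, f1, c₂, f2, c₃, f3, c₄, f4, rfl, rfl⟩ := hw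
  have h := hφ ![a₁, a₂, b₁, b₂, c₃, c₄, a₁, a₁] ![a₃, a₄, b₃, b₄, c₁, c₂, a₁, a₁]
    (by intro i; fin_cases i <;> simpa) (by intro i; fin_cases i <;> simpa)
  simp only [Fin.sum_univ_eight] at h
  simp only [Matrix.cons_val] at h
  constructor
  · intro h5
    have h6 := h.mpr (by linear_combination h5)
    linear_combination h6
  · intro h5
    have h6 := h.mp (by linear_combination h5)
    linear_combination h6

lemma rel_zero {p N : ℕ} {A : Finset (ZMod p)} {φ : ZMod p → ZMod N} (hA : A.Nonempty) :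
    Rel A φ 0 0 := by
  obtain ⟨a, ha⟩ := hA
  exact ⟨a, ha, a, ha, a, ha, a, ha, by ring, by ring⟩

lemma rel_inj {p N : ℕ} {A : Finset (ZMod p)} {φ : ZMod p → ZMod N} (hA : A.Nonempty)
    (hφ : ∀ s t : Fin 8 → ZMod p, (∀ i, s i ∈ A) → (∀ i, t i ∈ A) →
        (∑ i, s i = ∑ i, t i ↔ ∑ i, φ (s i) = ∑ i, φ (t i)))
    {u v : ZMod N} {x y : ZMod p} (hu : Rel A φ u x) (hv : Rel A φ v y) : u = v ↔ x = y := by
  have := rel_add hφ hu (rel_zero hA) hv
  simpa using this

/-- the pull-back of a box -/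
lemma pull {p N d : ℕ} {A : Finset (ZMod p)} {φ : ZMod p → ZMod N} (hA : A.Nonempty)
    (hφ : ∀ s t : Fin 8 → ZMod p, (∀ i, s i ∈ A) → (∀ i, t i ∈ A) →
        (∑ i, s i = ∑ i, t i ↔ ∑ i, φ (s i) = ∑ i, φ (t i)))
    (b : Fin d → ZMod N) (H : Fin d → ℕ)
    (hb : ∀ n : Fin d → ℤ, (∀ i, |n i| ≤ H i) → ∃ x, Rel A φ (lin b n) x) :
    ∃ b0 : Fin d → ZMod p, ∀ n : Fin d → ℤ, (∀ i, |n i| ≤ H i) → Rel A φ (lin b n) (lin b0 n) := by
  classical
  have h1 : ∀ i, ∃ x, (1 ≤ H i → Rel A φ (b i) x) := by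
    intro i
    by_cases hi : 1 ≤ H i
    · obtain ⟨x, hx⟩ := hb (Pi.single i 1) (by
        intro j
        by_cases hj : j = i
        · subst hj
          simpa using hi
        · rw [Pi.single_eq_of_ne hj]
          simp)
      rw [lin_single] at hx
      exact ⟨x, fun _ => by simpa using hx⟩
    · exact ⟨0, fun h => absurd h hi⟩
  choose b0 hb0 using h1
  refine ⟨b0, ?_⟩
  have key : ∀ (m : ℕ) (n : Fin d → ℤ), ∑ i, (n i).natAbs = m → (∀ i, |n i| ≤ H i) →
      Rel A φ (lin b n) (lin b0 n) := by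
    intro m
    induction m with
    | zero =>
      intro n hn _
      have h0 : n = 0 := by
        ext i
        have := (sum_eq_zero_iff.mp hn) i (mem_univ i)
        simpa using this
      rw [h0, lin_zero, lin_zero]
      exact rel_zero hA
    | succ m ih =>
      intro n hn hbox
      obtain ⟨i, hi⟩ : ∃ i, n i ≠ 0 := by
        by_contra hcon
        push Not at hcon
        have : ∑ i, (n i).natAbs = 0 := sum_eq_zero fun i _ => by rw [hcon i]; rfl
        omega
      obtain ⟨x, hx⟩ := hb n hbox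
      have hH1 : 1 ≤ H i := by
        have h2 := hbox i
        have h3 : 0 < |n i| := abs_pos.mpr hi
        omega
      rcases lt_or_gt_of_ne hi with hneg | hpos
      · -- negative coordinate
        have hsum : ∑ j, ((n + Pi.single i 1 : Fin d → ℤ) j).natAbs = m := by
          have e1 : ∑ j, (n j).natAbs = (n i).natAbs + ∑ j ∈ univ.erase i, (n j).natAbs :=
            (add_sum_erase univ _ (mem_univ i)).symm
          have e2 : ∑ j, ((n + Pi.single i 1 : Fin d → ℤ) j).natAbs =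
              ((n + Pi.single i 1 : Fin d → ℤ) i).natAbs +
              ∑ j ∈ univ.erase i, ((n + Pi.single i 1 : Fin d → ℤ) j).natAbs :=
            (add_sum_erase univ _ (mem_univ i)).symm
          have e3 : ∑ j ∈ univ.erase i, ((n + Pi.single i 1 : Fin d → ℤ) j).natAbs =
              ∑ j ∈ univ.erase i, (n j).natAbs := by
            refine sum_congr rfl fun j hj => ?_
            rw [Pi.add_apply, Pi.single_eq_of_ne (mem_erase.mp hj).1, add_zero]
          rw [e2, e3]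
          rw [e1] at hn
          rw [Pi.add_apply, Pi.single_eq_same]
          omega
        have hbox' : ∀ j, |(n + Pi.single i 1 : Fin d → ℤ) j| ≤ H j := by
          intro j
          by_cases hj : j = i
          · subst hj
            rw [Pi.add_apply, Pi.single_eq_same]
            have := abs_le.mp (hbox j)
            rw [abs_le]
            constructor <;> omega
          · rw [Pi.add_apply, Pi.single_eq_of_ne hj, add_zero]
            exact hbox j
        have h5 := ih _ hsum hbox'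
        rw [lin_add, lin_add, lin_single, lin_single] at h5
        have h6 := (rel_add hφ hx (hb0 i hH1) h5).mp (by simp)
        have h7 : x = lin b0 n := by
          have : x + b0 i = lin b0 n + b0 i := by
            rw [h6]; simp
          exact add_right_cancel this
        rw [← h7]
        exact hx
      · have hsum : ∑ j, ((n - Pi.single i 1 : Fin d → ℤ) j).natAbs = m := by
          have e1 : ∑ j, (n j).natAbs = (n i).natAbs + ∑ j ∈ univ.erase i, (n j).natAbs :=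
            (add_sum_erase univ _ (mem_univ i)).symm
          have e2 : ∑ j, ((n - Pi.single i 1 : Fin d → ℤ) j).natAbs =
              ((n - Pi.single i 1 : Fin d → ℤ) i).natAbs +
              ∑ j ∈ univ.erase i, ((n - Pi.single i 1 : Fin d → ℤ) j).natAbs :=
            (add_sum_erase univ _ (mem_univ i)).symm
          have e3 : ∑ j ∈ univ.erase i, ((n - Pi.single i 1 : Fin d → ℤ) j).natAbs =
              ∑ j ∈ univ.erase i, (n j).natAbs := by
            refine sum_congr rfl fun j hj => ?_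
            rw [Pi.sub_apply, Pi.single_eq_of_ne (mem_erase.mp hj).1, sub_zero]
          rw [e2, e3]
          rw [e1] at hn
          rw [Pi.sub_apply, Pi.single_eq_same]
          omega
        have hbox' : ∀ j, |(n - Pi.single i 1 : Fin d → ℤ) j| ≤ H j := by
          intro j
          by_cases hj : j = i
          · subst hj
            rw [Pi.sub_apply, Pi.single_eq_same]
            have := abs_le.mp (hbox j)
            rw [abs_le]
            constructor <;> omega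
          · rw [Pi.sub_apply, Pi.single_eq_of_ne hj, sub_zero]
            exact hbox j
        have h5 := ih _ hsum hbox'
        rw [lin_sub, lin_sub, lin_single, lin_single] at h5
        have h6 := (rel_add hφ h5 (hb0 i hH1) hx).mp (by simp)
        have h7 : x = lin b0 n := by
          rw [← h6]; simp
        rw [← h7]
        exact hx
  intro n hn
  exact key _ n rfl hn

theorem specFr (hM : SpecModel) (hBg : SpecBogo) (hBh : SpecBohr) : SpecFr := by
  intro K
  set K' : ℝ := max K 1 with hK'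
  have hK1 : 1 ≤ K' := le_max_right _ _
  set k : ℕ := ⌊2 * (144 * K' ^ 16) ^ 2⌋₊ with hk
  obtain ⟨C, hC⟩ := hBh k
  refine ⟨k + 1, C, ?_⟩
  intro p _ A hA hAK
  have hA0 : (0 : ℝ) < #A := by exact_mod_cast hA.card_pos
  have hA1 : (1 : ℝ) ≤ #A := by exact_mod_cast hA.card_pos
  have hAK' : (#(A + A) : ℝ) ≤ K' * #A :=
    hAK.trans (mul_le_mul_of_nonneg_right (le_max_left _ _) hA0.le)
  have hK16 : 1 ≤ K' ^ 16 := one_le_pow₀ hK1
  set M : ℕ := ⌈8 * K' ^ 16 * #A⌉₊ with hMdef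
  have hM1 : 8 * K' ^ 16 * #A ≤ M := Nat.le_ceil _
  have hM2 : (M : ℝ) < 8 * K' ^ 16 * #A + 1 := Nat.ceil_lt_add_one (by positivity)
  have hKA : 1 ≤ K' ^ 16 * #A := by nlinarith
  have hM3 : (2 * M : ℝ) ≤ 18 * K' ^ 16 * #A := by linarith
  by_cases hcase : p ≤ 2 * M
  · -- `A` is dense
    have hp : (p : ℝ) ≤ 18 * K' ^ 16 * #A := by
      have : (p : ℝ) ≤ 2 * M := by exact_mod_cast hcase
      linarith
    obtain ⟨R, hR1, hR2⟩ := hBg p A hA
    have hRk : #R ≤ k := by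
      rw [hk, Nat.le_floor_iff (by positivity)]
      have h1 : (#R : ℝ) * (#A : ℝ) ^ 2 ≤ 2 * (18 * K' ^ 16 * #A) ^ 2 := hR1.trans (by gcongr)
      have h2 : (#R : ℝ) * (#A : ℝ) ^ 2 ≤ (2 * (18 * K' ^ 16) ^ 2) * (#A : ℝ) ^ 2 := by
        calc (#R : ℝ) * (#A : ℝ) ^ 2 ≤ 2 * (18 * K' ^ 16 * #A) ^ 2 := h1
          _ = _ := by ring
      have h3 := le_of_mul_le_mul_right h2 (by positivity)
      refine h3.trans ?_
      have : 0 ≤ K' ^ 16 := by positivity
      gcongr
      norm_num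
    obtain ⟨b, H, h1, h2, h3⟩ := hC p R hRk
    refine ⟨b, H, fun n hn => hR2 _ (h1 n hn), h2, le_trans ?_ h3⟩
    have : #A ≤ p := by
      have := card_le_univ A
      rwa [ZMod.card] at this
    exact_mod_cast this
  · push Not at hcase
    have hM0 : M ≠ 0 := by
      intro h0
      rw [h0] at hM1
      simp only [Nat.cast_zero] at hM1
      nlinarith
    obtain ⟨N, hNp, hN1, hN2⟩ := Nat.exists_prime_lt_and_le_two_mul M hM0
    have : Fact N.Prime := ⟨hNp⟩
    have : NeZero N := ⟨hNp.ne_zero⟩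
    have hNr1 : (M : ℝ) ≤ N := by exact_mod_cast hN1.le
    have hNr2 : (N : ℝ) ≤ 2 * M := by exact_mod_cast hN2
    obtain ⟨A', φ, hA'A, hcardA, hφ⟩ := hM p N A hA (by omega) (by
      intro T hT
      have h1 := card_8 A hA K' hAK' T hT
      have h2 : (8 * #T : ℝ) ≤ N := by
        have : (8 : ℝ) * #T ≤ 8 * (K' ^ 16 * #A) := by linarith
        linarith
      exact_mod_cast h2)
    have hA'ne : A'.Nonempty := by
      rw [nonempty_iff_ne_empty]
      intro h0
      rw [h0, card_empty] at hcardA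
      have := hA.card_pos
      omega
    have hinj : Set.InjOn φ A' := by
      intro a ha a' ha' haa
      have e1 : Rel A' φ (φ a + φ a - φ a - φ a') (a + a - a - a') :=
        ⟨a, ha, a, ha, a, ha, a', ha', rfl, rfl⟩
      have e2 := (rel_inj hA'ne hφ e1 (rel_zero hA'ne)).mp (by rw [haa]; ring)
      linear_combination e2
    set S := A'.image φ with hS
    have hScard : #S = #A' := card_image_of_injOn hinj
    have hSne : S.Nonempty := hA'ne.image φ
    obtain ⟨R, hR1, hR2⟩ := hBg N S hSne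
    have hS0 : (0 : ℝ) < #S := by exact_mod_cast hSne.card_pos
    have hAS : (#A : ℝ) ≤ 8 * #S := by
      rw [hScard]
      exact_mod_cast hcardA
    have hNS : (N : ℝ) ≤ 144 * K' ^ 16 * #S := by
      have : 18 * K' ^ 16 * (#A : ℝ) ≤ 18 * K' ^ 16 * (8 * #S) := by gcongr
      linarith
    have hRk : #R ≤ k := by
      rw [hk, Nat.le_floor_iff (by positivity)]
      have h1 : (#R : ℝ) * (#S : ℝ) ^ 2 ≤ 2 * (144 * K' ^ 16 * #S) ^ 2 := hR1.trans (by gcongr)
      have h2 : (#R : ℝ) * (#S : ℝ) ^ 2 ≤ (2 * (144 * K' ^ 16) ^ 2) * (#S : ℝ) ^ 2 := by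
        calc (#R : ℝ) * (#S : ℝ) ^ 2 ≤ 2 * (144 * K' ^ 16 * #S) ^ 2 := h1
          _ = _ := by ring
      exact le_of_mul_le_mul_right h2 (by positivity)
    obtain ⟨b, H, h1, h2, h3⟩ := hC N R hRk
    have hbox : ∀ n : Fin (k + 1) → ℤ, (∀ i, |n i| ≤ H i) → ∃ x, Rel A' φ (lin b n) x := by
      intro n hn
      obtain ⟨s₁, hs1, s₂, hs2, s₃, hs3, s₄, hs4, hx⟩ := hR2 _ (h1 n hn)
      rw [hS, mem_image] at hs1 hs2 hs3 hs4
      obtain ⟨a₁, ha1, rfl⟩ := hs1
      obtain ⟨a₂, ha2, rfl⟩ := hs2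
      obtain ⟨a₃, ha3, rfl⟩ := hs3
      obtain ⟨a₄, ha4, rfl⟩ := hs4
      exact ⟨_, a₁, ha1, a₂, ha2, a₃, ha3, a₄, ha4, rfl, hx⟩
    obtain ⟨b0, hb0⟩ := pull hA'ne hφ b H hbox
    refine ⟨b0, H, ?_, ?_, ?_⟩
    · intro n hn
      obtain ⟨a₁, ha1, a₂, ha2, a₃, ha3, a₄, ha4, hx, -⟩ := hb0 n hn
      exact ⟨a₁, hA'A ha1, a₂, hA'A ha2, a₃, hA'A ha3, a₄, hA'A ha4, hx⟩
    · intro n n' hn hn' hnn
      exact h2 n n' hn hn' ((rel_inj hA'ne hφ (hb0 n hn) (hb0 n' hn')).mpr hnn)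
    · refine le_trans ?_ h3
      have : (#A : ℝ) ≤ 8 * K' ^ 16 * #A := by nlinarith
      linarith

end MPcb27.Fr

theorem MPcb27.specFr (hM : MPcb27.SpecModel) (hBg : MPcb27.SpecBogo) (hBh : MPcb27.SpecBohr) :
    MPcb27.SpecFr := MPcb27.Fr.specFr hM hBg hBh
end

section
/-!
# NF: a full lattice has large balls
-/
set_option autoImplicit false

namespace MPcb27.NF

open Finset MPcb27 MPcb27.Basic

variable {ι : Type} [Fintype ι] [DecidableEq ι]

/-- linearly independent integer vectors in the ball, when it is full -/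
lemma exists_rows {p : ℕ} (c : ι → ZMod p) (N : ι → ℝ) (t : ℝ)
    (h : rk c N t = Fintype.card ι) :
    ∃ G : Matrix ι ι ℤ, (∀ j, G j ∈ ball c N t) ∧ LinearIndependent ℝ (fun j => rv (G j)) := by
  obtain ⟨b, hb, hspan, hli⟩ := exists_linearIndependent ℝ (rv '' ball c N t)
  have hfin : Finite b := by
    have := hli.finite
    exact this
  haveI := Fintype.ofFinite b
  have hcard : Fintype.card b = Fintype.card ι := by
    have h1 := finrank_span_eq_card hli
    rw [Subtype.range_coe] at h1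
    rw [← h1, hspan]
    exact h
  have e : ι ≃ b := (Fintype.equivOfCardEq hcard).symm
  have hch : ∀ j : ι, ∃ w ∈ ball c N t, rv w = (e j : ι → ℝ) := fun j => hb (e j).2
  choose G hG hG' using hch
  refine ⟨G, hG, ?_⟩
  have h2 : (fun j => rv (G j)) = (Subtype.val : b → ι → ℝ) ∘ e := by
    funext j
    exact hG' j
  rw [h2]
  exact hli.comp e e.injective

lemma main (hD : SpecDet) {p : ℕ} [Fact p.Prime] (c : ι → ZMod p) (hc : c ≠ 0) (N : ι → ℝ)
    (hN : ∀ i, 0 < N i) (t : ℝ) (G : Matrix ι ι ℤ) (hG : ∀ j, G j ∈ ball c N t)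
    (hli : LinearIndependent ℝ (fun j => rv (G j))) :
    (p : ℝ) ≤ t ^ (Fintype.card ι) * ∏ i, N i := by
  set GR : Matrix ι ι ℝ := G.map (Int.cast) with hGR
  have hrow : GR.row = fun j => rv (G j) := by
    funext j i
    simp [hGR, Matrix.row, rv]
  have hdet : GR.det ≠ 0 := by
    have h1 : IsUnit GR := by
      rw [← Matrix.linearIndependent_rows_iff_isUnit, hrow]
      exact hli
    exact ((Matrix.isUnit_iff_isUnit_det _).mp h1).ne_zero
  have hcast : GR.det = ((G.det : ℤ) : ℝ) := by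
    rw [hGR]
    exact (Int.cast_det G).symm
  have hp : (p : ℤ) ∣ G.det := by
    rw [← ZMod.intCast_zmod_eq_zero_iff_dvd]
    have h1 : ((G.det : ℤ) : ZMod p) = (G.map (Int.cast : ℤ → ZMod p)).det := Int.cast_det G
    rw [h1]
    rw [← Matrix.exists_mulVec_eq_zero_iff]
    refine ⟨c, hc, ?_⟩
    funext j
    have h2 := (hG j).1
    simpa [lin, Matrix.mulVec, dotProduct] using h2
  have hne : G.det ≠ 0 := by
    intro h0
    rw [hcast, h0] at hdet
    simp at hdet
  have h1 : (p : ℝ) ≤ |GR.det| := by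
    have h2 : (p : ℤ) ≤ |G.det| := by
      have := Int.le_of_dvd (abs_pos.mpr hne) ((dvd_abs _ _).mpr hp)
      exact this
    rw [hcast]
    exact_mod_cast h2
  -- scaling
  set V : Matrix ι ι ℝ := GR * Matrix.diagonal (fun i => (N i)⁻¹) with hV
  have hVd : V.det = GR.det * ∏ i, (N i)⁻¹ := by
    rw [hV, Matrix.det_mul, Matrix.det_diagonal]
  have hVrow : ∀ j, wn (fun _ => 1) (V j) = wn N (rv (G j)) := by
    intro j
    unfold wn
    congr 1
    refine sum_congr rfl fun i _ => ?_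
    simp [hV, hGR, rv, div_eq_mul_inv]
  have h2 := (hD 1 le_rfl ι V).1
  have h3 : ∏ j, wn (fun _ => 1) (V j) ≤ t ^ (Fintype.card ι) := by
    refine (prod_le_prod (fun j _ => wn_nonneg _ _) fun j _ => ?_).trans
      (le_of_eq (prod_const t))
    rw [hVrow]
    exact (hG j).2
  have hprod : 0 < ∏ i, N i := prod_pos fun i _ => hN i
  have h4 : |GR.det| = |V.det| * ∏ i, N i := by
    rw [hVd, abs_mul, prod_inv_distrib, abs_of_pos (inv_pos.mpr hprod)]
    field_simp
  calc (p : ℝ) ≤ |GR.det| := h1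
    _ = |V.det| * ∏ i, N i := h4
    _ ≤ t ^ (Fintype.card ι) * ∏ i, N i :=
        mul_le_mul_of_nonneg_right (h2.trans h3) hprod.le

end MPcb27.NF

namespace MPcb27

/-- **NF** -/
theorem specNF (hD : SpecDet) : SpecNF := by
  intro ι _ _ p _ c N t hc hN _ h
  obtain ⟨G, hG, hli⟩ := NF.exists_rows c N t h
  exact NF.main hD c hc N hN t G hG hli

end MPcb27
end

section
/-!
# MP_cb27ba_nt, project BD: SUB
-/
set_option autoImplicit false

namespace MPcb27.Sub

open Finset MPcb27 MPcb27.Basic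

variable {ι : Type} [Fintype ι] [DecidableEq ι] {p : ℕ}

/-- extension by zero -/
def ext1 (I : Finset ι) (x : I → ℤ) : ι → ℤ := fun i => if h : i ∈ I then x ⟨i, h⟩ else 0

/-- extension by zero on `ι ⊕ ι` -/
def ext2 (I : Finset ι) (w : I ⊕ I → ℤ) : ι ⊕ ι → ℤ :=
  Sum.elim (ext1 I (fun i => w (Sum.inl i))) (ext1 I (fun i => w (Sum.inr i)))

omit [Fintype ι] in
lemma ext1_coe (I : Finset ι) (x : I → ℤ) (i : I) : ext1 I x i = x i := by
  simp [ext1]

omit [Fintype ι] in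
lemma ext1_not (I : Finset ι) (x : I → ℤ) {i : ι} (h : i ∉ I) : ext1 I x i = 0 := by
  simp [ext1, h]

lemma sum_ext1 {M : Type} [AddCommMonoid M] (I : Finset ι) (x : I → ℤ) (f : ι → ℤ → M)
    (hf : ∀ i, f i 0 = 0) : ∑ i, f i (ext1 I x i) = ∑ i : I, f i (x i) := by
  rw [← sum_subset (subset_univ I) (fun i _ hi => by rw [ext1_not I x hi, hf]), ← sum_coe_sort I]
  exact sum_congr rfl fun i _ => by rw [ext1_coe]

lemma lin_ext1 (I : Finset ι) (a : ι → ZMod p) (x : I → ℤ) :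
    lin a (ext1 I x) = lin (fun i : I => a i) x := by
  unfold lin
  exact sum_ext1 I x (fun i k => (k : ZMod p) * a i) (fun i => by simp)

lemma wn_ext1 (I : Finset ι) (N : ι → ℝ) (x : I → ℤ) :
    wn N (rv (ext1 I x)) = wn (fun i : I => N i) (rv x) := by
  unfold wn rv
  congr 1
  exact sum_ext1 I x (fun i k => ((k : ℝ) / N i) ^ 2) (fun i => by simp)

lemma lin_ext2 (I : Finset ι) (a : ι → ZMod p) (l : ZMod p) (w : I ⊕ I → ℤ) :
    lin (cl a l) (ext2 I w) = lin (cl (fun i : I => a i) l) w := by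
  rw [lin_cl, lin_cl]
  have h1 := lin_ext1 I a (fun i => w (Sum.inl i))
  have h2 := lin_ext1 I a (fun i => w (Sum.inr i))
  rw [← h1, ← h2]
  rfl

lemma wn_ext2 (I : Finset ι) (N : ι → ℝ) (w : I ⊕ I → ℤ) :
    wn (N2 N) (rv (ext2 I w)) = wn (N2 (fun i : I => N i)) (rv w) := by
  have h1 := wn_sum_elim N N (rv (ext2 I w))
  have h2 := wn_sum_elim (fun i : I => N i) (fun i : I => N i) (rv w)
  have e1 := wn_ext1 I N (fun i => w (Sum.inl i))
  have e2 := wn_ext1 I N (fun i => w (Sum.inr i))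
  have h3 : wn (N2 N) (rv (ext2 I w)) ^ 2 = wn (N2 (fun i : I => N i)) (rv w) ^ 2 := by
    rw [N2, N2, h1, h2]
    congr 1
    · rw [← show wn (fun i : I => N i) (rv fun i => w (Sum.inl i)) =
        wn (fun i : I => N i) (fun i => rv w (Sum.inl i)) from rfl, ← e1]
      rfl
    · rw [← show wn (fun i : I => N i) (rv fun i => w (Sum.inr i)) =
        wn (fun i : I => N i) (fun i => rv w (Sum.inr i)) from rfl, ← e2]
      rfl
  exact (pow_left_inj₀ (wn_nonneg _ _) (wn_nonneg _ _) two_ne_zero).mp h3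

omit [Fintype ι] in
lemma ext2_injective (I : Finset ι) : Function.Injective (ext2 I) := by
  intro x y h
  ext i
  rcases i with i | i
  · have := congrFun h (Sum.inl (i : ι))
    simpa [ext2, ext1_coe] using this
  · have := congrFun h (Sum.inr (i : ι))
    simpa [ext2, ext1_coe] using this

omit [Fintype ι] in
/-- vectors vanishing outside `I` are extensions -/
lemma ext2_of_support (I : Finset ι) (w : ι ⊕ ι → ℤ)
    (h : ∀ i, i ∉ I → w (Sum.inl i) = 0 ∧ w (Sum.inr i) = 0) :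
    w = ext2 I (Sum.elim (fun i : I => w (Sum.inl i)) (fun i : I => w (Sum.inr i))) := by
  ext i
  rcases i with i | i
  · by_cases hi : i ∈ I
    · simp [ext2, ext1, hi]
    · simp [ext2, ext1, hi, (h i hi).1]
  · by_cases hi : i ∈ I
    · simp [ext2, ext1, hi]
    · simp [ext2, ext1, hi, (h i hi).2]

/-- the balls correspond -/
lemma ball_eq (I : Finset ι) (a : ι → ZMod p) (l : ZMod p) (N : ι → ℝ) (hN : ∀ i, 1 ≤ N i)
    {t : ℝ} (ht : 0 < t) (hI : ∀ i, i ∈ I ↔ 1 ≤ N i * t) :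
    ball (cl a l) (N2 N) t =
      ext2 I '' ball (cl (fun i : I => a i) l) (N2 (fun i : I => N i * t)) 1 := by
  have hNpos : ∀ i, 0 < N i := fun i => lt_of_lt_of_le one_pos (hN i)
  have hscale : ∀ w : I ⊕ I → ℤ, wn (N2 (fun i : I => N i * t)) (rv w) =
      wn (N2 (fun i : I => N i)) (rv w) / t := by
    intro w
    rw [← wn_scale (N2 (fun i : I => N i)) ht (rv w)]
    congr 1
    ext i
    rcases i with i | i <;> rfl
  ext w
  constructor
  · rintro ⟨hl, hw⟩
    have hsupp : ∀ i, i ∉ I → w (Sum.inl i) = 0 ∧ w (Sum.inr i) = 0 := by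
      intro i hi
      rw [hI] at hi
      push Not at hi
      have key : ∀ k : ι ⊕ ι, N2 N k = N i → w k = 0 := by
        intro k hk
        have h1 := abs_le_wn (N2_pos hNpos) (rv w) k
        rw [hk] at h1
        have h2 : |rv w k| < 1 :=
          lt_of_le_of_lt (h1.trans (mul_le_mul_of_nonneg_left hw (hNpos i).le)) hi
        have h3 : |w k| < 1 := by
          unfold rv at h2
          exact_mod_cast h2
        exact Int.abs_lt_one_iff.mp h3
      exact ⟨key (Sum.inl i) rfl, key (Sum.inr i) rfl⟩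
    have he := ext2_of_support I w hsupp
    refine ⟨_, ⟨?_, ?_⟩, he.symm⟩
    · rw [← lin_ext2, ← he]
      exact hl
    · rw [hscale, ← wn_ext2, ← he, div_le_one ht]
      exact hw
  · rintro ⟨v, ⟨hl, hv⟩, rfl⟩
    refine ⟨by rw [lin_ext2]; exact hl, ?_⟩
    rw [hscale, div_le_one ht] at hv
    rw [wn_ext2]
    exact hv

end MPcb27.Sub

namespace MPcb27

open Finset Basic

theorem specSub : SpecSub := by
  intro ι _ _ p _ a N t I hN ht ht1 hI
  refine ⟨fun l => ?_, fun T hT hS => ?_⟩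
  · unfold cnt
    rw [Sub.ball_eq I a l N hN ht hI, Set.ncard_image_of_injective _ (Sub.ext2_injective I)]
  · refine ⟨fun i => (hI i).mp i.2, fun x hx hl => ?_⟩
    have hx' : Sub.ext1 I x ≠ 0 := by
      intro h
      apply hx
      ext i
      have := congrFun h (i : ι)
      rwa [Sub.ext1_coe] at this
    have h1 := hS.2 (Sub.ext1 I x) hx' (by rw [Sub.lin_ext1]; exact hl)
    rw [Sub.wn_ext1] at h1
    rw [wn_scale (fun i : I => N i) ht (rv x), lt_div_iff₀ ht]
    nlinarith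

theorem specNumL (hB : SpecBoxCnt) : SpecNumL := by
  classical
  intro ι _ _ p _ a N T t hS ht htT
  have hNpos : ∀ i, 0 < N i := Sys.pos hS
  obtain ⟨hfin, hcard⟩ := hB (ι ⊕ ι) (N2 N) (N2_pos hNpos) t ht
  have hprod : ∏ i, (3 * max 1 (t * N2 N i)) = ∏ i, (3 * max 1 (t * N i)) ^ 2 := by
    rw [Fintype.prod_sum_type, prod_pow, sq]
    rfl
  rw [hprod] at hcard
  refine le_trans ?_ hcard
  -- the map `w ↦ lin a u / lin a v`
  set f : (ι ⊕ ι → ℤ) → ZMod p := fun w =>
    lin a (fun i => w (Sum.inl i)) / lin a (fun i => w (Sum.inr i)) with hf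
  have hsub : {l : ZMod p | l ≠ 0 ∧ ∃ w ∈ ball (cl a l) (N2 N) t, w ≠ 0} ⊆
      f '' {w : ι ⊕ ι → ℤ | wn (N2 N) (rv w) ≤ t} := by
    rintro l ⟨hl0, w, hw, hw0⟩
    refine ⟨w, hw.2, ?_⟩
    have h1 := hw.1
    rw [lin_cl, sub_eq_zero] at h1
    have hv : lin a (fun i => w (Sum.inr i)) ≠ 0 := by
      intro h0
      have hu : lin a (fun i => w (Sum.inl i)) = 0 := by rw [h1, h0, mul_zero]
      have key : ∀ x : ι → ℤ, lin a x = 0 → wn N (rv x) ≤ t → x = 0 := by
        intro x hx hwx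
        by_contra hne
        have := hS.2 x hne hx
        linarith
      have e1 := key _ h0 ((wn_inr_le N (rv w)).trans hw.2)
      have e2 := key _ hu ((wn_inl_le N (rv w)).trans hw.2)
      apply hw0
      ext i
      rcases i with i | i
      · exact congrFun e2 i
      · exact congrFun e1 i
    rw [hf]
    simp only
    rw [h1, mul_div_assoc, div_self hv, mul_one]
  have h2 : {l : ZMod p | l ≠ 0 ∧ ∃ w ∈ ball (cl a l) (N2 N) t, w ≠ 0}.ncard ≤
      {w : ι ⊕ ι → ℤ | wn (N2 N) (rv w) ≤ t}.ncard :=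
    (Set.ncard_le_ncard hsub (hfin.image f)).trans (Set.ncard_image_le hfin)
  exact_mod_cast h2

end MPcb27
end

section
/-!
# MP_cb27ba_nt, project BD: FULL
-/
set_option autoImplicit false

namespace MPcb27.Full

open Finset MPcb27 MPcb27.Basic MPcb27.Sub

variable {ι : Type} [Fintype ι] [DecidableEq ι] {p : ℕ}

/-- real extension by zero -/
noncomputable def extR (I : Finset ι) : (I ⊕ I → ℝ) →ₗ[ℝ] (ι ⊕ ι → ℝ) where
  toFun y := Sum.elim (fun i => if h : i ∈ I then y (Sum.inl ⟨i, h⟩) else 0)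
    (fun i => if h : i ∈ I then y (Sum.inr ⟨i, h⟩) else 0)
  map_add' x y := by
    ext i
    rcases i with i | i
    · by_cases h : i ∈ I <;> simp [h]
    · by_cases h : i ∈ I <;> simp [h]
  map_smul' c y := by
    ext i
    rcases i with i | i
    · by_cases h : i ∈ I <;> simp [h]
    · by_cases h : i ∈ I <;> simp [h]

omit [Fintype ι] in
lemma extR_rv (I : Finset ι) (w : I ⊕ I → ℤ) : extR I (rv w) = rv (ext2 I w) := by
  ext i
  rcases i with i | i
  · by_cases h : i ∈ I <;> simp [extR, rv, ext2, ext1, h]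
  · by_cases h : i ∈ I <;> simp [extR, rv, ext2, ext1, h]

lemma wn_ext2_scale (I : Finset ι) (N : ι → ℝ) {t : ℝ} (ht : 0 < t) (w : I ⊕ I → ℤ) :
    wn (N2 N) (rv (ext2 I w)) = t * wn (N2 (fun i : I => N i * t)) (rv w) := by
  rw [wn_ext2]
  have hscale : wn (N2 (fun i : I => N i * t)) (rv w) =
      wn (N2 (fun i : I => N i)) (rv w) / t := by
    rw [← wn_scale (N2 (fun i : I => N i)) ht (rv w)]
    congr 1
    ext i
    rcases i with i | i <;> rfl
  rw [hscale]
  field_simp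

omit [Fintype ι] in
lemma ext2_sub (I : Finset ι) (x y : I ⊕ I → ℤ) : ext2 I (x - y) = ext2 I x - ext2 I y := by
  ext i
  rcases i with i | i
  · by_cases h : i ∈ I <;> simp [ext2, ext1, h]
  · by_cases h : i ∈ I <;> simp [ext2, ext1, h]

end MPcb27.Full

namespace MPcb27

open Finset MPcb27.Basic MPcb27.Sub MPcb27.Full

theorem specFull : SpecFull := by
  intro ι _ _ p _ a N l t T I hN ht hT hex hfull
  have hNpos : ∀ i, 0 < N i := fun i => lt_of_lt_of_le one_pos (hN i)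
  have hN2 : ∀ k, 0 < N2 N k := N2_pos hNpos
  obtain ⟨i0, hi0, ha0⟩ := hex
  have hcardI : Fintype.card (I ⊕ I) = 2 * #I := by
    rw [Fintype.card_sum, Fintype.card_coe, two_mul]
  obtain ⟨G, hG, hli⟩ := NF.exists_rows (cl (fun i : I => a i) l)
    (N2 (fun i : I => N i * t)) T (by rw [hfull, hcardI])
  set d := Fintype.card ι with hd
  have hId : #I ≤ d := by rw [hd, ← card_univ]; exact card_le_card (subset_univ I)
  have hI1 : 1 ≤ #I := card_pos.mpr ⟨i0, hi0⟩
  set B : ℝ := 1 + 2 * (d : ℝ) * (T * t) with hB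
  have hTt : 0 ≤ T * t := mul_nonneg hT ht.le
  have hd1 : (1 : ℝ) ≤ d := by exact_mod_cast hI1.trans hId
  have hTtB : T * t ≤ B := by
    rw [hB]
    nlinarith
  set S : Submodule ℝ (ι ⊕ ι → ℝ) := Submodule.span ℝ (rv '' ball (cl a l) (N2 N) B) with hS
  -- the span of the rows of the subsystem is everything
  have htop : Submodule.span ℝ (Set.range fun j => rv (G j)) = ⊤ := by
    apply hli.span_eq_top_of_card_eq_finrank'
    rw [Module.finrank_fintype_fun_eq_card]
  have hrow : ∀ j, rv (ext2 I (G j)) ∈ S := by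
    intro j
    refine Submodule.subset_span ⟨ext2 I (G j), ⟨?_, ?_⟩, rfl⟩
    · rw [lin_ext2]
      exact (hG j).1
    · rw [wn_ext2_scale I N ht]
      have := (hG j).2
      nlinarith
  have hE : ∀ y : I ⊕ I → ℝ, extR I y ∈ S := by
    intro y
    have hy : y ∈ Submodule.span ℝ (Set.range fun j => rv (G j)) := by rw [htop]; trivial
    have h1 : (Submodule.span ℝ (Set.range fun j => rv (G j))).map (extR I) ≤ S := by
      rw [Submodule.map_span, Submodule.span_le]
      rintro _ ⟨_, ⟨j, rfl⟩, rfl⟩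
      simp only
      rw [extR_rv]
      exact hrow j
    exact h1 ⟨y, hy, rfl⟩
  -- the unit vectors
  have hunit : ∀ k : ι ⊕ ι, (Pi.single k (1 : ℝ) : ι ⊕ ι → ℝ) ∈ S := by
    intro k
    set w : ι ⊕ ι → ℤ := Pi.single k 1 with hw
    set c : ℤ := ((lin (cl a l) w / a i0 : ZMod p).val : ℤ) with hc
    set g' : I ⊕ I → ℤ := Pi.single (Sum.inl ⟨i0, hi0⟩) c with hg'
    have hlin' : lin (cl (fun i : I => a i) l) g' = lin (cl a l) w := by
      rw [hg', lin_single]
      show ((c : ℤ) : ZMod p) * a i0 = _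
      rw [hc, Int.cast_natCast, ZMod.natCast_zmod_val, div_mul_cancel₀ _ ha0]
    -- real coordinates
    have hy : rv g' ∈ Submodule.span ℝ (Set.range fun j => rv (G j)) := by rw [htop]; trivial
    rw [Submodule.mem_span_range_iff_exists_fun] at hy
    obtain ⟨x, hx⟩ := hy
    set g'' : I ⊕ I → ℤ := fun i => g' i - ∑ j, ⌊x j⌋ * G j i with hg''
    have hg''eq : g'' = g' - fun i => ∑ j, ⌊x j⌋ * G j i := rfl
    have hrv : rv g'' = fun i => ∑ j, Int.fract (x j) * rv (G j) i := by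
      ext i
      have h1 := congrFun hx i
      rw [Finset.sum_apply] at h1
      simp only [Pi.smul_apply, smul_eq_mul] at h1
      rw [hg'']
      simp only [rv]
      push_cast
      rw [← show rv g' i = ((g' i : ℤ) : ℝ) from rfl, ← h1, ← sum_sub_distrib]
      refine sum_congr rfl fun j _ => ?_
      simp only [rv, Int.fract]
      ring
    have hlin'' : lin (cl (fun i : I => a i) l) g'' = lin (cl a l) w := by
      rw [hg''eq, lin_sub, lin_comb _ (fun j => ⌊x j⌋) (fun j => (G j : I ⊕ I → ℤ)), hlin']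
      rw [sum_eq_zero fun j _ => by rw [(hG j).1, mul_zero], sub_zero]
    have hwn'' : wn (N2 (fun i : I => N i * t)) (rv g'') ≤ 2 * d * T := by
      rw [hrv]
      refine (wn_comb_le (N2 (fun i : I => N i * t)) (fun j => Int.fract (x j))
        (fun j => rv (G j))).trans ?_
      calc ∑ j, |Int.fract (x j)| * wn (N2 (fun i : I => N i * t)) (rv (G j)) ≤
          ∑ _j : I ⊕ I, T := by
            refine sum_le_sum fun j _ => ?_
            have h1 : |Int.fract (x j)| ≤ 1 := by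
              rw [abs_of_nonneg (Int.fract_nonneg _)]
              exact (Int.fract_lt_one _).le
            have h2 := (hG j).2
            have h3 := wn_nonneg (N2 (fun i : I => N i * t)) (rv (G j))
            have h4 := abs_nonneg (Int.fract (x j))
            nlinarith
        _ = ((2 * #I : ℕ) : ℝ) * T := by
            rw [sum_const, card_univ, hcardI, nsmul_eq_mul]
        _ ≤ 2 * d * T := by
            refine mul_le_mul_of_nonneg_right ?_ hT
            push_cast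
            have : ((#I : ℕ) : ℝ) ≤ d := by exact_mod_cast hId
            linarith
    -- the vector `v`
    set v : ι ⊕ ι → ℤ := w - ext2 I g'' with hv
    have hvS : rv v ∈ S := by
      refine Submodule.subset_span ⟨v, ⟨?_, ?_⟩, rfl⟩
      · rw [hv, lin_sub, lin_ext2, hlin'', sub_self]
      · have h1 : rv v = fun i => rv w i + -(rv (ext2 I g'') i) := by
          ext i
          simp only [hv, rv, Pi.sub_apply]
          push_cast
          ring
        rw [h1]
        refine (wn_add_le (N2 N) (rv w) (fun i => -(rv (ext2 I g'') i))).trans ?_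
        rw [wn_neg, wn_ext2_scale I N ht]
        have h2 : wn (N2 N) (rv w) ≤ 1 := by
          rw [hw, rv_single, wn_single hN2]
          have h3 : 1 ≤ N2 N k := by
            rcases k with k | k
            · exact hN k
            · exact hN k
          rw [Int.cast_one, abs_one, div_le_one (hN2 k)]
          exact h3
        rw [hB]
        nlinarith
    have h5 : (Pi.single k (1 : ℝ) : ι ⊕ ι → ℝ) = rv v + extR I (rv g'') := by
      rw [extR_rv]
      have h6 : (Pi.single k (1 : ℝ) : ι ⊕ ι → ℝ) = rv w := by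
        rw [hw, rv_single, Int.cast_one]
      rw [h6]
      ext i
      simp only [hv, rv, Pi.sub_apply, Pi.add_apply]
      push_cast
      ring
    rw [h5]
    exact S.add_mem hvS (hE _)
  have hStop : S = ⊤ := by
    rw [eq_top_iff]
    intro y _
    have : y = ∑ k, y k • (Pi.single k (1 : ℝ) : ι ⊕ ι → ℝ) := by
      ext i
      rw [Finset.sum_apply, sum_eq_single i]
      · simp
      · intro j _ hj
        simp [Pi.single_eq_of_ne (Ne.symm hj)]
      · intro h
        exact absurd (mem_univ i) h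
    rw [this]
    exact S.sum_mem fun k _ => S.smul_mem _ (hunit k)
  show Module.finrank ℝ S = 2 * d
  rw [hStop, finrank_top, Module.finrank_fintype_fun_eq_card, Fintype.card_sum, ← two_mul]

end MPcb27
end
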