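import Pool.Agent.Lib.MP_cb27ba_nt.BD.Det

section
/-!
# MP_cb27ba_nt, project BD: COR, the Burgess bound for all proper progressions of any rank
-/
set_option autoImplicit false

namespace MPcb27.Cor

open Finset MPcb27 MPcb27.Basic

variable {ι : Type} [Fintype ι] [DecidableEq ι]

/-- shifting a box -/
theorem shift_le (H m : ι → ℕ) {ε : ℝ} (hε0 : 0 ≤ ε) (hε1 : ε ≤ 1)
    (hm : ∀ i, (m i : ℝ) ≤ ε * H i) (F : (ι → ℕ) → ℂ) (hF : ∀ n, ‖F n‖ ≤ 1) :
    ‖∑ n ∈ bx H, F n - ∑ n ∈ bx H, F (fun i => m i + n i)‖ ≤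
      2 * (Fintype.card ι * ε * ∏ i, (H i : ℝ)) := by
  have hmH : ∀ i, m i ≤ H i := by
    intro i
    have h1 := hm i
    have h2 : (0 : ℝ) ≤ H i := Nat.cast_nonneg _
    have : (m i : ℝ) ≤ H i := by nlinarith
    exact_mod_cast this
  set G : ι → ℕ := fun i => H i - m i with hG
  have hGH : ∀ i, G i ≤ H i := fun i => Nat.sub_le _ _
  have hGe : ∀ i, (1 - ε) * H i ≤ G i := by
    intro i
    rw [hG]
    simp only
    rw [Nat.cast_sub (hmH i)]
    linarith [hm i]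
  have h1 := Tile.sum_rest G H hGH hε0 hε1 hGe (fun n => F (fun i => m i + n i)) (fun n => hF _)
  -- the second comparison
  have hcardG : ((#(bx H) : ℕ) : ℝ) - #(bx G) ≤ Fintype.card ι * ε * ∏ i, (H i : ℝ) := by
    have := Tile.sum_rest G H hGH hε0 hε1 hGe (fun _ => 1) (fun _ => by simp)
    simp only [sum_const, nsmul_eq_mul, mul_one] at this
    refine le_trans ?_ this
    rw [← Complex.ofReal_natCast, ← Complex.ofReal_natCast, ← Complex.ofReal_sub,
      Complex.norm_real]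
    exact Real.le_norm_self _
  have hinj : Function.Injective (fun (n : ι → ℕ) => (fun i => m i + n i)) := by
    intro x y h
    funext i
    have := congrFun h i
    simpa using this
  have hsub : (bx G).map ⟨_, hinj⟩ ⊆ bx H := by
    intro n hn
    rw [mem_map] at hn
    obtain ⟨k, hk, rfl⟩ := hn
    rw [Tile.mem_bx] at hk ⊢
    intro i
    have h1 := hk i
    have h2 := hmH i
    simp only [Function.Embedding.coeFn_mk, hG] at *
    omega
  have h2 : ‖∑ n ∈ bx H, F n - ∑ n ∈ bx G, F (fun i => m i + n i)‖ ≤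
      Fintype.card ι * ε * ∏ i, (H i : ℝ) := by
    have h3 : ∑ n ∈ bx G, F (fun i => m i + n i) = ∑ n ∈ (bx G).map ⟨_, hinj⟩, F n := by
      rw [sum_map]
      rfl
    rw [h3]
    have h4 : ∑ n ∈ bx H, F n - ∑ n ∈ (bx G).map ⟨_, hinj⟩, F n =
        ∑ n ∈ bx H \ (bx G).map ⟨_, hinj⟩, F n := by
      rw [← sum_sdiff hsub]
      ring
    rw [h4]
    have h5 : ‖∑ n ∈ bx H \ (bx G).map ⟨_, hinj⟩, F n‖ ≤ #(bx H \ (bx G).map ⟨_, hinj⟩) := by
      refine (norm_sum_le _ _).trans ?_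
      refine (sum_le_sum fun n _ => hF n).trans ?_
      simp
    refine h5.trans (le_trans (le_of_eq ?_) hcardG)
    rw [card_sdiff_of_subset hsub, Nat.cast_sub (card_le_card hsub), card_map]
  have h3 : ∑ n ∈ bx H, F n - ∑ n ∈ bx H, F (fun i => m i + n i) =
      (∑ n ∈ bx H, F n - ∑ n ∈ bx G, F (fun i => m i + n i)) -
      (∑ n ∈ bx H, F (fun i => m i + n i) - ∑ n ∈ bx G, F (fun i => m i + n i)) := by ring
  rw [h3]
  refine (norm_sub_le _ _).trans ?_
  linarith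

omit [DecidableEq ι] in
lemma lin_cast {p : ℕ} (b : ι → ZMod p) (n : ι → ℕ) : lin b (fun i => (n i : ℤ)) = linN b n := by
  simp [lin, linN]

end MPcb27.Cor

namespace MPcb27

open Finset Basic

/-- the Burgess bound for proper progressions of any rank -/
def SpecCor : Prop :=
  ∀ (d : ℕ) (δ : ℝ), 0 < δ → ∃ τ : ℝ, 0 < τ ∧ ∃ P : ℕ, ∀ (p : ℕ) [Fact p.Prime], P ≤ p →
    ∀ (b : Fin d → ZMod p) (H : Fin d → ℕ),
      (∀ n ∈ bx H, ∀ n' ∈ bx H, linN b n = linN b n' → n = n') →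
      (p : ℝ) ^ (1 / 4 + δ) ≤ ∏ i, (H i : ℝ) →
      ∀ (χ : MulChar (ZMod p) ℂ), χ ≠ 1 → ∀ z : ZMod p,
        ‖∑ n ∈ bx H, χ (z + linN b n)‖ ≤ (p : ℝ) ^ (-τ) * ∏ i, (H i : ℝ)

theorem specCor (hG : SpecGapP) : SpecCor := by
  intro d δ hδ
  obtain ⟨τ0, hτ0, P0, hP0⟩ := hG d δ hδ
  -- parameters
  set κ : ℝ := τ0 / (2 * (d + 1)) with hκ
  have hκ0 : 0 < κ := by positivity
  have hdκ : (d : ℝ) * κ ≤ τ0 / 2 := by
    rw [hκ, mul_div_assoc', div_le_div_iff₀ (by positivity) (by positivity)]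
    nlinarith [hτ0, Nat.cast_nonneg (α := ℝ) d]
  set τ : ℝ := min (κ / 2) (τ0 / 4) with hτ
  have hτpos : 0 < τ := by positivity
  have hev : ∀ᶠ x : ℝ in Filter.atTop, 2 * (2 * (d : ℝ) + 1) ≤ x ^ (κ / 2) ∧
      (2 : ℝ) ≤ x ^ (τ0 / 4) :=
    ((tendsto_rpow_atTop (by positivity)).eventually_ge_atTop _).and
      ((tendsto_rpow_atTop (show 0 < τ0 / 4 by positivity)).eventually_ge_atTop _)
  obtain ⟨x0, hx0⟩ := Filter.eventually_atTop.mp hev
  obtain ⟨P1, hP1⟩ := exists_nat_ge (max x0 2)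
  refine ⟨τ, hτpos, max P0 P1, ?_⟩
  intro p _ hp b H hinj hV χ hχ z
  have hpP : (P1 : ℝ) ≤ p := by exact_mod_cast (le_max_right _ _).trans hp
  obtain ⟨hx1, hx2⟩ := hx0 p ((le_max_left _ _).trans (hP1.trans hpP))
  have hp2 : (2 : ℝ) ≤ p := (le_max_right _ _).trans (hP1.trans hpP)
  have hp0 : (0 : ℝ) < p := by linarith
  have hp1 : (1 : ℝ) < p := by linarith
  have hVpos : 0 < ∏ i, (H i : ℝ) := lt_of_lt_of_le (by positivity) hV
  have hH1 : ∀ i, 1 ≤ H i := by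
    intro i
    rw [Nat.one_le_iff_ne_zero]
    intro h0
    rw [prod_eq_zero (mem_univ i) (by rw [h0]; simp)] at hVpos
    exact lt_irrefl _ hVpos
  set y : ℝ := (p : ℝ) ^ κ with hy
  have hy1 : 1 < y := Real.one_lt_rpow hp1 hκ0
  have hy0 : 0 < y := by linarith
  set M : Fin d → ℕ := fun i => ⌈(H i : ℝ) / y⌉₊ with hM
  have hH0 : ∀ i, (0 : ℝ) < H i := fun i => by exact_mod_cast hH1 i
  have hMge : ∀ i, (H i : ℝ) / y ≤ M i := fun i => Nat.le_ceil _
  have hM1 : ∀ i, 1 ≤ M i := fun i => Nat.one_le_iff_ne_zero.mpr (by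
    have := Nat.ceil_pos.mpr (div_pos (hH0 i) hy0)
    exact this.ne')
  have hMlt : ∀ i, (M i : ℝ) < (H i : ℝ) / y + 1 := fun i =>
    Nat.ceil_lt_add_one (div_pos (hH0 i) hy0).le
  have hMH : ∀ i, M i ≤ H i := by
    intro i
    rw [hM]
    refine Nat.ceil_le.mpr ?_
    exact div_le_self (hH0 i).le hy1.le
  have hmem : ∀ m ∈ bx M, ∀ i, (m i : ℝ) ≤ y⁻¹ * H i := by
    intro m hm i
    rw [Tile.mem_bx] at hm
    have h1 : (m i : ℝ) + 1 ≤ M i := by exact_mod_cast hm i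
    have h2 := hMlt i
    rw [inv_mul_eq_div]
    linarith
  have hyinv0 : 0 ≤ y⁻¹ := by positivity
  have hyinv1 : y⁻¹ ≤ 1 := inv_le_one_of_one_le₀ hy1.le
  set V : ℝ := ∏ i, (H i : ℝ) with hVdef
  set W : ℝ := ∏ i, (M i : ℝ) with hWdef
  have hWpos : 0 < W := prod_pos fun i _ => by exact_mod_cast hM1 i
  set S : ℂ := ∑ n ∈ bx H, χ (z + linN b n) with hS
  have hcardM : ((#(bx M) : ℕ) : ℝ) = W := by rw [Tile.card_bx]; push_cast; rfl
  have hcardH : ((#(bx H) : ℕ) : ℝ) = V := by rw [Tile.card_bx]; push_cast; rfl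
  -- averaging
  have hav : ‖(#(bx M) : ℂ) * S - ∑ m ∈ bx M, ∑ n ∈ bx H, χ (z + linN b (fun i => m i + n i))‖ ≤
      W * (2 * (d * y⁻¹ * V)) := by
    have h1 : (#(bx M) : ℂ) * S - ∑ m ∈ bx M, ∑ n ∈ bx H, χ (z + linN b (fun i => m i + n i)) =
        ∑ m ∈ bx M, (S - ∑ n ∈ bx H, χ (z + linN b (fun i => m i + n i))) := by
      rw [sum_sub_distrib, sum_const, nsmul_eq_mul]
    rw [h1]
    refine (norm_sum_le _ _).trans ?_
    refine (sum_le_sum fun m hm => Cor.shift_le H m hyinv0 hyinv1 (hmem m hm)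
      (fun n => χ (z + linN b n)) (fun n => DirichletCharacter.norm_le_one _ _)).trans
      (le_of_eq ?_)
    rw [sum_const, nsmul_eq_mul, hcardM, Fintype.card_fin]
  -- the bilinear sum
  have hsubM : ∀ m ∈ bx M, m ∈ bx H := fun m hm => Tile.bx_mono hMH hm
  set A : Finset (ZMod p) := (bx H).image (fun n => z + linN b n) with hA
  set B : Finset (ZMod p) := (bx M).image (fun m => -linN b m) with hB
  have hcA : #A = #(bx H) := by
    refine card_image_of_injOn fun n hn n' hn' h => ?_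
    exact hinj n hn n' hn' (by simpa using h)
  have hcB : #B = #(bx M) := by
    refine card_image_of_injOn fun n hn n' hn' h => ?_
    exact hinj n (hsubM n hn) n' (hsubM n' hn') (by simpa using h)
  have hbil : ∑ m ∈ bx M, ∑ n ∈ bx H, χ (z + linN b (fun i => m i + n i)) =
      ∑ u ∈ A, ∑ v ∈ B, χ (u - v) := by
    rw [sum_comm, hA, sum_image (fun n hn n' hn' h => hinj n hn n' hn' (by simpa using h))]
    refine sum_congr rfl fun n _ => ?_
    rw [hB, sum_image (fun n hn n' hn' h => hinj n (hsubM n hn) n' (hsubM n' hn')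
      (by simpa using h))]
    refine sum_congr rfl fun m _ => ?_
    congr 1
    rw [Tile.linN_add]
    ring
  have hgap := hP0 p ((le_max_left _ _).trans hp) b H hH1 hV A B z 0
    (fun u hu => by
      rw [hA, mem_image] at hu
      obtain ⟨n, hn, rfl⟩ := hu
      refine ⟨fun i => (n i : ℤ), fun i => ?_, by rw [Cor.lin_cast]⟩
      rw [Tile.mem_bx] at hn
      show |((n i : ℕ) : ℤ)| ≤ H i
      rw [abs_of_nonneg (by positivity)]
      exact_mod_cast (hn i).le)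
    (fun u hu => by
      rw [hB, mem_image] at hu
      obtain ⟨m, hm, rfl⟩ := hu
      refine ⟨-(fun i => (m i : ℤ)), fun i => ?_, by rw [lin_neg, Cor.lin_cast, zero_add]⟩
      have hm2 := hsubM m hm
      rw [Tile.mem_bx] at hm2
      show |-((m i : ℕ) : ℤ)| ≤ H i
      rw [abs_neg, abs_of_nonneg (by positivity)]
      exact_mod_cast (hm2 i).le) χ hχ
  rw [← hbil, hcA, hcB, hcardH, hcardM] at hgap
  -- combine
  have htot : W * ‖S‖ ≤ W * (2 * (d * y⁻¹ * V)) + (p : ℝ) ^ (-τ0) * V * Real.sqrt (V * W) := by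
    have h1 : W * ‖S‖ = ‖(#(bx M) : ℂ) * S‖ := by
      rw [norm_mul, Complex.norm_natCast, hcardM]
    rw [h1]
    have h2 := norm_add_le ((#(bx M) : ℂ) * S -
      ∑ m ∈ bx M, ∑ n ∈ bx H, χ (z + linN b (fun i => m i + n i)))
      (∑ m ∈ bx M, ∑ n ∈ bx H, χ (z + linN b (fun i => m i + n i)))
    rw [sub_add_cancel] at h2
    linarith
  -- `V ≤ y ^ d * W`
  have hVW : V ≤ y ^ d * W := by
    have h1 : V ≤ ∏ i : Fin d, (y * (M i : ℝ)) := by
      refine prod_le_prod (fun i _ => (hH0 i).le) fun i _ => ?_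
      have := hMge i
      rw [div_le_iff₀ hy0] at this
      linarith
    rwa [prod_mul_distrib, prod_const, card_univ, Fintype.card_fin] at h1
  have hsq : Real.sqrt (V * W) ≤ (p : ℝ) ^ (τ0 / 4) * W := by
    have h1 : V * W ≤ ((p : ℝ) ^ (τ0 / 4) * W) ^ 2 := by
      have h2 : y ^ d ≤ ((p : ℝ) ^ (τ0 / 4)) ^ 2 := by
        rw [hy, ← Real.rpow_natCast, ← Real.rpow_mul hp0.le, ← Real.rpow_natCast,
          ← Real.rpow_mul hp0.le]
        refine Real.rpow_le_rpow_of_exponent_le hp1.le ?_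
        push_cast
        linarith
      calc V * W ≤ y ^ d * W * W := mul_le_mul_of_nonneg_right hVW hWpos.le
        _ ≤ ((p : ℝ) ^ (τ0 / 4)) ^ 2 * W * W := by
            have : 0 ≤ W * W := by positivity
            nlinarith
        _ = _ := by ring
    calc Real.sqrt (V * W) ≤ Real.sqrt (((p : ℝ) ^ (τ0 / 4) * W) ^ 2) := Real.sqrt_le_sqrt h1
      _ = _ := Real.sqrt_sq (by positivity)
  have hS1 : ‖S‖ ≤ (2 * d * y⁻¹ + (p : ℝ) ^ (-(3 * τ0 / 4))) * V := by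
    have h1 : W * ‖S‖ ≤ W * ((2 * d * y⁻¹ + (p : ℝ) ^ (-(3 * τ0 / 4))) * V) := by
      refine htot.trans ?_
      have h2 : (p : ℝ) ^ (-τ0) * (p : ℝ) ^ (τ0 / 4) = (p : ℝ) ^ (-(3 * τ0 / 4)) := by
        rw [← Real.rpow_add hp0]
        congr 1
        ring
      have h3 : (p : ℝ) ^ (-τ0) * V * Real.sqrt (V * W) ≤
          (p : ℝ) ^ (-τ0) * V * ((p : ℝ) ^ (τ0 / 4) * W) :=
        mul_le_mul_of_nonneg_left hsq (by positivity)
      have h4 : (p : ℝ) ^ (-τ0) * V * ((p : ℝ) ^ (τ0 / 4) * W) =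
          W * ((p : ℝ) ^ (-(3 * τ0 / 4)) * V) := by
        rw [← h2]; ring
      rw [h4] at h3
      linarith
    exact le_of_mul_le_mul_left h1 hWpos
  refine hS1.trans (mul_le_mul_of_nonneg_right ?_ hVpos.le)
  -- numerical estimates
  have hyinv : y⁻¹ = (p : ℝ) ^ (-(κ / 2)) * ((p : ℝ) ^ (κ / 2))⁻¹ := by
    rw [hy, ← Real.rpow_neg hp0.le, ← Real.rpow_neg hp0.le, ← Real.rpow_add hp0]
    congr 1
    ring
  have e1 : 2 * d * y⁻¹ ≤ (p : ℝ) ^ (-(κ / 2)) / 2 := by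
    rw [hyinv]
    have h1 : (0 : ℝ) < (p : ℝ) ^ (κ / 2) := by positivity
    have h2 : (0 : ℝ) < (p : ℝ) ^ (-(κ / 2)) := by positivity
    rw [show 2 * (d : ℝ) * ((p : ℝ) ^ (-(κ / 2)) * ((p : ℝ) ^ (κ / 2))⁻¹) =
      (p : ℝ) ^ (-(κ / 2)) * (2 * d / (p : ℝ) ^ (κ / 2)) by ring]
    rw [div_eq_mul_inv ((p : ℝ) ^ (-(κ / 2))) 2]
    refine mul_le_mul_of_nonneg_left ?_ h2.le
    rw [div_le_iff₀ h1]
    linarith
  have e2 : (p : ℝ) ^ (-(3 * τ0 / 4)) ≤ (p : ℝ) ^ (-(τ0 / 4)) / 2 := by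
    have h1 : (p : ℝ) ^ (-(3 * τ0 / 4)) = (p : ℝ) ^ (-(τ0 / 2)) * ((p : ℝ) ^ (τ0 / 4))⁻¹ := by
      rw [← Real.rpow_neg hp0.le, ← Real.rpow_add hp0]
      congr 1
      ring
    rw [h1, div_eq_mul_inv]
    have h2 : (p : ℝ) ^ (-(τ0 / 2)) ≤ (p : ℝ) ^ (-(τ0 / 4)) :=
      Real.rpow_le_rpow_of_exponent_le hp1.le (by linarith)
    exact mul_le_mul h2 (inv_anti₀ (by norm_num) hx2) (by positivity) (by positivity)
  have e3 : (p : ℝ) ^ (-(κ / 2)) ≤ (p : ℝ) ^ (-τ) :=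
    Real.rpow_le_rpow_of_exponent_le hp1.le (neg_le_neg (min_le_left _ _))
  have e4 : (p : ℝ) ^ (-(τ0 / 4)) ≤ (p : ℝ) ^ (-τ) :=
    Real.rpow_le_rpow_of_exponent_le hp1.le (neg_le_neg (min_le_right _ _))
  linarith

end MPcb27
end

section
/-!
# MP_cb27ba_nt, project BD: module GAPP
-/
set_option autoImplicit false

namespace MPcb27

open Finset

namespace GapP

open Tile

variable {ι : Type} [Fintype ι] [DecidableEq ι]

omit [DecidableEq ι] in
theorem lin_toNat {p : ℕ} (b : ι → ZMod p) (L : ι → ℕ) (n : ι → ℤ) (h : ∀ i, |n i| ≤ L i) :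
    lin b n = linN b (fun i => (n i + L i).toNat) - linN b L := by
  unfold lin linN
  rw [← sum_sub_distrib]
  refine sum_congr rfl fun i _ => ?_
  have h1 : ((n i + L i).toNat : ℤ) = n i + L i :=
    Int.toNat_of_nonneg (by have := (abs_le.mp (h i)).1; omega)
  have h2 : (((n i + L i).toNat : ℕ) : ZMod p) = (n i : ZMod p) + (L i : ZMod p) := by
    have := congrArg (fun k : ℤ => (k : ZMod p)) h1
    push_cast at this
    exact this
  rw [h2]
  ring

omit [Fintype ι] [DecidableEq ι] in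
theorem toNat_lt (L : ι → ℕ) (n : ι → ℤ) (h : ∀ i, |n i| ≤ L i) (i : ι) :
    (n i + L i).toNat < 2 * L i + 1 := by
  have h1 := abs_le.mp (h i)
  omega

/-- linear combinations are injective on proper boxes -/
theorem inj_of_proper {p : ℕ} {b : ι → ZMod p} {G : ι → ℕ} {θ : ℝ} (hθ : 1 ≤ θ)
    (h : Proper b G θ) {n m : ι → ℕ} (hn : n ∈ bx G) (hm : m ∈ bx G)
    (hnm : linN b n = linN b m) : n = m := by
  by_contra hne
  rw [mem_bx] at hn hm
  refine h (fun i => (n i : ℤ) - m i) ?_ ?_ ?_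
  · intro h0
    apply hne
    funext i
    have := congrFun h0 i
    simp only [Pi.zero_apply] at this
    omega
  · intro i
    have h1 : |((n i : ℤ) - m i)| ≤ G i := by
      have := hn i
      have := hm i
      rw [abs_le]
      omega
    have h2 : |(((n i : ℤ) - m i : ℤ) : ℝ)| ≤ G i := by
      have : ((|((n i : ℤ) - m i)| : ℤ) : ℝ) ≤ ((G i : ℤ) : ℝ) := by exact_mod_cast h1
      rwa [Int.cast_abs, Int.cast_natCast] at this
    refine h2.trans ?_
    have : (0 : ℝ) ≤ G i := Nat.cast_nonneg _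
    nlinarith
  · have h1 : lin b (fun i => (n i : ℤ) - m i) = linN b n - linN b m := by
      unfold lin linN
      rw [← sum_sub_distrib]
      refine sum_congr rfl fun i _ => ?_
      push_cast
      ring
    rw [h1, hnm, sub_self]

end GapP

open Tile GapP

theorem specGapP (hT : ∀ (d : ℕ) (δ : ℝ), 0 < δ → BoxSum d (1 / 4 + δ) 1) (hF : SpecFour)
    (hP : SpecProper) (hE : SpecES) : SpecGapP := by
  intro d δ hδ
  obtain ⟨C, hC⟩ := hP d
  choose τf hτf0 hτf using fun d' : ℕ => hT d' (δ / 2) (by positivity)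
  obtain ⟨d₀, hd₀, hmin⟩ := Finset.exists_min_image (range (d + 1)) τf ⟨0, by simp⟩
  set τ₀ := τf d₀ with hτ₀
  have hτ₀0 : 0 < τ₀ := hτf0 d₀
  set η : ℝ := min τ₀ (1 / 4) / (4 * (C + 1)) with hη
  have hmin0 : 0 < min τ₀ (1 / 4) := lt_min hτ₀0 (by norm_num)
  have hη0 : 0 < η := by positivity
  have hCη : C * η ≤ min τ₀ (1 / 4) / 4 := by
    have h1 : (C + 1) * η = min τ₀ (1 / 4) / 4 := by rw [hη]; field_simp
    nlinarith
  have hCη1 : C * η ≤ τ₀ / 4 := hCη.trans (by linarith [min_le_left τ₀ (1 / 4)])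
  have hCη2 : C * η ≤ 1 / 16 := hCη.trans (by linarith [min_le_right τ₀ (1 / 4)])
  choose Pf hPf using fun d' : ℕ => hτf d' η hη0
  set τ : ℝ := min (τ₀ / 2) (min (1 / 4) (δ / 2)) with hτ
  have hτ0 : 0 < τ := lt_min (by positivity) (lt_min (by norm_num) (by positivity))
  have hτ1 : τ ≤ τ₀ / 2 := min_le_left _ _
  have hτ2 : τ ≤ 1 / 4 := (min_le_right _ _).trans (min_le_left _ _)
  have hτ3 : τ ≤ δ / 2 := (min_le_right _ _).trans (min_le_right _ _)
  have hlarge : ∀ (M s : ℝ), 0 < s → ∀ᶠ x : ℕ in Filter.atTop, M ≤ (x : ℝ) ^ s := fun M s hs =>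
    ((tendsto_rpow_atTop hs).comp tendsto_natCast_atTop_atTop).eventually_ge_atTop _
  obtain ⟨P₂, hP₂⟩ := Filter.eventually_atTop.mp ((hlarge ((5 * C) ^ C) (1 / 16) (by norm_num)).and
    (hlarge (5 ^ d * (5 * C) ^ C) (τ₀ / 4) (by positivity)))
  refine ⟨τ, hτ0, max ((range (d + 1)).sup Pf) (max P₂ 2), ?_⟩
  intro p _ hp b H hH hlo A B x y hA hB χ hχ
  obtain ⟨hL1, hL2⟩ := hP₂ p (by omega)
  have hp2 : 2 ≤ p := by omega
  have hp1 : (1 : ℝ) ≤ p := by exact_mod_cast (by omega : 1 ≤ p)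
  have hp0 : (0 : ℝ) < p := by linarith
  set V : ℝ := ∏ i, (H i : ℝ) with hV
  have hV0 : 0 < V := Finset.prod_pos fun i _ => by exact_mod_cast hH i
  have hAB : 0 ≤ Real.sqrt ((#A : ℝ) * #B) := Real.sqrt_nonneg _
  by_cases hbig : (p : ℝ) ^ (3 / 4 : ℝ) ≤ V
  · refine (hE p χ hχ A B).trans ?_
    rw [mul_assoc, Real.sqrt_mul hp0.le, Real.sqrt_eq_rpow]
    refine mul_le_mul_of_nonneg_right ?_ hAB
    calc (p : ℝ) ^ (1 / 2 : ℝ) ≤ (p : ℝ) ^ (-τ + 3 / 4) :=
          Real.rpow_le_rpow_of_exponent_le hp1 (by linarith)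
      _ = (p : ℝ) ^ (-τ) * (p : ℝ) ^ (3 / 4 : ℝ) := Real.rpow_add hp0 _ _
      _ ≤ (p : ℝ) ^ (-τ) * V := mul_le_mul_of_nonneg_left hbig (by positivity)
  rw [not_le] at hbig
  set θ : ℝ := 5 * (p : ℝ) ^ η with hθ
  have hpη : 1 ≤ (p : ℝ) ^ η := Real.one_le_rpow hp1 hη0.le
  have hθ1 : 1 ≤ θ := by rw [hθ]; linarith
  have hCθ : ((C : ℝ) * θ) ^ C = (5 * C) ^ C * (p : ℝ) ^ (C * η) := by
    rw [hθ, show (C : ℝ) * (5 * (p : ℝ) ^ η) = (5 * C) * (p : ℝ) ^ η by ring, mul_pow]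
    congr 1
    rw [← Real.rpow_natCast, ← Real.rpow_mul hp0.le, mul_comm]
  have hCp : (p : ℝ) ^ (C * η) ≤ (p : ℝ) ^ (1 / 16 : ℝ) :=
    Real.rpow_le_rpow_of_exponent_le hp1 hCη2
  have hcond : ((C : ℝ) * θ) ^ C * V < p := by
    have h1 : ((C : ℝ) * θ) ^ C ≤ (p : ℝ) ^ (1 / 8 : ℝ) := by
      rw [hCθ]
      calc (5 * C : ℝ) ^ C * (p : ℝ) ^ (C * η) ≤ (p : ℝ) ^ (1 / 16 : ℝ) * (p : ℝ) ^ (1 / 16 : ℝ) :=
            mul_le_mul hL1 hCp (by positivity) (by positivity)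
        _ = (p : ℝ) ^ (1 / 8 : ℝ) := by rw [← Real.rpow_add hp0]; norm_num
    calc ((C : ℝ) * θ) ^ C * V ≤ (p : ℝ) ^ (1 / 8 : ℝ) * V :=
          mul_le_mul_of_nonneg_right h1 hV0.le
      _ < (p : ℝ) ^ (1 / 8 : ℝ) * (p : ℝ) ^ (3 / 4 : ℝ) :=
          mul_lt_mul_of_pos_left hbig (by positivity)
      _ = (p : ℝ) ^ (7 / 8 : ℝ) := by rw [← Real.rpow_add hp0]; norm_num
      _ ≤ (p : ℝ) ^ (1 : ℝ) := Real.rpow_le_rpow_of_exponent_le hp1 (by norm_num)
      _ = p := Real.rpow_one _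
  obtain ⟨d', b', H', hd', hH', hV', hprop, hcont⟩ := hC p θ hθ1 b H hH hcond
  set G : Fin d' → ℕ := fun i => 4 * H' i + 1 with hG
  have hG5 : ∀ i, (G i : ℝ) ≤ 5 * H' i := by
    intro i
    have : G i ≤ 5 * H' i := by
      have := hH' i
      simp only [hG]; omega
    exact_mod_cast this
  have hG1 : ∀ i, 1 ≤ G i := fun i => by simp only [hG]; omega
  have hpropG : Proper b' G ((p : ℝ) ^ η) := by
    intro v hv hvi
    refine hprop v hv fun i => (hvi i).trans ?_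
    calc (p : ℝ) ^ η * G i ≤ (p : ℝ) ^ η * (5 * H' i) :=
          mul_le_mul_of_nonneg_left (hG5 i) (by positivity)
      _ = θ * H' i := by rw [hθ]; ring
  have hinj : Set.InjOn (fun n => linN b' n) (bx G : Set (Fin d' → ℕ)) :=
    fun n hn m hm hnm => inj_of_proper hpη hpropG hn hm hnm
  have hdd : (5 : ℝ) ^ d' ≤ 5 ^ d := pow_le_pow_right₀ (by norm_num) hd'
  have hGV : ∏ i, (G i : ℝ) ≤ (5 ^ d * (5 * C) ^ C) * (p : ℝ) ^ (C * η) * V := by
    have h1 : ∏ i, (G i : ℝ) ≤ 5 ^ d' * ∏ i, (H' i : ℝ) := by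
      have h2 : ∏ i, (G i : ℝ) ≤ ∏ i, (5 * (H' i : ℝ)) :=
        Finset.prod_le_prod (fun i _ => Nat.cast_nonneg _) fun i _ => hG5 i
      rwa [Finset.prod_mul_distrib, Finset.prod_const, Finset.card_univ, Fintype.card_fin] at h2
    rw [hCθ] at hV'
    calc ∏ i, (G i : ℝ) ≤ 5 ^ d' * ∏ i, (H' i : ℝ) := h1
      _ ≤ 5 ^ d * ((5 * C) ^ C * (p : ℝ) ^ (C * η) * V) :=
          mul_le_mul hdd hV' (by positivity) (by positivity)
      _ = _ := by ring
  -- parametrisation of the differences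
  set z : ZMod p := x - y - linN b' (fun i => 2 * H' i) with hz
  have hdiff : ∀ u ∈ A, ∀ v ∈ B, ∃ n ∈ bx G, u - v = z + linN b' n := by
    intro u hu v hv
    obtain ⟨n, hn, rfl⟩ := hA u hu
    obtain ⟨m, hm, rfl⟩ := hB v hv
    obtain ⟨n', hn', hnn⟩ := hcont n hn
    obtain ⟨m', hm', hmm⟩ := hcont m hm
    have hk : ∀ i, |n' i - m' i| ≤ ((2 * H' i : ℕ) : ℤ) := by
      intro i
      have h1 := abs_le.mp (hn' i)
      have h2 := abs_le.mp (hm' i)
      rw [abs_le]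
      push_cast
      omega
    refine ⟨fun i => (n' i - m' i + ((2 * H' i : ℕ) : ℤ)).toNat, ?_, ?_⟩
    · rw [mem_bx]
      intro i
      have := toNat_lt (fun i => 2 * H' i) (fun i => n' i - m' i) hk i
      simp only [hG]
      omega
    · have h3 := lin_toNat b' (fun i => 2 * H' i) (fun i => n' i - m' i) hk
      have h4 : lin b' (fun i => n' i - m' i) = lin b' n' - lin b' m' := Basic.lin_sub b' n' m'
      rw [h4] at h3
      rw [hnn, hmm, hz]
      linear_combination h3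
  have hcardA : ∀ (E : Finset (ZMod p)) (x' : ZMod p),
      (∀ u ∈ E, ∃ n : Fin d → ℤ, (∀ i, |n i| ≤ H i) ∧ u = x' + lin b n) →
      (#E : ℝ) ≤ ∏ i, (G i : ℝ) := by
    intro E x' hEx
    have h1 : E ⊆ (bx G).image (fun n => x' - linN b' H' + linN b' n) := by
      intro u hu
      obtain ⟨n, hn, rfl⟩ := hEx u hu
      obtain ⟨n', hn', hnn⟩ := hcont n hn
      rw [mem_image]
      refine ⟨fun i => (n' i + H' i).toNat, ?_, ?_⟩
      · rw [mem_bx]
        intro i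
        have := toNat_lt H' n' hn' i
        simp only [hG]
        omega
      · rw [hnn, lin_toNat b' H' n' hn']
        ring
    have h2 := (card_le_card h1).trans card_image_le
    rw [card_bx] at h2
    exact_mod_cast h2
  by_cases hsmall : ∏ i, (G i : ℝ) < (p : ℝ) ^ (1 / 4 + δ / 2)
  · -- trivial bound
    have h1 : ‖∑ u ∈ A, ∑ v ∈ B, χ (u - v)‖ ≤ (#A : ℝ) * #B := by
      refine (norm_sum_le _ _).trans ?_
      have h2 : ∀ u ∈ A, ‖∑ v ∈ B, χ (u - v)‖ ≤ #B := by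
        intro u _
        refine (norm_sum_le _ _).trans ?_
        refine (sum_le_sum fun v _ => DirichletCharacter.norm_le_one _ _).trans ?_
        simp
      refine (sum_le_sum h2).trans ?_
      rw [sum_const, nsmul_eq_mul]
    refine h1.trans ?_
    have h3 : (#A : ℝ) * #B = Real.sqrt ((#A : ℝ) * #B) * Real.sqrt ((#A : ℝ) * #B) :=
      (Real.mul_self_sqrt (by positivity)).symm
    have h4 : Real.sqrt ((#A : ℝ) * #B) ≤ (p : ℝ) ^ (-τ) * V := by
      have h5 : Real.sqrt ((#A : ℝ) * #B) ≤ (p : ℝ) ^ (1 / 4 + δ / 2) := by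
        rw [Real.sqrt_le_iff]
        refine ⟨by positivity, ?_⟩
        rw [sq]
        exact mul_le_mul ((hcardA A x hA).trans hsmall.le) ((hcardA B y hB).trans hsmall.le)
          (Nat.cast_nonneg _) (by positivity)
      refine h5.trans ?_
      calc (p : ℝ) ^ (1 / 4 + δ / 2) ≤ (p : ℝ) ^ (-τ + (1 / 4 + δ)) :=
            Real.rpow_le_rpow_of_exponent_le hp1 (by linarith)
        _ = (p : ℝ) ^ (-τ) * (p : ℝ) ^ (1 / 4 + δ) := Real.rpow_add hp0 _ _
        _ ≤ _ := mul_le_mul_of_nonneg_left hlo (by positivity)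
    calc (#A : ℝ) * #B = Real.sqrt ((#A : ℝ) * #B) * Real.sqrt ((#A : ℝ) * #B) := h3
      _ ≤ _ := mul_le_mul_of_nonneg_right h4 hAB
  rw [not_lt] at hsmall
  -- the main case
  have hGp : ∏ i, (G i : ℝ) ≤ (p : ℝ) ^ (1 : ℝ) := by
    rw [Real.rpow_one]
    have h1 : #(bx G) ≤ Fintype.card (ZMod p) := by
      have h2 : #((bx G).image (fun n => linN b' n)) = #(bx G) := card_image_of_injOn hinj
      rw [← h2]
      exact Finset.card_le_univ _
    rw [card_bx, ZMod.card] at h1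
    exact_mod_cast h1
  have hd'mem : d' ∈ range (d + 1) := by rw [mem_range]; omega
  have hPd : Pf d' ≤ p := by
    have h1 : Pf d' ≤ (range (d + 1)).sup Pf := Finset.le_sup hd'mem
    omega
  have hbox : ∀ ψ : AddChar (ZMod p) ℂ,
      ‖∑ n ∈ bx G, χ (z + linN b' n) * ψ (linN b' n)‖ ≤
        (p : ℝ) ^ (-τf d') * ∏ i, (G i : ℝ) := fun ψ =>
    hPf d' p hPd (Fin d') (Fintype.card_fin d') b' G hG1 hpropG hsmall hGp χ hχ ψ z
  classical
  set D : Finset (ZMod p) := (bx G).image (fun n => z + linN b' n) with hD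
  set f : ZMod p → ℂ := fun w => if w ∈ D then χ w else 0 with hf
  have hfour := hF p f ((p : ℝ) ^ (-τf d') * ∏ i, (G i : ℝ)) (fun ψ => by
    have h1 : ∑ w, f w * ψ w = ψ z * ∑ n ∈ bx G, χ (z + linN b' n) * ψ (linN b' n) := by
      have h2 : ∑ w, f w * ψ w = ∑ w ∈ D, χ w * ψ w := by
        rw [← Finset.sum_filter_add_sum_filter_not univ (fun w => w ∈ D)]
        rw [Finset.sum_eq_zero (s := univ.filter fun w => ¬ w ∈ D)]
        · rw [add_zero, Finset.filter_univ_mem]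
          refine sum_congr rfl fun w hw => ?_
          simp only [hf]
          rw [if_pos hw]
        · intro w hw
          simp only [hf]
          rw [if_neg (mem_filter.mp hw).2, zero_mul]
      rw [h2, hD, sum_image, mul_sum]
      · refine sum_congr rfl fun n _ => ?_
        rw [AddChar.map_add_eq_mul]
        ring
      · intro n hn m hm hnm
        exact hinj hn hm (add_left_cancel hnm)
    rw [h1, norm_mul, AddChar.norm_apply, one_mul]
    exact hbox ψ) A B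
  have hsum : ∑ a ∈ A, ∑ b ∈ B, f (a - b) = ∑ u ∈ A, ∑ v ∈ B, χ (u - v) := by
    refine sum_congr rfl fun u hu => sum_congr rfl fun v hv => ?_
    obtain ⟨n, hn, huv⟩ := hdiff u hu v hv
    simp only [hf]
    rw [if_pos]
    rw [hD, mem_image]
    exact ⟨n, hn, huv.symm⟩
  rw [hsum] at hfour
  refine hfour.trans (mul_le_mul_of_nonneg_right ?_ hAB)
  have hτd : τ₀ ≤ τf d' := hmin d' hd'mem
  calc (p : ℝ) ^ (-τf d') * ∏ i, (G i : ℝ)
      ≤ (p : ℝ) ^ (-τ₀) * ((5 ^ d * (5 * C) ^ C) * (p : ℝ) ^ (C * η) * V) := by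
        refine mul_le_mul ?_ hGV (by positivity) (by positivity)
        exact Real.rpow_le_rpow_of_exponent_le hp1 (by linarith)
    _ ≤ (p : ℝ) ^ (-τ₀) * ((p : ℝ) ^ (τ₀ / 4) * (p : ℝ) ^ (τ₀ / 4) * V) := by
        refine mul_le_mul_of_nonneg_left ?_ (by positivity)
        refine mul_le_mul_of_nonneg_right ?_ hV0.le
        refine mul_le_mul hL2 ?_ (by positivity) (by positivity)
        exact Real.rpow_le_rpow_of_exponent_le hp1 hCη1
    _ = (p : ℝ) ^ (-(τ₀ / 2)) * V := by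
        rw [← mul_assoc, ← Real.rpow_add hp0, ← Real.rpow_add hp0]
        congr 2; ring
    _ ≤ (p : ℝ) ^ (-τ) * V := by
        refine mul_le_mul_of_nonneg_right ?_ hV0.le
        exact Real.rpow_le_rpow_of_exponent_le hp1 (by linarith)

end MPcb27
end
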