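import Pool.Agent.Lib.MP_cb27ba_nt.BD.Det

section
/-!
# MP_cb27ba_nt, project BD: IND and ENERGY
-/
set_option autoImplicit false

namespace MPcb27.Ind

open Finset MPcb27 MPcb27.Basic

variable {ι : Type} [Fintype ι] [DecidableEq ι] {p : ℕ} [Fact p.Prime]

lemma cnt_eq_one_of_isEmpty (h : Fintype.card ι = 0) (a : ι → ZMod p) (N : ι → ℝ) (l : ZMod p)
    (t : ℝ) : ¬ 1 < cnt (cl a l) (N2 N) t := by
  have hE : IsEmpty ι := Fintype.card_eq_zero_iff.mp h
  unfold cnt
  have h1 : (ball (cl a l) (N2 N) t).ncard ≤ 1 := by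
    rw [Set.ncard_le_one (Set.toFinite _)]
    intro x _ y _
    exact Subsingleton.elim x y
  intro h2
  have : (1 : ℕ) < (ball (cl a l) (N2 N) t).ncard := by exact_mod_cast h2
  omega

lemma esum_zero (h : Fintype.card ι = 0) (a : ι → ZMod p) (N : ι → ℝ) (Q : ZMod p → Prop) :
    esum a N Q ≤ 0 := by
  refine (esum_le_sum a N Q ∅ fun l _ h1 _ => ?_).trans (by simp)
  exact absurd h1 (cnt_eq_one_of_isEmpty h a N l 1)

lemma esum_split (a : ι → ZMod p) (N : ι → ℝ) {Q Q1 Q2 : ZMod p → Prop}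
    (h : ∀ l, Q l → Q1 l ∨ Q2 l) : esum a N Q ≤ esum a N Q1 + esum a N Q2 := by
  classical
  have h1 : esum a N Q ≤ ∑ l ∈ (univ : Finset (ZMod p)).filter
      (fun l => l ≠ 0 ∧ 1 < cnt (cl a l) (N2 N) 1 ∧ Q1 l) ∪ (univ : Finset (ZMod p)).filter
      (fun l => l ≠ 0 ∧ 1 < cnt (cl a l) (N2 N) 1 ∧ Q2 l), (cnt (cl a l) (N2 N) 1) ^ 2 := by
    refine esum_le_sum a N Q _ fun l hl h1 hQ => ?_
    rw [mem_union, mem_filter, mem_filter]
    rcases h l hQ with h2 | h2
    · exact Or.inl ⟨mem_univ _, hl, h1, h2⟩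
    · exact Or.inr ⟨mem_univ _, hl, h1, h2⟩
  refine h1.trans ?_
  have h2 := sum_union_inter (s₁ := (univ : Finset (ZMod p)).filter
      (fun l => l ≠ 0 ∧ 1 < cnt (cl a l) (N2 N) 1 ∧ Q1 l)) (s₂ := (univ : Finset (ZMod p)).filter
      (fun l => l ≠ 0 ∧ 1 < cnt (cl a l) (N2 N) 1 ∧ Q2 l))
      (f := fun l => (cnt (cl a l) (N2 N) 1) ^ 2)
  have h3 : 0 ≤ ∑ l ∈ (univ : Finset (ZMod p)).filter
      (fun l => l ≠ 0 ∧ 1 < cnt (cl a l) (N2 N) 1 ∧ Q1 l) ∩ (univ : Finset (ZMod p)).filter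
      (fun l => l ≠ 0 ∧ 1 < cnt (cl a l) (N2 N) 1 ∧ Q2 l), (cnt (cl a l) (N2 N) 1) ^ 2 :=
    sum_nonneg fun _ _ => sq_nonneg _
  have h4 := sum_le_esum a N Q1 ((univ : Finset (ZMod p)).filter
      (fun l => l ≠ 0 ∧ 1 < cnt (cl a l) (N2 N) 1 ∧ Q1 l)) (fun l hl => (mem_filter.mp hl).2)
  have h5 := sum_le_esum a N Q2 ((univ : Finset (ZMod p)).filter
      (fun l => l ≠ 0 ∧ 1 < cnt (cl a l) (N2 N) 1 ∧ Q2 l)) (fun l hl => (mem_filter.mp hl).2)
  linarith

end MPcb27.Ind

namespace MPcb27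

open Finset Basic

theorem specInd (hA : SpecCaseA) (hB : SpecCaseB) : SpecInd := by
  intro d
  induction d using Nat.strong_induction_on with
  | _ d ih =>
    rcases Nat.eq_zero_or_pos d with h0 | hd
    · subst h0
      refine ⟨1, ?_⟩
      intro R hR J p _ hp ι _ _ hc a N hS
      refine (Ind.esum_zero hc a N _).trans ?_
      have : (0 : ℝ) ≤ R := le_trans (by norm_num) hR
      positivity
    · have hEA := hA d hd ih
      have hEB := hB d hd hEA
      obtain ⟨CA, hCA⟩ := hEA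
      obtain ⟨CB, hCB⟩ := hEB
      refine ⟨2 * (CA + CB + 2), ?_⟩
      intro R hR J p _ hp ι _ _ hc a N hS
      push_cast at hR
      have hA0 : (0 : ℝ) ≤ CA := Nat.cast_nonneg _
      have hB0 : (0 : ℝ) ≤ CB := Nat.cast_nonneg _
      have hR1 : 1 ≤ R := by linarith
      have hSA : Sys a N (R ^ (2 * d - 1)) :=
        Sys.mono hS (pow_le_pow_right₀ hR1 (by omega))
      have h1 := hCA R (by linarith) J p hp ι hc a N hSA
      have h2 := hCB R (by linarith) J p hp ι hc a N hS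
      have h3 := Ind.esum_split a N
        (Q := fun l => rk (cl a l) (N2 N) (R ^ (2 * d + 1)) < 2 * d)
        (Q1 := fun l => rk (cl a l) (N2 N) (R ^ (2 * d - 1)) < 2 * d ∧
          rk (cl a l) (N2 N) 1 ≤ d)
        (Q2 := fun l => rk (cl a l) (N2 N) (R ^ (2 * d + 1)) < 2 * d ∧
          d < rk (cl a l) (N2 N) 1) (fun l hl => by
            have hm := rk_mono (cl a l) (N2 N)
              (show R ^ (2 * d - 1) ≤ R ^ (2 * d + 1) from pow_le_pow_right₀ hR1 (by omega))
            rcases Nat.lt_or_ge d (rk (cl a l) (N2 N) 1) with h | h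
            · exact Or.inr ⟨hl, h⟩
            · exact Or.inl ⟨by omega, h⟩)
      refine h3.trans ((add_le_add h1 h2).trans ?_)
      rw [← add_mul]
      refine mul_le_mul_of_nonneg_right ?_ (sq_nonneg _)
      have hJ : (1 : ℝ) ≤ (J : ℝ) + 1 := by
        have : (0 : ℝ) ≤ J := Nat.cast_nonneg _
        linarith
      set Y : ℝ := ((2 * (CA + CB + 2) : ℕ) : ℝ) * (J + 1) * R with hY
      have hYeq : Y = 2 * ((CA : ℝ) + CB + 2) * (J + 1) * R := by
        rw [hY]; push_cast; ring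
      have hJR : 1 ≤ ((J : ℝ) + 1) * R := by nlinarith
      have hY2 : 2 ≤ Y := by
        rw [hYeq]
        nlinarith
      have hYA : (CA : ℝ) * (J + 1) * R ≤ Y := by
        rw [hYeq]
        have : (CA : ℝ) * (((J : ℝ) + 1) * R) ≤ (2 * ((CA : ℝ) + CB + 2)) * (((J : ℝ) + 1) * R) := by
          gcongr
          linarith
        linarith
      have hYB : (CB : ℝ) * (J + 1) * R ≤ Y := by
        rw [hYeq]
        have : (CB : ℝ) * (((J : ℝ) + 1) * R) ≤ (2 * ((CA : ℝ) + CB + 2)) * (((J : ℝ) + 1) * R) := by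
          gcongr
          linarith
        linarith
      have hY1 : 1 ≤ Y := by linarith
      have e1 : ((CA : ℝ) * (J + 1) * R) ^ CA ≤ Y ^ (CA + CB + 2) :=
        (pow_le_pow_left₀ (by positivity) hYA _).trans (pow_le_pow_right₀ hY1 (by omega))
      have e2 : ((CB : ℝ) * (J + 1) * R) ^ CB ≤ Y ^ (CA + CB + 2) :=
        (pow_le_pow_left₀ (by positivity) hYB _).trans (pow_le_pow_right₀ hY1 (by omega))
      have e3 : Y ^ (CA + CB + 2) + Y ^ (CA + CB + 2) ≤ Y ^ (CA + CB + 3) := by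
        rw [pow_succ Y (CA + CB + 2)]
        have : 0 ≤ Y ^ (CA + CB + 2) := by positivity
        nlinarith
      have e4 : Y ^ (CA + CB + 3) ≤ Y ^ (2 * (CA + CB + 2)) := pow_le_pow_right₀ hY1 (by omega)
      linarith

theorem specEnergy (hI : SpecInd) (hNF : SpecNF) : SpecEnergy := by
  intro d ε η δ hε hη hδ
  rcases Nat.eq_zero_or_pos d with h0 | hd
  · subst h0
    refine ⟨0, ?_⟩
    intro p _ _ ι _ _ hc a N hS hV
    exact (Ind.esum_zero hc a N _).trans (by positivity)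
  obtain ⟨C, hC⟩ := hI d
  -- choice of the exponent
  have hd1 : (1 : ℝ) ≤ d := by exact_mod_cast hd
  have hC0 : (0 : ℝ) ≤ C := Nat.cast_nonneg _
  obtain ⟨h, hh0, hh1, hh2, hh3⟩ : ∃ h : ℝ, 0 < h ∧ (2 * (d : ℝ) + 1) * h ≤ η ∧
      (C : ℝ) * h ≤ ε / 2 ∧ 2 * (d : ℝ) * ((2 * (d : ℝ) + 1) * h) ≤ δ := by
    refine ⟨min (η / (2 * d + 1)) (min (ε / (2 * (C + 1))) (δ / (2 * d * (2 * d + 1)))),
      ?_, ?_, ?_, ?_⟩
    · positivity
    · have h1 := min_le_left (η / (2 * (d : ℝ) + 1))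
        (min (ε / (2 * ((C : ℝ) + 1))) (δ / (2 * (d : ℝ) * (2 * (d : ℝ) + 1))))
      have h2 := mul_le_mul_of_nonneg_left h1 (show (0 : ℝ) ≤ 2 * (d : ℝ) + 1 by positivity)
      rwa [mul_div_cancel₀ _ (by positivity)] at h2
    · have h1 := (min_le_right (η / (2 * (d : ℝ) + 1))
        (min (ε / (2 * ((C : ℝ) + 1))) (δ / (2 * (d : ℝ) * (2 * (d : ℝ) + 1))))).trans
        (min_le_left _ _)
      have h2 := mul_le_mul_of_nonneg_left h1 hC0
      refine h2.trans ?_
      rw [mul_div_assoc', div_le_div_iff₀ (by positivity) (by positivity)]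
      nlinarith
    · have h1 := (min_le_right (η / (2 * (d : ℝ) + 1))
        (min (ε / (2 * ((C : ℝ) + 1))) (δ / (2 * (d : ℝ) * (2 * (d : ℝ) + 1))))).trans
        (min_le_right _ _)
      have h2 := mul_le_mul_of_nonneg_left h1
        (show (0 : ℝ) ≤ 2 * (d : ℝ) * (2 * (d : ℝ) + 1) by positivity)
      rw [mul_div_cancel₀ _ (by positivity)] at h2
      linarith
  obtain ⟨J, hJ⟩ := exists_nat_ge (1 / h)
  have hJh : 1 ≤ h * J := by
    rw [div_le_iff₀ hh0] at hJ
    linarith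
  -- large `p`
  have hev : ∀ᶠ x : ℝ in Filter.atTop, (C : ℝ) + 2 ≤ x ^ h ∧
      ((C : ℝ) * (J + 1)) ^ C ≤ x ^ (ε / 2) :=
    ((tendsto_rpow_atTop hh0).eventually_ge_atTop _).and
      ((tendsto_rpow_atTop (show 0 < ε / 2 by positivity)).eventually_ge_atTop _)
  obtain ⟨x0, hx0⟩ := Filter.eventually_atTop.mp hev
  obtain ⟨P, hP⟩ := exists_nat_ge (max x0 2)
  refine ⟨P, ?_⟩
  intro p _ hp ι _ _ hc a N hS hV
  have hpP : (P : ℝ) ≤ p := by exact_mod_cast hp
  obtain ⟨hx1, hx2⟩ := hx0 p ((le_max_left _ _).trans (hP.trans hpP))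
  have hp2 : (2 : ℝ) ≤ p := (le_max_right _ _).trans (hP.trans hpP)
  have hp0 : (0 : ℝ) < p := by linarith
  have hp1 : (1 : ℝ) < p := by linarith
  set R : ℝ := (p : ℝ) ^ h with hR
  have hR1 : 1 ≤ R := by linarith
  have hRJ : (p : ℝ) ≤ R ^ J := by
    rw [hR, ← Real.rpow_natCast, ← Real.rpow_mul hp0.le]
    calc (p : ℝ) = (p : ℝ) ^ (1 : ℝ) := (Real.rpow_one _).symm
      _ ≤ _ := Real.rpow_le_rpow_of_exponent_le hp1.le hJh
  have hRK : R ^ (2 * d + 1) ≤ (p : ℝ) ^ η := by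
    rw [hR, ← Real.rpow_natCast, ← Real.rpow_mul hp0.le]
    refine Real.rpow_le_rpow_of_exponent_le hp1.le ?_
    push_cast
    linarith
  have hNpos : ∀ i, 0 < N i := Sys.pos hS
  have hT1 : (1 : ℝ) ≤ (p : ℝ) ^ η := Real.one_le_rpow hp1.le hη.le
  have hι : Nonempty ι := by
    rw [← Fintype.card_pos_iff, hc]; omega
  have ha : a ≠ 0 := by
    obtain ⟨i⟩ := hι
    intro h0
    exact Sys.ne hS hT1 i (congrFun h0 i)
  have hmain := hC R (by linarith) J p hRJ ι hc a N (Sys.mono hS hRK)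
  have hVpos : 0 < ∏ i, N i := prod_pos fun i _ => hNpos i
  have hfull : ∀ l : ZMod p, rk (cl a l) (N2 N) (R ^ (2 * d + 1)) < 2 * d := by
    intro l
    have h1 := rk_cl_le a l N (R ^ (2 * d + 1))
    rw [hc] at h1
    rcases h1.lt_or_eq with h2 | h2
    · exact h2
    · exfalso
      have hcard : Fintype.card (ι ⊕ ι) = 2 * d := by rw [Fintype.card_sum, hc, two_mul]
      have h3 := hNF (ι ⊕ ι) p (cl a l) (N2 N) (R ^ (2 * d + 1)) (cl_ne_zero l ha)
        (N2_pos hNpos) (by positivity) (by rw [h2, hcard])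
      rw [hcard, N2_prod] at h3
      have h4 : (R ^ (2 * d + 1)) ^ (2 * d) ≤ (p : ℝ) ^ δ := by
        rw [← pow_mul, hR, ← Real.rpow_natCast, ← Real.rpow_mul hp0.le]
        refine Real.rpow_le_rpow_of_exponent_le hp1.le ?_
        push_cast
        linarith
      have h5 : (∏ i, N i) ^ 2 ≤ (p : ℝ) ^ (1 - 2 * δ) := by
        calc (∏ i, N i) ^ 2 ≤ ((p : ℝ) ^ (1 / 2 - δ)) ^ 2 := pow_le_pow_left₀ hVpos.le hV 2
          _ = _ := by
            rw [← Real.rpow_natCast, ← Real.rpow_mul hp0.le]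
            congr 1
            push_cast
            ring
      have h6 : (p : ℝ) ≤ (p : ℝ) ^ (1 - δ) := by
        calc (p : ℝ) ≤ (R ^ (2 * d + 1)) ^ (2 * d) * (∏ i, N i) ^ 2 := h3
          _ ≤ (p : ℝ) ^ δ * (p : ℝ) ^ (1 - 2 * δ) :=
              mul_le_mul h4 h5 (sq_nonneg _) (by positivity)
          _ = _ := by
            rw [← Real.rpow_add hp0]
            congr 1
            ring
      have h7 : (p : ℝ) ^ (1 - δ) < (p : ℝ) ^ (1 : ℝ) :=
        Real.rpow_lt_rpow_of_exponent_lt hp1 (by linarith)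
      rw [Real.rpow_one] at h7
      linarith
  have h8 : esum a N (fun _ => True) ≤
      esum a N (fun l => rk (cl a l) (N2 N) (R ^ (2 * d + 1)) < 2 * d) :=
    esum_mono a N fun l _ => hfull l
  refine h8.trans (hmain.trans ?_)
  refine mul_le_mul_of_nonneg_right ?_ (sq_nonneg _)
  rw [mul_pow]
  have h9 : R ^ C ≤ (p : ℝ) ^ (ε / 2) := by
    rw [hR, ← Real.rpow_natCast, ← Real.rpow_mul hp0.le]
    refine Real.rpow_le_rpow_of_exponent_le hp1.le ?_
    linarith
  calc ((C : ℝ) * (J + 1)) ^ C * R ^ C ≤ (p : ℝ) ^ (ε / 2) * (p : ℝ) ^ (ε / 2) :=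
        mul_le_mul hx2 h9 (by positivity) (by positivity)
    _ = _ := by
      rw [← Real.rpow_add hp0]
      congr 1
      ring

end MPcb27
end

section
/-!
# MP_cb27ba_nt, project BD, module LAT: good basis of the lattice `lin c w = 0` (helper40)
-/
set_option autoImplicit false

namespace MPcb27

open Finset

namespace LatM

variable {ι : Type} [Fintype ι] [DecidableEq ι] {p : ℕ}

/-- integer representatives of `c_j / c_{i0}` -/
noncomputable def tt [Fact p.Prime] (c : ι → ZMod p) (i0 j : ι) : ℤ :=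
  Classical.choose (ZMod.intCast_surjective (c j / c i0))

omit [Fintype ι] [DecidableEq ι] in
lemma tt_spec [Fact p.Prime] {c : ι → ZMod p} {i0 : ι} (h : c i0 ≠ 0) (j : ι) :
    (tt c i0 j : ZMod p) * c i0 = c j := by
  have h1 : (tt c i0 j : ZMod p) = c j / c i0 :=
    Classical.choose_spec (ZMod.intCast_surjective (c j / c i0))
  rw [h1, div_mul_cancel₀ _ h]

/-- the special column -/
noncomputable def uu [Fact p.Prime] (c : ι → ZMod p) (i0 j : ι) : ℤ := if j = i0 then p else - tt c i0 j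

/-- explicit basis of the lattice -/
noncomputable def V [Fact p.Prime] (c : ι → ZMod p) (i0 : ι) : Matrix ι ι ℤ :=
  (1 : Matrix ι ι ℤ).updateCol i0 (uu c i0)

lemma det_V [Fact p.Prime] (c : ι → ZMod p) (i0 : ι) : (V c i0).det = p := by
  rw [V, ← Matrix.cramer_apply, Matrix.cramer_one]
  simp [uu]

omit [Fintype ι] in
lemma V_apply [Fact p.Prime] (c : ι → ZMod p) (i0 j i : ι) :
    V c i0 j i = if i = i0 then uu c i0 j else if j = i then 1 else 0 := by
  rw [V, Matrix.updateCol_apply, Matrix.one_apply]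

omit [Fintype ι] in
lemma V_row [Fact p.Prime] (c : ι → ZMod p) (i0 j : ι) :
    V c i0 j = Pi.single j 1 + Pi.single i0 (uu c i0 j - if j = i0 then 1 else 0) := by
  funext i
  rw [V_apply]
  by_cases h : i = i0
  · subst h
    by_cases h2 : j = i
    · subst h2; simp
    · simp [h2, Ne.symm h2]
  · by_cases h2 : j = i
    · subst h2; simp [h]
    · simp [h, h2, Ne.symm h2]

lemma lin_V [Fact p.Prime] {c : ι → ZMod p} {i0 : ι} (h : c i0 ≠ 0) (j : ι) :
    lin c (V c i0 j) = 0 := by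
  rw [V_row, Basic.lin_add, Basic.lin_single, Basic.lin_single]
  by_cases h2 : j = i0
  · subst h2
    simp [uu]
  · simp only [uu, h2, if_false, sub_zero]
    push_cast
    have := tt_spec h j
    linear_combination -this

lemma gen_V [Fact p.Prime] {c : ι → ZMod p} {i0 : ι} (h : c i0 ≠ 0) {w : ι → ℤ}
    (hw : lin c w = 0) : ∃ m : ι → ℤ, ∀ i, w i = ∑ j, m j * V c i0 j i := by
  have h1 : ((w i0 + ∑ j ∈ univ.erase i0, w j * tt c i0 j : ℤ) : ZMod p) = 0 := by
    have h2 : ((w i0 + ∑ j ∈ univ.erase i0, w j * tt c i0 j : ℤ) : ZMod p) * c i0 = 0 := by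
      rw [← hw]
      unfold lin
      rw [← Finset.add_sum_erase univ _ (mem_univ i0)]
      push_cast
      rw [add_mul, Finset.sum_mul]
      congr 1
      refine Finset.sum_congr rfl fun j _ => ?_
      rw [mul_assoc, tt_spec h]
    exact (mul_eq_zero.mp h2).resolve_right h
  rw [ZMod.intCast_zmod_eq_zero_iff_dvd _ p] at h1
  obtain ⟨q, hq⟩ := h1
  refine ⟨fun j => if j = i0 then q else w j, ?_⟩
  intro i
  by_cases hi : i = i0
  · subst hi
    rw [← Finset.add_sum_erase univ _ (mem_univ i)]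
    have h3 : ∑ j ∈ univ.erase i, (if j = i then q else w j) * V c i j i =
        - ∑ j ∈ univ.erase i, w j * tt c i j := by
      rw [← Finset.sum_neg_distrib]
      refine Finset.sum_congr rfl fun j hj => ?_
      have hj' := Finset.ne_of_mem_erase hj
      rw [V_apply]
      simp [uu, hj']
    rw [h3, V_apply]
    simp only [if_true, uu]
    linarith
  · rw [Finset.sum_eq_single i]
    · rw [V_apply]
      simp [hi]
    · intro j _ hj
      rw [V_apply]
      simp [hi, hj]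
    · intro h; exact absurd (mem_univ i) h

/-- scaled vectors -/
noncomputable def sc (N : ι → ℝ) (x : ι → ℝ) : EuclideanSpace ℝ ι :=
  WithLp.toLp 2 (fun i => x i / N i)

omit [DecidableEq ι] in
lemma norm_sc (N : ι → ℝ) (x : ι → ℝ) : ‖sc N x‖ = wn N x := (Basic.wn_eq_norm N x).symm

omit [Fintype ι] [DecidableEq ι] in
lemma sc_comb {κ : Type} [Fintype κ] (N : ι → ℝ) (x : κ → ℝ) (f : κ → ι → ℝ) :
    ∑ j, x j • sc N (f j) = sc N (fun i => ∑ j, x j * f j i) := by
  ext i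
  simp only [sc, WithLp.ofLp_sum, Finset.sum_apply, PiLp.smul_apply, smul_eq_mul]
  rw [Finset.sum_div]
  exact Finset.sum_congr rfl fun j _ => by ring

omit [Fintype ι] [DecidableEq ι] in
lemma sc_injective {N : ι → ℝ} (hN : ∀ i, 0 < N i) : Function.Injective (sc N) := by
  intro x y h
  funext i
  have h1 : (sc N x) i = (sc N y) i := by rw [h]
  simp only [sc] at h1
  exact (div_left_inj' (hN i).ne').mp h1

omit [Fintype ι] [DecidableEq ι] in
/-- integer combinations -/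
lemma sc_zcomb {κ : Type} [Fintype κ] (N : ι → ℝ) (m : κ → ℤ) (f : κ → ι → ℤ) :
    ∑ j, m j • sc N (rv (f j)) = sc N (rv (fun i => ∑ j, m j * f j i)) := by
  have h1 : ∑ j, m j • sc N (rv (f j)) = ∑ j, (m j : ℝ) • sc N (rv (f j)) :=
    Finset.sum_congr rfl fun j _ => (Int.cast_smul_eq_zsmul ℝ (m j) _).symm
  rw [h1, sc_comb]
  congr 1
  funext i
  simp [rv]

end LatM

theorem specLat (hG : SpecGB) (hD : SpecDet) : SpecLat := by
  intro n
  obtain ⟨κ, hκ, hG⟩ := hG n
  refine ⟨κ ^ (n + 1), one_le_pow₀ hκ, ?_⟩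
  intro ι _ _ hι p _ c hc N hN
  obtain ⟨i0, hi0⟩ := Function.ne_iff.mp hc
  replace hi0 : c i0 ≠ 0 := hi0
  have hp : (p : ℤ) ≠ 0 := by exact_mod_cast (Fact.out : p.Prime).ne_zero
  let e : Fin n ≃ ι := (Fintype.equivFinOfCardEq hι).symm
  let v : Fin n → EuclideanSpace ℝ ι := fun k => LatM.sc N (rv (LatM.V c i0 (e k)))
  have hvLI : LinearIndependent ℝ v := by
    rw [Fintype.linearIndependent_iff]
    intro x hx
    have h1 : ∑ j, (x (e.symm j)) • LatM.sc N (rv (LatM.V c i0 j)) = 0 := by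
      rw [← hx, ← Equiv.sum_comp e]
      exact Finset.sum_congr rfl fun k _ => by rw [Equiv.symm_apply_apply]
    rw [LatM.sc_comb] at h1
    have h2 : (fun i => ∑ j, x (e.symm j) * rv (LatM.V c i0 j) i) = 0 := by
      apply LatM.sc_injective hN
      rw [h1]
      ext i
      simp [LatM.sc]
    have h3 : Matrix.vecMul (fun j => x (e.symm j)) ((LatM.V c i0).map (Int.cast : ℤ → ℝ)) = 0 := by
      rw [← h2]
      funext i
      simp [Matrix.vecMul, dotProduct, rv]
    have h4 : ((LatM.V c i0).map (Int.cast : ℤ → ℝ)).det ≠ 0 := by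
      have h5 : ((LatM.V c i0).map (Int.cast : ℤ → ℝ)).det = ((LatM.V c i0).det : ℝ) :=
        (RingHom.map_det (Int.castRingHom ℝ) (LatM.V c i0)).symm
      rw [h5, LatM.det_V]
      exact_mod_cast hp
    have h6 := Matrix.eq_zero_of_vecMul_eq_zero h4 h3
    intro k
    have := congrFun h6 (e k)
    simpa using this
  obtain ⟨b, hb1, hb2, hb3⟩ := hG (EuclideanSpace ℝ ι) v hvLI
  have hbv : ∀ k, ∃ w : ι → ℤ, lin c w = 0 ∧ b k = LatM.sc N (rv w) := by
    intro k
    have h1 : b k ∈ Submodule.span ℤ (Set.range v) := by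
      rw [← hb2]; exact Submodule.subset_span ⟨k, rfl⟩
    rw [Submodule.mem_span_range_iff_exists_fun] at h1
    obtain ⟨m, hm⟩ := h1
    refine ⟨fun i => ∑ k, m k * LatM.V c i0 (e k) i, ?_, ?_⟩
    · refine (Basic.lin_comb c m (fun k => LatM.V c i0 (e k))).trans ?_
      exact Finset.sum_eq_zero fun k _ => by rw [LatM.lin_V hi0, mul_zero]
    · rw [← hm]
      exact LatM.sc_zcomb N m (fun k => LatM.V c i0 (e k))
  choose w hw1 hw2 using hbv
  let g : Matrix ι ι ℤ := Matrix.of fun j => w (e.symm j)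
  have hg : ∀ j, g j = w (e.symm j) := fun j => rfl
  have hnu : ∀ j, wn N (rv (g j)) = ‖b (e.symm j)‖ := by
    intro j
    rw [hw2, LatM.norm_sc, hg]
  have hmem : ∀ j, lin c (g j) = 0 := fun j => hw1 _
  have hgen : ∀ w : ι → ℤ, lin c w = 0 → ∃ m : ι → ℤ, ∀ i, w i = ∑ j, m j * g j i := by
    intro y hy
    obtain ⟨m, hm⟩ := LatM.gen_V hi0 hy
    have h1 : LatM.sc N (rv y) ∈ Submodule.span ℤ (Set.range b) := by
      rw [hb2, Submodule.mem_span_range_iff_exists_fun]
      refine ⟨fun k => m (e k), ?_⟩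
      rw [Equiv.sum_comp e (fun j => m j • LatM.sc N (rv (LatM.V c i0 j)))]
      refine (LatM.sc_zcomb N m (fun j => LatM.V c i0 j)).trans ?_
      congr 2
      funext i
      exact (hm i).symm
    rw [Submodule.mem_span_range_iff_exists_fun] at h1
    obtain ⟨a, ha⟩ := h1
    refine ⟨fun j => a (e.symm j), ?_⟩
    have h2 : LatM.sc N (rv y) = LatM.sc N (rv (fun i => ∑ j, a (e.symm j) * g j i)) := by
      rw [← ha, ← LatM.sc_zcomb N (fun j => a (e.symm j)) (fun j => g j), ← Equiv.sum_comp e]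
      refine Finset.sum_congr rfl fun k _ => ?_
      rw [hw2 k, hg]
      simp
    have h3 := Basic.rv_injective (LatM.sc_injective hN h2)
    intro i
    exact congrFun h3 i
  have hgood : ∀ x : ι → ℝ, ∑ j, |x j| * wn N (rv (g j)) ≤
      κ * wn N (fun i => ∑ j, x j * (g j i : ℝ)) := by
    intro x
    have h1 := hb3 (fun k => x (e k))
    have h2 : ∑ k, |x (e k)| * ‖b k‖ = ∑ j, |x j| * wn N (rv (g j)) := by
      rw [← Equiv.sum_comp e (fun j => |x j| * wn N (rv (g j)))]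
      refine Finset.sum_congr rfl fun k _ => ?_
      rw [hnu, Equiv.symm_apply_apply]
    have h3 : ∑ k, x (e k) • b k = LatM.sc N (fun i => ∑ j, x j * (g j i : ℝ)) := by
      have h4 := LatM.sc_comb N x (fun j => rv (g j))
      refine Eq.trans ?_ h4
      rw [← Equiv.sum_comp e (fun j => x j • LatM.sc N (rv (g j)))]
      refine Finset.sum_congr rfl fun k _ => ?_
      rw [hw2, hg, Equiv.symm_apply_apply]
    rw [h2, h3, LatM.norm_sc] at h1
    exact h1
  have hdet : g.det.natAbs = p := by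
    have h1 : ∀ j, ∃ m : ι → ℤ, ∀ i, g j i = ∑ k, m k * LatM.V c i0 k i := fun j =>
      LatM.gen_V hi0 (hmem j)
    choose U hU using h1
    have h2 : ∀ j, ∃ m : ι → ℤ, ∀ i, LatM.V c i0 j i = ∑ k, m k * g k i := fun j =>
      hgen _ (LatM.lin_V hi0 j)
    choose U' hU' using h2
    have h3 : g = Matrix.of U * LatM.V c i0 := by
      ext j i
      rw [Matrix.mul_apply]
      exact hU j i
    have h4 : LatM.V c i0 = Matrix.of U' * g := by
      ext j i
      rw [Matrix.mul_apply]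
      exact hU' j i
    have h5 : g.det = (Matrix.of U).det * p := by
      conv_lhs => rw [h3]
      rw [Matrix.det_mul, LatM.det_V]
    have h6 : (p : ℤ) = (Matrix.of U').det * g.det := by
      have := congrArg Matrix.det h4
      rwa [Matrix.det_mul, LatM.det_V] at this
    rw [h5] at h6
    have h7 : (Matrix.of U').det * (Matrix.of U).det = 1 := by
      apply mul_right_cancel₀ hp
      rw [one_mul, mul_assoc]
      exact h6.symm
    have h8 : IsUnit (Matrix.of U).det := IsUnit.of_mul_eq_one_right _ h7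
    rw [h5, Int.natAbs_mul, Int.isUnit_iff_natAbs_eq.mp h8, one_mul, Int.natAbs_natCast]
  -- scaled matrix
  let W : Matrix ι ι ℝ := Matrix.of fun j i => (1 / N i) * (g j i : ℝ)
  have hWdet : |W.det| = (p : ℝ) / ∏ i, N i := by
    have h1 : W.det = (∏ i, 1 / N i) * (g.map (Int.cast : ℤ → ℝ)).det :=
      Matrix.det_mul_row (fun i => 1 / N i) (g.map (Int.cast : ℤ → ℝ))
    have h2 : (g.map (Int.cast : ℤ → ℝ)).det = (g.det : ℝ) :=
      (RingHom.map_det (Int.castRingHom ℝ) g).symm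
    have h3 : |(g.det : ℝ)| = p := by
      rw [← Int.cast_abs, Int.abs_eq_natAbs, hdet]
      simp
    have h4 : 0 < ∏ i, 1 / N i := Finset.prod_pos fun i _ => by have := hN i; positivity
    rw [h1, h2, abs_mul, h3, abs_of_pos h4]
    simp only [one_div, Finset.prod_inv_distrib]
    rw [div_eq_mul_inv, mul_comm]
  have hWn : ∀ j, wn (fun _ => 1) (W j) = wn N (rv (g j)) := by
    intro j
    unfold wn
    congr 1
    refine Finset.sum_congr rfl fun i _ => ?_
    simp only [W, Matrix.of_apply, rv, div_one]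
    rw [one_div_mul_eq_div]
  have hWx : ∀ x : ι → ℝ, wn (fun _ => 1) (fun i => ∑ j, x j * W j i) =
      wn N (fun i => ∑ j, x j * (g j i : ℝ)) := by
    intro x
    unfold wn
    congr 1
    refine Finset.sum_congr rfl fun i _ => ?_
    simp only [W, Matrix.of_apply, div_one]
    congr 1
    rw [Finset.sum_div]
    exact Finset.sum_congr rfl fun j _ => by ring
  obtain ⟨hD1, hD2⟩ := hD κ hκ ι W
  simp only [hWn, hWx] at hD1 hD2
  rw [hWdet] at hD1 hD2
  have hκn : κ ≤ κ ^ (n + 1) := le_self_pow₀ hκ (Nat.succ_ne_zero n)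
  have hκn' : κ ^ n ≤ κ ^ (n + 1) := pow_le_pow_right₀ hκ (Nat.le_succ n)
  refine ⟨g, hmem, hgen, hdet, ?_, hD1, ?_⟩
  · intro x
    exact (hgood x).trans (mul_le_mul_of_nonneg_right hκn (Basic.wn_nonneg _ _))
  · refine (hD2 hgood).trans ?_
    rw [hι]
    refine mul_le_mul_of_nonneg_right hκn' ?_
    have : 0 < ∏ i, N i := Finset.prod_pos fun i _ => hN i
    positivity

end MPcb27
end

section
/-!
# MP_cb27ba_nt, project BD: PROPER (helper24)
-/
set_option autoImplicit false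

namespace MPcb27.ProperM

open Finset MPcb27 MPcb27.Basic Module

/-- extraction of the content of an integer vector -/
lemma prim {n : ℕ} (x : Fin n → ℤ) (hx : x ≠ 0) :
    ∃ (g : ℤ) (x' c : Fin n → ℤ), g ≠ 0 ∧ (∀ i, x i = g * x' i) ∧ ∑ i, c i * x' i = 1 := by
  obtain ⟨g, hg⟩ := (IsPrincipalIdealRing.principal (Ideal.span (Set.range x))).principal
  have hg' : Ideal.span (Set.range x) = Ideal.span {g} := hg
  have h1 : ∀ i, ∃ y, x i = g * y := by
    intro i
    have h2 : x i ∈ Ideal.span {g} := by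
      rw [← hg']
      exact Ideal.subset_span ⟨i, rfl⟩
    obtain ⟨y, hy⟩ := Ideal.mem_span_singleton.1 h2
    exact ⟨y, hy⟩
  choose x' hx' using h1
  have h2 : g ∈ Ideal.span (Set.range x) := by
    rw [hg']
    exact Ideal.subset_span rfl
  obtain ⟨c, hc⟩ := Ideal.mem_span_range_iff_exists_fun.1 h2
  have hg0 : g ≠ 0 := by
    rintro rfl
    apply hx
    ext i
    rw [hx' i, zero_mul]
    rfl
  refine ⟨g, x', c, hg0, hx', ?_⟩
  have h3 : g * ∑ i, c i * x' i = g * 1 := by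
    rw [mul_sum, mul_one]
    conv_rhs => rw [← hc]
    refine sum_congr rfl fun i _ => ?_
    rw [hx' i]
    ring
  exact mul_left_cancel₀ hg0 h3

/-- a primitive vector is part of a generating set with `n` elements -/
lemma complete {d : ℕ} (x c : Fin (d + 1) → ℤ) (hc : ∑ i, c i * x i = 1) :
    ∃ f : Fin d → Fin (d + 1) → ℤ, ∀ y : Fin (d + 1) → ℤ, ∃ (t : ℤ) (m : Fin d → ℤ),
      y = t • x + ∑ j, m j • f j := by
  let φ : (Fin (d + 1) → ℤ) →ₗ[ℤ] ℤ := Fintype.linearCombination ℤ c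
  have hφ : ∀ y, φ y = ∑ i, y i * c i := by
    intro y
    simp only [φ, Fintype.linearCombination_apply, smul_eq_mul]
  have hφx : φ x = 1 := by
    rw [hφ, ← hc]
    exact sum_congr rfl fun i _ => mul_comm _ _
  have hr : Function.Surjective φ := fun t =>
    ⟨t • x, by rw [map_smul, hφx, smul_eq_mul, mul_one]⟩
  have hfr := Submodule.finrank_quotient_add_finrank (LinearMap.ker φ)
  rw [(LinearMap.quotKerEquivOfSurjective φ hr).finrank_eq, finrank_self,
    finrank_fintype_fun_eq_card, Fintype.card_fin] at hfr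
  have hk : finrank ℤ (LinearMap.ker φ) = d := by omega
  let β := finBasisOfFinrankEq ℤ (LinearMap.ker φ) hk
  refine ⟨fun j => (β j : Fin (d + 1) → ℤ), fun y => ?_⟩
  have hy : y - φ y • x ∈ LinearMap.ker φ := by
    rw [LinearMap.mem_ker, map_sub, map_smul, hφx, smul_eq_mul, mul_one, sub_self]
  refine ⟨φ y, fun j => β.repr ⟨_, hy⟩ j, ?_⟩
  have h1 := β.sum_repr ⟨_, hy⟩
  have h2 := congrArg (Subtype.val) h1
  rw [Submodule.coe_sum] at h2
  have h3 : ∑ j, (β.repr ⟨_, hy⟩ j) • ((β j : LinearMap.ker φ) : Fin (d + 1) → ℤ) =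
      y - φ y • x := by
    refine Eq.trans ?_ h2
    exact sum_congr rfl fun j _ => by rw [Submodule.coe_smul]
  rw [h3]
  abel

/-- the scaled vector -/
noncomputable def sc {n : ℕ} (H : Fin n → ℕ) (y : Fin n → ℤ) : EuclideanSpace ℝ (Fin n) :=
  WithLp.toLp 2 (fun i => (y i : ℝ) / H i)

lemma sc_apply {n : ℕ} (H : Fin n → ℕ) (y : Fin n → ℤ) (i : Fin n) :
    sc H y i = (y i : ℝ) / H i := rfl

lemma norm_sc {n : ℕ} (H : Fin n → ℕ) (y : Fin n → ℤ) :
    ‖sc H y‖ = wn (fun i => (H i : ℝ)) (rv y) := by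
  rw [wn_eq_norm]
  rfl

lemma sc_add {n : ℕ} (H : Fin n → ℕ) (y z : Fin n → ℤ) : sc H (y + z) = sc H y + sc H z := by
  ext i
  simp [sc_apply, add_div]

lemma sc_smul {n : ℕ} (H : Fin n → ℕ) (k : ℤ) (y : Fin n → ℤ) :
    sc H (k • y) = (k : ℝ) • sc H y := by
  ext i
  simp [sc_apply, mul_div_assoc]

lemma sc_sum {n : ℕ} (H : Fin n → ℕ) {κ : Type} (s : Finset κ) (m : κ → ℤ) (f : κ → Fin n → ℤ) :
    sc H (∑ j ∈ s, m j • f j) = ∑ j ∈ s, (m j : ℝ) • sc H (f j) := by
  classical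
  induction s using Finset.induction_on with
  | empty =>
    rw [sum_empty, sum_empty]
    ext i
    simp [sc_apply]
  | insert j s hj ih => rw [sum_insert hj, sum_insert hj, sc_add, ih, sc_smul]

lemma norm_sc_le {n : ℕ} {H : Fin n → ℕ} (hH : ∀ i, 1 ≤ H i) {y : Fin n → ℤ} {c : ℝ} (hc : 0 ≤ c)
    (h : ∀ i, |(y i : ℝ)| ≤ c * H i) : ‖sc H y‖ ≤ Real.sqrt n * c := by
  rw [norm_sc]
  have := wn_le_sqrt (N := fun i => (H i : ℝ)) (fun i => by
    have := hH i
    exact_mod_cast this) (x := rv y) hc h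
  rwa [Fintype.card_fin] at this


lemma sc_ne_zero {n : ℕ} {H : Fin n → ℕ} (hH : ∀ i, 1 ≤ H i) {y : Fin n → ℤ} (hy : y ≠ 0) :
    sc H y ≠ 0 := by
  intro h0
  apply hy
  ext i
  have h1 : sc H y i = 0 := by rw [h0]; rfl
  rw [sc_apply] at h1
  have h2 : (0 : ℝ) < H i := by exact_mod_cast hH i
  rw [div_eq_zero_iff] at h1
  rcases h1 with h1 | h1
  · have h3 : y i = 0 := Int.cast_injective (α := ℝ) (by rw [h1, Int.cast_zero])
    exact h3
  · exact absurd h1 h2.ne'

/-- the real span of the scaled vectors of a generating system -/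
lemma span_top {d : ℕ} {H : Fin (d + 1) → ℕ} (hH : ∀ i, 1 ≤ H i) (x : Fin (d + 1) → ℤ)
    (f : Fin d → Fin (d + 1) → ℤ)
    (hf : ∀ y : Fin (d + 1) → ℤ, ∃ (t : ℤ) (m : Fin d → ℤ), y = t • x + ∑ j, m j • f j) :
    LinearIndependent ℝ (Fin.cons (sc H x) (fun j => sc H (f j)) :
      Fin (d + 1) → EuclideanSpace ℝ (Fin (d + 1))) := by
  apply linearIndependent_of_top_le_span_of_card_eq_finrank
  · intro z _
    set S := Submodule.span ℝ (Set.range (Fin.cons (sc H x) (fun j => sc H (f j)) :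
      Fin (d + 1) → EuclideanSpace ℝ (Fin (d + 1)))) with hS
    have hx : sc H x ∈ S := Submodule.subset_span ⟨0, rfl⟩
    have hfj : ∀ j, sc H (f j) ∈ S := fun j => Submodule.subset_span ⟨j.succ, rfl⟩
    have hy : ∀ y : Fin (d + 1) → ℤ, sc H y ∈ S := by
      intro y
      obtain ⟨t, m, h⟩ := hf y
      rw [h, sc_add, sc_smul, sc_sum]
      exact S.add_mem (S.smul_mem _ hx) (S.sum_mem fun j _ => S.smul_mem _ (hfj j))
    have hz : z = ∑ i, (z i * H i) • sc H (Pi.single i 1) := by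
      ext l
      rw [WithLp.ofLp_sum, Finset.sum_apply, Finset.sum_eq_single l]
      · simp only [WithLp.ofLp_smul, Pi.smul_apply, sc_apply, Pi.single_eq_same, smul_eq_mul,
          Int.cast_one]
        have h2 : (H l : ℝ) ≠ 0 := by
          have := hH l
          positivity
        field_simp
      · intro i _ hi
        simp [sc_apply, Pi.single_eq_of_ne (Ne.symm hi)]
      · intro h
        exact absurd (mem_univ l) h
    rw [hz]
    exact S.sum_mem fun i _ => S.smul_mem _ (hy _)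
  · simp


open scoped RealInnerProductSpace

/-- reduction of the rank along a primitive vector -/
lemma core (hG : SpecGB) (hD : SpecDet) (d : ℕ) : ∃ C1 : ℝ, 1 ≤ C1 ∧
    ∀ (H : Fin (d + 1) → ℕ), (∀ i, 1 ≤ H i) → ∀ θ : ℝ, 1 ≤ θ → ∀ (x c : Fin (d + 1) → ℤ),
      ∑ i, c i * x i = 1 → (∀ i, |(x i : ℝ)| ≤ θ * H i) →
      ∃ (f : Fin d → Fin (d + 1) → ℤ) (H1 : Fin d → ℕ), (∀ j, 1 ≤ H1 j) ∧
        ∏ j, (H1 j : ℝ) ≤ C1 * θ * ∏ i, (H i : ℝ) ∧
        ∀ y : Fin (d + 1) → ℤ, (∀ i, |y i| ≤ H i) →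
          ∃ (t : ℤ) (m : Fin d → ℤ), (∀ j, |m j| ≤ H1 j) ∧ y = t • x + ∑ j, m j • f j := by
  classical
  obtain ⟨κ, hκ, hGB⟩ := hG d
  have hs1 : (1 : ℝ) ≤ Real.sqrt ((d + 1 : ℕ) : ℝ) := by
    rw [Real.one_le_sqrt]
    push_cast
    have : (0 : ℝ) ≤ d := Nat.cast_nonneg d
    linarith
  set R : ℝ := κ * Real.sqrt ((d + 1 : ℕ) : ℝ) with hR
  have hR1 : 1 ≤ R := by
    rw [hR]
    nlinarith
  refine ⟨R ^ d * Real.sqrt ((d + 1 : ℕ) : ℝ), ?_, ?_⟩
  · have := one_le_pow₀ hR1 (n := d)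
    nlinarith
  intro H hH θ hθ x c hc hx
  obtain ⟨f, hf⟩ := complete x c hc
  have hx0 : x ≠ 0 := by
    rintro rfl
    simp at hc
  have hHp : ∀ i, (0 : ℝ) < H i := fun i => by exact_mod_cast hH i
  set X := sc H x with hX
  have hX0 : X ≠ 0 := sc_ne_zero hH hx0
  set P := (Submodule.span ℝ {X})ᗮ.starProjection with hP
  have hPX : P X = 0 := Submodule.starProjection_orthogonalComplement_singleton_eq_zero X
  have hPs : ∀ z, ∃ a : ℝ, P z = z - a • X := by
    intro z
    have h1 := Submodule.starProjection_orthogonal_val (K := Submodule.span ℝ {X}) z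
    obtain ⟨a, ha⟩ := Submodule.mem_span_singleton.1
      ((Submodule.span ℝ {X}).starProjection_apply_mem z)
    exact ⟨a, by rw [ha]; exact h1⟩
  have hPn : ∀ z, ‖P z‖ ≤ ‖z‖ := fun z => Submodule.norm_starProjection_apply_le _ z
  have hPmem : ∀ z, P z ∈ (Submodule.span ℝ {X})ᗮ := fun z =>
    Submodule.starProjection_apply_mem _ z
  have hli := span_top hH x f hf
  -- the projected vectors
  set v : Fin d → EuclideanSpace ℝ (Fin (d + 1)) := fun j => P (sc H (f j)) with hv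
  have hvli : LinearIndependent ℝ v := by
    rw [Fintype.linearIndependent_iff]
    intro g hg
    choose a ha using fun j => hPs (sc H (f j))
    have h1 : ∑ j, g j • sc H (f j) - (∑ j, g j * a j) • X = 0 := by
      rw [← hg, Finset.sum_smul, ← Finset.sum_sub_distrib]
      refine sum_congr rfl fun j _ => ?_
      simp only [hv]
      rw [ha j, smul_sub, smul_smul]
    have h2 := Fintype.linearIndependent_iff.1 hli (Fin.cons (-∑ j, g j * a j) g) (by
      rw [Fin.sum_univ_succ]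
      simp only [Fin.cons_zero, Fin.cons_succ]
      rw [← h1, ← hX, neg_smul]
      abel)
    intro j
    have := h2 j.succ
    rwa [Fin.cons_succ] at this
  obtain ⟨b, hbli, hspan, hgood⟩ := hGB (EuclideanSpace ℝ (Fin (d + 1))) v hvli
  have hA : ∀ j, ∃ a : Fin d → ℤ, ∑ l, a l • v l = b j := by
    intro j
    have h1 : b j ∈ Submodule.span ℤ (Set.range v) := by
      rw [← hspan]
      exact Submodule.subset_span ⟨j, rfl⟩
    exact (Submodule.mem_span_range_iff_exists_fun ℤ).1 h1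
  choose A hA using hA
  have hcast : ∀ (k : ℤ) (z : EuclideanSpace ℝ (Fin (d + 1))), k • z = (k : ℝ) • z :=
    fun k z => (Int.cast_smul_eq_zsmul ℝ k z).symm
  set f' : Fin d → Fin (d + 1) → ℤ := fun j => ∑ l, A j l • f l with hf'
  have hPf' : ∀ j, P (sc H (f' j)) = b j := by
    intro j
    simp only [hf']
    rw [sc_sum, map_sum, ← hA j]
    refine sum_congr rfl fun l _ => ?_
    rw [map_smul, hcast]
  -- the expansion
  have hexp : ∀ y : Fin (d + 1) → ℤ, ∃ (t : ℤ) (m : Fin d → ℤ), y = t • x + ∑ j, m j • f' j ∧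
      P (sc H y) = ∑ j, (m j : ℝ) • b j := by
    intro y
    obtain ⟨t, k, hy⟩ := hf y
    have h1 : P (sc H y) = ∑ l, (k l : ℝ) • v l := by
      rw [hy, sc_add, sc_smul, sc_sum, map_add, map_smul, ← hX, hPX, smul_zero, zero_add, map_sum]
      exact sum_congr rfl fun l _ => by rw [map_smul]
    have h2 : ∑ l, k l • v l ∈ Submodule.span ℤ (Set.range b) := by
      rw [hspan]
      exact Submodule.sum_mem _ fun l _ => Submodule.smul_mem _ _ (Submodule.subset_span ⟨l, rfl⟩)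
    obtain ⟨m, hm⟩ := (Submodule.mem_span_range_iff_exists_fun ℤ).1 h2
    have h3 : ∑ l, (k l : ℝ) • v l = ∑ j, (m j : ℝ) • b j := by
      rw [← sum_congr rfl fun l _ => hcast (k l) (v l),
        ← sum_congr rfl fun j _ => hcast (m j) (b j)]
      exact hm.symm
    have h4 : ∑ l, ((k l : ℝ) - ∑ j, (m j : ℝ) * (A j l : ℝ)) • v l = 0 := by
      simp_rw [sub_smul]
      rw [Finset.sum_sub_distrib, h3, sub_eq_zero]
      simp_rw [Finset.sum_smul]
      rw [Finset.sum_comm]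
      refine sum_congr rfl fun j _ => ?_
      rw [← hA j, Finset.smul_sum]
      refine sum_congr rfl fun l _ => ?_
      rw [hcast, smul_smul]
    have h5 := Fintype.linearIndependent_iff.1 hvli _ h4
    have h6 : ∀ l, k l = ∑ j, m j * A j l := by
      intro l
      have := h5 l
      rw [sub_eq_zero] at this
      exact_mod_cast this
    refine ⟨t, m, ?_, h1.trans h3⟩
    rw [hy]
    congr 1
    simp only [hf']
    simp_rw [Finset.smul_sum, smul_smul]
    rw [Finset.sum_comm]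
    refine sum_congr rfl fun l _ => ?_
    rw [h6 l, Finset.sum_smul]
  have hb0 : ∀ j, 0 < ‖b j‖ := fun j => norm_pos_iff.2 (hbli.ne_zero j)
  have hbound : ∀ (y : Fin (d + 1) → ℤ) (m : Fin d → ℤ), (∀ i, |(y i : ℝ)| ≤ H i) →
      P (sc H y) = ∑ j, (m j : ℝ) • b j → ∀ j, |(m j : ℝ)| * ‖b j‖ ≤ R := by
    intro y m hy hm j
    have h1 : |(m j : ℝ)| * ‖b j‖ ≤ ∑ i, |(m i : ℝ)| * ‖b i‖ :=
      single_le_sum (f := fun i => |(m i : ℝ)| * ‖b i‖) (fun i _ => by positivity) (mem_univ j)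
    have h2 := hgood (fun j => (m j : ℝ))
    rw [← hm] at h2
    have h3 := hPn (sc H y)
    have h4 := norm_sc_le hH (y := y) (c := 1) zero_le_one (fun i => by rw [one_mul]; exact hy i)
    rw [mul_one] at h4
    have h5 : κ * ‖P (sc H y)‖ ≤ R := by
      rw [hR]
      exact mul_le_mul_of_nonneg_left (h3.trans h4) (by linarith)
    exact h1.trans (h2.trans h5)
  -- the good basis is not too long
  have hshort : ∀ j, ‖b j‖ ≤ R := by
    intro j
    by_contra hcon
    push Not at hcon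
    choose t m hm1 hm2 using fun i : Fin (d + 1) => hexp (Pi.single i 1)
    have h1 : ∀ i, m i j = 0 := by
      intro i
      have h2 := hbound (Pi.single i 1) (m i) (fun l => by
        by_cases h : l = i
        · subst h
          have := hH l
          simp only [Pi.single_eq_same, Int.cast_one, abs_one]
          exact_mod_cast this
        · rw [Pi.single_eq_of_ne h]
          simp) (hm2 i) j
      by_contra h3
      have h4 : (1 : ℝ) ≤ |(m i j : ℝ)| := by
        have : 1 ≤ |m i j| := Int.one_le_abs h3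
        exact_mod_cast this
      nlinarith [hb0 j]
    have h2 : f' j = ∑ i, f' j i • (Pi.single i (1 : ℤ) : Fin (d + 1) → ℤ) := by
      ext l
      rw [Finset.sum_apply]
      simp [Pi.single_apply]
    have h3 : P (sc H (f' j)) = ∑ l, (∑ i, (f' j i : ℝ) * (m i l : ℝ)) • b l := by
      conv_lhs => rw [h2]
      rw [sc_sum, map_sum]
      simp_rw [Finset.sum_smul]
      rw [Finset.sum_comm]
      refine sum_congr rfl fun i _ => ?_
      rw [map_smul, hm2 i, Finset.smul_sum]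
      exact sum_congr rfl fun l _ => by rw [smul_smul]
    rw [hPf' j] at h3
    have h4 : ∑ l, ((∑ i, (f' j i : ℝ) * (m i l : ℝ)) - if l = j then 1 else 0) • b l = 0 := by
      simp_rw [sub_smul]
      rw [Finset.sum_sub_distrib, ← h3]
      simp
    have h5 := Fintype.linearIndependent_iff.1 hbli _ h4 j
    simp only [h1, Int.cast_zero, mul_zero, Finset.sum_const_zero, if_true] at h5
    norm_num at h5
  -- Hadamard
  have hhad : 1 ≤ ‖X‖ * (∏ j, ‖b j‖) * ∏ i, (H i : ℝ) := by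
    let F : Matrix (Fin (d + 1)) (Fin (d + 1)) ℤ := Fin.cons x f'
    let W : Fin (d + 1) → EuclideanSpace ℝ (Fin (d + 1)) := Fin.cons X b
    let V : Matrix (Fin (d + 1)) (Fin (d + 1)) ℝ := fun i l => W i l
    let V0 : Matrix (Fin (d + 1)) (Fin (d + 1)) ℝ := fun i l => (F i l : ℝ) / H l
    choose a ha using fun j => hPs (sc H (f' j))
    have h1 : V.det = V0.det := by
      apply Matrix.det_eq_of_forall_row_eq_smul_add_const (Fin.cons 0 (fun j => -a j)) 0
      · rfl
      · intro i l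
        refine Fin.cases ?_ (fun j => ?_) i
        · simp only [V, V0, W, F, Fin.cons_zero, zero_mul, add_zero]
          rfl
        · simp only [V, V0, W, F, Fin.cons_zero, Fin.cons_succ]
          rw [← hPf' j, ha j]
          simp only [WithLp.ofLp_sub, WithLp.ofLp_smul, Pi.sub_apply, Pi.smul_apply, smul_eq_mul,
            hX, sc_apply]
          ring
    have h2 : V0.det = (∏ l, (1 / (H l : ℝ))) * (F.det : ℝ) := by
      have h3 : V0 = Matrix.of (fun i l => (1 / (H l : ℝ)) * (F.map (Int.castRingHom ℝ)) i l) := by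
        ext i l
        simp [V0, div_eq_inv_mul]
      rw [h3, Matrix.det_mul_row]
      congr 1
      rw [← RingHom.mapMatrix_apply, ← RingHom.map_det]
      rfl
    have h3 : LinearIndependent ℝ W := by
      rw [linearIndependent_finCons]
      refine ⟨hbli, fun hmem => hX0 ?_⟩
      have h4 : Submodule.span ℝ (Set.range b) ≤ (Submodule.span ℝ {X})ᗮ := by
        rw [Submodule.span_le]
        rintro _ ⟨j, rfl⟩
        rw [← hPf' j]
        exact hPmem _
      have h5 := h4 hmem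
      rw [Submodule.mem_orthogonal_singleton_iff_inner_right] at h5
      exact inner_self_eq_zero.1 h5
    have h4 : V.det ≠ 0 := by
      have h5 : LinearIndependent ℝ V.row :=
        h3.map' (WithLp.linearEquiv 2 ℝ (Fin (d + 1) → ℝ)).toLinearMap (LinearEquiv.ker _)
      rw [Matrix.linearIndependent_rows_iff_isUnit, Matrix.isUnit_iff_isUnit_det] at h5
      exact h5.ne_zero
    have h5 : F.det ≠ 0 := by
      intro h6
      rw [h1, h2, h6] at h4
      simp at h4
    have h6 : (1 : ℝ) ≤ |(F.det : ℝ)| := by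
      have : 1 ≤ |F.det| := Int.one_le_abs h5
      exact_mod_cast this
    have h7 := (hD 1 le_rfl (Fin (d + 1)) V).1
    have h8 : ∀ i, wn (fun _ => 1) (V i) = ‖W i‖ := by
      intro i
      rw [wn_eq_norm]
      congr 1
      ext l
      simp [V]
    have h9 : ∏ i, wn (fun _ => 1) (V i) = ‖X‖ * ∏ j, ‖b j‖ := by
      rw [Fin.prod_univ_succ]
      simp only [h8, W, Fin.cons_zero, Fin.cons_succ]
    rw [h9, h1, h2, abs_mul, Finset.prod_div_distrib, Finset.prod_const_one, abs_div, abs_one] at h7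
    have h10 : 0 < ∏ i, (H i : ℝ) := Finset.prod_pos fun i _ => hHp i
    rw [abs_of_pos h10, div_mul_eq_mul_div, one_mul, div_le_iff₀ h10] at h7
    linarith
  -- conclusion
  have hRb : ∀ j, 1 ≤ R / ‖b j‖ := fun j => by
    rw [le_div_iff₀ (hb0 j), one_mul]
    exact hshort j
  refine ⟨f', fun j => ⌊R / ‖b j‖⌋₊, fun j => ?_, ?_, ?_⟩
  · exact Nat.le_floor (by push_cast; exact hRb j)
  · have h1 : ∏ j, ((⌊R / ‖b j‖⌋₊ : ℕ) : ℝ) ≤ ∏ j, R / ‖b j‖ :=
      Finset.prod_le_prod (fun j _ => Nat.cast_nonneg _) fun j _ =>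
        Nat.floor_le (by linarith [hRb j])
    refine h1.trans ?_
    rw [Finset.prod_div_distrib, Finset.prod_const, Finset.card_univ, Fintype.card_fin]
    have h2 : 0 < ∏ j, ‖b j‖ := Finset.prod_pos fun j _ => hb0 j
    have h3 : ‖X‖ ≤ Real.sqrt ((d + 1 : ℕ) : ℝ) * θ := norm_sc_le hH (by linarith) hx
    have h4 : 0 < ∏ i, (H i : ℝ) := Finset.prod_pos fun i _ => hHp i
    have h5 : 0 < R ^ d := by positivity
    rw [div_le_iff₀ h2]
    have h6 : ‖X‖ * (∏ j, ‖b j‖) * ∏ i, (H i : ℝ) ≤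
        (Real.sqrt ((d + 1 : ℕ) : ℝ) * θ) * (∏ j, ‖b j‖) * ∏ i, (H i : ℝ) := by
      gcongr
    have h7 := hhad.trans h6
    calc R ^ d = R ^ d * 1 := (mul_one _).symm
      _ ≤ R ^ d * ((Real.sqrt ((d + 1 : ℕ) : ℝ) * θ) * (∏ j, ‖b j‖) * ∏ i, (H i : ℝ)) :=
          mul_le_mul_of_nonneg_left h7 h5.le
      _ = _ := by ring
  · intro y hy
    obtain ⟨t, m, h1, h2⟩ := hexp y
    refine ⟨t, m, fun j => ?_, h1⟩
    have h3 := hbound y m (fun i => by
      have := hy i
      exact_mod_cast this) h2 j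
    rw [← le_div_iff₀ (hb0 j)] at h3
    have h4 : ((m j).natAbs : ℝ) ≤ R / ‖b j‖ := by
      rw [Nat.cast_natAbs]
      push_cast
      exact h3
    have h5 := Nat.le_floor h4
    show |m j| ≤ ((⌊R / ‖b j‖⌋₊ : ℕ) : ℤ)
    rw [← Int.natCast_natAbs]
    exact_mod_cast h5

end MPcb27.ProperM

namespace MPcb27

open Finset MPcb27.Basic MPcb27.ProperM

/-- one step of the reduction -/
lemma ProperM.step (hG : SpecGB) (hD : SpecDet) (d : ℕ) : ∃ C1 : ℕ, 1 ≤ C1 ∧
    ∀ (p : ℕ) [Fact p.Prime] (θ : ℝ), 1 ≤ θ →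
      ∀ (b : Fin (d + 1) → ZMod p) (H : Fin (d + 1) → ℕ), (∀ i, 1 ≤ H i) →
        θ * ∏ i, (H i : ℝ) < p → ¬ Proper b H θ →
        ∃ (b1 : Fin d → ZMod p) (H1 : Fin d → ℕ), (∀ i, 1 ≤ H1 i) ∧
          ∏ i, (H1 i : ℝ) ≤ C1 * θ * ∏ i, (H i : ℝ) ∧
          ∀ n : Fin (d + 1) → ℤ, (∀ i, |n i| ≤ H i) →
            ∃ n' : Fin d → ℤ, (∀ i, |n' i| ≤ H1 i) ∧ lin b n = lin b1 n' := by
  obtain ⟨C1, hC1, hcore⟩ := core hG hD d
  refine ⟨⌈C1⌉₊, Nat.one_le_ceil_iff.2 (by linarith), ?_⟩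
  intro p hp θ hθ b H hH hlt hnp
  unfold Proper at hnp
  push Not at hnp
  obtain ⟨x, hx0, hxH, hlin⟩ := hnp
  obtain ⟨g, x', c, hg, hx, hc⟩ := prim x hx0
  have hHp : ∀ i, (1 : ℝ) ≤ H i := fun i => by exact_mod_cast hH i
  -- the entries of `x` are smaller than `p`
  have hprod : ∀ i, (H i : ℝ) ≤ ∏ j, (H j : ℝ) := by
    intro i
    rw [← Finset.mul_prod_erase univ (fun j => (H j : ℝ)) (mem_univ i)]
    have h1 : (1 : ℝ) ≤ ∏ j ∈ univ.erase i, (H j : ℝ) := by
      have := Finset.prod_le_prod (s := univ.erase i) (f := fun _ => (1 : ℝ))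
        (g := fun j => (H j : ℝ)) (fun _ _ => zero_le_one) (fun j _ => hHp j)
      simpa using this
    have := hHp i
    nlinarith
  have hxp : ∀ i, |x i| < p := by
    intro i
    have h1 : |(x i : ℝ)| < p := by
      refine lt_of_le_of_lt ((hxH i).trans ?_) hlt
      exact mul_le_mul_of_nonneg_left (hprod i) (by linarith)
    exact_mod_cast h1
  obtain ⟨i0, hi0⟩ : ∃ i, x i ≠ 0 := by
    by_contra hcon
    push Not at hcon
    exact hx0 (funext hcon)
  have hgx : |g| ≤ |x i0| := by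
    rw [hx i0, abs_mul]
    have h1 : x' i0 ≠ 0 := by
      intro h0
      rw [hx i0, h0, mul_zero] at hi0
      exact hi0 rfl
    have h2 := Int.one_le_abs h1
    nlinarith [abs_nonneg g]
  have hg1 := Int.one_le_abs hg
  have hgp : (g : ZMod p) ≠ 0 := by
    rw [Ne, ZMod.intCast_zmod_eq_zero_iff_dvd]
    intro hdvd
    have h1 := Int.le_of_dvd (by omega) ((dvd_abs _ _).2 hdvd)
    have h2 := hxp i0
    omega
  have hlin' : lin b x' = 0 := by
    have h1 : x = g • x' := by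
      ext i
      rw [hx i]
      rfl
    rw [h1, lin_smul] at hlin
    rcases mul_eq_zero.1 hlin with h2 | h2
    · exact absurd h2 hgp
    · exact h2
  have hx' : ∀ i, |(x' i : ℝ)| ≤ θ * H i := by
    intro i
    refine le_trans ?_ (hxH i)
    have h1 : |x' i| ≤ |x i| := by
      rw [hx i, abs_mul]
      nlinarith [abs_nonneg (x' i)]
    exact_mod_cast h1
  obtain ⟨f, H1, hH1, hpr, hcov⟩ := hcore H hH θ hθ x' c hc hx'
  refine ⟨fun j => lin b (f j), H1, hH1, ?_, ?_⟩
  · refine hpr.trans ?_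
    have h1 : C1 ≤ (⌈C1⌉₊ : ℝ) := Nat.le_ceil C1
    have h2 : 0 ≤ ∏ i, (H i : ℝ) := Finset.prod_nonneg fun i _ => Nat.cast_nonneg _
    gcongr
  · intro n hn
    obtain ⟨t, m, hm, hy⟩ := hcov n hn
    refine ⟨m, hm, ?_⟩
    rw [hy, lin_add, lin_smul, hlin', mul_zero, zero_add, lin_sum]
    exact sum_congr rfl fun j _ => lin_smul b _ _

/-- PROPER -/
theorem specProper (hG : SpecGB) (hD : SpecDet) : SpecProper := by
  intro d
  induction d with
  | zero =>
    refine ⟨1, ?_⟩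
    intro p _ θ hθ b H hH _
    refine ⟨0, b, H, le_rfl, hH, ?_, ?_, fun n hn => ⟨n, hn, rfl⟩⟩
    · simp [hθ]
    · intro x hx
      exact absurd (Subsingleton.elim _ _) hx
  | succ d ih =>
    obtain ⟨C, hC⟩ := ih
    obtain ⟨C1, hC1, hstep⟩ := ProperM.step hG hD d
    refine ⟨C + C1 + 1, ?_⟩
    intro p hp θ hθ b H hH hlt
    have hP : (1 : ℝ) ≤ ∏ i, (H i : ℝ) := by
      have := Finset.prod_le_prod (s := univ) (f := fun _ : Fin (d + 1) => (1 : ℝ))
        (g := fun j => (H j : ℝ)) (fun _ _ => zero_le_one) (fun j _ => by exact_mod_cast hH j)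
      simpa using this
    have hC1' : (1 : ℝ) ≤ C1 := by exact_mod_cast hC1
    have hC0 : (0 : ℝ) ≤ C := Nat.cast_nonneg C
    have hbase : θ ≤ ((C + C1 + 1 : ℕ) : ℝ) * θ := by
      push_cast
      nlinarith
    have hbase1 : 1 ≤ ((C + C1 + 1 : ℕ) : ℝ) * θ := hθ.trans hbase
    have hpow1 : 1 ≤ (((C + C1 + 1 : ℕ) : ℝ) * θ) ^ (C + C1 + 1) := one_le_pow₀ hbase1
    have hpowθ : θ ≤ (((C + C1 + 1 : ℕ) : ℝ) * θ) ^ (C + C1 + 1) :=
      hbase.trans (le_self_pow₀ hbase1 (by omega))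
    have hmain : ((C : ℝ) * θ) ^ C * (C1 * θ) ≤
        (((C + C1 + 1 : ℕ) : ℝ) * θ) ^ (C + C1 + 1) := by
      calc ((C : ℝ) * θ) ^ C * (C1 * θ) ≤ (((C + C1 + 1 : ℕ) : ℝ) * θ) ^ C *
            (((C + C1 + 1 : ℕ) : ℝ) * θ) := by
            push_cast
            gcongr
            · linarith
            · linarith
        _ = (((C + C1 + 1 : ℕ) : ℝ) * θ) ^ (C + 1) := (pow_succ _ _).symm
        _ ≤ _ := pow_le_pow_right₀ hbase1 (by omega)
    by_cases hpr : Proper b H θ
    · refine ⟨d + 1, b, H, le_rfl, hH, ?_, hpr, fun n hn => ⟨n, hn, rfl⟩⟩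
      exact le_mul_of_one_le_left (by linarith) hpow1
    · obtain ⟨b1, H1, hH1, hprod, hcov⟩ := hstep p θ hθ b H hH
        (lt_of_le_of_lt (mul_le_mul_of_nonneg_right hpowθ (by linarith)) hlt) hpr
      have hkey : ((C : ℝ) * θ) ^ C * ∏ i, (H1 i : ℝ) ≤
          (((C + C1 + 1 : ℕ) : ℝ) * θ) ^ (C + C1 + 1) * ∏ i, (H i : ℝ) := by
        calc ((C : ℝ) * θ) ^ C * ∏ i, (H1 i : ℝ) ≤
              ((C : ℝ) * θ) ^ C * (C1 * θ * ∏ i, (H i : ℝ)) := by
              gcongr
          _ = ((C : ℝ) * θ) ^ C * (C1 * θ) * ∏ i, (H i : ℝ) := by ring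
          _ ≤ _ := mul_le_mul_of_nonneg_right hmain (by linarith)
      obtain ⟨d', b', H', hd', hH', hprod', hproper, hcov'⟩ :=
        hC p θ hθ b1 H1 hH1 (lt_of_le_of_lt hkey hlt)
      refine ⟨d', b', H', by omega, hH', hprod'.trans hkey, hproper, ?_⟩
      intro n hn
      obtain ⟨n1, hn1, h1⟩ := hcov n hn
      obtain ⟨n2, hn2, h2⟩ := hcov' n1 hn1
      exact ⟨n2, hn2, h1.trans h2⟩

end MPcb27
end
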