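import Pool.Agent.Lib.MP_cb27ba_nt.BD.Spec

section
/-!
# MP_cb27ba_nt, project BD, module GB: good bases of lattices (helper40)
-/
set_option autoImplicit false

namespace MPcb27

open Finset

namespace GBM

variable {E : Type} [NormedAddCommGroup E] [InnerProductSpace ℝ E]

/-- coefficient of the projection on the line of `b` -/
noncomputable def tt (b x : E) : ℝ := inner ℝ b x / ‖b‖ ^ 2

/-- orthogonal projection to the complement of `b` -/
noncomputable def pj (b : E) : E →ₗ[ℝ] E where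
  toFun x := x - tt b x • b
  map_add' x y := by
    unfold tt
    rw [inner_add_right, add_div, add_smul]
    abel
  map_smul' c x := by
    unfold tt
    rw [inner_smul_right, mul_div_assoc, mul_smul, RingHom.id_apply, smul_sub]

lemma pj_apply (b x : E) : pj b x = x - tt b x • b := rfl

lemma tt_self {b : E} (hb : b ≠ 0) : tt b b = 1 := by
  unfold tt
  rw [real_inner_self_eq_norm_sq, div_self]
  exact pow_ne_zero 2 (norm_ne_zero_iff.mpr hb)

lemma pj_self {b : E} (hb : b ≠ 0) : pj b b = 0 := by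
  rw [pj_apply, tt_self hb, one_smul, sub_self]

lemma inner_pj {b : E} (hb : b ≠ 0) (x : E) : inner ℝ (pj b x) b = (0 : ℝ) := by
  rw [pj_apply, inner_sub_left, inner_smul_left, real_inner_self_eq_norm_sq, real_inner_comm]
  unfold tt
  have : ‖b‖ ^ 2 ≠ 0 := pow_ne_zero 2 (norm_ne_zero_iff.mpr hb)
  simp only [conj_trivial]
  rw [div_mul_cancel₀ _ this, sub_self]

lemma norm_sq_eq {b : E} (hb : b ≠ 0) (x : E) :
    ‖x‖ ^ 2 = ‖pj b x‖ ^ 2 + tt b x ^ 2 * ‖b‖ ^ 2 := by
  have h1 : x = pj b x + tt b x • b := by rw [pj_apply]; abel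
  have h2 : inner ℝ (pj b x) (tt b x • b) = (0 : ℝ) := by
    rw [inner_smul_right, inner_pj hb, mul_zero]
  have h3 := norm_add_sq_eq_norm_sq_add_norm_sq_of_inner_eq_zero (pj b x) (tt b x • b) h2
  rw [← h1] at h3
  rw [norm_smul, Real.norm_eq_abs] at h3
  have h4 : |tt b x| * |tt b x| = tt b x ^ 2 := by rw [abs_mul_abs_self, sq]
  nlinarith

lemma norm_pj_le {b : E} (hb : b ≠ 0) (x : E) : ‖pj b x‖ ≤ ‖x‖ := by
  have h := norm_sq_eq hb x
  have h2 : 0 ≤ tt b x ^ 2 * ‖b‖ ^ 2 := by positivity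
  exact le_of_sq_le_sq' (by linarith)
where
  le_of_sq_le_sq' (h : ‖pj b x‖ ^ 2 ≤ ‖x‖ ^ 2) : ‖pj b x‖ ≤ ‖x‖ := by
    exact (pow_le_pow_iff_left₀ (norm_nonneg _) (norm_nonneg _) two_ne_zero).mp h

lemma tt_sub_smul {b : E} (hb : b ≠ 0) (x : E) (k : ℤ) : tt b (x - k • b) = tt b x - k := by
  have h : (k • b : E) = (k : ℝ) • b := (Int.cast_smul_eq_zsmul ℝ k b).symm
  have h2 := tt_self hb
  unfold tt at *
  rw [inner_sub_right, sub_div, h, inner_smul_right, mul_div_assoc, h2, mul_one]

/-- `b` is a basis of the lattice `L` -/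
def Bas {n : ℕ} (L : Submodule ℤ E) (b : Fin n → E) : Prop :=
  LinearIndependent ℝ b ∧ Submodule.span ℤ (Set.range b) = L

lemma Bas.perm {n : ℕ} {L : Submodule ℤ E} {b : Fin n → E} (h : Bas L b) (e : Equiv.Perm (Fin n)) :
    Bas L (b ∘ e) := by
  refine ⟨h.1.comp e e.injective, ?_⟩
  rw [Set.range_comp, e.surjective.range_eq, Set.image_univ]
  exact h.2

omit [InnerProductSpace ℝ E] in
lemma mem_span_iff {n : ℕ} (b : Fin n → E) (x : E) :
    x ∈ Submodule.span ℤ (Set.range b) ↔ ∃ m : Fin n → ℤ, x = ∑ i, m i • b i := by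
  rw [Submodule.mem_span_range_iff_exists_fun]
  constructor
  · rintro ⟨m, hm⟩; exact ⟨m, hm.symm⟩
  · rintro ⟨m, hm⟩; exact ⟨m, hm.symm⟩

/-- lower bound for the norms of nonzero lattice vectors -/
lemma exists_lower {n : ℕ} {L : Submodule ℤ E} {v : Fin n → E} (h : Bas L v) :
    ∃ ε : ℝ, 0 < ε ∧ ∀ x ∈ L, x ≠ 0 → ε ≤ ‖x‖ := by
  obtain ⟨K, hK, hA⟩ := LinearMap.exists_antilipschitzWith (Fintype.linearCombination ℝ v)
    (by
      rw [LinearMap.ker_eq_bot']
      intro m hm
      rw [Fintype.linearCombination_apply] at hm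
      exact funext (Fintype.linearIndependent_iff.mp h.1 m hm))
  have hK' : (0 : ℝ) < K := hK
  refine ⟨1 / K, by positivity, ?_⟩
  intro x hx hx0
  rw [← h.2, mem_span_iff] at hx
  obtain ⟨m, rfl⟩ := hx
  have hm : m ≠ 0 := by
    rintro rfl
    apply hx0
    simp
  obtain ⟨i, hi⟩ := Function.ne_iff.mp hm
  have h1 := hA.le_mul_dist (fun i => (m i : ℝ)) 0
  rw [dist_zero_right, map_zero, dist_zero_right, Fintype.linearCombination_apply] at h1
  have h2 : ∑ i, (m i : ℝ) • v i = ∑ i, m i • v i :=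
    Finset.sum_congr rfl fun i _ => Int.cast_smul_eq_zsmul ℝ (m i) (v i)
  rw [h2] at h1
  have h3 : (1 : ℝ) ≤ ‖(fun i => (m i : ℝ))‖ := by
    refine le_trans ?_ (norm_le_pi_norm (fun i => (m i : ℝ)) i)
    rw [Real.norm_eq_abs]
    have h4 : 1 ≤ |m i| := Int.one_le_abs hi
    exact_mod_cast h4
  rw [div_le_iff₀ hK']
  calc (1 : ℝ) ≤ ‖(fun i => (m i : ℝ))‖ := h3
    _ ≤ K * ‖∑ i, m i • v i‖ := h1
    _ = ‖∑ i, m i • v i‖ * K := mul_comm _ _

/-- a basis with almost minimal first vector -/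
lemma exists_min {n : ℕ} {L : Submodule ℤ E} {v : Fin (n + 1) → E} (h : Bas L v) :
    ∃ b : Fin (n + 1) → E, Bas L b ∧ ∀ c : Fin (n + 1) → E, Bas L c → ‖b 0‖ ≤ 3 / 2 * ‖c 0‖ := by
  obtain ⟨ε, hε, hlow⟩ := exists_lower h
  set S : Set ℝ := {r | ∃ b : Fin (n + 1) → E, Bas L b ∧ ‖b 0‖ = r} with hS
  have hb0 : ∀ b : Fin (n + 1) → E, Bas L b → ε ≤ ‖b 0‖ := by
    intro b hb
    apply hlow
    · rw [← hb.2]
      exact Submodule.subset_span ⟨0, rfl⟩
    · exact hb.1.ne_zero 0
  have hbdd : BddBelow S := ⟨ε, by rintro _ ⟨b, hb, rfl⟩; exact hb0 b hb⟩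
  have hne : S.Nonempty := ⟨_, v, h, rfl⟩
  have hinf : ε ≤ sInf S := le_csInf hne (by rintro _ ⟨b, hb, rfl⟩; exact hb0 b hb)
  obtain ⟨r, ⟨b, hb, rfl⟩, hr⟩ := exists_lt_of_csInf_lt hne
    (show sInf S < 3 / 2 * sInf S by linarith)
  refine ⟨b, hb, fun c hc => ?_⟩
  have := csInf_le hbdd (show ‖c 0‖ ∈ S from ⟨c, hc, rfl⟩)
  linarith

theorem step (n : ℕ) (κ' : ℝ) (hκ' : 1 ≤ κ')
    (ih : ∀ (E : Type) [NormedAddCommGroup E] [InnerProductSpace ℝ E] (v : Fin n → E),
      LinearIndependent ℝ v →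
      ∃ b : Fin n → E, LinearIndependent ℝ b ∧
        Submodule.span ℤ (Set.range b) = Submodule.span ℤ (Set.range v) ∧
        ∀ x : Fin n → ℝ, ∑ i, |x i| * ‖b i‖ ≤ κ' * ‖∑ i, x i • b i‖)
    (v : Fin (n + 1) → E) (hv : LinearIndependent ℝ v) :
    ∃ b : Fin (n + 1) → E, LinearIndependent ℝ b ∧
        Submodule.span ℤ (Set.range b) = Submodule.span ℤ (Set.range v) ∧
        ∀ x : Fin (n + 1) → ℝ, ∑ i, |x i| * ‖b i‖ ≤ (1 + 4 * κ') * ‖∑ i, x i • b i‖ := by
  obtain ⟨b, hb, hmin⟩ := exists_min (L := Submodule.span ℤ (Set.range v)) ⟨hv, rfl⟩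
  set L := Submodule.span ℤ (Set.range v) with hL
  have hb0 : b 0 ≠ 0 := hb.1.ne_zero 0
  -- the integer linear projection
  let P : E →ₗ[ℤ] E := (pj (b 0)).restrictScalars ℤ
  have hP : ∀ x, P x = pj (b 0) x := fun x => rfl
  have hLI : LinearIndependent ℝ (fun i : Fin n => pj (b 0) (b i.succ)) := by
    rw [Fintype.linearIndependent_iff]
    intro x hx
    have h1 : ∑ i : Fin (n + 1), (Fin.cons (-(∑ i, x i * tt (b 0) (b i.succ))) x :
        Fin (n + 1) → ℝ) i • b i = 0 := by
      rw [Fin.sum_univ_succ]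
      simp only [Fin.cons_zero, Fin.cons_succ]
      simp only [pj_apply, smul_sub, Finset.sum_sub_distrib] at hx
      rw [neg_smul, Finset.sum_smul]
      rw [sub_eq_zero] at hx
      rw [hx]
      rw [neg_add_eq_zero]
      exact Finset.sum_congr rfl fun i _ => by rw [mul_smul]
    have h2 := Fintype.linearIndependent_iff.mp hb.1 _ h1
    intro i
    have := h2 i.succ
    simpa using this
  obtain ⟨c', hc1, hc2, hc3⟩ := ih E (fun i : Fin n => pj (b 0) (b i.succ)) hLI
  have hmap : ∀ (w : Fin n → E) (w' : Fin n → E), (∀ i, P (w i) = w' i) →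
      Submodule.map P (Submodule.span ℤ (Set.range w)) = Submodule.span ℤ (Set.range w') := by
    intro w w' h
    rw [Submodule.map_span, ← Set.range_comp]
    congr 2
    funext i
    exact h i
  have hlift : ∀ i : Fin n, ∃ y : E, y ∈ L ∧ pj (b 0) y = c' i ∧ |tt (b 0) y| ≤ 1 / 2 := by
    intro i
    have h1 : c' i ∈ Submodule.span ℤ (Set.range fun i : Fin n => pj (b 0) (b i.succ)) := by
      rw [← hc2]
      exact Submodule.subset_span ⟨i, rfl⟩
    rw [← hmap (fun i : Fin n => b i.succ) (fun i : Fin n => pj (b 0) (b i.succ))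
      (fun i => rfl)] at h1
    obtain ⟨y, hy1, hy2⟩ := h1
    have hyL : y ∈ L := by
      rw [← hb.2]
      refine Submodule.span_mono ?_ hy1
      rintro _ ⟨i, rfl⟩
      exact ⟨i.succ, rfl⟩
    refine ⟨y - round (tt (b 0) y) • b 0, ?_, ?_, ?_⟩
    · apply L.sub_mem hyL
      apply L.smul_mem
      rw [← hb.2]
      exact Submodule.subset_span ⟨0, rfl⟩
    · rw [← hP, map_sub, map_smul, hP, hP, pj_self hb0, smul_zero, sub_zero]
      exact hy2
    · rw [tt_sub_smul hb0]
      exact abs_sub_round _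
  choose y hyL hyP hyt using hlift
  set c : Fin (n + 1) → E := Fin.cons (b 0) y with hc
  have hc0 : c 0 = b 0 := by simp [hc]
  have hcs : ∀ i : Fin n, c i.succ = y i := fun i => by simp [hc]
  have hcLI : LinearIndependent ℝ c := by
    rw [Fintype.linearIndependent_iff]
    intro x hx
    rw [Fin.sum_univ_succ, hc0] at hx
    have h1 := congrArg (pj (b 0)) hx
    rw [map_add, map_smul, pj_self hb0, smul_zero, zero_add, map_sum, map_zero] at h1
    have h2 : ∑ i, x (Fin.succ i) • c' i = 0 := by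
      rw [← h1]
      refine Finset.sum_congr rfl fun i _ => ?_
      rw [map_smul, hcs, hyP]
    have h3 := Fintype.linearIndependent_iff.mp hc1 _ h2
    have h4 : x 0 • b 0 = 0 := by
      rw [Finset.sum_eq_zero, add_zero] at hx
      · exact hx
      · intro i _
        rw [h3 i, zero_smul]
    have h5 : x 0 = 0 := by
      rcases smul_eq_zero.mp h4 with h | h
      · exact h
      · exact absurd h hb0
    intro i
    refine Fin.cases h5 (fun i => h3 i) i
  have hcL : Submodule.span ℤ (Set.range c) = L := by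
    apply le_antisymm
    · rw [Submodule.span_le]
      rintro _ ⟨i, rfl⟩
      refine Fin.cases ?_ (fun i => ?_) i
      · rw [hc0, ← hb.2]
        exact Submodule.subset_span ⟨0, rfl⟩
      · rw [hcs]
        exact hyL i
    · have hcsub : Submodule.span ℤ (Set.range c) ≤ L := by
        rw [Submodule.span_le]
        rintro _ ⟨i, rfl⟩
        refine Fin.cases ?_ (fun i => ?_) i
        · rw [hc0, ← hb.2]
          exact Submodule.subset_span ⟨0, rfl⟩
        · rw [hcs]
          exact hyL i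
      have hb0c : b 0 ∈ Submodule.span ℤ (Set.range c) :=
        Submodule.subset_span ⟨0, hc0⟩
      rw [← hb.2, Submodule.span_le]
      rintro _ ⟨i, rfl⟩
      refine Fin.cases hb0c (fun j => ?_) i
      have h1 : pj (b 0) (b j.succ) ∈ Submodule.span ℤ (Set.range c') := by
        rw [hc2]
        exact Submodule.subset_span ⟨j, rfl⟩
      rw [← hmap y c' (fun i => hyP i)] at h1
      obtain ⟨z, hz1, hz2⟩ := h1
      have hzc : z ∈ Submodule.span ℤ (Set.range c) := by
        refine Submodule.span_mono ?_ hz1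
        rintro _ ⟨i, rfl⟩
        exact ⟨i.succ, hcs i⟩
      have h2 : b j.succ - z ∈ Submodule.span ℤ (Set.range b) := by
        rw [hb.2]
        apply L.sub_mem _ (hcsub hzc)
        rw [← hb.2]
        exact Submodule.subset_span ⟨j.succ, rfl⟩
      rw [mem_span_iff] at h2
      obtain ⟨a, ha⟩ := h2
      have h3 : ∑ i : Fin n, (a i.succ : ℝ) • pj (b 0) (b i.succ) = 0 := by
        have h4 := congrArg (pj (b 0)) ha
        rw [map_sub, ← hP z, hz2, sub_self, map_sum, Fin.sum_univ_succ] at h4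
        have h5 : pj (b 0) (a 0 • b 0) = 0 := by
          rw [← hP, map_smul, hP, pj_self hb0, smul_zero]
        rw [h5, zero_add] at h4
        rw [h4]
        refine Finset.sum_congr rfl fun i _ => ?_
        rw [← hP (a i.succ • b i.succ), map_smul, hP, Int.cast_smul_eq_zsmul]
      have h6 := Fintype.linearIndependent_iff.mp hLI _ h3
      have h7 : b j.succ - z = a 0 • b 0 := by
        rw [ha, Fin.sum_univ_succ, Finset.sum_eq_zero, add_zero]
        intro i _
        have : a i.succ = 0 := by exact_mod_cast h6 i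
        rw [this, zero_smul]
      have h8 : b j.succ = z + a 0 • b 0 := by rw [← h7]; abel
      rw [h8]
      exact Submodule.add_mem _ hzc (Submodule.smul_mem _ _ hb0c)
  have hcB : Bas L c := ⟨hcLI, hcL⟩
  refine ⟨c, hcLI, hcL, ?_⟩
  have hnorm : ∀ i : Fin n, ‖c i.succ‖ ≤ 2 * ‖c' i‖ := by
    intro i
    have h1 := hmin _ (hcB.perm (Equiv.swap 0 i.succ))
    rw [Function.comp_apply, Equiv.swap_apply_left] at h1
    have h2 := norm_sq_eq hb0 (c i.succ)
    rw [hcs, hyP] at h2
    rw [hcs] at h1 ⊢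
    have h3 := abs_le.mp (hyt i)
    have h4 : tt (b 0) (y i) ^ 2 ≤ 1 / 4 := by nlinarith [h3.1, h3.2]
    have h5 : ‖b 0‖ ^ 2 ≤ 9 / 4 * ‖y i‖ ^ 2 := by
      nlinarith [norm_nonneg (b 0), norm_nonneg (y i)]
    have h6 : tt (b 0) (y i) ^ 2 * ‖b 0‖ ^ 2 ≤ 1 / 4 * (9 / 4 * ‖y i‖ ^ 2) :=
      mul_le_mul h4 h5 (by positivity) (by norm_num)
    have h7 : ‖y i‖ ^ 2 ≤ (2 * ‖c' i‖) ^ 2 := by nlinarith [sq_nonneg ‖y i‖]
    exact (pow_le_pow_iff_left₀ (norm_nonneg _) (by positivity) two_ne_zero).mp h7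
  intro x
  set X := ∑ i, x i • c i with hX
  have hPX : pj (b 0) X = ∑ i : Fin n, x i.succ • c' i := by
    rw [hX, Fin.sum_univ_succ, map_add, map_smul, hc0, pj_self hb0, smul_zero, zero_add, map_sum]
    refine Finset.sum_congr rfl fun i _ => ?_
    rw [map_smul, hcs, hyP]
  have h1 : ∑ i : Fin n, |x i.succ| * ‖c' i‖ ≤ κ' * ‖X‖ := by
    refine (hc3 (fun i => x i.succ)).trans ?_
    rw [← hPX]
    exact mul_le_mul_of_nonneg_left (norm_pj_le hb0 X) (by linarith)
  have h2 : ∑ i : Fin n, |x i.succ| * ‖c i.succ‖ ≤ 2 * κ' * ‖X‖ := by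
    have : ∑ i : Fin n, |x i.succ| * ‖c i.succ‖ ≤ ∑ i : Fin n, 2 * (|x i.succ| * ‖c' i‖) := by
      refine Finset.sum_le_sum fun i _ => ?_
      have := mul_le_mul_of_nonneg_left (hnorm i) (abs_nonneg (x i.succ))
      linarith
    rw [← Finset.mul_sum] at this
    linarith
  have h3 : |x 0| * ‖c 0‖ ≤ ‖X‖ + ∑ i : Fin n, |x i.succ| * ‖c i.succ‖ := by
    have h4 : x 0 • c 0 = X - ∑ i : Fin n, x i.succ • c i.succ := by
      rw [hX, Fin.sum_univ_succ]; abel
    have h5 : |x 0| * ‖c 0‖ = ‖x 0 • c 0‖ := by rw [norm_smul, Real.norm_eq_abs]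
    rw [h5, h4]
    refine (norm_sub_le _ _).trans ?_
    gcongr
    refine (norm_sum_le _ _).trans (le_of_eq ?_)
    exact Finset.sum_congr rfl fun i _ => by rw [norm_smul, Real.norm_eq_abs]
  rw [Fin.sum_univ_succ]
  linarith

end GBM

theorem specGB : SpecGB := by
  intro n
  induction n with
  | zero =>
    refine ⟨1, le_refl _, ?_⟩
    intro E _ _ v hv
    exact ⟨v, hv, rfl, fun x => by simp⟩
  | succ n ih =>
    obtain ⟨κ', hκ', ih⟩ := ih
    refine ⟨1 + 4 * κ', by linarith, ?_⟩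
    intro E _ _ v hv
    exact GBM.step n κ' hκ' ih v hv

end MPcb27
end

section
/-!
# MP_cb27ba_nt, project BD: module KUM (Kummer theory)
-/
set_option autoImplicit false

namespace MPcb27

namespace Kum

open Finset Polynomial

lemma rm_pow {R : Type} [CommRing R] [IsDomain R] {f : R[X]} (hf : f ≠ 0) (x : R) (n : ℕ) :
    rootMultiplicity x (f ^ n) = n * rootMultiplicity x f := by
  induction n with
  | zero =>
    simp
  | succ n ih =>
    rw [pow_succ, rootMultiplicity_mul (mul_ne_zero (pow_ne_zero _ hf) hf), ih]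
    ring

lemma rm_prod {R : Type} [CommRing R] [IsDomain R] {ι : Type} (s : Finset ι) (f : ι → R[X])
    (hf : ∀ i ∈ s, f i ≠ 0) (x : R) :
    rootMultiplicity x (∏ i ∈ s, f i) = ∑ i ∈ s, rootMultiplicity x (f i) := by
  classical
  induction s using Finset.induction_on with
  | empty =>
    simp
  | insert a s ha ih =>
    rw [prod_insert ha, sum_insert ha, rootMultiplicity_mul, ih]
    · intro i hi; exact hf i (mem_insert_of_mem hi)
    · apply mul_ne_zero (hf a (mem_insert_self _ _))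
      exact prod_ne_zero_iff.2 fun i hi => hf i (mem_insert_of_mem hi)

section

variable (p : ℕ) [Fact p.Prime] (F : Type) [Field F] [Algebra (ZMod p) F]

/-- `x + s` -/
noncomputable def xs (s : ZMod p) : F[X][X] := C (X + C (algebraMap (ZMod p) F s))

/-- `Y + s` -/
noncomputable def ys (s : ZMod p) : F[X][X] := X + C (C (algebraMap (ZMod p) F s))

lemma xs_ne (s : ZMod p) : xs p F s ≠ 0 := by
  unfold xs
  rw [Ne, C_eq_zero]
  exact (monic_X_add_C _).ne_zero

lemma ys_ne (s : ZMod p) : ys p F s ≠ 0 := (monic_X_add_C _).ne_zero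

lemma rm_xs (s t : ZMod p) :
    rootMultiplicity (-(C (algebraMap (ZMod p) F t))) (xs p F s) = 0 := rootMultiplicity_C _ _

lemma rm_ys (s t : ZMod p) :
    rootMultiplicity (-(C (algebraMap (ZMod p) F t))) (ys p F s) = if s = t then 1 else 0 := by
  classical
  have h : ys p F s = X - C (-(C (algebraMap (ZMod p) F s))) := by
    rw [C_neg, sub_neg_eq_add]; rfl
  rw [h, rootMultiplicity_X_sub_C]
  have : (-(C (algebraMap (ZMod p) F t)) : F[X]) = -(C (algebraMap (ZMod p) F s)) ↔ s = t := by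
    rw [neg_inj, C_inj]
    constructor
    · intro h
      exact ((algebraMap (ZMod p) F).injective h).symm
    · rintro rfl; rfl
  simp [this]

/-- a quotient of monomials in the roots is not a rational function -/
lemma ratio (S : Finset (ZMod p)) (A B : F[X][X]) (hA : A ≠ 0) (hB : B ≠ 0)
    (k : ℕ) (i j : S → Fin k)
    (h : A ^ k * ((∏ s : S, xs p F s ^ (i s : ℕ)) * ∏ s : S, ys p F s ^ (j s : ℕ)) =
      B ^ k * ((∏ s : S, ys p F s ^ (i s : ℕ)) * ∏ s : S, xs p F s ^ (j s : ℕ))) : i = j := by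
  classical
  funext t
  have hx : ∀ e : S → Fin k, ∏ s : S, xs p F s ^ (e s : ℕ) ≠ 0 := fun e =>
    prod_ne_zero_iff.2 fun s _ => pow_ne_zero _ (xs_ne p F s)
  have hy : ∀ e : S → Fin k, ∏ s : S, ys p F s ^ (e s : ℕ) ≠ 0 := fun e =>
    prod_ne_zero_iff.2 fun s _ => pow_ne_zero _ (ys_ne p F s)
  set r : F[X] := -(C (algebraMap (ZMod p) F t)) with hr
  have hrx : ∀ e : S → Fin k, rootMultiplicity r (∏ s : S, xs p F s ^ (e s : ℕ)) = 0 := by
    intro e
    rw [rm_prod _ _ (fun (s : S) _ => pow_ne_zero _ (xs_ne p F s))]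
    refine sum_eq_zero fun s _ => ?_
    rw [rm_pow (xs_ne p F s), rm_xs, mul_zero]
  have hry : ∀ e : S → Fin k, rootMultiplicity r (∏ s : S, ys p F s ^ (e s : ℕ)) = e t := by
    intro e
    rw [rm_prod _ _ (fun (s : S) _ => pow_ne_zero _ (ys_ne p F s))]
    rw [sum_eq_single_of_mem t (mem_univ _)]
    · rw [rm_pow (ys_ne p F t), rm_ys, if_pos rfl, mul_one]
    · intro s _ hs
      rw [rm_pow (ys_ne p F s), rm_ys, if_neg, mul_zero]
      intro h'; exact hs (Subtype.ext h')
  have h1 := congrArg (rootMultiplicity r) h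
  rw [rootMultiplicity_mul (mul_ne_zero (pow_ne_zero _ hA) (mul_ne_zero (hx i) (hy j))),
    rootMultiplicity_mul (mul_ne_zero (hx i) (hy j)),
    rootMultiplicity_mul (mul_ne_zero (pow_ne_zero _ hB) (mul_ne_zero (hy i) (hx j))),
    rootMultiplicity_mul (mul_ne_zero (hy i) (hx j)), hrx, hrx, hry, hry, rm_pow hA, rm_pow hB] at h1
  have hi := (i t).2
  have hj := (j t).2
  have h2 : (k * rootMultiplicity r A + (j t : ℕ)) % k =
      (k * rootMultiplicity r B + (i t : ℕ)) % k := by
    congr 1; omega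
  rw [Nat.mul_add_mod, Nat.mul_add_mod, Nat.mod_eq_of_lt hi, Nat.mod_eq_of_lt hj] at h2
  exact Fin.ext h2.symm

end

end Kum

open Finset Polynomial in
theorem specKum : SpecKum := by
  intro p _ F _ _ S
  classical
  have hp : p.Prime := Fact.out
  let E := FractionRing F[X][X]
  let Ω := SeparableClosure E
  let φ : F[X][X] →+* Ω := (algebraMap E Ω).comp (algebraMap F[X][X] E)
  have hφ : Function.Injective φ :=
    (algebraMap E Ω).injective.comp (IsFractionRing.injective F[X][X] E)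
  set k := p - 1 with hk
  have hkpos : 0 < k := by have := hp.one_lt; omega
  have hcharF : CharP F p := charP_of_injective_algebraMap (algebraMap (ZMod p) F).injective p
  have hcharR : CharP F[X][X] p := by
    have h1 : CharP F[X] p := inferInstance
    infer_instance
  have hcharΩ : CharP Ω p := charP_of_injective_ringHom hφ p
  have hkΩ : NeZero ((k : ℕ) : Ω) := by
    constructor
    rw [hk, Nat.cast_sub hp.one_lt.le, CharP.cast_eq_zero, Nat.cast_one, zero_sub]
    exact neg_ne_zero.2 one_ne_zero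
  have hw : ∀ s : ZMod p, ∃ z : Ω, z ^ k = φ (Kum.ys p F s) / φ (Kum.xs p F s) := fun s =>
    IsSepClosed.exists_pow_nat_eq _ k
  choose w hw using hw
  have hxs : ∀ s, φ (Kum.xs p F s) ≠ 0 := fun s => by
    rw [Ne, map_eq_zero_iff φ hφ]; exact Kum.xs_ne p F s
  have hys : ∀ s, φ (Kum.ys p F s) ≠ 0 := fun s => by
    rw [Ne, map_eq_zero_iff φ hφ]; exact Kum.ys_ne p F s
  have hwne : ∀ s, w s ≠ 0 := by
    intro s h
    have := hw s
    rw [h, zero_pow hkpos.ne'] at this
    exact div_ne_zero (hys s) (hxs s) this.symm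
  refine ⟨Ω, inferInstance, φ, w, ?_, ?_⟩
  · intro s _
    have := hw s
    rw [eq_div_iff (hxs s)] at this
    exact this
  -- the monomials
  let mo : (S → Fin k) → Ω := fun i => ∏ s : S, w s ^ ((i s : ℕ))
  have hmone : ∀ i, mo i ≠ 0 := fun i => prod_ne_zero_iff.2 fun s _ => pow_ne_zero _ (hwne s)
  have hsep : ∀ i j : S → Fin k, i ≠ j → ∃ σ : Ω ≃ₐ[E] Ω, σ (mo i / mo j) ≠ mo i / mo j := by
    intro i j hij
    by_contra hcon
    push Not at hcon
    have hmem := (InfiniteGalois.mem_range_algebraMap_iff_fixed (k := E) (K := Ω)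
      (mo i / mo j)).2 hcon
    obtain ⟨r, hr⟩ := hmem
    obtain ⟨A, B, hB, hAB⟩ := IsFractionRing.div_surjective (A := F[X][X]) r
    have hB0 : B ≠ 0 := nonZeroDivisors.ne_zero hB
    have hr2 : φ A / φ B = mo i / mo j := by
      rw [← hr, ← hAB, map_div₀]; rfl
    have hφB : φ B ≠ 0 := by rw [Ne, map_eq_zero_iff φ hφ]; exact hB0
    have hA0 : A ≠ 0 := by
      intro h
      rw [h, map_zero, zero_div] at hr2
      exact div_ne_zero (hmone i) (hmone j) hr2.symm
    have hmok : ∀ i, mo i ^ k * ∏ s : S, φ (Kum.xs p F s) ^ ((i s : ℕ)) =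
        ∏ s : S, φ (Kum.ys p F s) ^ ((i s : ℕ)) := by
      intro i
      rw [← prod_pow, ← prod_mul_distrib]
      refine prod_congr rfl fun s _ => ?_
      rw [← pow_mul, mul_comm ((i s : ℕ)) k, pow_mul, ← mul_pow, hw s, div_mul_cancel₀ _ (hxs s)]
    apply hij
    apply Kum.ratio p F S A B hA0 hB0 k i j
    apply hφ
    rw [div_eq_div_iff hφB (hmone j)] at hr2
    simp only [map_mul, map_pow, map_prod]
    have h1 := hmok i
    have h2 := hmok j
    have h3 : (φ A * mo j) ^ k = (mo i * φ B) ^ k := by rw [hr2]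
    rw [mul_pow, mul_pow] at h3
    rw [← h1, ← h2]
    linear_combination ((∏ s : S, φ (Kum.xs p F s) ^ ((i s : ℕ))) *
      ∏ s : S, φ (Kum.xs p F s) ^ ((j s : ℕ))) * h3
  -- action of an automorphism on the roots
  have hact : ∀ σ : Ω ≃ₐ[E] Ω, ∃ z : ZMod p → ZMod p, (∀ s, z s ≠ 0) ∧
      ∀ s, σ (w s) = φ (C (C (algebraMap (ZMod p) F (z s)))) * w s := by
    intro σ
    have h1 : ∀ s, ∃ z : ZMod p, z ≠ 0 ∧ σ (w s) = φ (C (C (algebraMap (ZMod p) F z))) * w s := by
      intro s
      have h2 : σ (w s) ^ k = w s ^ k := by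
        rw [← map_pow, hw s]
        have : φ (Kum.ys p F s) / φ (Kum.xs p F s) =
            algebraMap E Ω (algebraMap F[X][X] E (Kum.ys p F s) /
              algebraMap F[X][X] E (Kum.xs p F s)) := by
          rw [map_div₀]; rfl
        rw [this, AlgEquiv.commutes]
      set ζ : Ω := σ (w s) / w s with hζ
      have hζk : ζ ^ k = 1 := by
        rw [hζ, div_pow, h2, div_self (pow_ne_zero _ (hwne s))]
      have hζp : ζ ^ p = ζ := by
        have : p = k + 1 := by omega
        rw [this, pow_succ, hζk, one_mul]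
      have := hcharΩ
      have hmem := (Subfield.mem_bot_iff_pow_eq_self Ω p).2 hζp
      let ψ : ZMod p →+* Ω := φ.comp (C.comp (C.comp (algebraMap (ZMod p) F)))
      have hbot : (⊥ : Subfield Ω) ≤ ψ.fieldRange := bot_le
      obtain ⟨z, hz⟩ := hbot hmem
      refine ⟨z, ?_, ?_⟩
      · rintro rfl
        rw [map_zero] at hz
        rw [← hz, zero_pow hkpos.ne'] at hζk
        exact zero_ne_one hζk
      · have : φ (C (C (algebraMap (ZMod p) F z))) = ζ := hz
        rw [this, hζ, div_mul_cancel₀ _ (hwne s)]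
    choose z hz using h1
    exact ⟨z, fun s => (hz s).1, fun s => (hz s).2⟩
  -- minimal relation
  have main : ∀ n : ℕ, ∀ H : (S → Fin k) → F[X][X], (univ.filter fun i => H i ≠ 0).card ≤ n →
      ∑ i, φ (H i) * mo i = 0 → H = 0 := by
    intro n
    induction n with
    | zero =>
      intro H hH _
      funext i
      by_contra h
      have : i ∈ univ.filter fun i => H i ≠ 0 := by simpa using h
      rw [Nat.le_zero, card_eq_zero] at hH
      rw [hH] at this
      exact absurd this (notMem_empty _)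
    | succ n ih =>
      intro H hH hrel
      by_contra hne
      obtain ⟨i, hi⟩ : ∃ i, H i ≠ 0 := by
        by_contra h
        push Not at h
        exact hne (funext h)
      by_cases hj : ∃ j, j ≠ i ∧ H j ≠ 0
      · obtain ⟨j, hji, hj⟩ := hj
        obtain ⟨σ, hσ⟩ := hsep i j hji.symm
        obtain ⟨z, hz0, hz⟩ := hact σ
        let c : (S → Fin k) → F[X][X] := fun i =>
          ∏ s : S, (C (C (algebraMap (ZMod p) F (z s)))) ^ ((i s : ℕ))
        have hσmo : ∀ i, σ (mo i) = φ (c i) * mo i := by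
          intro i
          simp only [mo, c, map_prod, map_pow]
          rw [← prod_mul_distrib]
          refine prod_congr rfl fun s _ => ?_
          rw [hz s, mul_pow]
        have hrel2 : ∑ l, φ (H l * (c l - c i)) * mo l = 0 := by
          have h1 : σ (∑ l, φ (H l) * mo l) = 0 := by rw [hrel, map_zero]
          rw [map_sum] at h1
          have h2 : ∀ l, σ (φ (H l) * mo l) = φ (H l) * (φ (c l) * mo l) := by
            intro l
            rw [map_mul, hσmo]
            congr 1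
            exact σ.commutes _
          simp_rw [h2] at h1
          have h3 : ∑ l, φ (H l * (c l - c i)) * mo l =
              ∑ l, φ (H l) * (φ (c l) * mo l) - φ (c i) * ∑ l, φ (H l) * mo l := by
            rw [mul_sum, ← sum_sub_distrib]
            refine sum_congr rfl fun l _ => ?_
            rw [map_mul, map_sub]; ring
          rw [h3, h1, hrel]; simp
        have hcard : (univ.filter fun l => H l * (c l - c i) ≠ 0).card ≤ n := by
          have hss : (univ.filter fun l => H l * (c l - c i) ≠ 0) ⊆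
              (univ.filter fun l => H l ≠ 0).erase i := by
            intro l hl
            simp only [mem_filter, mem_univ, true_and, mem_erase] at hl ⊢
            refine ⟨?_, left_ne_zero_of_mul hl⟩
            rintro rfl
            simp at hl
          have h1 := card_le_card hss
          rw [card_erase_of_mem (by simpa using hi)] at h1
          omega
        have hz2 := ih (fun l => H l * (c l - c i)) hcard hrel2
        have hz3 : H j * (c j - c i) = 0 := congrFun hz2 j
        have hcji : c j = c i := sub_eq_zero.1 ((mul_eq_zero.1 hz3).resolve_left hj)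
        apply hσ
        rw [map_div₀, hσmo, hσmo, hcji]
        have hci : φ (c i) ≠ 0 := by
          rw [Ne, map_eq_zero_iff φ hφ]
          refine prod_ne_zero_iff.2 fun s _ => pow_ne_zero _ ?_
          rw [Ne, C_eq_zero, C_eq_zero, map_eq_zero]
          exact hz0 s
        rw [mul_div_mul_left _ _ hci]
      · push Not at hj
        rw [sum_eq_single_of_mem i (mem_univ _)] at hrel
        · have h1 := (mul_eq_zero.1 hrel).resolve_right (hmone i)
          rw [map_eq_zero_iff φ hφ] at h1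
          exact hi h1
        · intro j _ hji
          rw [hj j hji, map_zero, zero_mul]
  intro H hH
  exact main _ H le_rfl hH

end MPcb27
end

section
/-!
# MP_cb27ba_nt, project BD: module LVAN (helper64)
-/
set_option autoImplicit false

namespace MPcb27

open Finset Polynomial

namespace Lvan

variable {p : ℕ} [Fact p.Prime]

/-- the set of monic polynomials of degree `m` -/
def Mo (p : ℕ) [Fact p.Prime] (m : ℕ) : Set (Polynomial (ZMod p)) :=
  {g : Polynomial (ZMod p) | g.Monic ∧ g.natDegree = m}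

theorem finite_Mo (m : ℕ) : (Mo p m).Finite := by
  have hinj : Set.InjOn (fun (g : Polynomial (ZMod p)) (i : Fin m) => g.coeff i) (Mo p m) := by
    rintro g ⟨hg, hgd⟩ h ⟨hh, hhd⟩ e
    ext k
    rcases lt_trichotomy k m with hk | hk | hk
    · exact congrFun e ⟨k, hk⟩
    · subst hk
      have h1 : g.coeff k = 1 := by rw [← hgd]; exact hg
      have h2 : h.coeff k = 1 := by rw [← hhd]; exact hh
      rw [h1, h2]
    · rw [coeff_eq_zero_of_natDegree_lt (by omega), coeff_eq_zero_of_natDegree_lt (by omega)]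
  exact Set.Finite.of_finite_image (Set.toFinite _) hinj

theorem aa_eq (S : Finset (ZMod p)) (ψ : ZMod p → MulChar (ZMod p) ℂ) (m : ℕ) :
    aa p S ψ m = ∑ᶠ g ∈ Mo p m, Xi p S ψ g := rfl

theorem Mo_zero : Mo p 0 = {1} := by
  ext g
  constructor
  · rintro ⟨hg, hgd⟩
    exact hg.natDegree_eq_zero.mp hgd
  · rintro rfl
    exact ⟨monic_one, natDegree_one⟩

theorem bij_one : Set.BijOn (fun u : ZMod p => (X + C (-u) : Polynomial (ZMod p))) Set.univ (Mo p 1) := by
  refine ⟨fun u _ => ⟨monic_X_add_C _, natDegree_X_add_C _⟩, ?_, ?_⟩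
  · intro u _ v _ h
    have := congrArg (fun g : Polynomial (ZMod p) => g.coeff 0) h
    simpa using this
  · rintro g ⟨hg, hgd⟩
    refine ⟨-g.coeff 0, trivial, ?_⟩
    have h1 := hg.eq_X_add_C hgd
    simp only [neg_neg]
    exact h1.symm

theorem aa_zero (S : Finset (ZMod p)) (ψ : ZMod p → MulChar (ZMod p) ℂ) : aa p S ψ 0 = 1 := by
  rw [aa_eq, Mo_zero, finsum_mem_singleton]
  simp [Xi]

theorem aa_one (S : Finset (ZMod p)) (ψ : ZMod p → MulChar (ZMod p) ℂ) :
    aa p S ψ 1 = WS p S ψ := by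
  rw [aa_eq, ← finsum_mem_eq_of_bijOn (f := fun u : ZMod p => ∏ s ∈ S, ψ s (u + s)) _ bij_one]
  · rw [finsum_mem_univ, finsum_eq_sum_of_fintype]
    rfl
  · intro u _
    simp only [Xi]
    refine Finset.prod_congr rfl fun s _ => ?_
    congr 1
    rw [natDegree_X_add_C]
    simp

theorem bij_shift (m : ℕ) (L : Polynomial (ZMod p)) (s0 : ZMod p) (hL : L.degree < m)
    (hL0 : L.eval (-s0) = 1) (a : ZMod p) (ha : a ≠ 0) :
    Set.BijOn (fun g : Polynomial (ZMod p) => g + C ((a - 1) * g.eval (-s0)) * L)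
      (Mo p m) (Mo p m) := by
  have key : ∀ (b : ZMod p) (g : Polynomial (ZMod p)), g ∈ Mo p m →
      g + C ((b - 1) * g.eval (-s0)) * L ∈ Mo p m := by
    rintro b g ⟨hg, hgd⟩
    have hdeg : (C ((b - 1) * g.eval (-s0)) * L).degree < g.degree := by
      rw [degree_eq_natDegree hg.ne_zero, hgd]
      refine lt_of_le_of_lt ?_ hL
      refine (degree_mul_le _ _).trans ?_
      calc (C ((b - 1) * g.eval (-s0))).degree + L.degree ≤ 0 + L.degree := by
            gcongr
            exact degree_C_le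
        _ = L.degree := zero_add _
    refine ⟨hg.add_of_left hdeg, ?_⟩
    rw [natDegree_add_eq_left_of_degree_lt hdeg, hgd]
  have inv : ∀ (b c : ZMod p), b * c = 1 → ∀ g : Polynomial (ZMod p),
      (fun g : Polynomial (ZMod p) => g + C ((c - 1) * g.eval (-s0)) * L)
        ((fun g : Polynomial (ZMod p) => g + C ((b - 1) * g.eval (-s0)) * L) g) = g := by
    intro b c hbc g
    simp only [eval_add, eval_mul, eval_C, hL0, mul_one]
    rw [add_assoc, ← add_mul, ← C_add]
    have : (b - 1) * eval (-s0) g + (c - 1) * (eval (-s0) g + (b - 1) * eval (-s0) g) = 0 := by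
      linear_combination (eval (-s0) g) * hbc
    rw [this]
    simp
  refine ⟨fun g hg => key a g hg, ?_, ?_⟩
  · intro g _ h _ e
    have h1 := inv a a⁻¹ (mul_inv_cancel₀ ha) g
    have h2 := inv a a⁻¹ (mul_inv_cancel₀ ha) h
    rw [← h1, ← h2]
    simp only at e ⊢
    rw [e]
  · intro g hg
    exact ⟨_, key a⁻¹ g hg, inv a⁻¹ a (inv_mul_cancel₀ ha) g⟩

theorem aa_vanish (S : Finset (ZMod p)) (ψ : ZMod p → MulChar (ZMod p) ℂ)
    (h : ∃ s ∈ S, ψ s ≠ 1) (m : ℕ) (hm : #S ≤ m) : aa p S ψ m = 0 := by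
  obtain ⟨s0, hs0, hψ⟩ := h
  obtain ⟨a, ha⟩ : ∃ a : (ZMod p)ˣ, ψ s0 a ≠ 1 := by
    by_contra hcon
    push Not at hcon
    exact hψ (MulChar.ext fun a => by rw [hcon a, MulChar.one_apply_coe])
  -- Lagrange polynomial
  set c : ZMod p := ∏ s ∈ S.erase s0, (s - s0) with hc
  have hc0 : c ≠ 0 := by
    rw [hc, Finset.prod_ne_zero_iff]
    intro s hs
    rw [Finset.mem_erase] at hs
    exact sub_ne_zero.mpr hs.1
  set L : Polynomial (ZMod p) := C c⁻¹ * ∏ s ∈ S.erase s0, (X + C s) with hLdef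
  have hLdeg : L.degree < m := by
    have h1 : L.degree ≤ ((#S - 1 : ℕ) : WithBot ℕ) := by
      rw [hLdef]
      refine (degree_mul_le _ _).trans ?_
      have h2 : (∏ s ∈ S.erase s0, (X + C s) : Polynomial (ZMod p)).degree = ((#S - 1 : ℕ) : WithBot ℕ) := by
        rw [degree_prod]
        simp [degree_X_add_C, Finset.card_erase_of_mem hs0]
      rw [h2]
      calc (C c⁻¹).degree + ((#S - 1 : ℕ) : WithBot ℕ) ≤ 0 + ((#S - 1 : ℕ) : WithBot ℕ) := by
            gcongr
            exact degree_C_le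
        _ = _ := zero_add _
    refine lt_of_le_of_lt h1 ?_
    have : 0 < #S := Finset.card_pos.mpr ⟨s0, hs0⟩
    exact_mod_cast (by omega : #S - 1 < m)
  have hL0 : L.eval (-s0) = 1 := by
    rw [hLdef, eval_mul, eval_C, eval_prod]
    have : ∏ s ∈ S.erase s0, eval (-s0) (X + C s : Polynomial (ZMod p)) = c := by
      rw [hc]
      refine Finset.prod_congr rfl fun s _ => ?_
      simp
      ring
    rw [this, inv_mul_cancel₀ hc0]
  have hLs : ∀ s ∈ S, s ≠ s0 → L.eval (-s) = 0 := by
    intro s hs hne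
    rw [hLdef, eval_mul, eval_prod]
    refine mul_eq_zero_of_right _ (Finset.prod_eq_zero (Finset.mem_erase.mpr ⟨hne, hs⟩) ?_)
    simp
  have hb := bij_shift m L s0 hLdeg hL0 (a : ZMod p) a.ne_zero
  have hXi : ∀ g ∈ Mo p m, ψ s0 a * Xi p S ψ g =
      Xi p S ψ (g + C (((a : ZMod p) - 1) * g.eval (-s0)) * L) := by
    intro g hg
    have hg' := (hb.mapsTo hg)
    simp only [Xi]
    rw [hg'.2, hg.2]
    rw [← Finset.mul_prod_erase S _ hs0, ← Finset.mul_prod_erase S (fun s => ψ s _) hs0, ← mul_assoc,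
      ← map_mul]
    congr 1
    · congr 1
      rw [eval_add, eval_mul, eval_C, hL0]
      ring
    · refine Finset.prod_congr rfl fun s hs => ?_
      rw [Finset.mem_erase] at hs
      congr 1
      rw [eval_add, eval_mul, hLs s hs.2 hs.1]
      ring
  have hsum : ψ s0 a * aa p S ψ m = aa p S ψ m := by
    rw [aa_eq, mul_finsum_mem]
    exact finsum_mem_eq_of_bijOn _ hb hXi
  have : (ψ s0 a - 1) * aa p S ψ m = 0 := by rw [sub_mul, hsum, one_mul, sub_self]
  rcases mul_eq_zero.mp this with h1 | h1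
  · exact absurd (sub_eq_zero.mp h1) ha
  · exact h1

end Lvan

theorem specLvan : SpecLvan := fun _ _ S ψ =>
  ⟨Lvan.aa_zero S ψ, Lvan.aa_one S ψ, fun h m hm => Lvan.aa_vanish S ψ h m hm⟩

end MPcb27
end

section
/-!
# MP_cb27ba_nt, project BD: module LID (helper64)
-/
set_option autoImplicit false

namespace MPcb27

open Finset Polynomial

namespace Lid

open Module IntermediateField in
theorem norm_eq {K L : Type} [Field K] [Field L] [Algebra K L] [FiniteDimensional K L] (x : L) :
    Algebra.norm K x = ((-1) ^ (minpoly K x).natDegree * (minpoly K x).coeff 0) ^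
      (finrank K L / (minpoly K x).natDegree) := by
  have hx : IsIntegral K x := IsIntegral.of_finite K x
  have hpos : 0 < (minpoly K x).natDegree := minpoly.natDegree_pos hx
  have h1 := Algebra.norm_eq_norm_adjoin K x
  have h2 := Algebra.PowerBasis.norm_gen_eq_coeff_zero_minpoly (IntermediateField.adjoin.powerBasis hx)
  rw [IntermediateField.adjoin.powerBasis_gen, IntermediateField.minpoly_gen,
    IntermediateField.adjoin.powerBasis_dim] at h2
  have h3 : finrank K L = (minpoly K x).natDegree * finrank K⟮x⟯ L := by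
    rw [← IntermediateField.adjoin.finrank hx, finrank_mul_finrank]
  rw [h1, h2, h3, Nat.mul_div_cancel_left _ hpos]

variable {p : ℕ} [Fact p.Prime]

theorem norm_shift {n : ℕ} (hn : n ≠ 0) (u : GaloisField p n) (s : ZMod p) :
    Algebra.norm (ZMod p) (u + algebraMap (ZMod p) (GaloisField p n) s) =
      ((-1) ^ (minpoly (ZMod p) u).natDegree * (minpoly (ZMod p) u).eval (-s)) ^
        (n / (minpoly (ZMod p) u).natDegree) := by
  have h1 : (minpoly (ZMod p) (u + algebraMap (ZMod p) (GaloisField p n) s)).natDegree =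
      (minpoly (ZMod p) u).natDegree := by
    rw [minpoly.add_algebraMap, natDegree_comp, natDegree_X_sub_C, mul_one]
  have h2 : (minpoly (ZMod p) (u + algebraMap (ZMod p) (GaloisField p n) s)).coeff 0 =
      (minpoly (ZMod p) u).eval (-s) := by
    rw [minpoly.add_algebraMap, coeff_zero_eq_eval_zero, eval_comp]
    simp
  rw [norm_eq, h1, h2, GaloisField.finrank p hn]

/-- monic polynomials of degree `m` -/
noncomputable def Mof (p : ℕ) [Fact p.Prime] (m : ℕ) : Finset (Polynomial (ZMod p)) :=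
  (Lvan.finite_Mo (p := p) m).toFinset

theorem mem_Mof {m : ℕ} {g : Polynomial (ZMod p)} :
    g ∈ Mof p m ↔ g.Monic ∧ g.natDegree = m := by
  rw [Mof, Set.Finite.mem_toFinset]
  rfl

theorem aa_eq (S : Finset (ZMod p)) (ψ : ZMod p → MulChar (ZMod p) ℂ) (m : ℕ) :
    aa p S ψ m = ∑ g ∈ Mof p m, Xi p S ψ g := by
  rw [Lvan.aa_eq, Mof, finsum_mem_eq_finite_toFinset_sum]

open Classical in
/-- monic irreducible polynomials of degree at most `m` -/
noncomputable def Irr (p : ℕ) [Fact p.Prime] (m : ℕ) : Finset (Polynomial (ZMod p)) :=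
  ((range (m + 1)).biUnion (Mof p)).filter Irreducible

theorem mem_Irr {m : ℕ} {g : Polynomial (ZMod p)} :
    g ∈ Irr p m ↔ g.Monic ∧ g.natDegree ≤ m ∧ Irreducible g := by
  classical
  rw [Irr, mem_filter, mem_biUnion]
  constructor
  · rintro ⟨⟨k, hk, hg⟩, hi⟩
    rw [mem_Mof] at hg
    rw [mem_range] at hk
    exact ⟨hg.1, by omega, hi⟩
  · rintro ⟨h1, h2, h3⟩
    exact ⟨⟨g.natDegree, mem_range.mpr (by omega), mem_Mof.mpr ⟨h1, rfl⟩⟩, h3⟩

theorem Xi_mul (S : Finset (ZMod p)) (ψ : ZMod p → MulChar (ZMod p) ℂ)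
    {g h : Polynomial (ZMod p)} (hg : g.Monic) (hh : h.Monic) :
    Xi p S ψ (g * h) = Xi p S ψ g * Xi p S ψ h := by
  simp only [Xi]
  rw [← Finset.prod_mul_distrib]
  refine Finset.prod_congr rfl fun s _ => ?_
  rw [← map_mul, hg.natDegree_mul hh, eval_mul, pow_add]
  congr 1
  ring

theorem Xi_pow (S : Finset (ZMod p)) (ψ : ZMod p → MulChar (ZMod p) ℂ)
    {g : Polynomial (ZMod p)} (hg : g.Monic) (e : ℕ) :
    Xi p S ψ (g ^ e) = Xi p S ψ g ^ e := by
  induction e with
  | zero => simp [Xi]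
  | succ e ih => rw [pow_succ, pow_succ, Xi_mul S ψ (hg.pow e) hg, ih]

theorem card_fibre {n : ℕ} (hn : n ≠ 0) (P : Polynomial (ZMod p)) (hm : P.Monic)
    (hi : Irreducible P) (hd : P.natDegree ∣ n) :
    Nat.card {u : GaloisField p n // minpoly (ZMod p) u = P} = P.natDegree := by
  classical
  have hsep : P.Separable := PerfectField.separable_of_irreducible hi
  have hdvd := hi.natDegree_dvd_iff_dvd_X_pow_card_pow_sub_X.mp hd
  rw [Nat.card_zmod] at hdvd
  have hsp : Splits (P.map (algebraMap (ZMod p) (GaloisField p n))) := by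
    refine Splits.of_dvd ?_ ?_ (map_dvd (Polynomial.mapRingHom (algebraMap (ZMod p) (GaloisField p n))) hdvd)
    · have := FiniteField.isSplittingField_of_nat_card_eq (K := GaloisField p n) p n
        (GaloisField.card p n hn)
      exact IsSplittingField.splits (GaloisField p n) (X ^ p ^ n - X : (ZMod p)[X])
    · rw [coe_mapRingHom]
      exact Polynomial.map_ne_zero (FiniteField.X_pow_card_pow_sub_X_ne_zero _ hn
        (Fact.out : p.Prime).one_lt)
  rw [← card_rootSet_eq_natDegree hsep hsp, ← Nat.card_eq_fintype_card]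
  refine Nat.card_congr (Equiv.subtypeEquivRight fun u => ?_)
  rw [mem_rootSet, ← minpoly.eq_iff_aeval_eq_zero hi hm]
  exact ⟨fun h => ⟨hi.ne_zero, h.symm⟩, fun h => h.2.symm⟩

theorem SS_eq (S : Finset (ZMod p)) (ψ : ZMod p → MulChar (ZMod p) ℂ) {n m : ℕ} (hn : n ≠ 0)
    (hnm : n ≤ m) :
    SS p S ψ n = ∑ P ∈ (Irr p m).filter (fun P => P.natDegree ∣ n),
      (P.natDegree : ℂ) * Xi p S ψ P ^ (n / P.natDegree) := by
  classical
  letI : Fintype (GaloisField p n) := Fintype.ofFinite _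
  rw [SS, finsum_eq_sum_of_fintype]
  have hmaps : ∀ u ∈ (univ : Finset (GaloisField p n)),
      minpoly (ZMod p) u ∈ (Irr p m).filter (fun P => P.natDegree ∣ n) := by
    intro u _
    have hu : IsIntegral (ZMod p) u := IsIntegral.of_finite _ u
    have hd : (minpoly (ZMod p) u).natDegree ∣ n := by
      have := minpoly.degree_dvd hu
      rwa [GaloisField.finrank p hn] at this
    rw [mem_filter, mem_Irr]
    exact ⟨⟨minpoly.monic hu, (Nat.le_of_dvd (Nat.pos_of_ne_zero hn) hd).trans hnm,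
      minpoly.irreducible hu⟩, hd⟩
  rw [← Finset.sum_fiberwise_of_maps_to hmaps]
  refine Finset.sum_congr rfl fun P hP => ?_
  rw [mem_filter, mem_Irr] at hP
  have hval : ∀ u ∈ (univ : Finset (GaloisField p n)).filter (fun u => minpoly (ZMod p) u = P),
      ∏ s ∈ S, ψ s (Algebra.norm (ZMod p) (u + algebraMap (ZMod p) (GaloisField p n) s)) =
        Xi p S ψ P ^ (n / P.natDegree) := by
    intro u hu
    rw [mem_filter] at hu
    rw [Xi, ← Finset.prod_pow]
    refine Finset.prod_congr rfl fun s _ => ?_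
    rw [norm_shift hn, hu.2, map_pow]
  rw [Finset.sum_congr rfl hval, Finset.sum_const, nsmul_eq_mul]
  congr 2
  rw [← card_fibre hn P hP.1.1 hP.1.2.2 hP.2, Nat.card_eq_fintype_card, Fintype.card_subtype]

open UniqueFactorizationMonoid in
theorem pow_dvd_iff {P g : Polynomial (ZMod p)} (hi : Irreducible P) (hm : P.Monic) (hg : g ≠ 0)
    (e : ℕ) : P ^ e ∣ g ↔ e ≤ (normalizedFactors g).count P := by
  classical
  rw [pow_dvd_iff_le_emultiplicity, emultiplicity_eq_count_normalizedFactors hi hg,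
    hm.normalize_eq_self]
  exact_mod_cast Iff.rfl

open UniqueFactorizationMonoid in
theorem natDegree_eq_sum {g : Polynomial (ZMod p)} (hm : g.Monic) {m : ℕ} (hgm : g.natDegree ≤ m) :
    g.natDegree = ∑ P ∈ Irr p m, (normalizedFactors g).count P * P.natDegree := by
  classical
  have hmon : ∀ P ∈ normalizedFactors g, P.Monic := by
    intro P hP
    have h1 := normalize_normalized_factor P hP
    rw [← h1]
    exact monic_normalize (prime_of_normalized_factor P hP).ne_zero
  have h1 : (normalizedFactors g).prod = g := by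
    rw [prod_normalizedFactors_eq hm.ne_zero, hm.normalize_eq_self]
  have h2 : g.natDegree = ((normalizedFactors g).map natDegree).sum := by
    conv_lhs => rw [← h1]
    exact natDegree_multiset_prod_of_monic _ hmon
  rw [h2, Finset.sum_multiset_map_count]
  simp_rw [smul_eq_mul]
  refine Finset.sum_subset ?_ ?_
  · intro P hP
    rw [Multiset.mem_toFinset] at hP
    rw [mem_Irr]
    refine ⟨hmon P hP, ?_, irreducible_of_normalized_factor P hP⟩
    exact (natDegree_le_of_dvd (dvd_of_mem_normalizedFactors hP) hm.ne_zero).trans hgm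
  · intro P _ hP
    rw [Multiset.mem_toFinset] at hP
    rw [Multiset.count_eq_zero_of_notMem hP, zero_mul]

open UniqueFactorizationMonoid in
theorem card_exp {g : Polynomial (ZMod p)} (hm : g.Monic) {m : ℕ} (hgm : g.natDegree = m)
    {P : Polynomial (ZMod p)} (hP : P ∈ Irr p m) [DecidablePred fun n =>
      P.natDegree ∣ n + 1 ∧ P ^ ((n + 1) / P.natDegree) ∣ g] :
    #((range m).filter fun n => P.natDegree ∣ n + 1 ∧ P ^ ((n + 1) / P.natDegree) ∣ g) =
      (normalizedFactors g).count P := by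
  classical
  rw [mem_Irr] at hP
  obtain ⟨hPm, hPd, hPi⟩ := hP
  have hpos : 0 < P.natDegree := hPi.natDegree_pos
  have himg : (range m).filter (fun n => P.natDegree ∣ n + 1 ∧ P ^ ((n + 1) / P.natDegree) ∣ g) =
      (range ((normalizedFactors g).count P)).image (fun e => (e + 1) * P.natDegree - 1) := by
    ext n
    rw [mem_filter, mem_image]
    constructor
    · rintro ⟨hn, ⟨e, he⟩, hdvd⟩
      rw [he, Nat.mul_div_cancel_left _ hpos, pow_dvd_iff hPi hPm hm.ne_zero] at hdvd
      have he0 : e ≠ 0 := by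
        rintro rfl
        simp at he
      refine ⟨e - 1, mem_range.mpr (by omega), ?_⟩
      rw [Nat.sub_add_cancel (Nat.one_le_iff_ne_zero.mpr he0), mul_comm, ← he]
      rfl
    · rintro ⟨e, he, rfl⟩
      rw [mem_range] at he
      have h1 : 1 ≤ (e + 1) * P.natDegree := Nat.mul_pos (Nat.succ_pos e) hpos
      have h2 : P ^ (e + 1) ∣ g := by
        rw [pow_dvd_iff hPi hPm hm.ne_zero]
        exact he
      have h3 : (e + 1) * P.natDegree ≤ m := by
        have := natDegree_le_of_dvd h2 hm.ne_zero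
        rwa [natDegree_pow, hgm] at this
      rw [Nat.sub_add_cancel h1]
      refine ⟨mem_range.mpr (by omega), Dvd.intro_left _ rfl, ?_⟩
      rw [Nat.mul_div_cancel _ hpos]
      exact h2
  rw [himg, card_image_of_injective, card_range]
  intro e e' h
  simp only at h
  have h1 : 1 ≤ (e + 1) * P.natDegree := Nat.mul_pos (Nat.succ_pos e) hpos
  have h2 : 1 ≤ (e' + 1) * P.natDegree := Nat.mul_pos (Nat.succ_pos e') hpos
  have h3 : (e + 1) * P.natDegree = (e' + 1) * P.natDegree := by omega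
  have h4 := Nat.eq_of_mul_eq_mul_right hpos h3
  omega

open Classical in
theorem weight {g : Polynomial (ZMod p)} (hm : g.Monic) {m : ℕ} (hgm : g.natDegree = m) :
    (m : ℂ) = ∑ n ∈ range m, ∑ P ∈ (Irr p m).filter (fun P => P.natDegree ∣ n + 1),
      if P ^ ((n + 1) / P.natDegree) ∣ g then (P.natDegree : ℂ) else 0 := by
  simp_rw [Finset.sum_filter]
  rw [Finset.sum_comm]
  have h1 : ∀ P ∈ Irr p m, ∑ n ∈ range m, (if P.natDegree ∣ n + 1 then
      if P ^ ((n + 1) / P.natDegree) ∣ g then (P.natDegree : ℂ) else 0 else 0) =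
      (((UniqueFactorizationMonoid.normalizedFactors g).count P * P.natDegree : ℕ) : ℂ) := by
    intro P hP
    rw [← card_exp hm hgm hP]
    push_cast
    rw [← nsmul_eq_mul, ← Finset.sum_const, Finset.sum_filter]
    refine Finset.sum_congr rfl fun n _ => ?_
    by_cases ha : P.natDegree ∣ n + 1
    · simp [ha]
    · simp [ha]
  rw [Finset.sum_congr rfl h1, ← Nat.cast_sum, ← natDegree_eq_sum hm hgm.le, hgm]

open Classical in
theorem shift_sum (S : Finset (ZMod p)) (ψ : ZMod p → MulChar (ZMod p) ℂ) {m n : ℕ}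
    {Q : Polynomial (ZMod p)} (hQ : Q.Monic) (hQd : Q.natDegree = n) (hnm : n ≤ m) :
    ∑ g ∈ (Mof p m).filter (fun g => Q ∣ g), Xi p S ψ g = Xi p S ψ Q * aa p S ψ (m - n) := by
  rw [aa_eq, Finset.mul_sum]
  symm
  refine Finset.sum_nbij (fun h => Q * h) ?_ ?_ ?_ ?_
  · intro h hh
    rw [mem_Mof] at hh
    rw [mem_filter, mem_Mof]
    refine ⟨⟨hQ.mul hh.1, ?_⟩, Dvd.intro _ rfl⟩
    rw [hQ.natDegree_mul hh.1, hQd, hh.2]
    omega
  · intro h _ h' _ e
    exact mul_left_cancel₀ hQ.ne_zero e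
  · intro g hg
    simp only [coe_filter, Set.mem_setOf_eq, mem_Mof] at hg
    obtain ⟨⟨hgm, hgd⟩, h, rfl⟩ := hg
    have hh : h.Monic := hQ.of_mul_monic_left hgm
    refine ⟨h, ?_, rfl⟩
    rw [mem_coe, mem_Mof]
    refine ⟨hh, ?_⟩
    rw [hQ.natDegree_mul hh] at hgd
    omega
  · intro h hh
    rw [mem_Mof] at hh
    exact (Xi_mul S ψ hQ hh.1).symm

theorem main (S : Finset (ZMod p)) (ψ : ZMod p → MulChar (ZMod p) ℂ) (m : ℕ) :
    (m : ℂ) * aa p S ψ m = ∑ k ∈ range m, SS p S ψ (k + 1) * aa p S ψ (m - 1 - k) := by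
  classical
  have h1 : (m : ℂ) * aa p S ψ m = ∑ g ∈ Mof p m, ∑ n ∈ range m,
      ∑ P ∈ (Irr p m).filter (fun P => P.natDegree ∣ n + 1),
        (if P ^ ((n + 1) / P.natDegree) ∣ g then (P.natDegree : ℂ) * Xi p S ψ g else 0) := by
    rw [aa_eq, Finset.mul_sum]
    refine Finset.sum_congr rfl fun g hg => ?_
    rw [mem_Mof] at hg
    conv_lhs => rw [weight hg.1 hg.2]
    rw [Finset.sum_mul]
    refine Finset.sum_congr rfl fun n _ => ?_
    rw [Finset.sum_mul]
    refine Finset.sum_congr rfl fun P _ => ?_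
    split_ifs
    · rfl
    · rw [zero_mul]
  rw [h1, Finset.sum_comm]
  refine Finset.sum_congr rfl fun n hn => ?_
  rw [mem_range] at hn
  rw [Finset.sum_comm, SS_eq S ψ (Nat.succ_ne_zero n) hn, Finset.sum_mul]
  refine Finset.sum_congr rfl fun P hP => ?_
  rw [mem_filter, mem_Irr] at hP
  obtain ⟨⟨hPm, _, _⟩, hPd⟩ := hP
  rw [← Finset.sum_filter, ← Finset.mul_sum]
  rw [shift_sum S ψ (hPm.pow _) (n := n + 1)
    (by rw [natDegree_pow, Nat.div_mul_cancel hPd]) hn, Xi_pow S ψ hPm, mul_assoc]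
  congr 3
  omega

end Lid

theorem specLid : SpecLid := fun _ _ S ψ m _ => Lid.main S ψ m

end MPcb27
end

section
/-!
# MP_cb27ba_nt, module MODEL: Ruzsa's model lemma
-/
set_option autoImplicit false

namespace MPcb27

open Finset
open scoped Pointwise

namespace Model

/-- the multiples of `N` among the nonzero residues -/
theorem card_dvd (p N : ℕ) [Fact p.Prime] :
    #((univ.erase (0 : ZMod p)).filter fun u => N ∣ u.val) ≤ (p - 1) / N := by
  have hp := (Fact.out : p.Prime).pos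
  rw [← Nat.Ioc_filter_dvd_card_eq_div]
  refine Finset.card_le_card_of_injOn (fun u => u.val) ?_ ?_
  · intro u hu
    rw [Finset.mem_coe, Finset.mem_filter, Finset.mem_erase] at hu
    rw [Finset.mem_coe, Finset.mem_filter, Finset.mem_Ioc]
    have h1 := ZMod.val_lt u
    have h2 : u.val ≠ 0 := fun h => hu.1.1 ((ZMod.val_eq_zero u).1 h)
    dsimp only
    exact ⟨⟨by omega, by omega⟩, hu.2⟩
  · intro u _ v _ h
    exact ZMod.val_injective p h

theorem card_dvd' (p N : ℕ) [Fact p.Prime] :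
    #((univ.erase (0 : ZMod p)).filter fun u => N ∣ p - u.val) ≤ (p - 1) / N := by
  have hp := (Fact.out : p.Prime).pos
  rw [← Nat.Ioc_filter_dvd_card_eq_div]
  refine Finset.card_le_card_of_injOn (fun u => p - u.val) ?_ ?_
  · intro u hu
    rw [Finset.mem_coe, Finset.mem_filter, Finset.mem_erase] at hu
    rw [Finset.mem_coe, Finset.mem_filter, Finset.mem_Ioc]
    have h1 := ZMod.val_lt u
    have h2 : u.val ≠ 0 := fun h => hu.1.1 ((ZMod.val_eq_zero u).1 h)
    dsimp only
    exact ⟨⟨by omega, by omega⟩, hu.2⟩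
  · intro u _ v _ h
    have h1 := ZMod.val_lt u
    have h2 := ZMod.val_lt v
    apply ZMod.val_injective p
    dsimp only at h
    omega

theorem card_bad (p N : ℕ) [Fact p.Prime] (v : ZMod p) (hv : v ≠ 0) :
    #((univ.erase (0 : ZMod p)).filter fun l => N ∣ (l * v).val ∨ N ∣ p - (l * v).val) ≤
      2 * ((p - 1) / N) := by
  have h1 : #((univ.erase (0 : ZMod p)).filter fun l => N ∣ (l * v).val ∨ N ∣ p - (l * v).val) ≤
      #((univ.erase (0 : ZMod p)).filter fun u => N ∣ u.val ∨ N ∣ p - u.val) := by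
    refine Finset.card_le_card_of_injOn (fun l => l * v) ?_ ?_
    · intro u hu
      rw [Finset.mem_coe, Finset.mem_filter, Finset.mem_erase] at hu
      rw [Finset.mem_coe, Finset.mem_filter, Finset.mem_erase]
      exact ⟨⟨mul_ne_zero hu.1.1 hv, Finset.mem_univ _⟩, hu.2⟩
    · intro u _ w _ h
      exact mul_right_cancel₀ hv h
  have h2 := Finset.card_union_le ((univ.erase (0 : ZMod p)).filter fun u => N ∣ u.val)
    ((univ.erase (0 : ZMod p)).filter fun u => N ∣ p - u.val)
  rw [← Finset.filter_or] at h2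
  have h3 := card_dvd p N
  have h4 := card_dvd' p N
  omega

/-- a good multiplier -/
theorem exists_good (p N : ℕ) [Fact p.Prime] (hN : 0 < N) (T : Finset (ZMod p))
    (hT : 8 * #T ≤ N) :
    ∃ l : ZMod p, l ≠ 0 ∧ ∀ v ∈ T, v ≠ 0 → ¬ N ∣ (l * v).val ∧ ¬ N ∣ p - (l * v).val := by
  classical
  have hp := (Fact.out : p.Prime).two_le
  set B : Finset (ZMod p) := (T.erase 0).biUnion fun v =>
    (univ.erase (0 : ZMod p)).filter fun l => N ∣ (l * v).val ∨ N ∣ p - (l * v).val with hB
  have h1 : #B ≤ #T * (2 * ((p - 1) / N)) := by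
    refine (Finset.card_biUnion_le).trans ?_
    refine (Finset.sum_le_card_nsmul _ _ (2 * ((p - 1) / N)) ?_).trans ?_
    · intro v hv
      exact card_bad p N v (Finset.mem_erase.1 hv).1
    · rw [smul_eq_mul]
      exact Nat.mul_le_mul_right _ (Finset.card_le_card (Finset.erase_subset _ _))
  have h2 : N * ((p - 1) / N) ≤ p - 1 := Nat.mul_div_le _ _
  have h3 : #B < #(univ.erase (0 : ZMod p)) := by
    rw [Finset.card_erase_of_mem (Finset.mem_univ _), Finset.card_univ, ZMod.card]
    have h4 : N * (4 * #B) ≤ N * (p - 1) := by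
      calc N * (4 * #B) ≤ N * (4 * (#T * (2 * ((p - 1) / N)))) := by gcongr
        _ = (8 * #T) * (N * ((p - 1) / N)) := by ring
        _ ≤ N * (p - 1) := Nat.mul_le_mul hT h2
    have h5 := Nat.le_of_mul_le_mul_left h4 hN
    omega
  obtain ⟨l, hl, hlB⟩ := Finset.exists_mem_notMem_of_card_lt_card h3
  refine ⟨l, (Finset.mem_erase.1 hl).1, fun v hv hv0 => ?_⟩
  rw [← not_or]
  intro h
  exact hlB (Finset.mem_biUnion.2 ⟨v, Finset.mem_erase.2 ⟨hv0, hv⟩,
    Finset.mem_filter.2 ⟨hl, h⟩⟩)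

end Model

theorem specModel : SpecModel := by
  classical
  intro p N _ _ A hA hNp hT
  have hp := (Fact.out : p.Prime).pos
  have hN : 0 < N := Nat.pos_of_ne_zero (NeZero.ne N)
  set T : Finset (ZMod p) := univ.filter fun v => ∃ s t : Fin 8 → ZMod p,
    (∀ i, s i ∈ A) ∧ (∀ i, t i ∈ A) ∧ v = ∑ i, s i - ∑ i, t i with hTdef
  have hTm : ∀ v, v ∈ T ↔ ∃ s t : Fin 8 → ZMod p,
      (∀ i, s i ∈ A) ∧ (∀ i, t i ∈ A) ∧ v = ∑ i, s i - ∑ i, t i := by
    intro v
    rw [hTdef, Finset.mem_filter]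
    simp only [Finset.mem_univ, true_and]
  obtain ⟨l, hl0, hl⟩ := Model.exists_good p N hN T (hT T hTm)
  -- the popular interval
  set j : ZMod p → ℕ := fun a => 8 * (l * a).val / p with hj
  have hj8 : ∀ a ∈ A, j a ∈ Finset.range 8 := by
    intro a _
    rw [Finset.mem_range, hj]
    dsimp only
    rw [Nat.div_lt_iff_lt_mul hp]
    have := ZMod.val_lt (l * a)
    omega
  obtain ⟨j₀, hj₀, hcard⟩ : ∃ j₀ ∈ Finset.range 8, #A ≤ 8 * #(A.filter fun a => j a = j₀) := by
    by_contra hcon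
    push Not at hcon
    have h1 := Finset.card_eq_sum_card_fiberwise hj8
    have h2 : 8 * #A = ∑ b ∈ Finset.range 8, 8 * #(A.filter fun a => j a = b) := by
      rw [← Finset.mul_sum, ← h1]
    have h3 : ∑ b ∈ Finset.range 8, 8 * #(A.filter fun a => j a = b) <
        ∑ b ∈ Finset.range 8, #A :=
      Finset.sum_lt_sum_of_nonempty ⟨0, by simp⟩ hcon
    rw [Finset.sum_const, Finset.card_range, smul_eq_mul] at h3
    omega
  refine ⟨A.filter fun a => j a = j₀, fun a => ((l * a).val : ZMod N), Finset.filter_subset _ _,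
    hcard, ?_⟩
  intro s t hs ht
  have hsA : ∀ i, s i ∈ A := fun i => (Finset.mem_filter.1 (hs i)).1
  have htA : ∀ i, t i ∈ A := fun i => (Finset.mem_filter.1 (ht i)).1
  -- the integer difference
  set D : ℤ := ∑ i, (((l * s i).val : ℤ) - ((l * t i).val : ℤ)) with hD
  have hpZ : (0 : ℤ) < p := by exact_mod_cast hp
  have hint : ∀ a, j a = j₀ → (j₀ : ℤ) * p ≤ 8 * ((l * a).val : ℤ) ∧
      8 * ((l * a).val : ℤ) < ((j₀ : ℤ) + 1) * p := by
    intro a ha
    have h1 : j₀ * p ≤ 8 * (l * a).val := by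
      rw [← ha]
      exact Nat.div_mul_le_self _ _
    have h2 : 8 * (l * a).val < (j₀ + 1) * p := by
      rw [← ha, ← Nat.div_lt_iff_lt_mul hp]
      exact Nat.lt_succ_self _
    exact ⟨by exact_mod_cast h1, by exact_mod_cast h2⟩
  have hterm : ∀ i, -(p : ℤ) < 8 * (((l * s i).val : ℤ) - ((l * t i).val : ℤ)) ∧
      8 * (((l * s i).val : ℤ) - ((l * t i).val : ℤ)) < p := by
    intro i
    obtain ⟨h1, h2⟩ := hint (s i) (Finset.mem_filter.1 (hs i)).2
    obtain ⟨h3, h4⟩ := hint (t i) (Finset.mem_filter.1 (ht i)).2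
    constructor
    · nlinarith
    · nlinarith
  have hDlt : D < p := by
    have h1 : 8 * D < ∑ _i : Fin 8, (p : ℤ) := by
      rw [hD, Finset.mul_sum]
      exact Finset.sum_lt_sum_of_nonempty Finset.univ_nonempty fun i _ => (hterm i).2
    rw [Finset.sum_const, Finset.card_univ, Fintype.card_fin, nsmul_eq_mul] at h1
    push_cast at h1
    linarith
  have hDgt : -(p : ℤ) < D := by
    have h1 : ∑ _i : Fin 8, (-(p : ℤ)) < 8 * D := by
      rw [hD, Finset.mul_sum]
      exact Finset.sum_lt_sum_of_nonempty Finset.univ_nonempty fun i _ => (hterm i).1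
    rw [Finset.sum_const, Finset.card_univ, Fintype.card_fin, nsmul_eq_mul] at h1
    push_cast at h1
    linarith
  -- residues
  have hDp : (D : ZMod p) = l * (∑ i, s i - ∑ i, t i) := by
    rw [hD]
    push_cast
    simp only [ZMod.natCast_val, ZMod.cast_id', id_eq]
    rw [Finset.sum_sub_distrib, mul_sub, Finset.mul_sum, Finset.mul_sum]
  have hDN : (D : ZMod N) = ∑ i, ((l * s i).val : ZMod N) - ∑ i, ((l * t i).val : ZMod N) := by
    rw [hD]
    push_cast
    rw [Finset.sum_sub_distrib]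
  constructor
  · intro h
    have h1 : (D : ZMod p) = 0 := by rw [hDp, h, sub_self, mul_zero]
    have h2 : (p : ℤ) ∣ D := (ZMod.intCast_zmod_eq_zero_iff_dvd D p).1 h1
    have h3 : D = 0 := by
      refine Int.eq_zero_of_abs_lt_dvd h2 ?_
      rw [abs_lt]
      exact ⟨hDgt, hDlt⟩
    have h4 : (D : ZMod N) = 0 := by rw [h3, Int.cast_zero]
    rw [hDN, sub_eq_zero] at h4
    exact h4
  · intro h
    by_contra hne
    have hv0 : ∑ i, s i - ∑ i, t i ≠ 0 := sub_ne_zero.2 hne
    have hvT : ∑ i, s i - ∑ i, t i ∈ T := (hTm _).2 ⟨s, t, hsA, htA, rfl⟩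
    obtain ⟨hg1, hg2⟩ := hl _ hvT hv0
    have h1 : (D : ZMod N) = 0 := by rw [hDN, sub_eq_zero]; exact h
    have h2 : (N : ℤ) ∣ D := (ZMod.intCast_zmod_eq_zero_iff_dvd D N).1 h1
    set u : ZMod p := l * (∑ i, s i - ∑ i, t i) with hu
    have hulp := ZMod.val_lt u
    have h3 : (p : ℤ) ∣ D - (u.val : ℤ) := by
      rw [← ZMod.intCast_zmod_eq_zero_iff_dvd]
      push_cast
      rw [hDp, ZMod.natCast_val, ZMod.cast_id', id_eq, sub_self]
    obtain ⟨m, hm⟩ := h3
    have hulp' : (u.val : ℤ) < p := by exact_mod_cast hulp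
    have hu0 : (0 : ℤ) ≤ u.val := by positivity
    have hm1 : m < 1 := by
      by_contra hge
      push Not at hge
      nlinarith
    have hm2 : -2 < m := by
      by_contra hge
      push Not at hge
      nlinarith
    have hm3 : m = 0 ∨ m = -1 := by omega
    rcases hm3 with rfl | rfl
    · have h4 : D = (u.val : ℤ) := by linarith
      rw [h4] at h2
      exact hg1 (by exact_mod_cast h2)
    · have h4 : D = -((p - u.val : ℕ) : ℤ) := by
        rw [Nat.cast_sub hulp.le]
        linarith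
      rw [h4, dvd_neg] at h2
      exact hg2 (by exact_mod_cast h2)

end MPcb27
end

section
/-!
MP_cb27ba_nt, project BD, module MOM: high moments of short character sums.
-/
set_option autoImplicit false
set_option linter.unusedSectionVars false

namespace MPcb27.Mom

open Finset

lemma norm_char {p : ℕ} [Fact p.Prime] (χ : MulChar (ZMod p) ℂ) (a : ZMod p) : ‖χ a‖ ≤ 1 :=
  DirichletCharacter.norm_le_one (n := p) χ a

lemma prod_char {p : ℕ} [Fact p.Prime] {I : Type} (s : Finset I) (hs : s.Nonempty)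
    (θ : I → MulChar (ZMod p) ℂ) (a : ZMod p) : ∏ i ∈ s, θ i a = (∏ i ∈ s, θ i) a := by
  classical
  induction hs using Finset.Nonempty.cons_induction with
  | singleton i => simp
  | cons i s hi hs ih => rw [Finset.prod_cons, Finset.prod_cons, MulChar.mul_apply, ih]

/-- the multiplicity condition -/
def Bad {I : Type} {X : ℕ} (t : I → Fin X) : Prop := ∀ i, ∃ j, j ≠ i ∧ t j = t i

lemma bad_factor {I : Type} [Fintype I] [DecidableEq I] {X r : ℕ} (hI : Fintype.card I = 2 * r)
    (t : I → Fin X) (h : Bad t) (hr : 1 ≤ r) :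
    ∃ (z : Fin r → Fin X) (g : I → Fin r), t = z ∘ g := by
  classical
  have h1 : 2 * #(univ.image t) ≤ 2 * r := by
    rw [← hI, ← Finset.card_univ, Finset.card_eq_sum_card_image t univ, mul_comm, ← smul_eq_mul]
    apply Finset.card_nsmul_le_sum
    intro b hb
    obtain ⟨i, _, rfl⟩ := Finset.mem_image.1 hb
    obtain ⟨j, hj, hji⟩ := h i
    have : ({i, j} : Finset I) ⊆ univ.filter (fun a => t a = t i) := by
      intro a ha
      rw [Finset.mem_insert, Finset.mem_singleton] at ha
      rcases ha with rfl | rfl <;> simp [hji]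
    calc 2 = #({i, j} : Finset I) := (Finset.card_pair hj.symm).symm
      _ ≤ _ := Finset.card_le_card this
  have h2 : Fintype.card (univ.image t) ≤ Fintype.card (Fin r) := by
    rw [Fintype.card_coe, Fintype.card_fin]; omega
  obtain ⟨f⟩ := Function.Embedding.nonempty_of_card_le h2
  have hne : Nonempty I := by
    rw [← Fintype.card_pos_iff, hI]; omega
  obtain ⟨i0⟩ := hne
  have hmem : ∀ i, t i ∈ univ.image t := fun i => Finset.mem_image_of_mem _ (Finset.mem_univ _)
  have : Nonempty (univ.image t) := ⟨⟨t i0, hmem i0⟩⟩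
  refine ⟨fun k => (Function.invFun f k : univ.image t), fun i => f ⟨t i, hmem i⟩, ?_⟩
  funext i
  simp only [Function.comp_apply]
  rw [Function.leftInverse_invFun f.injective]

lemma card_bad {I : Type} [Fintype I] [DecidableEq I] {X r : ℕ} (hI : Fintype.card I = 2 * r)
    (hr : 1 ≤ r) [DecidablePred (Bad : (I → Fin X) → Prop)] :
    #(univ.filter fun t : I → Fin X => Bad t) ≤ X ^ r * r ^ (2 * r) := by
  classical
  have h1 : (univ.filter fun t : I → Fin X => Bad t) ⊆
      (univ : Finset ((Fin r → Fin X) × (I → Fin r))).image (fun x => x.1 ∘ x.2) := by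
    intro t ht
    obtain ⟨z, g, h⟩ := bad_factor hI t (Finset.mem_filter.1 ht).2 hr
    rw [Finset.mem_image]
    exact ⟨(z, g), Finset.mem_univ _, h.symm⟩
  refine (Finset.card_le_card h1).trans (Finset.card_image_le.trans ?_)
  rw [Finset.card_univ, Fintype.card_prod, Fintype.card_fun, Fintype.card_fun, hI,
    Fintype.card_fin, Fintype.card_fin]

/-- the correlation sum -/
noncomputable def W {p : ℕ} [Fact p.Prime] {I : Type} [Fintype I] {X : ℕ}
    (θ : I → MulChar (ZMod p) ℂ) (t : I → Fin X) : ℂ :=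
  ∑ u : ZMod p, ∏ i, θ i (u + ((t i : ℕ) : ZMod p))

lemma W_triv {p : ℕ} [Fact p.Prime] {I : Type} [Fintype I] {X : ℕ}
    (θ : I → MulChar (ZMod p) ℂ) (t : I → Fin X) : ‖W θ t‖ ≤ p := by
  refine (norm_sum_le _ _).trans ?_
  refine (Finset.sum_le_card_nsmul _ _ 1 ?_).trans ?_
  · intro u _
    rw [norm_prod]
    exact Finset.prod_le_one (fun _ _ => norm_nonneg _) (fun i _ => norm_char _ _)
  · simp [ZMod.card]

lemma W_weil (hW : SpecWeil) {p : ℕ} [Fact p.Prime] {I : Type} [Fintype I] [DecidableEq I] {X : ℕ}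
    (hX : X ≤ p) (θ : I → MulChar (ZMod p) ℂ) (hθ : ∀ i, θ i ≠ 1) (t : I → Fin X)
    (ht : ¬ Bad t) : ‖W θ t‖ ≤ Fintype.card I * Real.sqrt p := by
  classical
  let e : I → ZMod p := fun i => ((t i : ℕ) : ZMod p)
  have he : ∀ i j, e i = e j → t i = t j := by
    intro i j h
    have h1 := (ZMod.natCast_eq_natCast_iff' _ _ p).1 h
    rw [Nat.mod_eq_of_lt (lt_of_lt_of_le (t i).2 hX), Nat.mod_eq_of_lt (lt_of_lt_of_le (t j).2 hX)]
      at h1
    exact Fin.ext h1
  let S : Finset (ZMod p) := univ.image e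
  let ψ : ZMod p → MulChar (ZMod p) ℂ := fun s => ∏ i ∈ univ.filter (fun i => e i = s), θ i
  have h1 : W θ t = WS p S ψ := by
    rw [W, WS]
    refine Finset.sum_congr rfl fun u _ => ?_
    rw [← Finset.prod_fiberwise_of_maps_to (s := (univ : Finset I)) (t := S) (g := e)
      (fun i _ => Finset.mem_image_of_mem _ (Finset.mem_univ _))]
    refine Finset.prod_congr rfl fun s hs => ?_
    obtain ⟨i, _, hi⟩ := Finset.mem_image.1 hs
    rw [← prod_char _ ⟨i, by simp [hi]⟩]
    refine Finset.prod_congr rfl fun j hj => ?_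
    rw [← (Finset.mem_filter.1 hj).2]
  rw [h1]
  have h2 : ∃ s ∈ S, ψ s ≠ 1 := by
    simp only [Bad] at ht
    push Not at ht
    obtain ⟨i, hi⟩ := ht
    refine ⟨e i, Finset.mem_image_of_mem _ (Finset.mem_univ _), ?_⟩
    have h3 : univ.filter (fun j => e j = e i) = {i} := by
      ext j
      simp only [Finset.mem_filter, Finset.mem_univ, true_and, Finset.mem_singleton]
      constructor
      · intro h
        by_contra hne
        exact hi j hne (he j i h)
      · rintro rfl; rfl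
    simp only [ψ]
    rw [h3, Finset.prod_singleton]
    exact hθ i
  refine (hW p S ψ h2).trans ?_
  gcongr
  exact_mod_cast Finset.card_image_le.trans (by rw [Finset.card_univ])

theorem main (hW : SpecWeil) : SpecMom := by
  classical
  intro r hr
  refine ⟨(r : ℝ) ^ (2 * r) + 2 * r, ?_⟩
  intro p _ χ hχ X hX c hc
  have hp := (Fact.out : p.Prime)
  let I := Fin r ⊕ Fin r
  have hI : Fintype.card I = 2 * r := by simp [I, two_mul]
  let θ : I → MulChar (ZMod p) ℂ := Sum.elim (fun _ => χ) (fun _ => χ⁻¹)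
  have hθ : ∀ i, θ i ≠ 1 := by
    rintro (i | i)
    · exact hχ
    · exact inv_ne_one.2 hχ
  let d : I → ℕ → ℂ := Sum.elim (fun _ => c) (fun _ x => starRingEnd ℂ (c x))
  have hd : ∀ i x, ‖d i x‖ ≤ 1 := by
    rintro (i | i) x
    · exact hc x
    · simpa [d] using hc x
  let f : ZMod p → ℂ := fun u => ∑ x ∈ range X, c x * χ (u + (x : ZMod p))
  have h1 : ∀ u, ((‖f u‖ ^ (2 * r) : ℝ) : ℂ) =
      ∑ t : I → Fin X, (∏ i, d i (t i)) * ∏ i, θ i (u + ((t i : ℕ) : ZMod p)) := by
    intro u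
    have h2 : ((‖f u‖ ^ (2 * r) : ℝ) : ℂ) = f u ^ r * (starRingEnd ℂ (f u)) ^ r := by
      rw [← mul_pow, Complex.mul_conj, Complex.normSq_eq_norm_sq, pow_mul]
      push_cast
      rfl
    have h3 : ∀ i : I, (∑ x : Fin X, d i x * θ i (u + ((x : ℕ) : ZMod p))) =
        Sum.elim (fun _ => f u) (fun _ => starRingEnd ℂ (f u)) i := by
      rintro (i | i)
      · simp only [Sum.elim_inl, d, θ, f]
        rw [Finset.sum_range]
      · simp only [Sum.elim_inr, d, θ, f]
        rw [map_sum, Finset.sum_range]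
        refine Finset.sum_congr rfl fun x _ => ?_
        rw [map_mul]
        congr 1
        exact (MulChar.star_apply' χ _).symm
    have h4 : f u ^ r * (starRingEnd ℂ (f u)) ^ r =
        ∏ i : I, ∑ x : Fin X, d i x * θ i (u + ((x : ℕ) : ZMod p)) := by
      rw [Finset.prod_congr rfl (fun i _ => h3 i), Fintype.prod_sum_type]
      simp
    rw [h2, h4, Finset.prod_univ_sum, Fintype.piFinset_univ]
    refine Finset.sum_congr rfl fun t _ => ?_
    rw [Finset.prod_mul_distrib]
  have h5 : ((∑ u : ZMod p, ‖f u‖ ^ (2 * r) : ℝ) : ℂ) =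
      ∑ t : I → Fin X, (∏ i, d i (t i)) * W θ t := by
    push_cast
    have h6 : ∀ u : ZMod p, ((‖f u‖ : ℂ) ^ (2 * r)) =
        ∑ t : I → Fin X, (∏ i, d i (t i)) * ∏ i, θ i (u + ((t i : ℕ) : ZMod p)) := by
      intro u
      rw [← h1 u]
      push_cast
      rfl
    rw [Finset.sum_congr rfl (fun u _ => h6 u), Finset.sum_comm]
    refine Finset.sum_congr rfl fun t _ => ?_
    rw [W, Finset.mul_sum]
  have h7 : (∑ u : ZMod p, ‖f u‖ ^ (2 * r) : ℝ) ≤ ∑ t : I → Fin X, ‖W θ t‖ := by
    have h8 : (∑ u : ZMod p, ‖f u‖ ^ (2 * r) : ℝ) =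
        ‖((∑ u : ZMod p, ‖f u‖ ^ (2 * r) : ℝ) : ℂ)‖ := by
      rw [Complex.norm_real, Real.norm_of_nonneg (by positivity)]
    rw [h8, h5]
    refine (norm_sum_le _ _).trans (Finset.sum_le_sum fun t _ => ?_)
    rw [norm_mul, norm_prod]
    exact mul_le_of_le_one_left (norm_nonneg _)
      (Finset.prod_le_one (fun _ _ => norm_nonneg _) (fun i _ => hd i _))
  refine h7.trans ?_
  rw [← Finset.sum_filter_add_sum_filter_not univ (fun t : I → Fin X => Bad t)]
  have h9 : ∑ t ∈ univ.filter (fun t : I → Fin X => Bad t), ‖W θ t‖ ≤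
      ((X : ℝ) ^ r * (r : ℝ) ^ (2 * r)) * p := by
    refine (Finset.sum_le_card_nsmul _ _ (p : ℝ) (fun t _ => W_triv θ t)).trans ?_
    rw [nsmul_eq_mul]
    gcongr
    exact_mod_cast card_bad hI hr
  have h10 : ∑ t ∈ univ.filter (fun t : I → Fin X => ¬ Bad t), ‖W θ t‖ ≤
      ((X : ℝ) ^ (2 * r)) * ((2 * r) * Real.sqrt p) := by
    refine (Finset.sum_le_card_nsmul _ _ ((2 * r) * Real.sqrt p) (fun t ht => ?_)).trans ?_
    · have := W_weil hW hX θ hθ t (Finset.mem_filter.1 ht).2
      rw [hI] at this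
      push_cast at this
      exact this
    · rw [nsmul_eq_mul]
      gcongr
      have h11 : #(univ.filter (fun t : I → Fin X => ¬ Bad t)) ≤ X ^ (2 * r) := by
        refine (Finset.card_filter_le _ _).trans ?_
        rw [Finset.card_univ, Fintype.card_fun, hI, Fintype.card_fin]
      exact_mod_cast h11
  have h12 : 0 ≤ (X : ℝ) ^ r * p := by positivity
  have h13 : 0 ≤ (X : ℝ) ^ (2 * r) * Real.sqrt p := by positivity
  have h14 : 0 ≤ (r : ℝ) ^ (2 * r) := by positivity
  have h15 : 0 ≤ 2 * (r : ℝ) := by positivity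
  have h16 := mul_nonneg h14 h13
  have h17 := mul_nonneg h15 h12
  nlinarith

end MPcb27.Mom

namespace MPcb27

/-- module MOM -/
theorem specMom (hW : SpecWeil) : SpecMom := Mom.main hW

end MPcb27
end

section
/-!
# MP_cb27ba_nt, project BD: module NV (helper64)
-/
set_option autoImplicit false

namespace MPcb27

open Finset Polynomial

namespace NV

section Bd

variable {F : Type} [Field F]

/-- all coefficients have degree at most `b` -/
def Bd (b : ℕ) (r : Polynomial (Polynomial F)) : Prop := ∀ m, (r.coeff m).natDegree ≤ b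

theorem Bd.mono {b c : ℕ} {r : Polynomial (Polynomial F)} (h : Bd b r) (hbc : b ≤ c) : Bd c r :=
  fun m => (h m).trans hbc

theorem Bd.zero (b : ℕ) : Bd b (0 : Polynomial (Polynomial F)) := fun m => by simp

theorem Bd.add {b : ℕ} {r t : Polynomial (Polynomial F)} (hr : Bd b r) (ht : Bd b t) :
    Bd b (r + t) := fun m => by
  rw [coeff_add]
  exact natDegree_add_le_of_degree_le (hr m) (ht m)

theorem Bd.sum {ι : Type} {b : ℕ} (s : Finset ι) (f : ι → Polynomial (Polynomial F))
    (h : ∀ i ∈ s, Bd b (f i)) : Bd b (∑ i ∈ s, f i) := by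
  classical
  induction s using Finset.induction_on with
  | empty => simpa using Bd.zero b
  | insert a s ha ih =>
    rw [Finset.sum_insert ha]
    exact (h a (Finset.mem_insert_self _ _)).add (ih fun i hi => h i (Finset.mem_insert_of_mem hi))

theorem Bd.mul {b c : ℕ} {r t : Polynomial (Polynomial F)} (hr : Bd b r) (ht : Bd c t) :
    Bd (b + c) (r * t) := fun m => by
  rw [coeff_mul]
  refine natDegree_sum_le_of_forall_le _ _ fun x _ => ?_
  exact natDegree_mul_le.trans (add_le_add (hr _) (ht _))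

theorem Bd.C {b : ℕ} {r : Polynomial F} (h : r.natDegree ≤ b) :
    Bd b (Polynomial.C r) := fun m => by
  rw [coeff_C]
  split_ifs
  · exact h
  · simp

theorem Bd.pow {b : ℕ} {r : Polynomial (Polynomial F)} (hr : Bd b r) (e : ℕ) :
    Bd (e * b) (r ^ e) := by
  induction e with
  | zero =>
    rw [pow_zero, zero_mul, ← Polynomial.C_1]
    exact Bd.C (by simp)
  | succ e ih =>
    rw [pow_succ, Nat.succ_mul]
    exact ih.mul hr

theorem Bd.prod {ι : Type} {b : ℕ} (s : Finset ι) (f : ι → Polynomial (Polynomial F))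
    (h : ∀ i ∈ s, Bd b (f i)) : Bd (#s * b) (∏ i ∈ s, f i) := by
  classical
  induction s using Finset.induction_on with
  | empty =>
    rw [Finset.prod_empty, Finset.card_empty, zero_mul, ← Polynomial.C_1]
    exact Bd.C (by simp)
  | insert a s ha ih =>
    rw [Finset.prod_insert ha, Finset.card_insert_of_notMem ha, add_mul, one_mul, add_comm]
    exact (h a (Finset.mem_insert_self _ _)).mul (ih fun i hi => h i (Finset.mem_insert_of_mem hi))

/-- a polynomial of `x`-degree less than `q` is determined by `D(x, x^q)` -/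
theorem eq_zero_of_eval {q : ℕ} (D : Polynomial (Polynomial F)) (hD : ∀ m, (D.coeff m).natDegree < q)
    (h : D.eval (X ^ q) = 0) : D = 0 := by
  have key : ∀ m r : ℕ, r < q → (D.coeff m).coeff r = 0 := by
    intro m r hr
    have h1 : (D.eval (X ^ q)).coeff (q * m + r) = (D.coeff m).coeff r := by
      rw [eval_eq_sum_range' (n := max (D.natDegree + 1) (m + 1))
        (lt_of_lt_of_le (Nat.lt_succ_self _) (le_max_left _ _))]
      rw [finsetSum_coeff]
      rw [Finset.sum_eq_single m]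
      · rw [← pow_mul, coeff_mul_X_pow', if_pos (by omega)]
        congr 1
        omega
      · intro m' _ hne
        rw [← pow_mul, coeff_mul_X_pow']
        split_ifs with hle
        · apply coeff_eq_zero_of_natDegree_lt
          refine lt_of_lt_of_le (hD m') ?_
          have hlt : m' < m := by
            by_contra hcon
            have h3 : m + 1 ≤ m' := by omega
            have h4 : q * (m + 1) ≤ q * m' := Nat.mul_le_mul_left q h3
            rw [Nat.mul_add] at h4
            omega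
          have h5 : q * (m' + 1) ≤ q * m := Nat.mul_le_mul_left q (by omega)
          rw [Nat.mul_add] at h5
          omega
        · rfl
      · intro hcon
        exact absurd (Finset.mem_range.mpr (lt_of_lt_of_le (Nat.lt_succ_self m) (le_max_right _ _))) hcon
    rw [← h1, h, coeff_zero]
  ext m r
  rw [coeff_zero, coeff_zero]
  by_cases hr : r < q
  · exact key m r hr
  · exact coeff_eq_zero_of_natDegree_lt (lt_of_lt_of_le (hD m) (by omega))

end Bd

section Q

variable {F : Type} [Field F] {σ : Type}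

/-- degree control for multivariate polynomials over `F[x][Y]` -/
def Q (b c : ℕ) (P : MvPolynomial σ (Polynomial (Polynomial F))) : Prop :=
  ∀ j, Bd b (P.coeff j) ∧ (P.coeff j ≠ 0 → ∀ s, j s ≤ c)

theorem Q.one : Q 0 0 (1 : MvPolynomial σ (Polynomial (Polynomial F))) := by
  classical
  intro j
  rw [MvPolynomial.coeff_one]
  split_ifs with h
  · refine ⟨?_, fun _ s => by rw [← h]; simp⟩
    rw [← Polynomial.C_1]
    exact Bd.C (by simp)
  · exact ⟨Bd.zero 0, fun h => absurd rfl h⟩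

theorem Q.mul {b c b' c' : ℕ} {P R : MvPolynomial σ (Polynomial (Polynomial F))}
    (hP : Q b c P) (hR : Q b' c' R) : Q (b + b') (c + c') (P * R) := by
  classical
  intro j
  rw [MvPolynomial.coeff_mul]
  refine ⟨Bd.sum _ _ fun x _ => (hP _).1.mul (hR _).1, fun hne s => ?_⟩
  obtain ⟨x, hx, hx0⟩ := Finset.exists_ne_zero_of_sum_ne_zero hne
  have h1 := (hP x.1).2 (left_ne_zero_of_mul hx0) s
  have h2 := (hR x.2).2 (right_ne_zero_of_mul hx0) s
  have hx' := Finset.HasAntidiagonal.mem_antidiagonal.mp hx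
  rw [← hx', Finsupp.add_apply]
  omega

theorem Q.prod {ι : Type} {b c : ℕ} (s : Finset ι)
    (f : ι → MvPolynomial σ (Polynomial (Polynomial F)))
    (h : ∀ i ∈ s, Q b c (f i)) : Q (#s * b) (#s * c) (∏ i ∈ s, f i) := by
  classical
  induction s using Finset.induction_on with
  | empty =>
    rw [Finset.prod_empty, Finset.card_empty, zero_mul, zero_mul]
    exact Q.one
  | insert a s ha ih =>
    rw [Finset.prod_insert ha, Finset.card_insert_of_notMem ha, add_mul, one_mul, add_comm,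
      add_mul, one_mul, add_comm _ c]
    exact (h a (Finset.mem_insert_self _ _)).mul (ih fun i hi => h i (Finset.mem_insert_of_mem hi))

theorem Q.add {b c : ℕ} {P R : MvPolynomial σ (Polynomial (Polynomial F))}
    (hP : Q b c P) (hR : Q b c R) : Q b c (P + R) := by
  intro j
  rw [MvPolynomial.coeff_add]
  refine ⟨(hP j).1.add (hR j).1, fun hne s => ?_⟩
  by_cases h : P.coeff j = 0
  · rw [h, zero_add] at hne
    exact (hR j).2 hne s
  · exact (hP j).2 h s

theorem Q.zero (b c : ℕ) : Q b c (0 : MvPolynomial σ (Polynomial (Polynomial F))) :=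
  fun j => ⟨by simpa using Bd.zero b, fun h => absurd (MvPolynomial.coeff_zero j) h⟩

theorem Q.sum {ι : Type} {b c : ℕ} (s : Finset ι)
    (f : ι → MvPolynomial σ (Polynomial (Polynomial F)))
    (h : ∀ i ∈ s, Q b c (f i)) : Q b c (∑ i ∈ s, f i) := by
  classical
  induction s using Finset.induction_on with
  | empty => simpa using Q.zero b c
  | insert a s ha ih =>
    rw [Finset.sum_insert ha]
    exact (h a (Finset.mem_insert_self _ _)).add (ih fun i hi => h i (Finset.mem_insert_of_mem hi))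

theorem Q.monomial {b c : ℕ} (j : σ →₀ ℕ) (r : Polynomial (Polynomial F)) (hr : Bd b r)
    (hj : ∀ s, j s ≤ c) : Q b c (MvPolynomial.monomial j r) := by
  classical
  intro j'
  rw [MvPolynomial.coeff_monomial]
  split_ifs with h
  · subst h
    exact ⟨hr, fun _ => hj⟩
  · exact ⟨Bd.zero b, fun h => absurd rfl h⟩

end Q

section scale

variable {R : Type} [CommRing R] {σ : Type} [Fintype σ]

/-- the substitution `W_s ↦ c_s W_s` -/
noncomputable def sc (c : σ → R) : MvPolynomial σ R →ₐ[R] MvPolynomial σ R :=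
  MvPolynomial.aeval fun s => MvPolynomial.C (c s) * MvPolynomial.X s

theorem sc_monomial (c : σ → R) (j : σ →₀ ℕ) (a : R) :
    sc c (MvPolynomial.monomial j a) = MvPolynomial.monomial j (a * ∏ s, c s ^ j s) := by
  classical
  rw [sc, MvPolynomial.aeval_monomial, Finsupp.prod_fintype _ _ (fun _ => pow_zero _)]
  simp_rw [mul_pow]
  rw [Finset.prod_mul_distrib, MvPolynomial.algebraMap_eq]
  have h1 : ∏ s, (MvPolynomial.X s : MvPolynomial σ R) ^ j s = MvPolynomial.monomial j 1 := by
    rw [MvPolynomial.monomial_eq, Finsupp.prod_fintype _ _ (fun _ => pow_zero _)]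
    simp
  rw [h1]
  have h2 : ∏ s, (MvPolynomial.C (c s) : MvPolynomial σ R) ^ j s =
      MvPolynomial.C (∏ s, c s ^ j s) := by
    rw [map_prod]
    simp_rw [map_pow]
  rw [h2, ← mul_assoc, ← MvPolynomial.C_mul, MvPolynomial.C_mul_monomial, mul_one]

theorem sc_coeff (c : σ → R) (P : MvPolynomial σ R) (j : σ →₀ ℕ) :
    (sc c P).coeff j = P.coeff j * ∏ s, c s ^ j s := by
  classical
  induction P using MvPolynomial.induction_on' with
  | monomial u a =>
    rw [sc_monomial, MvPolynomial.coeff_monomial, MvPolynomial.coeff_monomial]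
    split_ifs with h
    · rw [h]
    · rw [zero_mul]
  | add P P' h h' => rw [map_add, MvPolynomial.coeff_add, MvPolynomial.coeff_add, h, h', add_mul]

end scale

section main

variable {p : ℕ} [Fact p.Prime] {F : Type} [Field F] [Algebra (ZMod p) F] {S : Finset (ZMod p)}

/-- the exponent vector as a finsupp -/
noncomputable def ex (i : S → Fin (p - 1)) : S →₀ ℕ :=
  Finsupp.equivFunOnFinite.symm fun s => (i s : ℕ)

theorem ex_apply (i : S → Fin (p - 1)) (s : S) : ex i s = (i s : ℕ) := rfl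

/-- constants of `ZMod p` in `F[x][Y]` -/
noncomputable def cc (F : Type) [Field F] [Algebra (ZMod p) F] :
    ZMod p →+* Polynomial (Polynomial F) :=
  (Polynomial.C.comp Polynomial.C).comp (algebraMap (ZMod p) F)

theorem cc_inj : Function.Injective (cc (p := p) F) := by
  intro a b h
  have h1 : (Polynomial.C (Polynomial.C (algebraMap (ZMod p) F a)) : Polynomial (Polynomial F)) =
      Polynomial.C (Polynomial.C (algebraMap (ZMod p) F b)) := h
  exact (algebraMap (ZMod p) F).injective (Polynomial.C_injective (Polynomial.C_injective h1))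

/-- the conjugates -/
noncomputable def PP (H : (S → Fin (p - 1)) → Polynomial (Polynomial F)) (ζ : S → (ZMod p)ˣ) :
    MvPolynomial S (Polynomial (Polynomial F)) :=
  ∑ i : S → Fin (p - 1), MvPolynomial.monomial (ex i) (H i * ∏ s, cc F (ζ s : ZMod p) ^ (i s : ℕ))

theorem sc_PP (H : (S → Fin (p - 1)) → Polynomial (Polynomial F)) (ζ ζ' : S → (ZMod p)ˣ) :
    sc (fun s => cc F (ζ' s : ZMod p)) (PP H ζ) = PP H (ζ * ζ') := by
  rw [PP, PP, map_sum]
  refine Finset.sum_congr rfl fun i _ => ?_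
  rw [sc_monomial]
  congr 1
  rw [mul_assoc, ← Finset.prod_mul_distrib]
  congr 1
  refine Finset.prod_congr rfl fun s _ => ?_
  rw [ex_apply, Pi.mul_apply, Units.val_mul, map_mul, mul_pow]

/-- the norm -/
noncomputable def NN (H : (S → Fin (p - 1)) → Polynomial (Polynomial F)) :
    MvPolynomial S (Polynomial (Polynomial F)) :=
  ∏ ζ : S → (ZMod p)ˣ, PP H ζ

theorem sc_NN (H : (S → Fin (p - 1)) → Polynomial (Polynomial F)) (ζ' : S → (ZMod p)ˣ) :
    sc (fun s => cc F (ζ' s : ZMod p)) (NN H) = NN H := by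
  rw [NN, map_prod, Finset.prod_congr rfl fun ζ _ => sc_PP H ζ ζ']
  exact Fintype.prod_equiv (Equiv.mulRight ζ') _ _ fun _ => rfl

theorem card_fun : Fintype.card (S → (ZMod p)ˣ) = (p - 1) ^ #S := by
  rw [Fintype.card_fun, ZMod.card_units_eq_totient, Nat.totient_prime (Fact.out : p.Prime),
    Fintype.card_coe]

theorem dvd_of_coeff (H : (S → Fin (p - 1)) → Polynomial (Polynomial F)) (j : S →₀ ℕ)
    (hj : (NN H).coeff j ≠ 0) (s : S) : p - 1 ∣ j s := by
  classical
  obtain ⟨g, hg⟩ := IsCyclic.exists_generator (α := (ZMod p)ˣ)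
  have h1 := congrArg (fun P => MvPolynomial.coeff j P)
    (sc_NN H (Function.update (fun _ => (1 : (ZMod p)ˣ)) s g))
  rw [sc_coeff] at h1
  have h2 : ∏ t, cc F ((Function.update (fun _ => (1 : (ZMod p)ˣ)) s g t : (ZMod p)ˣ) : ZMod p) ^ j t
      = 1 := by
    have h3 : (NN H).coeff j * (∏ t, cc F ((Function.update (fun _ => (1 : (ZMod p)ˣ)) s g t :
      (ZMod p)ˣ) : ZMod p) ^ j t - 1) = 0 := by rw [mul_sub, h1, mul_one, sub_self]
    exact sub_eq_zero.mp ((mul_eq_zero.mp h3).resolve_left hj)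
  rw [Finset.prod_eq_single s] at h2
  · rw [Function.update_self, ← map_pow, ← map_one (cc (p := p) F)] at h2
    have h4 := cc_inj h2
    have h5 : g ^ j s = 1 := by
      apply Units.ext
      rw [Units.val_pow_eq_pow_val, h4, Units.val_one]
    have h6 := orderOf_dvd_of_pow_eq_one h5
    rw [orderOf_eq_card_of_forall_mem_zpowers hg, Nat.card_eq_fintype_card,
      ZMod.card_units_eq_totient, Nat.totient_prime (Fact.out : p.Prime)] at h6
    exact h6
  · intro t _ ht
    rw [Function.update_of_ne ht]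
    simp
  · intro h; exact absurd (Finset.mem_univ s) h

theorem Q_PP {B : ℕ} (H : (S → Fin (p - 1)) → Polynomial (Polynomial F))
    (hH : ∀ i j, ((H i).coeff j).natDegree ≤ B) (ζ : S → (ZMod p)ˣ) : Q B (p - 1) (PP H ζ) := by
  refine Q.sum _ _ fun i _ => Q.monomial _ _ ?_ fun s => ?_
  · have h1 : Bd 0 (∏ s, cc F (ζ s : ZMod p) ^ (i s : ℕ)) := by
      rw [show ∏ s, cc F (ζ s : ZMod p) ^ (i s : ℕ) =
        Polynomial.C (Polynomial.C (algebraMap (ZMod p) F (∏ s, (ζ s : ZMod p) ^ (i s : ℕ)))) by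
          rw [map_prod, map_prod, map_prod]
          refine Finset.prod_congr rfl fun s _ => ?_
          rw [map_pow, map_pow, map_pow]
          rfl]
      exact Bd.C (natDegree_C _).le
    have h2 : Bd B (H i) := fun m => hH i m
    simpa using h2.mul h1
  · rw [ex_apply]
    exact (i s).2.le

theorem Q_NN {B : ℕ} (H : (S → Fin (p - 1)) → Polynomial (Polynomial F))
    (hH : ∀ i j, ((H i).coeff j).natDegree ≤ B) :
    Q ((p - 1) ^ #S * B) ((p - 1) ^ #S * (p - 1)) (NN H) := by
  have := Q.prod (univ : Finset (S → (ZMod p)ˣ)) (PP H) fun ζ _ => Q_PP H hH ζ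
  rwa [Finset.card_univ, card_fun] at this

/-- `Y + s` -/
noncomputable def yy (F : Type) [Field F] [Algebra (ZMod p) F] (s : ZMod p) :
    Polynomial (Polynomial F) := X + C (C (algebraMap (ZMod p) F s))

/-- `x + s` -/
noncomputable def xx (F : Type) [Field F] [Algebra (ZMod p) F] (s : ZMod p) :
    Polynomial (Polynomial F) := C (X + C (algebraMap (ZMod p) F s))

/-- the polynomial `D` -/
noncomputable def DD (H : (S → Fin (p - 1)) → Polynomial (Polynomial F)) :
    Polynomial (Polynomial F) :=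
  ∑ j ∈ (NN H).support, (NN H).coeff j *
    ∏ s : S, (yy F (s : ZMod p) ^ (j s / (p - 1)) *
      xx F (s : ZMod p) ^ ((p - 1) ^ #S - j s / (p - 1)))

theorem Bd_yy (s : ZMod p) : Bd 0 (yy F s) := by
  refine Bd.add ?_ (Bd.C (by simp))
  intro m
  rw [coeff_X]
  split_ifs <;> simp

theorem Bd_xx (s : ZMod p) : Bd 1 (xx F s) := by
  refine Bd.C ?_
  rw [natDegree_X_add_C]

theorem Bd_DD {B : ℕ} (H : (S → Fin (p - 1)) → Polynomial (Polynomial F))
    (hH : ∀ i j, ((H i).coeff j).natDegree ≤ B) : Bd ((p - 1) ^ #S * (B + #S)) (DD H) := by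
  refine Bd.sum _ _ fun j _ => ?_
  have h1 : Bd (#(univ : Finset S) * ((p - 1) ^ #S)) (∏ s : S, (yy F (s : ZMod p) ^ (j s / (p - 1)) *
      xx F (s : ZMod p) ^ ((p - 1) ^ #S - j s / (p - 1)))) := by
    refine Bd.prod _ _ fun s _ => ?_
    refine (((Bd_yy (s : ZMod p)).pow _).mul ((Bd_xx (s : ZMod p)).pow _)).mono ?_
    simp
  refine (((Q_NN H hH) j).1.mul h1).mono ?_
  rw [Finset.card_univ, Fintype.card_coe, mul_add, mul_comm (#S)]

theorem map_DD {R' : Type} [CommRing R'] {B : ℕ}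
    (H : (S → Fin (p - 1)) → Polynomial (Polynomial F))
    (hH : ∀ i j, ((H i).coeff j).natDegree ≤ B) (θ : Polynomial (Polynomial F) →+* R')
    (v : S → R') (hv : ∀ s : S, v s ^ (p - 1) * θ (xx F (s : ZMod p)) = θ (yy F (s : ZMod p))) :
    θ (DD H) = (∏ s : S, θ (xx F (s : ZMod p)) ^ ((p - 1) ^ #S)) * MvPolynomial.eval₂Hom θ v (NN H) := by
  have hp : 0 < p - 1 := by have := (Fact.out : p.Prime).two_le; omega
  rw [DD, map_sum, MvPolynomial.coe_eval₂Hom, MvPolynomial.eval₂_eq', Finset.mul_sum]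
  refine Finset.sum_congr rfl fun j hj => ?_
  have hj0 : (NN H).coeff j ≠ 0 := MvPolynomial.mem_support_iff.mp hj
  rw [map_mul, map_prod, mul_left_comm, ← Finset.prod_mul_distrib]
  congr 1
  refine Finset.prod_congr rfl fun s _ => ?_
  obtain ⟨e, he⟩ := dvd_of_coeff H j hj0 s
  have hle : e ≤ (p - 1) ^ #S := by
    have := ((Q_NN H hH) j).2 hj0 s
    rw [he, mul_comm] at this
    exact Nat.le_of_mul_le_mul_right this hp
  rw [he, Nat.mul_div_cancel_left _ hp, map_mul, map_pow, map_pow, ← hv s, mul_pow, ← pow_mul]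
  rw [mul_assoc, ← pow_add, Nat.add_sub_cancel' hle, mul_comm]

theorem eval_PP {R' : Type} [CommRing R'] (H : (S → Fin (p - 1)) → Polynomial (Polynomial F))
    (ζ : S → (ZMod p)ˣ) (θ : Polynomial (Polynomial F) →+* R') (v : S → R') :
    MvPolynomial.eval₂Hom θ v (PP H ζ) =
      ∑ i, θ (H i * ∏ s, cc F (ζ s : ZMod p) ^ (i s : ℕ)) * ∏ s : S, v s ^ (i s : ℕ) := by
  rw [PP, map_sum]
  refine Finset.sum_congr rfl fun i _ => ?_
  rw [MvPolynomial.eval₂Hom_monomial, Finsupp.prod_fintype _ _ (fun _ => pow_zero _)]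
  rfl

end main

end NV

open NV in
theorem specNV (hK : SpecKum) : SpecNV := by
  classical
  intro p _ n F _ _ _ hcard hn S B hB H hH hsum
  by_contra hne
  have hp2 := (Fact.out : p.Prime).two_le
  have hp : 0 < p - 1 := by omega
  have : Nonempty (Fin (p - 1)) := ⟨⟨0, hp⟩⟩
  have hD : DD H ≠ 0 := by
    obtain ⟨Ω, _, φ, w, hw, hind⟩ := hK p F S
    have hinj : ∀ r : Polynomial (Polynomial F), φ r = 0 → r = 0 := by
      intro r hr
      have h1 := hind (fun i => if i = (fun _ => ⟨0, hp⟩) then r else 0) (by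
        rw [Finset.sum_eq_zero]
        intro i _
        split_ifs with h
        · rw [hr, zero_mul]
        · rw [map_zero, zero_mul])
      have h2 := congrFun h1 (fun _ => ⟨0, hp⟩)
      simpa using h2
    have h3 := map_DD H hH φ (fun s : S => w s) (fun s => hw s s.2)
    intro h0
    rw [h0, map_zero] at h3
    have h4 : (∏ s : S, φ (xx F (s : ZMod p)) ^ ((p - 1) ^ #S)) *
      MvPolynomial.eval₂Hom φ (fun s : S => w s) (NN H) ≠ 0 := by
      refine mul_ne_zero ?_ ?_
      · rw [Finset.prod_ne_zero_iff]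
        intro s _
        refine pow_ne_zero _ fun h => ?_
        have h5 := hinj _ h
        rw [xx, Polynomial.C_eq_zero] at h5
        exact (monic_X_add_C (algebraMap (ZMod p) F (s : ZMod p))).ne_zero h5
      · rw [NN, map_prod, Finset.prod_ne_zero_iff]
        intro ζ _ h
        rw [eval_PP] at h
        have h6 := hind _ h
        apply hne
        funext i
        have h7 := congrFun h6 i
        simp only [Pi.zero_apply] at h7
        rcases mul_eq_zero.mp h7 with h8 | h8
        · exact h8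
        · exfalso
          rw [Finset.prod_eq_zero_iff] at h8
          obtain ⟨s, _, hs⟩ := h8
          have h10 : cc F ((ζ s : (ZMod p)ˣ) : ZMod p) = 0 := by
            by_contra hc
            exact pow_ne_zero _ hc hs
          rw [← map_zero (cc (p := p) F)] at h10
          exact (ζ s).ne_zero (cc_inj h10)
    exact h4 h3.symm
  apply hD
  set q := p ^ n with hq
  have : CharP F p := charP_of_injective_algebraMap (algebraMap (ZMod p) F).injective p
  refine eq_zero_of_eval (q := q) (DD H) (fun m => lt_of_le_of_lt (Bd_DD H hH m) hB) ?_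
  have hdvd : p - 1 ∣ q - 1 := by
    have := Nat.sub_dvd_pow_sub_pow p 1 n
    rwa [one_pow] at this
  have hq1 : 1 ≤ q := Nat.one_le_pow _ _ (by omega)
  have h3 := map_DD H hH (Polynomial.evalRingHom (X ^ q))
    (fun s : S => (X + C (algebraMap (ZMod p) F (s : ZMod p))) ^ ((q - 1) / (p - 1))) (by
      intro s
      rw [xx, yy, coe_evalRingHom, eval_C, eval_add, eval_X, eval_C, ← pow_mul,
        Nat.div_mul_cancel hdvd, ← pow_succ, Nat.sub_add_cancel hq1, hq, add_pow_expChar_pow,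
        ← C_pow, ← map_pow, ZMod.pow_card_pow])
  rw [coe_evalRingHom] at h3
  rw [h3]
  refine mul_eq_zero_of_right _ ?_
  rw [NN, map_prod]
  refine Finset.prod_eq_zero (Finset.mem_univ (fun _ => 1)) ?_
  rw [eval_PP, ← hsum]
  refine Finset.sum_congr rfl fun i _ => ?_
  congr 1
  · simp
  · refine Finset.prod_congr rfl fun s _ => ?_
    rw [← pow_mul, mul_comm]

end MPcb27
end

section
/-!
MP_cb27ba_nt, project BD, module SN: square root bound for the sums over extensions.
-/
set_option autoImplicit false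
set_option linter.unusedSectionVars false

namespace MPcb27.Sn

open Finset

lemma norm_char {p : ℕ} [Fact p.Prime] (χ : MulChar (ZMod p) ℂ) (a : ZMod p) : ‖χ a‖ ≤ 1 :=
  DirichletCharacter.norm_le_one (n := p) χ a

section
variable {p : ℕ} [Fact p.Prime] (S : Finset (ZMod p)) (ψ : ZMod p → MulChar (ZMod p) ℂ)

/-- the product of the characters at a point of `(ZMod p) ^ S` -/
noncomputable def PP (z : S → ZMod p) : ℂ := ∏ s : S, ψ s (z s)

lemma PP_norm (z : S → ZMod p) : ‖PP S ψ z‖ ≤ 1 := by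
  rw [PP, norm_prod]
  exact Finset.prod_le_one (fun _ _ => norm_nonneg _) (fun s _ => norm_char _ _)

lemma PP_zero (z : S → ZMod p) (h : ∃ s, z s = 0) : PP S ψ z = 0 := by
  obtain ⟨s, hs⟩ := h
  rw [PP]
  refine Finset.prod_eq_zero (Finset.mem_univ s) ?_
  rw [hs]
  exact MulChar.map_zero _

lemma PP_sum (h : ∃ s ∈ S, ψ s ≠ 1) : ∑ z : S → ZMod p, PP S ψ z = 0 := by
  classical
  obtain ⟨s, hs, hne⟩ := h
  have : ∑ z : S → ZMod p, PP S ψ z = ∏ s : S, ∑ a : ZMod p, ψ s a := by
    rw [Finset.prod_univ_sum, Fintype.piFinset_univ]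
    rfl
  rw [this]
  exact Finset.prod_eq_zero (Finset.mem_univ (⟨s, hs⟩ : S)) (MulChar.sum_eq_zero_of_ne_one hne)

/-- the nonvanishing vectors -/
noncomputable def NZ : Finset (S → ZMod p) := Fintype.piFinset fun _ => univ.erase (0 : ZMod p)

lemma mem_NZ (z : S → ZMod p) : z ∈ NZ S ↔ ∀ s, z s ≠ 0 := by
  simp [NZ, Fintype.mem_piFinset]

lemma card_NZ : #(NZ S) = (p - 1) ^ #S := by
  rw [NZ, Fintype.card_piFinset]
  simp [ZMod.card]

lemma PP_sum_NZ (h : ∃ s ∈ S, ψ s ≠ 1) : ∑ z ∈ NZ S, PP S ψ z = 0 := by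
  rw [← PP_sum S ψ h]
  apply Finset.sum_subset (Finset.subset_univ _)
  intro z _ hz
  apply PP_zero
  rw [mem_NZ] at hz
  push Not at hz
  exact hz

end

theorem main (hS : SpecStep) : SpecSn := by
  classical
  intro p _ S ψ hψ
  have hp := (Fact.out : p.Prime)
  obtain ⟨C, hC⟩ := hS p S
  refine ⟨((p - 1 : ℕ) : ℝ) ^ #S * |C| + #S, ?_⟩
  intro n hn
  have hn0 : n ≠ 0 := by omega
  set F := GaloisField p n
  let _ : Fintype F := Fintype.ofFinite _
  have hF : Fintype.card F = p ^ n := by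
    rw [← Nat.card_eq_fintype_card]
    exact GaloisField.card p n hn0
  set q : ℝ := (p : ℝ) ^ n with hq
  have hq1 : 1 ≤ q := one_le_pow₀ (by exact_mod_cast hp.one_lt.le)
  have hsq : (Real.sqrt p) ^ n = Real.sqrt q := by
    rw [hq, ← Real.sqrt_sq (show 0 ≤ Real.sqrt p ^ n by positivity), ← pow_mul, mul_comm n 2,
      pow_mul, Real.sq_sqrt (by positivity)]
  have hsq1 : 1 ≤ Real.sqrt q := Real.one_le_sqrt.2 hq1
  rw [hsq]
  -- the point of a field element
  let w : F → (S → ZMod p) := fun u s => Algebra.norm (ZMod p) (u + algebraMap (ZMod p) F s)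
  have hSS : SS p S ψ n = ∑ u : F, PP S ψ (w u) := by
    rw [SS, finsum_eq_sum_of_fintype]
    refine Finset.sum_congr rfl fun u _ => ?_
    rw [PP, ← Finset.prod_coe_sort]
  let N : (S → ZMod p) → ℕ := fun z => #(univ.filter fun u : F => w u = z)
  have hSS2 : SS p S ψ n = ∑ z ∈ NZ S, (N z : ℂ) * PP S ψ z := by
    rw [hSS, ← Finset.sum_fiberwise (s := (univ : Finset F)) (g := w)]
    have h1 : ∀ z : S → ZMod p, ∑ u ∈ univ.filter (fun u : F => w u = z), PP S ψ (w u) =
        (N z : ℂ) * PP S ψ z := by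
      intro z
      rw [Finset.sum_congr rfl (g := fun _ => PP S ψ z), Finset.sum_const, nsmul_eq_mul]
      intro u hu
      rw [(Finset.mem_filter.1 hu).2]
    rw [Finset.sum_congr rfl (fun z _ => h1 z)]
    symm
    apply Finset.sum_subset (Finset.subset_univ _)
    intro z _ hz
    rw [mem_NZ] at hz
    push Not at hz
    rw [PP_zero S ψ z hz, mul_zero]
  set T : ℝ := ((p - 1 : ℕ) : ℝ) ^ #S with hT
  have hT0 : 0 < T := by
    have : 0 < p - 1 := by have := hp.two_le; omega
    positivity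
  set A : ℝ := q / T + |C| * Real.sqrt q with hA
  have hNA : ∀ z ∈ NZ S, (N z : ℝ) ≤ A := by
    intro z hz
    rw [mem_NZ] at hz
    have h1 := hC n hn F hF (fun a => if h : a ∈ S then z ⟨a, h⟩ else 1) (by
      intro s hs
      rw [dif_pos hs]
      exact hz _)
    have h2 : (N z : ℝ) ≤ (({u : F | ∀ s ∈ S, (u + algebraMap (ZMod p) F s) ^ ((p ^ n - 1) / (p - 1)) =
        algebraMap (ZMod p) F (if h : s ∈ S then z ⟨s, h⟩ else 1)}.ncard : ℕ) : ℝ) := by
      simp only [N]
      rw [Nat.cast_le, ← Set.ncard_coe_finset]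
      apply Set.ncard_le_ncard _ (Set.toFinite _)
      intro u hu
      rw [Finset.coe_filter] at hu
      intro s hs
      rw [dif_pos hs]
      have h3 := congrFun hu.2 ⟨s, hs⟩
      rw [← h3, FiniteField.algebraMap_norm_eq_pow, Nat.card_eq_fintype_card, hF,
        Nat.card_eq_fintype_card, ZMod.card]
    refine h2.trans (h1.trans ?_)
    rw [hA, hT, Nat.cast_sub hp.one_lt.le, Nat.cast_one]
    gcongr
    exact le_abs_self C
  have hsum : q - #S ≤ ∑ z ∈ NZ S, (N z : ℝ) := by
    have h1 : ∑ z ∈ NZ S, N z = #(univ.filter fun u : F => w u ∈ NZ S) := by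
      rw [Finset.card_eq_sum_card_fiberwise (f := w) (t := NZ S)]
      · refine Finset.sum_congr rfl fun z hz => ?_
        apply congrArg Finset.card
        ext u
        simp only [Finset.mem_filter, Finset.mem_univ, true_and]
        constructor
        · intro h; exact ⟨by rw [h]; exact hz, h⟩
        · intro h; exact h.2
      · intro u hu
        exact (Finset.mem_filter.1 hu).2
    have h2 : #(univ.filter fun u : F => ¬ w u ∈ NZ S) ≤ #S := by
      have h3 : (univ.filter fun u : F => ¬ w u ∈ NZ S) ⊆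
          S.image (fun s => - algebraMap (ZMod p) F s) := by
        intro u hu
        have h4 := (Finset.mem_filter.1 hu).2
        rw [mem_NZ] at h4
        push Not at h4
        obtain ⟨s, hs⟩ := h4
        have h5 : u + algebraMap (ZMod p) F s = 0 := Algebra.norm_eq_zero_iff.1 hs
        rw [Finset.mem_image]
        exact ⟨s, s.2, (eq_neg_of_add_eq_zero_left h5).symm⟩
      exact (Finset.card_le_card h3).trans Finset.card_image_le
    have h3 := Finset.card_filter_add_card_filter_not (s := (univ : Finset F))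
      (p := fun u : F => w u ∈ NZ S)
    rw [Finset.card_univ, hF] at h3
    have h4 : (q : ℝ) = ((p ^ n : ℕ) : ℝ) := by push_cast; rfl
    have h5 : ((∑ z ∈ NZ S, N z : ℕ) : ℝ) = ∑ z ∈ NZ S, (N z : ℝ) := by push_cast; rfl
    rw [← h5, h1, h4, ← h3]
    have h6 : ((#(univ.filter fun u : F => ¬ w u ∈ NZ S) : ℕ) : ℝ) ≤ #S := by exact_mod_cast h2
    push_cast at h6 ⊢
    linarith
  have hfin : ‖SS p S ψ n‖ ≤ ∑ z ∈ NZ S, (A - N z) := by
    have h1 : SS p S ψ n = - ∑ z ∈ NZ S, (((A - N z : ℝ)) : ℂ) * PP S ψ z := by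
      have h2 : ∑ z ∈ NZ S, (((A - N z : ℝ)) : ℂ) * PP S ψ z =
          (A : ℂ) * ∑ z ∈ NZ S, PP S ψ z - ∑ z ∈ NZ S, (N z : ℂ) * PP S ψ z := by
        rw [Finset.mul_sum, ← Finset.sum_sub_distrib]
        refine Finset.sum_congr rfl fun z _ => ?_
        push_cast
        ring
      rw [h2, PP_sum_NZ S ψ hψ, mul_zero, zero_sub, neg_neg, hSS2]
    rw [h1, norm_neg]
    refine (norm_sum_le _ _).trans (Finset.sum_le_sum fun z hz => ?_)
    have h3 : 0 ≤ A - N z := by have := hNA z hz; linarith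
    rw [norm_mul, Complex.norm_real, Real.norm_of_nonneg h3]
    exact mul_le_of_le_one_right h3 (PP_norm S ψ z)
  refine hfin.trans ?_
  rw [Finset.sum_sub_distrib, Finset.sum_const, card_NZ, nsmul_eq_mul]
  have h7 : (((p - 1) ^ #S : ℕ) : ℝ) = T := by rw [hT]; push_cast; rfl
  rw [h7, hA]
  have h8 : T * (q / T + |C| * Real.sqrt q) = q + T * |C| * Real.sqrt q := by
    field_simp
  rw [h8]
  have h9 : (#S : ℝ) ≤ #S * Real.sqrt q := by
    have : (0 : ℝ) ≤ #S := by positivity
    nlinarith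
  rw [add_mul]
  linarith

end MPcb27.Sn

namespace MPcb27

/-- module SN -/
theorem specSn (hS : SpecStep) : SpecSn := Sn.main hS

end MPcb27
end

section
/-!
MP_cb27ba_nt, project BD, module STEP: Stepanov's method.
-/
set_option autoImplicit false
set_option linter.unusedSectionVars false

namespace MPcb27.Step

open Finset Polynomial

section Dg

variable {F : Type} [Field F]

/-- every coefficient (a polynomial in `x`) has degree at most `d` -/
def Dg (d : ℕ) (P : F[X][X]) : Prop := ∀ l, (P.coeff l).natDegree ≤ d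

lemma Dg.mono {d e : ℕ} (h : d ≤ e) {P : F[X][X]} (hP : Dg d P) : Dg e P :=
  fun l => (hP l).trans h

lemma Dg.add {d : ℕ} {P Q : F[X][X]} (hP : Dg d P) (hQ : Dg d Q) : Dg d (P + Q) := by
  intro l
  rw [coeff_add]
  exact natDegree_add_le_of_degree_le (hP l) (hQ l)

lemma Dg.zero (d : ℕ) : Dg d (0 : F[X][X]) := by
  intro l; simp

lemma Dg.sum {ι : Type} {d : ℕ} (s : Finset ι) (f : ι → F[X][X]) (h : ∀ i ∈ s, Dg d (f i)) :
    Dg d (∑ i ∈ s, f i) := by
  classical
  induction s using Finset.induction_on with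
  | empty => simpa using Dg.zero d
  | insert a s ha ih =>
    rw [Finset.sum_insert ha]
    exact (h a (by simp)).add (ih fun i hi => h i (by simp [hi]))

lemma Dg.mul {d e : ℕ} {P Q : F[X][X]} (hP : Dg d P) (hQ : Dg e Q) : Dg (d + e) (P * Q) := by
  intro l
  rw [coeff_mul]
  apply natDegree_sum_le_of_forall_le
  intro x _
  exact natDegree_mul_le.trans (add_le_add (hP _) (hQ _))

lemma Dg.prod {ι : Type} {d : ℕ} (s : Finset ι) (f : ι → F[X][X]) (h : ∀ i ∈ s, Dg d (f i)) :
    Dg (#s * d) (∏ i ∈ s, f i) := by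
  classical
  induction s using Finset.induction_on with
  | empty =>
    intro l
    simp only [prod_empty, coeff_one, card_empty, zero_mul, nonpos_iff_eq_zero]
    split_ifs <;> simp
  | insert a s ha ih =>
    rw [Finset.prod_insert ha, Finset.card_insert_of_notMem ha]
    exact ((h a (by simp)).mul (ih fun i hi => h i (by simp [hi]))).mono (by ring_nf; rfl)

lemma Dg.C {d : ℕ} {r : F[X]} (h : r.natDegree ≤ d) : Dg d (Polynomial.C r) := by
  intro l
  rw [coeff_C]
  split_ifs
  · exact h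
  · simp

lemma sh_dg (a : ℕ) : Dg a ((X + Polynomial.C X : F[X][X]) ^ a) := by
  intro l
  rw [coeff_X_add_C_pow]
  refine natDegree_mul_le.trans ?_
  rw [natDegree_natCast, add_zero, natDegree_X_pow]
  omega

/-- truncated binomial expansion -/
noncomputable def EE (M N : ℕ) (s : F) : F[X][X] :=
  ∑ m ∈ range M, Polynomial.C (Polynomial.C ((N.choose m : ℕ) : F) *
    (X + Polynomial.C s) ^ (M - m)) * X ^ m

lemma EE_dg (M N : ℕ) (s : F) : Dg M (EE M N s) := by
  apply Dg.sum
  intro m _ l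
  rw [coeff_C_mul_X_pow]
  split_ifs
  · refine (natDegree_C_mul_le _ _).trans ?_
    refine natDegree_pow_le.trans ?_
    rw [natDegree_X_add_C]
    omega
  · simp

lemma EE_map (M N : ℕ) (s u : F) : (EE M N s).map (evalRingHom u) =
    ∑ m ∈ range M, Polynomial.C (((N.choose m : ℕ) : F) * (u + s) ^ (M - m)) * X ^ m := by
  rw [EE, Polynomial.map_sum]
  refine Finset.sum_congr rfl fun m _ => ?_
  simp

lemma cong (M N : ℕ) (hMN : M ≤ N) (y : F) :
    (X : F[X]) ^ M ∣ (X + Polynomial.C y) ^ N - Polynomial.C (y ^ (N - M)) *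
      ∑ m ∈ range M, Polynomial.C (((N.choose m : ℕ) : F) * y ^ (M - m)) * X ^ m := by
  obtain ⟨e, rfl⟩ := Nat.exists_eq_add_of_le hMN
  rw [add_pow, show M + e + 1 = M + (e + 1) by ring, Finset.sum_range_add, add_comm, add_sub_assoc]
  apply dvd_add
  · apply Finset.dvd_sum
    intro m _
    exact Dvd.dvd.mul_right (Dvd.dvd.mul_right (pow_dvd_pow _ (by omega)) _) _
  · convert dvd_zero ((X : F[X]) ^ M)
    rw [sub_eq_zero, Finset.mul_sum]
    refine Finset.sum_congr rfl fun m hm => ?_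
    have hm' := Finset.mem_range.1 hm
    rw [← mul_assoc, ← Polynomial.C_mul, show M + e - M = e by omega,
      show M + e - m = e + (M - m) by omega, pow_add, ← Polynomial.C_pow, ← Polynomial.C_pow]
    simp only [Polynomial.C_mul, Polynomial.C_pow, map_natCast]
    ring

end Dg

section Main

variable {p : ℕ} [Fact p.Prime] {F : Type} [Field F] [Fintype F] [Algebra (ZMod p) F]

/-- the index set of the unknown coefficients -/
abbrev Ix (S : Finset (ZMod p)) (J B : ℕ) : Type := (S → Fin (p - 1)) × Fin J × Fin (B + 1)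

/-- the building block of the linear conditions -/
noncomputable def QQ (S : Finset (ZMod p)) (J B M c : ℕ) (ζ : ZMod p → F) (x : Ix S J B) :
    F[X][X] :=
  (X + C X) ^ (x.2.2 : ℕ) * C (X ^ (x.2.1 : ℕ)) * C (C (∏ s : S, ζ s ^ ((x.1 s : ℕ)))) *
    ∏ s : S, EE M (M + (x.1 s : ℕ) * c) (algebraMap (ZMod p) F s)

lemma QQ_dg (S : Finset (ZMod p)) (J B M c : ℕ) (ζ : ZMod p → F) (x : Ix S J B) (D : ℕ)
    (hD : B + J + #S * M ≤ D + 1) : Dg D (QQ S J B M c ζ x) := by
  have h1 : Dg B ((X + C X : F[X][X]) ^ (x.2.2 : ℕ)) :=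
    (sh_dg _).mono (by have := x.2.2.2; omega)
  have h2 : Dg (x.2.1 : ℕ) (C (X ^ (x.2.1 : ℕ)) : F[X][X]) := Dg.C (by simp)
  have h3 : Dg 0 (C (C (∏ s : S, ζ s ^ ((x.1 s : ℕ)))) : F[X][X]) := Dg.C (natDegree_C _).le
  have h4 : Dg (#S * M) (∏ s : S, EE M (M + (x.1 s : ℕ) * c) (algebraMap (ZMod p) F s)) := by
    have := Dg.prod (Finset.univ : Finset S)
      (fun s => EE M (M + (x.1 s : ℕ) * c) (algebraMap (ZMod p) F s)) (d := M)
      (fun i _ => EE_dg _ _ _)
    simpa using this
  refine (((h1.mul h2).mul h3).mul h4).mono ?_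
  have := x.2.1.2
  omega

omit [Fintype F] in
lemma exists_ker {ι κ : Type} [Fintype ι] [Fintype κ] (A : κ → ι → F)
    (h : Fintype.card κ < Fintype.card ι) : ∃ v : ι → F, v ≠ 0 ∧ ∀ k, ∑ x, A k x * v x = 0 := by
  classical
  have := LinearMap.ker_ne_bot_of_finrank_lt (K := F) (f := (Matrix.of A).mulVecLin)
    (by rw [Module.finrank_fintype_fun_eq_card, Module.finrank_fintype_fun_eq_card]; exact h)
  obtain ⟨v, hv, hv0⟩ := (Submodule.ne_bot_iff _).1 this
  refine ⟨v, hv0, fun k => ?_⟩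
  have := congrFun (LinearMap.mem_ker.1 hv) k
  simpa [Matrix.mulVec, dotProduct] using this

/-- the auxiliary polynomial of Stepanov's method -/
noncomputable def Phi (S : Finset (ZMod p)) (J B M c q : ℕ) (v : Ix S J B → F) : F[X] :=
  ∑ x : Ix S J B, C (v x) * X ^ (x.2.2 : ℕ) * (X ^ q) ^ (x.2.1 : ℕ) *
    ∏ s : S, (X + C (algebraMap (ZMod p) F s)) ^ (M + (x.1 s : ℕ) * c)

/-- the coefficients as polynomials in two variables -/
noncomputable def HH (S : Finset (ZMod p)) (J B : ℕ) (v : Ix S J B → F)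
    (i : S → Fin (p - 1)) : F[X][X] :=
  ∑ j : Fin J, ∑ b : Fin (B + 1), monomial (j : ℕ) (monomial (b : ℕ) (v (i, j, b)))

omit [Fintype F] [Algebra (ZMod p) F] in
lemma HH_coeff (S : Finset (ZMod p)) (J B : ℕ) (v : Ix S J B → F) (i : S → Fin (p - 1))
    (j : Fin J) (b : Fin (B + 1)) : ((HH S J B v i).coeff j).coeff b = v (i, j, b) := by
  classical
  rw [HH, finsetSum_coeff, finsetSum_coeff, Finset.sum_eq_single j, finsetSum_coeff,
    finsetSum_coeff, Finset.sum_eq_single b]
  · simp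
  · intro b' _ hb'
    rw [coeff_monomial, if_pos rfl, coeff_monomial, if_neg (fun h => hb' (Fin.ext h))]
  · simp
  · intro j' _ hj'
    rw [finsetSum_coeff, finsetSum_coeff]
    apply Finset.sum_eq_zero
    intro b' _
    rw [coeff_monomial, if_neg (fun h => hj' (Fin.ext h)), coeff_zero]
  · simp

omit [Fintype F] [Algebra (ZMod p) F] in
lemma HH_deg (S : Finset (ZMod p)) (J B : ℕ) (v : Ix S J B → F) (i : S → Fin (p - 1))
    (j : ℕ) : ((HH S J B v i).coeff j).natDegree ≤ B := by
  classical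
  rw [HH, finsetSum_coeff]
  apply natDegree_sum_le_of_forall_le
  intro j' _
  rw [finsetSum_coeff]
  apply natDegree_sum_le_of_forall_le
  intro b' _
  rw [coeff_monomial]
  split_ifs
  · exact (natDegree_monomial_le _).trans (by have := b'.2; omega)
  · simp

omit [Fintype F] in
lemma Phi_eq (S : Finset (ZMod p)) (J B M c q : ℕ) (v : Ix S J B → F) :
    Phi S J B M c q v = (∏ s : S, (X + C (algebraMap (ZMod p) F s)) ^ M) *
      ∑ i, (HH S J B v i).eval (X ^ q) * ∏ s : S,
        (X + C (algebraMap (ZMod p) F s)) ^ ((i s : ℕ) * c) := by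
  rw [Phi, Fintype.sum_prod_type, Finset.mul_sum]
  refine Finset.sum_congr rfl fun i _ => ?_
  rw [HH, eval_finsetSum, Finset.sum_mul, Finset.mul_sum, Fintype.sum_prod_type]
  refine Finset.sum_congr rfl fun j _ => ?_
  rw [eval_finsetSum, Finset.sum_mul, Finset.mul_sum]
  refine Finset.sum_congr rfl fun b _ => ?_
  rw [eval_monomial, ← C_mul_X_pow_eq_monomial]
  simp only [pow_add, Finset.prod_mul_distrib]
  ring

lemma Phi_ne (hNV : SpecNV) (S : Finset (ZMod p)) (n J B M : ℕ) (hn : 1 ≤ n)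
    (hF : Fintype.card F = p ^ n) (hB : (p - 1) ^ #S * (B + #S) < p ^ n) (v : Ix S J B → F)
    (hv : v ≠ 0) : Phi S J B M ((p ^ n - 1) / (p - 1)) (p ^ n) v ≠ 0 := by
  intro h0
  rw [Phi_eq] at h0
  have h1 : (∏ s : S, (X + C (algebraMap (ZMod p) F s)) ^ M) ≠ 0 :=
    Finset.prod_ne_zero_iff.2 fun s _ => pow_ne_zero _ (X_add_C_ne_zero _)
  have h2 := (mul_eq_zero.1 h0).resolve_left h1
  have h3 := hNV p n F hF hn S B hB (HH S J B v) (fun i j => HH_deg S J B v i j) h2
  apply hv
  funext x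
  obtain ⟨i, j, b⟩ := x
  rw [← HH_coeff S J B v i j b, h3]
  simp

omit [Fintype F] in
lemma Phi_deg (S : Finset (ZMod p)) (n J B M : ℕ) (v : Ix S J B → F) :
    (Phi S J B M ((p ^ n - 1) / (p - 1)) (p ^ n) v).natDegree ≤
      #S * M + B + p ^ n * J + #S * p ^ n := by
  apply natDegree_sum_le_of_forall_le
  intro x _
  have hj := x.2.1.2
  have hb := x.2.2.2
  have hc : ∀ s : S, (x.1 s : ℕ) * ((p ^ n - 1) / (p - 1)) ≤ p ^ n := by
    intro s
    have h1 : (x.1 s : ℕ) ≤ p - 1 := (x.1 s).2.le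
    calc (x.1 s : ℕ) * ((p ^ n - 1) / (p - 1)) ≤ (p - 1) * ((p ^ n - 1) / (p - 1)) :=
          Nat.mul_le_mul_right _ h1
      _ ≤ p ^ n - 1 := Nat.mul_div_le _ _
      _ ≤ p ^ n := Nat.sub_le _ _
  have h1 : (∏ s : S, (X + C (algebraMap (ZMod p) F s)) ^
      (M + (x.1 s : ℕ) * ((p ^ n - 1) / (p - 1)))).natDegree ≤ #S * (M + p ^ n) := by
    refine (natDegree_prod_le _ _).trans ?_
    refine (Finset.sum_le_card_nsmul _ _ (M + p ^ n) ?_).trans ?_
    · intro s _
      refine natDegree_pow_le.trans ?_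
      rw [natDegree_X_add_C, mul_one]
      exact Nat.add_le_add_left (hc s) _
    · simp
  have h2 : (C (v x) * X ^ (x.2.2 : ℕ) : F[X]).natDegree ≤ B :=
    (natDegree_C_mul_X_pow_le _ _).trans (by omega)
  have h3 : ((X ^ (p ^ n)) ^ (x.2.1 : ℕ) : F[X]).natDegree ≤ p ^ n * J := by
    rw [← pow_mul, natDegree_X_pow]
    exact Nat.mul_le_mul_left _ hj.le
  refine natDegree_mul_le.trans ?_
  refine (add_le_add (natDegree_mul_le.trans (add_le_add h2 h3)) h1).trans ?_
  rw [mul_add]
  omega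

lemma div (S : Finset (ZMod p)) (n J B M : ℕ) (hn : 1 ≤ n)
    (hF : Fintype.card F = p ^ n) (hM : M ≤ p ^ n) (ζ : ZMod p → F) (v : Ix S J B → F)
    (hv : ∀ (l : Fin M) (e : Fin (B + J + #S * M)), ∑ x,
      ((QQ S J B M ((p ^ n - 1) / (p - 1)) ζ x).coeff (l : ℕ)).coeff (e : ℕ) * v x = 0)
    (hJ : 1 ≤ J) (u : F)
    (hu : ∀ s ∈ S, (u + algebraMap (ZMod p) F s) ^ ((p ^ n - 1) / (p - 1)) = ζ s) :
    (X - C u) ^ M ∣ Phi S J B M ((p ^ n - 1) / (p - 1)) (p ^ n) v := by
  set c := (p ^ n - 1) / (p - 1) with hc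
  have : CharP F p := charP_of_injective_algebraMap (algebraMap (ZMod p) F).injective p
  rw [X_sub_C_pow_dvd_iff]
  let π := Ideal.Quotient.mk (Ideal.span {(X : F[X]) ^ M})
  have hπ : ∀ a b : F[X], (X : F[X]) ^ M ∣ a - b → π a = π b := by
    intro a b h
    exact Ideal.Quotient.eq.2 (Ideal.mem_span_singleton.2 h)
  have hπ0 : ∀ a : F[X], π a = 0 → (X : F[X]) ^ M ∣ a := by
    intro a h
    exact Ideal.mem_span_singleton.1 (Ideal.Quotient.eq_zero_iff_mem.1 h)
  apply hπ0
  have hq : π ((X + C u) ^ (p ^ n)) = π (C u) := by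
    apply hπ
    rw [add_pow_char_pow, ← C_pow, ← hF, FiniteField.pow_card, hF, add_sub_cancel_right]
    exact pow_dvd_pow _ hM
  have hE : ∀ (i : ℕ) (s : S), π ((X + C (u + algebraMap (ZMod p) F s)) ^ (M + i * c)) =
      π (C (ζ s ^ i)) * π ((EE M (M + i * c) (algebraMap (ZMod p) F s)).map (evalRingHom u)) := by
    intro i s
    rw [← map_mul]
    apply hπ
    have h1 := cong M (M + i * c) (Nat.le_add_right _ _) (u + algebraMap (ZMod p) F s)
    rw [Nat.add_sub_cancel_left, mul_comm i c, pow_mul, hu s s.2, mul_comm c i] at h1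
    rw [EE_map]
    exact h1
  have h1 : π ((Phi S J B M c (p ^ n) v).comp (X + C u)) =
      π ((∑ x, C (C (v x)) * QQ S J B M c ζ x).map (evalRingHom u)) := by
    rw [Phi, Polynomial.map_sum, Polynomial.sum_comp, map_sum, map_sum]
    refine Finset.sum_congr rfl fun x _ => ?_
    rw [QQ]
    simp only [mul_comp, C_comp, pow_comp, X_comp, Polynomial.prod_comp, add_comp, map_mul,
      Polynomial.map_mul, Polynomial.map_pow, Polynomial.map_add, Polynomial.map_prod, map_prod,
      map_C, map_X, coe_evalRingHom, eval_C, eval_X, eval_pow, eval_prod]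
    have h2 : ∀ s : S, π ((X + C u + C (algebraMap (ZMod p) F s)) ^ (M + (x.1 s : ℕ) * c)) =
        π (C (ζ s ^ (x.1 s : ℕ))) *
          π ((EE M (M + (x.1 s : ℕ) * c) (algebraMap (ZMod p) F s)).map (evalRingHom u)) := by
      intro s
      rw [← hE]
      congr 2
      rw [C_add, add_assoc]
    rw [Finset.prod_congr rfl (fun s _ => h2 s), Finset.prod_mul_distrib, map_pow π ((X + C u) ^ (p ^ n)), hq]
    simp only [map_pow, map_prod, C_pow]
    ring
  rw [h1]
  have h3 : (X : F[X]) ^ M ∣ (∑ x, C (C (v x)) * QQ S J B M c ζ x).map (evalRingHom u) := by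
    rw [X_pow_dvd_iff]
    intro l hl
    rw [coeff_map]
    have h4 : (∑ x, C (C (v x)) * QQ S J B M c ζ x).coeff l = 0 := by
      ext e
      rw [finsetSum_coeff, finsetSum_coeff, coeff_zero]
      by_cases he : e < B + J + #S * M
      · have := hv ⟨l, hl⟩ ⟨e, he⟩
        rw [← this]
        refine Finset.sum_congr rfl fun x _ => ?_
        rw [coeff_C_mul, coeff_C_mul, mul_comm]
      · apply Finset.sum_eq_zero
        intro x _
        rw [coeff_C_mul, coeff_C_mul]
        have h5 := QQ_dg S J B M c ζ x (B + J + #S * M - 1) (by omega) l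
        rw [coeff_eq_zero_of_natDegree_lt (lt_of_le_of_lt h5 (by omega)), mul_zero]
    rw [h4, map_zero]
  obtain ⟨w, hw⟩ := h3
  rw [hw, map_mul]
  have h6 : π ((X : F[X]) ^ M) = 0 :=
    Ideal.Quotient.eq_zero_iff_mem.2 (Ideal.mem_span_singleton_self _)
  rw [h6, zero_mul]

lemma count (hNV : SpecNV) (S : Finset (ZMod p)) (n J B M : ℕ) (hn : 1 ≤ n)
    (hF : Fintype.card F = p ^ n) (hM : M ≤ p ^ n) (hB : (p - 1) ^ #S * (B + #S) < p ^ n)
    (hJ : 1 ≤ J) (hcount : M * (B + J + #S * M) < (p - 1) ^ #S * (J * (B + 1)))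
    (ζ : ZMod p → F) (Z : Finset F)
    (hZ : ∀ u ∈ Z, ∀ s ∈ S, (u + algebraMap (ZMod p) F s) ^ ((p ^ n - 1) / (p - 1)) = ζ s) :
    M * #Z ≤ #S * M + B + p ^ n * J + #S * p ^ n := by
  classical
  obtain ⟨v, hv0, hv⟩ := exists_ker (F := F) (ι := Ix S J B)
    (κ := Fin M × Fin (B + J + #S * M))
    (fun k x => ((QQ S J B M ((p ^ n - 1) / (p - 1)) ζ x).coeff (k.1 : ℕ)).coeff (k.2 : ℕ))
    (by simpa using hcount)
  have hne := Phi_ne hNV S n J B M hn hF hB v hv0
  refine le_trans ?_ (Phi_deg S n J B M v)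
  refine le_trans ?_ (card_roots' _)
  have h1 : ∀ u ∈ Z, M ≤ (Phi S J B M ((p ^ n - 1) / (p - 1)) (p ^ n) v).roots.count u := by
    intro u hu
    rw [count_roots]
    exact (le_rootMultiplicity_iff hne).2
      (div S n J B M hn hF hM ζ v (fun l e => hv (l, e)) hJ u (hZ u hu))
  calc M * #Z = ∑ u ∈ Z, M := by rw [Finset.sum_const, smul_eq_mul, mul_comm]
    _ ≤ ∑ u ∈ Z, (Phi S J B M ((p ^ n - 1) / (p - 1)) (p ^ n) v).roots.count u :=
        Finset.sum_le_sum h1
    _ ≤ ∑ u, (Phi S J B M ((p ^ n - 1) / (p - 1)) (p ^ n) v).roots.count u :=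
        Finset.sum_le_sum_of_subset (Finset.subset_univ _)
    _ = Multiset.card (Phi S J B M ((p ^ n - 1) / (p - 1)) (p ^ n) v).roots :=
        Multiset.sum_count_eq_card (fun _ _ => Finset.mem_univ _)

end Main

lemma nat_count (σ T q M a B : ℕ) (hM : M * M ≤ q) (hb : 4 * σ + 13 ≤ M)
    (e1 : M + 1 ≤ T * a + T) (e2 : q + 1 ≤ 4 * T * (B + 1)) (ha : a ≤ M) :
    M * (B + (a + (4 * σ + 13)) + σ * M) < T * ((a + (4 * σ + 13)) * (B + 1)) := by
  have e3 : M * a ≤ q := (Nat.mul_le_mul_left M ha).trans hM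
  have e4 : M * (4 * σ + 13) ≤ q := (Nat.mul_le_mul_left M hb).trans hM
  have e5 : T * ((a + (4 * σ + 13)) * (B + 1)) =
      (T * a + T) * (B + 1) + (σ + 3) * (4 * T * (B + 1)) := by ring
  have e6 : (M + 1) * (B + 1) ≤ (T * a + T) * (B + 1) := Nat.mul_le_mul_right _ e1
  have e7 : (σ + 3) * (q + 1) ≤ (σ + 3) * (4 * T * (B + 1)) := Nat.mul_le_mul_left _ e2
  have e9 : σ * (M * M) ≤ σ * q := Nat.mul_le_mul_left _ hM
  calc M * (B + (a + (4 * σ + 13)) + σ * M)
      = M * B + M * a + M * (4 * σ + 13) + σ * (M * M) := by ring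
    _ ≤ M * B + q + q + σ * q := by gcongr
    _ < (M + 1) * (B + 1) + (σ + 3) * (q + 1) := by nlinarith
    _ ≤ (T * a + T) * (B + 1) + (σ + 3) * (4 * T * (B + 1)) := add_le_add e6 e7
    _ = _ := e5.symm

theorem main (hNV : SpecNV) : SpecStep := by
  intro p _ S
  have hp := (Fact.out : p.Prime)
  set σ := #S with hσ
  set T := (p - 1) ^ σ with hTd
  have hT : 1 ≤ T := Nat.one_le_pow _ _ (by have := hp.two_le; omega)
  set q0 := (4 * σ + 13) ^ 2 + 2 * T * σ + 1 with hq0
  refine ⟨(σ + 2 * (4 * σ + 14 + σ)) + Real.sqrt q0, ?_⟩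
  intro n hn F _ _ _ hF ζ hζ
  set Zs : Set F := {u : F | ∀ s ∈ S, (u + algebraMap (ZMod p) F s) ^ ((p ^ n - 1) / (p - 1)) =
        algebraMap (ZMod p) F (ζ s)} with hZs
  have hfin : Zs.Finite := Set.toFinite _
  have hTr : ((p : ℝ) - 1) ^ σ = (T : ℝ) := by
    rw [hTd, Nat.cast_pow, Nat.cast_sub hp.one_lt.le, Nat.cast_one]
  have hqr : ((p : ℝ) ^ n) = ((p ^ n : ℕ) : ℝ) := by push_cast; rfl
  rw [hTr, hqr, Set.ncard_eq_toFinset_card _ hfin]
  set Z := hfin.toFinset with hZ
  set q := p ^ n with hq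
  have hq1 : 1 ≤ q := Nat.one_le_pow _ _ hp.pos
  have hqR : (1 : ℝ) ≤ (q : ℝ) := by exact_mod_cast hq1
  have hTR : (1 : ℝ) ≤ (T : ℝ) := by exact_mod_cast hT
  have hsq : Real.sqrt q * Real.sqrt q = q := Real.mul_self_sqrt (by positivity)
  have hsq1 : 1 ≤ Real.sqrt q := Real.one_le_sqrt.2 hqR
  by_cases hqq : q < q0
  · have h1 : #Z ≤ q := by
      rw [← hF]
      exact Finset.card_le_univ _
    have h2 : (#Z : ℝ) ≤ (q : ℝ) := by exact_mod_cast h1
    have h3 : Real.sqrt q ≤ Real.sqrt q0 := Real.sqrt_le_sqrt (by exact_mod_cast hqq.le)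
    have h4 : (q : ℝ) ≤ Real.sqrt q0 * Real.sqrt q := by
      calc (q : ℝ) = Real.sqrt q * Real.sqrt q := hsq.symm
        _ ≤ Real.sqrt q0 * Real.sqrt q := by gcongr
    have h5 : 0 ≤ (q : ℝ) / T := by positivity
    have h6 : 0 ≤ ((σ : ℝ) + 2 * (4 * σ + 14 + σ)) * Real.sqrt q := by positivity
    nlinarith
  · push Not at hqq
    set M := Nat.sqrt q with hM
    have hM1 : M * M ≤ q := Nat.sqrt_le q
    have hM2 : q < (M + 1) * (M + 1) := Nat.lt_succ_sqrt q
    have hb : 4 * σ + 13 ≤ M := by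
      rw [hM, Nat.le_sqrt, ← pow_two]
      have : (4 * σ + 13) ^ 2 ≤ q0 := by rw [hq0]; omega
      omega
    have hMq : M ≤ q := Nat.sqrt_le_self q
    have hB : T * (q / (4 * T) + σ) < q := by
      have h1 : 4 * T * (q / (4 * T)) ≤ q := Nat.mul_div_le _ _
      have h2 : 2 * T * σ < q := by
        have : 2 * T * σ < q0 := by
          rw [hq0]
          have := Nat.zero_le ((4 * σ + 13) ^ 2)
          omega
        omega
      have h3 : 4 * (T * (q / (4 * T) + σ)) = 4 * T * (q / (4 * T)) + 2 * (2 * T * σ) := by ring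
      omega
    have hZ' : ∀ u ∈ Z, ∀ s ∈ S, (u + algebraMap (ZMod p) F s) ^ ((p ^ n - 1) / (p - 1)) =
        algebraMap (ZMod p) F (ζ s) := by
      intro u hu
      exact (hfin.mem_toFinset.1 hu)
    have f1 : M + 1 ≤ T * (M / T) + T := by
      have := Nat.lt_mul_div_succ M (show 0 < T by omega)
      rw [Nat.mul_add, mul_one] at this
      omega
    have f2 : q + 1 ≤ 4 * T * (q / (4 * T) + 1) := Nat.lt_mul_div_succ q (by omega)
    have hc := count hNV S n (M / T + (4 * σ + 13)) (q / (4 * T)) M hn hF hMq hB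
      (by have := Nat.zero_le (M / T); omega)
      (nat_count σ T q M _ _ hM1 hb f1 f2 (Nat.div_le_self _ _))
      (fun s => algebraMap (ZMod p) F (ζ s)) Z hZ'
    rw [← hq, ← hσ] at hc
    have hcR : (M : ℝ) * #Z ≤ σ * M + ((q / (4 * T) : ℕ) : ℝ) +
        q * (((M / T : ℕ) : ℝ) + (4 * σ + 13)) + σ * q := by exact_mod_cast hc
    have h1 : ((M / T : ℕ) : ℝ) ≤ (M : ℝ) / T := Nat.cast_div_le
    have h2 : ((q / (4 * T) : ℕ) : ℝ) ≤ (q : ℝ) := by
      exact_mod_cast Nat.div_le_self _ _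
    have hM0 : (1 : ℝ) ≤ (M : ℝ) := by exact_mod_cast (show 1 ≤ M by omega)
    have h3 : (q : ℝ) ≤ 2 * Real.sqrt q * M := by
      have h4 : Real.sqrt q ≤ 2 * M := by
        rw [Real.sqrt_le_left (by positivity)]
        have : (q : ℝ) ≤ (M + 1) * (M + 1) := by exact_mod_cast hM2.le
        nlinarith
      nlinarith
    have h5 : (M : ℝ) * #Z ≤ M * ((q : ℝ) / T + (σ + 2 * (4 * σ + 14 + σ)) * Real.sqrt q) := by
      have h6 : (q : ℝ) * ((M / T : ℕ) : ℝ) ≤ M * ((q : ℝ) / T) := by
        calc (q : ℝ) * ((M / T : ℕ) : ℝ) ≤ q * ((M : ℝ) / T) := by gcongr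
          _ = M * ((q : ℝ) / T) := by ring
      have h7 : (4 * (σ : ℝ) + 14 + σ) * q ≤ (4 * (σ : ℝ) + 14 + σ) * (2 * Real.sqrt q * M) := by
        gcongr
      have h8 : (σ : ℝ) * M ≤ σ * M * Real.sqrt q := by
        have : 0 ≤ (σ : ℝ) * M := by positivity
        nlinarith
      calc (M : ℝ) * #Z ≤ σ * M + ((q / (4 * T) : ℕ) : ℝ) +
            q * (((M / T : ℕ) : ℝ) + (4 * σ + 13)) + σ * q := hcR
        _ ≤ σ * M + q + (q * ((M / T : ℕ) : ℝ) + q * (4 * σ + 13)) + σ * q := by
            rw [mul_add]; gcongr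
        _ = σ * M + q * ((M / T : ℕ) : ℝ) + (4 * (σ : ℝ) + 14 + σ) * q := by ring
        _ ≤ σ * M * Real.sqrt q + M * ((q : ℝ) / T) +
            (4 * (σ : ℝ) + 14 + σ) * (2 * Real.sqrt q * M) := by gcongr
        _ = M * ((q : ℝ) / T + (σ + 2 * (4 * σ + 14 + σ)) * Real.sqrt q) := by ring
    have h6 := le_of_mul_le_mul_left h5 (by positivity)
    have h7 : 0 ≤ Real.sqrt q0 * Real.sqrt q := by positivity
    calc (#Z : ℝ) ≤ (q : ℝ) / T + (σ + 2 * (4 * σ + 14 + σ)) * Real.sqrt q := h6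
      _ ≤ (q : ℝ) / T + ((σ + 2 * (4 * σ + 14 + σ)) + Real.sqrt q0) * Real.sqrt q := by
          rw [add_mul _ (Real.sqrt q0)]
          linarith

end MPcb27.Step

namespace MPcb27

/-- module STEP -/
theorem specStep (hNV : SpecNV) : SpecStep := Step.main hNV

end MPcb27
end

section
/-!
# MP_cb27ba_nt, project BD: module WEIL (helper64)
-/
set_option autoImplicit false

namespace MPcb27

open Finset

theorem specWeil (hLid : SpecLid) (hLvan : SpecLvan) (hAna : SpecAna) (hSn : SpecSn) :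
    SpecWeil := by
  intro p _ S ψ hψ
  obtain ⟨h0, h1, h2⟩ := hLvan p S ψ
  obtain ⟨C, hC⟩ := hSn p S ψ hψ
  rw [← h1]
  have hp : (0 : ℝ) < p := by exact_mod_cast (Fact.out : p.Prime).pos
  exact hAna #S (aa p S ψ) (SS p S ψ) (Real.sqrt p) C (Real.sqrt_pos.mpr hp) h0 (h2 hψ)
    (hLid p S ψ) hC

end MPcb27
end
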