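import Pool.Agent.Lib.MP_cb27ba_nt.BD.Det
import Pool.Agent.Lib.MP_cb27ba_nt.Bound
import Pool.Agent.Lib.MP_cb27ba_nt.BD.Weil
import Pool.Agent.Lib.MP_cb27ba_nt.BD.Proper
import Pool.Agent.Lib.MP_cb27ba_nt.BD.Full
import Pool.Agent.Lib.MP_cb27ba_nt.BD.GapP
import Pool.Agent.Lib.MP_cb27ba_nt.BD.Bogo

section
/-!
# MP_cb27ba_nt, project BD: module ES
-/
set_option autoImplicit false

namespace MPcb27

open Finset

theorem specES : SpecES := by
  intro p _ χ hχ A B
  have h1 : ‖∑ a ∈ A, ∑ b ∈ B, χ (a - b)‖ ≤ ∑ a ∈ A, ‖∑ b ∈ B, χ (a - b)‖ := norm_sum_le _ _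
  have h2 : (∑ a ∈ A, ‖∑ b ∈ B, χ (a - b)‖) ^ 2 ≤
      (#A : ℝ) * ∑ a ∈ A, ‖∑ b ∈ B, χ (a - b)‖ ^ 2 := sq_sum_le_card_mul_sum_sq
  have h3 : ∑ a ∈ A, ‖∑ b ∈ B, χ (a - b)‖ ^ 2 ≤ ∑ x, ‖∑ b ∈ B, χ (x - b)‖ ^ 2 :=
    Finset.sum_le_sum_of_subset_of_nonneg (Finset.subset_univ _) (fun x _ _ => by positivity)
  rw [Pool.Agent.Lib.MPcb27ba.sum_norm_sq χ hχ B] at h3
  refine h1.trans ?_
  refine Real.le_sqrt_of_sq_le ?_
  refine h2.trans ?_
  have hA : (0 : ℝ) ≤ #A := Nat.cast_nonneg _
  have hB : (0 : ℝ) ≤ #B := Nat.cast_nonneg _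
  nlinarith [mul_le_mul_of_nonneg_left h3 hA, mul_nonneg hA (mul_nonneg hB hB)]

end MPcb27
end

section
/-!
# MP_cb27ba_nt, project BD: assembly
-/
set_option autoImplicit false

namespace MPcb27.All

open MPcb27

theorem lat : SpecLat := specLat specGB specDet

theorem dual : SpecDual := Dual.specDual lat specCnt

theorem caseA : SpecCaseA :=
  MPcb27.specCaseA lat specCnt (specNumL specBoxCnt) specSub specFull

theorem caseB : SpecCaseB := specCaseB dual

theorem ind : SpecInd := specInd caseA caseB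

theorem energy : SpecEnergy := specEnergy ind (specNF specDet)

theorem en2 : SpecEn2 := En2.specEn2 energy

/-- the Weil bound for products of shifted multiplicative characters of a prime field -/
theorem weil : SpecWeil :=
  specWeil specLid specLvan specAna (specSn (specStep (specNV specKum)))

theorem mom : SpecMom := specMom weil

theorem burg : SpecBurg := specBurg en2 mom

theorem boxSum (d : ℕ) (δ : ℝ) (hδ : 0 < δ) : BoxSum d (1 / 4 + δ) 1 :=
  specTile d (fun δ' h1 h2 => burg d δ' h1 h2) δ hδ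

theorem fr : SpecFr := MPcb27.specFr specModel specBogo (specBohr specGB specDet)

end MPcb27.All

namespace MPcb27

theorem gapP : SpecGapP := specGapP All.boxSum specFour (specProper specGB specDet) specES

theorem finalDbl' : FinalDbl := finalDbl gapP All.fr

theorem burgGap : SpecCor := specCor gapP

theorem enP : SpecEnP := specEnP All.energy

end MPcb27
end
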