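import Mathlib

/-!
# MP_cb27ba_nt, project BD (helper50): definitions

Character sums over sets of bounded doubling above the Burgess barrier.
Paper proof: /team-store/MP_cb27ba_nt_PROOF.md
-/

set_option autoImplicit false

namespace MPcb27

open Finset

/-- `lin a x = ∑ x_i a_i` in `ZMod p`, integer coefficients. -/
def lin {p : ℕ} {ι : Type} [Fintype ι] (a : ι → ZMod p) (x : ι → ℤ) : ZMod p :=
  ∑ i, (x i : ZMod p) * a i

/-- `linN b n = ∑ n_i b_i` in `ZMod p`, natural coefficients. -/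
def linN {p : ℕ} {ι : Type} [Fintype ι] (b : ι → ZMod p) (n : ι → ℕ) : ZMod p :=
  ∑ i, (n i : ZMod p) * b i

/-- the real vector of an integer vector -/
def rv {ι : Type} (x : ι → ℤ) : ι → ℝ := fun i => (x i : ℝ)

/-- weighted Euclidean norm -/
noncomputable def wn {ι : Type} [Fintype ι] (N : ι → ℝ) (x : ι → ℝ) : ℝ :=
  Real.sqrt (∑ i, (x i / N i) ^ 2)

/-- the points of norm at most `t` of the lattice `{w | lin c w = 0}` -/
def ball {p : ℕ} {ι : Type} [Fintype ι] (c : ι → ZMod p) (N : ι → ℝ) (t : ℝ) : Set (ι → ℤ) :=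
  {w | lin c w = 0 ∧ wn N (rv w) ≤ t}

/-- number of lattice points of norm at most `t` -/
noncomputable def cnt {p : ℕ} {ι : Type} [Fintype ι] (c : ι → ZMod p) (N : ι → ℝ) (t : ℝ) : ℝ :=
  ((ball c N t).ncard : ℝ)

/-- dimension of the real span of the lattice points of norm at most `t` -/
noncomputable def rk {p : ℕ} {ι : Type} [Fintype ι] (c : ι → ZMod p) (N : ι → ℝ) (t : ℝ) : ℕ :=
  Module.finrank ℝ (Submodule.span ℝ (rv '' ball c N t))

/-- the coefficients of the lattice `Γ_l = {(u,v) | lin a u = l * lin a v}` -/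
def cl {p : ℕ} {ι : Type} (a : ι → ZMod p) (l : ZMod p) : ι ⊕ ι → ZMod p :=
  Sum.elim a (fun i => -(l * a i))

/-- doubled weights -/
def N2 {ι : Type} (N : ι → ℝ) : ι ⊕ ι → ℝ := Sum.elim N N

/-- a system: weights at least one, and no short relation -/
def Sys {p : ℕ} {ι : Type} [Fintype ι] (a : ι → ZMod p) (N : ι → ℝ) (T : ℝ) : Prop :=
  (∀ i, 1 ≤ N i) ∧ ∀ x : ι → ℤ, x ≠ 0 → lin a x = 0 → T < wn N (rv x)

/-- a `κ`-good basis (rows of `g`) of the lattice `{w | lin c w = 0}` -/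
structure IsGB {p : ℕ} {ι : Type} [Fintype ι] [DecidableEq ι] (κ : ℝ) (c : ι → ZMod p)
    (N : ι → ℝ) (g : Matrix ι ι ℤ) : Prop where
  mem : ∀ j, lin c (g j) = 0
  gen : ∀ w : ι → ℤ, lin c w = 0 → ∃ m : ι → ℤ, ∀ i, w i = ∑ j, m j * g j i
  det : g.det.natAbs = p
  good : ∀ x : ι → ℝ, ∑ j, |x j| * wn N (rv (g j)) ≤ κ * wn N (fun i => ∑ j, x j * (g j i : ℝ))
  lo : (p : ℝ) / ∏ i, N i ≤ ∏ j, wn N (rv (g j))
  hi : ∏ j, wn N (rv (g j)) ≤ κ * ((p : ℝ) / ∏ i, N i)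

/-- the box `∏ [0, H_i)` -/
def bx {ι : Type} [Fintype ι] [DecidableEq ι] (H : ι → ℕ) : Finset (ι → ℕ) :=
  Fintype.piFinset (fun i => Finset.range (H i))

/-- `θ`-proper: no nonzero relation with `|x_i| ≤ θ H_i` -/
def Proper {p : ℕ} {ι : Type} [Fintype ι] (b : ι → ZMod p) (H : ι → ℕ) (θ : ℝ) : Prop :=
  ∀ x : ι → ℤ, x ≠ 0 → (∀ i, |(x i : ℝ)| ≤ θ * H i) → lin b x ≠ 0

/-- the sum of squares in the energy estimate, restricted to the `l` with a property `Q` -/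
noncomputable def esum {p : ℕ} [Fact p.Prime] {ι : Type} [Fintype ι] (a : ι → ZMod p)
    (N : ι → ℝ) (Q : ZMod p → Prop) : ℝ := by
  classical
  exact ∑ l ∈ (univ : Finset (ZMod p)).filter
    (fun l => l ≠ 0 ∧ 1 < cnt (cl a l) (N2 N) 1 ∧ Q l), (cnt (cl a l) (N2 N) 1) ^ 2

/-- `En d K`: energy estimate in rank `d`, margin `R ^ K`, over the `l` which are not `R^K`-full. -/
def En (d K : ℕ) : Prop :=
  ∃ C : ℕ, ∀ R : ℝ, (C : ℝ) ≤ R → ∀ J : ℕ, ∀ (p : ℕ) [Fact p.Prime], (p : ℝ) ≤ R ^ J →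
    ∀ (ι : Type) [Fintype ι] [DecidableEq ι], Fintype.card ι = d →
    ∀ (a : ι → ZMod p) (N : ι → ℝ), Sys a N (R ^ K) →
      esum a N (fun l => rk (cl a l) (N2 N) (R ^ K) < 2 * d) ≤
        ((C : ℝ) * (J + 1) * R) ^ C * (∏ i, N i) ^ 2

/-- the same sum restricted to the `l` with `rk ≤ d` at scale one -/
def EnA (d K : ℕ) : Prop :=
  ∃ C : ℕ, ∀ R : ℝ, (C : ℝ) ≤ R → ∀ J : ℕ, ∀ (p : ℕ) [Fact p.Prime], (p : ℝ) ≤ R ^ J →
    ∀ (ι : Type) [Fintype ι] [DecidableEq ι], Fintype.card ι = d →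
    ∀ (a : ι → ZMod p) (N : ι → ℝ), Sys a N (R ^ K) →
      esum a N (fun l => rk (cl a l) (N2 N) (R ^ K) < 2 * d ∧ rk (cl a l) (N2 N) 1 ≤ d) ≤
        ((C : ℝ) * (J + 1) * R) ^ C * (∏ i, N i) ^ 2

/-- the same sum restricted to the `l` with `rk > d` at scale one -/
def EnB (d K : ℕ) : Prop :=
  ∃ C : ℕ, ∀ R : ℝ, (C : ℝ) ≤ R → ∀ J : ℕ, ∀ (p : ℕ) [Fact p.Prime], (p : ℝ) ≤ R ^ J →
    ∀ (ι : Type) [Fintype ι] [DecidableEq ι], Fintype.card ι = d →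
    ∀ (a : ι → ZMod p) (N : ι → ℝ), Sys a N (R ^ K) →
      esum a N (fun l => rk (cl a l) (N2 N) (R ^ K) < 2 * d ∧ d < rk (cl a l) (N2 N) 1) ≤
        ((C : ℝ) * (J + 1) * R) ^ C * (∏ i, N i) ^ 2

/-! ### Weil bound -/

open Polynomial in
/-- the sum over the field with `p ^ n` elements -/
noncomputable def SS (p : ℕ) [Fact p.Prime] (S : Finset (ZMod p)) (ψ : ZMod p → MulChar (ZMod p) ℂ)
    (n : ℕ) : ℂ :=
  ∑ᶠ u : GaloisField p n, ∏ s ∈ S, ψ s (Algebra.norm (ZMod p)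
    (u + algebraMap (ZMod p) (GaloisField p n) s))

open Polynomial in
/-- the multiplicative function on monic polynomials -/
noncomputable def Xi (p : ℕ) [Fact p.Prime] (S : Finset (ZMod p)) (ψ : ZMod p → MulChar (ZMod p) ℂ)
    (g : Polynomial (ZMod p)) : ℂ :=
  ∏ s ∈ S, ψ s ((-1) ^ g.natDegree * g.eval (-s))

open Polynomial in
/-- coefficients of the L-function -/
noncomputable def aa (p : ℕ) [Fact p.Prime] (S : Finset (ZMod p)) (ψ : ZMod p → MulChar (ZMod p) ℂ)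
    (m : ℕ) : ℂ :=
  ∑ᶠ g ∈ {g : Polynomial (ZMod p) | g.Monic ∧ g.natDegree = m}, Xi p S ψ g

/-- the complete sum over `ZMod p` -/
noncomputable def WS (p : ℕ) [Fact p.Prime] (S : Finset (ZMod p))
    (ψ : ZMod p → MulChar (ZMod p) ℂ) : ℂ :=
  ∑ u : ZMod p, ∏ s ∈ S, ψ s (u + s)

end MPcb27
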