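import Pool.Agent.Lib.MP_cb27ba_nt.BD.Spec

section
/-!
# MP_cb27ba_nt, project BD: module ANA (the analytic argument)
-/
set_option autoImplicit false

namespace MPcb27

namespace Ana

open Finset Polynomial Filter Topology

/-- the L-function as a polynomial -/
noncomputable def LL (D : ℕ) (a : ℕ → ℂ) : ℂ[X] := ∑ m ∈ range D, monomial m (a m)

/-- the reversed polynomial -/
noncomputable def PP (D : ℕ) (a : ℕ → ℂ) : ℂ[X] := ∑ m ∈ range D, monomial (D - 1 - m) (a m)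

lemma LL_eval (D : ℕ) (a : ℕ → ℂ) (T : ℂ) : (LL D a).eval T = ∑ m ∈ range D, a m * T ^ m := by
  simp [LL, eval_finsetSum]

lemma PP_eval (D : ℕ) (a : ℕ → ℂ) (w : ℂ) :
    (PP D a).eval w = ∑ m ∈ range D, a m * w ^ (D - 1 - m) := by
  simp [PP, eval_finsetSum]

lemma LL_der (D : ℕ) (a : ℕ → ℂ) (T : ℂ) :
    T * (derivative (LL D a)).eval T = ∑ m ∈ range D, (m : ℂ) * a m * T ^ m := by
  simp only [LL, derivative_sum, derivative_monomial, eval_finsetSum, eval_monomial, mul_sum]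
  refine sum_congr rfl fun m _ => ?_
  rcases m with _ | m
  · simp
  · simp only [Nat.add_sub_cancel]
    ring

/-- zeros of the L-function are not small -/
lemma zero_large (D : ℕ) (a S : ℕ → ℂ) (ρ C : ℝ) (hρ : 0 < ρ) (h0 : a 0 = 1)
    (hD : ∀ m : ℕ, D ≤ m → a m = 0)
    (hrec : ∀ m : ℕ, 1 ≤ m → (m : ℂ) * a m = ∑ k ∈ range m, S (k + 1) * a (m - 1 - k))
    (hS : ∀ n : ℕ, 1 ≤ n → ‖S n‖ ≤ C * ρ ^ n) (T0 : ℂ) (hT0 : (LL D a).eval T0 = 0) :
    1 ≤ ρ * ‖T0‖ := by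
  by_contra hcon
  push Not at hcon
  have hDpos : 0 < D := by
    rcases Nat.eq_zero_or_pos D with h | h
    · exact absurd (hD 0 (by omega)) (by rw [h0]; exact one_ne_zero)
    · exact h
  obtain ⟨r, hr1, hr2⟩ : ∃ r : ℝ, ‖T0‖ < r ∧ r < 1 / ρ := by
    apply _root_.exists_between
    rw [lt_div_iff₀ hρ]; linarith
  have hr0 : 0 ≤ r := (norm_nonneg _).trans hr1.le
  have hq1 : ρ * r < 1 := by
    rw [lt_div_iff₀ hρ] at hr2; linarith
  have hq0 : 0 ≤ ρ * r := by positivity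
  have hsum0 : Summable fun n : ℕ => C * (ρ * r) ^ (n + 1) := by
    have := (summable_geometric_of_lt_one hq0 hq1).mul_left (C * (ρ * r))
    refine this.congr fun n => ?_
    rw [pow_succ]; ring
  set K := ∑' n : ℕ, C * (ρ * r) ^ (n + 1) with hK
  have hterm : ∀ T : ℂ, ‖T‖ ≤ r → ∀ n : ℕ, ‖S (n + 1) * T ^ (n + 1)‖ ≤ C * (ρ * r) ^ (n + 1) := by
    intro T hT n
    rw [norm_mul, norm_pow, mul_pow, ← mul_assoc]
    have h1 := hS (n + 1) (by omega)
    have h2 : ‖T‖ ^ (n + 1) ≤ r ^ (n + 1) := pow_le_pow_left₀ (norm_nonneg _) hT _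
    exact mul_le_mul h1 h2 (by positivity) ((norm_nonneg _).trans h1)
  have hsm : ∀ T : ℂ, ‖T‖ ≤ r → Summable fun n : ℕ => ‖S (n + 1) * T ^ (n + 1)‖ := by
    intro T hT
    exact Summable.of_nonneg_of_le (fun _ => norm_nonneg _) (hterm T hT) hsum0
  have hfb : ∀ T : ℂ, ‖T‖ ≤ r → ‖∑' n : ℕ, S (n + 1) * T ^ (n + 1)‖ ≤ K := by
    intro T hT
    exact tsum_of_norm_bounded hsum0.hasSum (hterm T hT)
  have hid : ∀ T : ℂ, ‖T‖ ≤ r →
      (LL D a).eval T * (∑' n : ℕ, S (n + 1) * T ^ (n + 1)) =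
        T * (derivative (LL D a)).eval T := by
    intro T hT
    have hLs : Summable fun m : ℕ => ‖a m * T ^ m‖ := by
      apply summable_of_ne_finset_zero (s := range D)
      intro m hm
      rw [hD m (by simpa using hm)]; simp
    have hL : (LL D a).eval T = ∑' m : ℕ, a m * T ^ m := by
      rw [LL_eval, tsum_eq_sum]
      intro m hm
      rw [hD m (by simpa using hm)]; simp
    rw [hL, mul_comm, tsum_mul_tsum_eq_tsum_sum_range_of_summable_norm (hsm T hT) hLs]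
    have h1 : ∀ n : ℕ, ∑ k ∈ range (n + 1), S (k + 1) * T ^ (k + 1) * (a (n - k) * T ^ (n - k)) =
        ((n + 1 : ℕ) : ℂ) * a (n + 1) * T ^ (n + 1) := by
      intro n
      rw [hrec (n + 1) (by omega), sum_mul]
      refine sum_congr rfl fun k hk => ?_
      have hk' : k ≤ n := by simpa [Nat.lt_succ_iff] using hk
      have e1 : n + 1 - 1 - k = n - k := by omega
      have e2 : n + 1 = (k + 1) + (n - k) := by omega
      rw [e1]
      conv_rhs => rw [e2, pow_add]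
      ring
    simp_rw [h1]
    rw [LL_der]
    have h2 : ∑' n : ℕ, (n : ℂ) * a n * T ^ n = ∑ m ∈ range D, (m : ℂ) * a m * T ^ m := by
      apply tsum_eq_sum
      intro m hm
      rw [hD m (by simpa using hm)]; simp
    rw [← h2]
    have hs : Summable fun n : ℕ => (n : ℂ) * a n * T ^ n := by
      apply summable_of_ne_finset_zero (s := range D)
      intro m hm
      rw [hD m (by simpa using hm)]; simp
    rw [hs.tsum_eq_zero_add]
    simp
  -- the order of vanishing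
  have hL0 : LL D a ≠ 0 := by
    intro h
    have h1 : (LL D a).eval 0 = 1 := by
      rw [LL_eval, sum_eq_single_of_mem 0 (by simpa using hDpos)]
      · simp [h0]
      · intro m _ hm
        simp [hm]
    rw [h] at h1
    simp at h1
  have hT0' : T0 ≠ 0 := by
    intro h
    rw [h] at hT0
    have h1 : (LL D a).eval 0 = 1 := by
      rw [LL_eval, sum_eq_single_of_mem 0 (by simpa using hDpos)]
      · simp [h0]
      · intro m _ hm
        simp [hm]
    rw [hT0] at h1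
    exact zero_ne_one h1
  obtain ⟨M, hM, hMd⟩ := exists_eq_pow_rootMultiplicity_mul_and_not_dvd (LL D a) hL0 T0
  set k := rootMultiplicity T0 (LL D a) with hk
  have hkpos : 0 < k := (rootMultiplicity_pos hL0).2 hT0
  have hMT0 : M.eval T0 ≠ 0 := by
    intro h
    exact hMd (dvd_iff_isRoot.2 h)
  clear_value k
  obtain ⟨k', rfl⟩ : ∃ k', k = k' + 1 := ⟨k - 1, by omega⟩
  have hder : ∀ T : ℂ, (derivative (LL D a)).eval T =
      (T - T0) ^ k' * (((k' : ℂ) + 1) * M.eval T + (T - T0) * (derivative M).eval T) := by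
    intro T
    rw [hM]
    simp only [derivative_mul, derivative_X_sub_C_pow, eval_add, eval_mul, eval_pow, eval_sub,
      eval_X, eval_C, Nat.cast_add, Nat.cast_one, Nat.add_sub_cancel, map_add, map_natCast, map_one,
      eval_natCast, eval_one]
    ring
  have hkey : ∀ T : ℂ, ‖T‖ ≤ r → T ≠ T0 →
      ‖T * (((k' : ℂ) + 1) * M.eval T)‖ ≤
        ‖T - T0‖ * (‖M.eval T‖ * K + ‖T * (derivative M).eval T‖) := by
    intro T hT hne
    have h1 := hid T hT
    rw [hder T] at h1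
    have h2 : (LL D a).eval T = (T - T0) ^ (k' + 1) * M.eval T := by
      conv_lhs => rw [hM]
      simp
    rw [h2] at h1
    have hpne : (T - T0) ^ k' ≠ 0 := pow_ne_zero _ (sub_ne_zero.2 hne)
    have h3 : T * (((k' : ℂ) + 1) * M.eval T) =
        (T - T0) * (M.eval T * (∑' n : ℕ, S (n + 1) * T ^ (n + 1)) -
          T * (derivative M).eval T) := by
      apply mul_left_cancel₀ hpne
      linear_combination -h1
    rw [h3, norm_mul]
    refine mul_le_mul_of_nonneg_left ?_ (norm_nonneg _)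
    refine (norm_sub_le _ _).trans ?_
    refine add_le_add ?_ le_rfl
    rw [norm_mul]
    exact mul_le_mul_of_nonneg_left (hfb T hT) (norm_nonneg _)
  have hlim1 : Tendsto (fun T : ℂ => ‖T * (((k' : ℂ) + 1) * M.eval T)‖) (𝓝[≠] T0)
      (𝓝 ‖T0 * (((k' : ℂ) + 1) * M.eval T0)‖) := by
    apply tendsto_nhdsWithin_of_tendsto_nhds
    apply Continuous.tendsto
    fun_prop
  have hlim2 : Tendsto (fun T : ℂ => ‖T - T0‖ * (‖M.eval T‖ * K + ‖T * (derivative M).eval T‖))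
      (𝓝[≠] T0) (𝓝 (‖T0 - T0‖ * (‖M.eval T0‖ * K + ‖T0 * (derivative M).eval T0‖))) := by
    apply tendsto_nhdsWithin_of_tendsto_nhds
    have hc : Continuous fun T : ℂ =>
        ‖T - T0‖ * (‖M.eval T‖ * K + ‖T * (derivative M).eval T‖) := by fun_prop
    exact hc.tendsto T0
  have hev : ∀ᶠ T in 𝓝[≠] T0, ‖T * (((k' : ℂ) + 1) * M.eval T)‖ ≤
      ‖T - T0‖ * (‖M.eval T‖ * K + ‖T * (derivative M).eval T‖) := by
    have h1 : ∀ᶠ T in 𝓝[≠] T0, ‖T‖ ≤ r := by
      apply eventually_nhdsWithin_of_eventually_nhds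
      have : ∀ᶠ T in 𝓝 T0, ‖T‖ < r := (continuous_norm.tendsto T0).eventually_lt_const hr1
      exact this.mono fun _ h => h.le
    filter_upwards [h1, self_mem_nhdsWithin] with T hT hne
    exact hkey T hT hne
  have := le_of_tendsto_of_tendsto hlim1 hlim2 hev
  rw [sub_self, norm_zero, zero_mul] at this
  have h2 : T0 * (((k' : ℂ) + 1) * M.eval T0) ≠ 0 := by
    refine mul_ne_zero hT0' (mul_ne_zero ?_ hMT0)
    exact_mod_cast Nat.succ_ne_zero k'
  exact h2 (norm_le_zero_iff.1 this)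

end Ana

open Finset Polynomial in
theorem specAna : SpecAna := by
  intro D a S ρ C hρ h0 hD hrec hS
  have hDpos : 0 < D := by
    rcases Nat.eq_zero_or_pos D with h | h
    · exact absurd (hD 0 (by omega)) (by rw [h0]; exact one_ne_zero)
    · exact h
  rcases Nat.lt_or_ge D 2 with hD2 | hD2
  · rw [hD 1 (by omega), norm_zero]; positivity
  have hcoef : ∀ j : ℕ, j < D → (Ana.PP D a).coeff (D - 1 - j) = a j := by
    intro j hj
    unfold Ana.PP
    rw [finsetSum_coeff, sum_eq_single_of_mem j (by simpa using hj)]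
    · rw [coeff_monomial, if_pos rfl]
    · intro m hm hne
      rw [coeff_monomial, if_neg]
      simp only [mem_range] at hm
      omega
  have hdeg : (Ana.PP D a).natDegree ≤ D - 1 := by
    unfold Ana.PP
    apply natDegree_sum_le_of_forall_le
    intro m _
    exact (natDegree_monomial_le _).trans (by omega)
  have hlead : (Ana.PP D a).coeff (D - 1) = 1 := by
    have := hcoef 0 hDpos
    rw [Nat.sub_zero] at this
    rw [this, h0]
  have hmon : (Ana.PP D a).Monic := monic_of_natDegree_le_of_coeff_eq_one (D - 1) hdeg hlead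
  have hnd : (Ana.PP D a).natDegree = D - 1 := by
    apply le_antisymm hdeg
    apply le_natDegree_of_ne_zero
    rw [hlead]; exact one_ne_zero
  have hnext : (Ana.PP D a).nextCoeff = a 1 := by
    rw [nextCoeff_of_natDegree_pos (by omega), hnd, hcoef 1 (by omega)]
  have hspl : (Ana.PP D a).Splits := IsAlgClosed.splits _
  have hsum := hspl.nextCoeff_eq_neg_sum_roots_of_monic hmon
  rw [hnext] at hsum
  have hroot : ∀ w ∈ (Ana.PP D a).roots, ‖w‖ ≤ ρ := by
    intro w hw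
    have hw0 : (Ana.PP D a).eval w = 0 := (mem_roots'.1 hw).2
    rcases eq_or_ne w 0 with rfl | hne
    · rw [norm_zero]; exact hρ.le
    have hLw : (Ana.LL D a).eval w⁻¹ = 0 := by
      have h1 : w ^ (D - 1) * (Ana.LL D a).eval w⁻¹ = (Ana.PP D a).eval w := by
        rw [Ana.LL_eval, Ana.PP_eval, mul_sum]
        refine sum_congr rfl fun m hm => ?_
        simp only [mem_range] at hm
        have e : D - 1 = (D - 1 - m) + m := by omega
        conv_lhs => rw [e, pow_add]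
        rw [inv_pow]
        field_simp
      rw [hw0] at h1
      exact (mul_eq_zero.1 h1).resolve_left (pow_ne_zero _ hne)
    have := Ana.zero_large D a S ρ C hρ h0 hD hrec hS w⁻¹ hLw
    rw [norm_inv] at this
    have hwn : 0 < ‖w‖ := norm_pos_iff.2 hne
    rwa [← div_eq_mul_inv, le_div_iff₀ hwn, one_mul] at this
  rw [hsum, norm_neg]
  have hcard : Multiset.card (Ana.PP D a).roots ≤ D := by
    refine (card_roots' _).trans ?_
    omega
  have hb : ‖(Ana.PP D a).roots.sum‖ ≤ (Multiset.card (Ana.PP D a).roots : ℝ) * ρ := by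
    have h1 : ‖(Ana.PP D a).roots.sum‖ ≤ ((Ana.PP D a).roots.map fun w => ‖w‖).sum :=
      norm_multiset_sum_le _
    refine h1.trans ?_
    have h2 := Multiset.sum_le_card_nsmul ((Ana.PP D a).roots.map fun w => ‖w‖) ρ (by
      intro x hx
      obtain ⟨w, hw, rfl⟩ := Multiset.mem_map.1 hx
      exact hroot w hw)
    rwa [Multiset.card_map, nsmul_eq_mul] at h2
  refine hb.trans ?_
  have : (Multiset.card (Ana.PP D a).roots : ℝ) ≤ D := by exact_mod_cast hcard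
  exact mul_le_mul_of_nonneg_right this hρ.le

end MPcb27
end

section
/-!
# MP_cb27ba_nt, module BOHR: a proper progression in a Bohr set
-/
set_option autoImplicit false

namespace MPcb27

open Finset
open scoped Pointwise

namespace Bohr

/-- the cosine at an integer residue -/
theorem cos_val (N : ℕ) [NeZero N] (W : ℤ) :
    Real.cos (2 * Real.pi * (((W : ZMod N).val : ℕ) : ℝ) / N) =
      Real.cos (2 * Real.pi * (W : ℝ) / N) := by
  have hN : (N : ℝ) ≠ 0 := by exact_mod_cast NeZero.ne N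
  have h1 : (((W : ZMod N).val : ℕ) : ℤ) = W - N * (W / N) := by
    rw [ZMod.val_intCast]
    have := Int.emod_add_mul_ediv W N
    linarith
  have h2 : (((W : ZMod N).val : ℕ) : ℝ) = (W : ℝ) - N * ((W / N : ℤ) : ℝ) := by
    have := congrArg (fun z : ℤ => (z : ℝ)) h1
    push_cast at this
    exact this
  have h3 : 2 * Real.pi * (W : ℝ) / N = 2 * Real.pi * (((W : ZMod N).val : ℕ) : ℝ) / N +
      ((W / N : ℤ) : ℝ) * (2 * Real.pi) := by
    rw [h2]
    field_simp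
    ring
  rw [h3, Real.cos_add_int_mul_two_pi]

theorem cos_nonneg (N : ℕ) [NeZero N] (W : ℤ) (h : 4 * |(W : ℝ)| ≤ N) :
    0 ≤ Real.cos (2 * Real.pi * (((W : ZMod N).val : ℕ) : ℝ) / N) := by
  rw [cos_val]
  have hN : (0 : ℝ) < N := by exact_mod_cast Nat.pos_of_ne_zero (NeZero.ne N)
  have h1 := abs_le.1 (show |(W : ℝ)| ≤ N / 4 by linarith)
  refine Real.cos_nonneg_of_neg_pi_div_two_le_of_le ?_ ?_
  · rw [le_div_iff₀ hN]
    nlinarith [Real.pi_pos]
  · rw [div_le_iff₀ hN]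
    nlinarith [Real.pi_pos]

/-- an enumeration of a finite set -/
theorem exists_enum {α : Type} (k : ℕ) (a : α) (R : Finset α) (h : #R ≤ k) :
    ∃ r : Fin (k + 1) → α, r 0 = a ∧ ∀ x ∈ R, ∃ j, r j = x := by
  classical
  let e := R.equivFin
  refine ⟨Fin.cons a fun j => if hj : (j : ℕ) < #R then (e.symm ⟨j, hj⟩ : α) else a,
    Fin.cons_zero _ _, fun x hx => ?_⟩
  have h1 : ((e ⟨x, hx⟩ : Fin #R) : ℕ) < k := lt_of_lt_of_le (e ⟨x, hx⟩).2 h
  refine ⟨Fin.succ ⟨e ⟨x, hx⟩, h1⟩, ?_⟩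
  rw [Fin.cons_succ, dif_pos (e ⟨x, hx⟩).2]
  simp

/-- two integers congruent modulo `N` and at distance less than `N` are equal -/
theorem eq_of_cong (N : ℕ) (W W' : ℤ) (h : (W : ZMod N) = (W' : ZMod N))
    (h1 : 4 * |(W : ℝ)| ≤ N) (h2 : 4 * |(W' : ℝ)| ≤ N) (hN : 0 < N) : W = W' := by
  have h3 : (N : ℤ) ∣ W - W' := by
    rw [← ZMod.intCast_zmod_eq_zero_iff_dvd]
    push_cast
    rw [h, sub_self]
  have h4 : |W - W'| < N := by
    have h5 : (|W - W'| : ℝ) < N := by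
      have h6 := abs_sub (W : ℝ) (W' : ℝ)
      have h7 : (0 : ℝ) < N := by exact_mod_cast hN
      linarith
    exact_mod_cast h5
  have := Int.eq_zero_of_abs_lt_dvd h3 h4
  omega

end Bohr

theorem specBohr (hG : SpecGB) (hD : SpecDet) : SpecBohr := by
  intro k
  obtain ⟨κ, hκ, hG⟩ := hG (k + 1)
  refine ⟨(4 * ((k : ℝ) + 1) * κ) ^ (k + 1), ?_⟩
  intro N _ R hR
  have hNpos : 0 < N := (Fact.out : N.Prime).pos
  have hNR : (0 : ℝ) < N := by exact_mod_cast hNpos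
  obtain ⟨r, hr0, hrR⟩ := Bohr.exists_enum k (1 : ZMod N) R hR
  -- the lattice
  set V0 : Matrix (Fin (k + 1)) (Fin (k + 1)) ℝ := fun i j =>
    if i = 0 then ((r j).val : ℝ) else if i = j then (N : ℝ) else 0 with hV0
  have h00 : V0 0 0 = 1 := by
    rw [hV0]
    simp only [if_true]
    rw [hr0, ZMod.val_one]
    simp
  have hdet0 : V0.det = (N : ℝ) ^ k := by
    rw [Matrix.det_of_isUpperTriangular]
    · rw [Fin.prod_univ_succ, h00, one_mul]
      have : ∀ i : Fin k, V0 i.succ i.succ = (N : ℝ) := by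
        intro i
        rw [hV0]
        simp [Fin.succ_ne_zero]
      simp only [this]
      rw [Finset.prod_const, Finset.card_univ, Fintype.card_fin]
    · intro i j hij
      have hij' : j < i := hij
      rw [hV0]
      have h1 : i ≠ 0 := fun h => by
        subst h
        exact absurd hij' (Fin.not_lt_zero j)
      have h2 : i ≠ j := ne_of_gt hij'
      simp only [if_neg h1, if_neg h2]
  have hdet0ne : V0.det ≠ 0 := by
    rw [hdet0]
    positivity
  let v : Fin (k + 1) → EuclideanSpace ℝ (Fin (k + 1)) := fun i => WithLp.toLp 2 (V0 i)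
  have hv : LinearIndependent ℝ v := by
    have h1 : LinearIndependent ℝ V0 := Matrix.linearIndependent_rows_of_det_ne_zero hdet0ne
    have h2 := h1.map' (WithLp.linearEquiv 2 ℝ (Fin (k + 1) → ℝ)).symm.toLinearMap
      (LinearEquiv.ker _)
    exact h2
  obtain ⟨b, hb, hspan, hgood⟩ := hG (EuclideanSpace ℝ (Fin (k + 1))) v hv
  -- integer coordinates
  have hbM : ∀ i, ∃ c : Fin (k + 1) → ℤ, ∑ j, c j • v j = b i := by
    intro i
    rw [← Submodule.mem_span_range_iff_exists_fun ℤ, ← hspan]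
    exact Submodule.subset_span ⟨i, rfl⟩
  choose M hM using hbM
  have hvM : ∀ i, ∃ c : Fin (k + 1) → ℤ, ∑ j, c j • b j = v i := by
    intro i
    rw [← Submodule.mem_span_range_iff_exists_fun ℤ, hspan]
    exact Submodule.subset_span ⟨i, rfl⟩
  choose M' hM' using hvM
  set V : Matrix (Fin (k + 1)) (Fin (k + 1)) ℝ := fun i j => b i j with hV
  have hdetV : |V.det| ≤ (N : ℝ) ^ k := by
    have h1 : V0 = (Matrix.of M').map (Int.cast : ℤ → ℝ) * V := by
      ext i j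
      rw [Matrix.mul_apply]
      have h2 := congrArg (fun x : EuclideanSpace ℝ (Fin (k + 1)) => x j) (hM' i)
      simp only [WithLp.ofLp_sum, WithLp.ofLp_smul, Finset.sum_apply, zsmul_eq_mul] at h2
      rw [show V0 i j = (v i) j from rfl, ← h2]
      rfl
    have h2 : V0.det = ((Matrix.of M').det : ℝ) * V.det := by
      rw [h1, Matrix.det_mul]
      congr 1
      exact (RingHom.map_det (Int.castRingHom ℝ) (Matrix.of M')).symm
    have h3 : (Matrix.of M').det ≠ 0 := by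
      intro h0
      rw [h0] at h2
      simp at h2
      exact hdet0ne h2
    have h4 : (1 : ℝ) ≤ |((Matrix.of M').det : ℝ)| := by
      have := Int.one_le_abs h3
      exact_mod_cast this
    rw [← hdet0, ← abs_of_pos (show 0 < V0.det by rw [hdet0]; positivity), h2, abs_mul]
    exact le_mul_of_one_le_left (abs_nonneg _) h4
  -- norms
  have hnorm : ∀ x : EuclideanSpace ℝ (Fin (k + 1)), ‖x‖ = wn (fun _ => 1) (fun i => x i) := by
    intro x
    rw [EuclideanSpace.norm_eq]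
    unfold wn
    congr 1
    refine Finset.sum_congr rfl fun i _ => ?_
    rw [Real.norm_eq_abs, sq_abs, div_one]
  have hprod : ∏ i, ‖b i‖ ≤ κ ^ (k + 1) * (N : ℝ) ^ k := by
    have h1 := (hD κ hκ (Fin (k + 1)) V).2 (by
      intro x
      have h2 := hgood x
      rw [hnorm] at h2
      have h3 : (fun i => (∑ j, x j • b j : EuclideanSpace ℝ (Fin (k + 1))) i) =
          fun i => ∑ j, x j * V j i := by
        funext i
        simp only [WithLp.ofLp_sum, WithLp.ofLp_smul, Finset.sum_apply, Pi.smul_apply,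
          smul_eq_mul]
        rfl
      rw [h3] at h2
      simp only [hnorm] at h2
      exact h2)
    rw [Fintype.card_fin] at h1
    have h2 : ∏ i, ‖b i‖ = ∏ j, wn (fun _ => 1) (V j) := by
      refine Finset.prod_congr rfl fun j _ => ?_
      rw [hnorm]
    rw [h2]
    exact h1.trans (mul_le_mul_of_nonneg_left hdetV (by positivity))
  have hbpos : ∀ i, 0 < ‖b i‖ := fun i => norm_pos_iff.2 (hb.ne_zero i)
  -- coordinates of the basis
  set B : Fin (k + 1) → Fin (k + 1) → ℤ := fun i l =>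
    M i 0 * ((r l).val : ℤ) + (if l = 0 then 0 else M i l * N) with hBdef
  have hBV : ∀ i l, (b i) l = ((B i l : ℤ) : ℝ) := by
    intro i l
    have h2 := congrArg (fun x : EuclideanSpace ℝ (Fin (k + 1)) => x l) (hM i)
    simp only [WithLp.ofLp_sum, WithLp.ofLp_smul, Finset.sum_apply, Pi.mul_apply,
      Pi.intCast_apply, zsmul_eq_mul] at h2
    rw [← h2, Fin.sum_univ_succ]
    have h3 : (v 0) l = ((r l).val : ℝ) := by
      show V0 0 l = _
      rw [hV0]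
      simp
    have h4 : ∀ j : Fin k, (v j.succ) l = if j.succ = l then (N : ℝ) else 0 := by
      intro j
      show V0 j.succ l = _
      rw [hV0]
      simp [Fin.succ_ne_zero]
    rw [h3]
    simp only [h4]
    rw [hBdef]
    push_cast
    congr 1
    rcases Fin.eq_zero_or_eq_succ l with rfl | ⟨l', rfl⟩
    · rw [if_pos rfl]
      refine Finset.sum_eq_zero fun j _ => ?_
      rw [if_neg (Fin.succ_ne_zero j), mul_zero]
    · rw [if_neg (Fin.succ_ne_zero l')]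
      simp only [Fin.succ_inj, mul_ite, mul_zero]
      rw [Finset.sum_ite_eq' Finset.univ l', if_pos (Finset.mem_univ _)]
  have hBZ : ∀ i l, ((B i l : ℤ) : ZMod N) = (M i 0 : ZMod N) * r l := by
    intro i l
    rw [hBdef]
    push_cast
    rw [ZMod.natCast_val, ZMod.cast_id', id_eq]
    split_ifs
    · rw [add_zero]
    · rw [ZMod.natCast_self, mul_zero, add_zero]
  set β : Fin (k + 1) → ZMod N := fun i => (M i 0 : ZMod N) with hβ
  set H : Fin (k + 1) → ℕ := fun i => ⌊(N : ℝ) / (4 * ((k : ℝ) + 1) * ‖b i‖)⌋₊ with hH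
  have hHle : ∀ i, (H i : ℝ) * ‖b i‖ ≤ N / (4 * ((k : ℝ) + 1)) := by
    intro i
    have h1 : (H i : ℝ) ≤ (N : ℝ) / (4 * ((k : ℝ) + 1) * ‖b i‖) :=
      Nat.floor_le (by have := hbpos i; positivity)
    rw [← div_div, le_div_iff₀ (hbpos i)] at h1
    exact h1
  -- the main estimate
  set W : (Fin (k + 1) → ℤ) → Fin (k + 1) → ℤ := fun n l => ∑ i, n i * B i l with hW
  have hWZ : ∀ n l, ((W n l : ℤ) : ZMod N) = r l * lin β n := by
    intro n l
    rw [hW]
    push_cast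
    unfold lin
    rw [Finset.mul_sum]
    refine Finset.sum_congr rfl fun i _ => ?_
    rw [hBZ, hβ]
    ring
  have hWb : ∀ n l, ((W n l : ℤ) : ℝ) = (∑ i, (n i : ℝ) • b i : EuclideanSpace ℝ (Fin (k + 1))) l := by
    intro n l
    simp only [WithLp.ofLp_sum, WithLp.ofLp_smul, Finset.sum_apply, Pi.smul_apply,
      smul_eq_mul]
    rw [hW]
    push_cast
    exact Finset.sum_congr rfl fun i _ => by rw [hBV]
  have hWle : ∀ n : Fin (k + 1) → ℤ, (∀ i, |n i| ≤ (H i : ℤ)) →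
      ∀ l, 4 * |((W n l : ℤ) : ℝ)| ≤ N := by
    intro n hn l
    have h1 : |((W n l : ℤ) : ℝ)| ≤ ‖(∑ i, (n i : ℝ) • b i : EuclideanSpace ℝ (Fin (k + 1)))‖ := by
      rw [hWb, ← Real.norm_eq_abs]
      exact PiLp.norm_apply_le _ _
    have h2 : ‖(∑ i, (n i : ℝ) • b i : EuclideanSpace ℝ (Fin (k + 1)))‖ ≤
        ∑ _i : Fin (k + 1), (N : ℝ) / (4 * ((k : ℝ) + 1)) := by
      refine norm_sum_le_of_le _ fun i _ => ?_
      rw [norm_smul, Real.norm_eq_abs]
      refine le_trans ?_ (hHle i)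
      refine mul_le_mul_of_nonneg_right ?_ (norm_nonneg _)
      have := hn i
      exact_mod_cast this
    rw [Finset.sum_const, Finset.card_univ, Fintype.card_fin, nsmul_eq_mul] at h2
    have h3 : (((k + 1 : ℕ) : ℝ)) * ((N : ℝ) / (4 * ((k : ℝ) + 1))) = N / 4 := by
      push_cast
      field_simp
    rw [h3] at h2
    linarith
  refine ⟨β, H, ?_, ?_, ?_⟩
  · intro n hn x hx
    obtain ⟨j, rfl⟩ := hrR x hx
    rw [← hWZ]
    exact Bohr.cos_nonneg N _ (hWle n hn j)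
  · intro n n' hn hn' he
    have h1 : ∀ l, W n l = W n' l := by
      intro l
      refine Bohr.eq_of_cong N _ _ ?_ (hWle n hn l) (hWle n' hn' l) hNpos
      rw [hWZ, hWZ, he]
    have h2 : ∑ i, ((n i : ℝ) - (n' i : ℝ)) • b i = 0 := by
      simp only [sub_smul]
      rw [Finset.sum_sub_distrib, sub_eq_zero]
      ext l
      rw [← hWb, ← hWb, h1]
    have h3 := Fintype.linearIndependent_iff.1 hb _ h2
    funext i
    have h4 := h3 i
    rw [sub_eq_zero] at h4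
    exact_mod_cast h4
  · have h1 : ∀ i, (N : ℝ) / (4 * ((k : ℝ) + 1) * ‖b i‖) ≤ 2 * (H i : ℝ) + 1 := by
      intro i
      have h2 := Nat.lt_floor_add_one ((N : ℝ) / (4 * ((k : ℝ) + 1) * ‖b i‖))
      have h3 : (0 : ℝ) ≤ H i := by positivity
      have h4 : (⌊(N : ℝ) / (4 * ((k : ℝ) + 1) * ‖b i‖)⌋₊ : ℝ) = H i := rfl
      rw [h4] at h2
      by_cases h5 : H i = 0
      · rw [h5] at h2 ⊢
        simp only [Nat.cast_zero, zero_add, mul_zero] at h2 ⊢
        exact h2.le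
      · have h6 : (1 : ℝ) ≤ H i := by
          have : 1 ≤ H i := Nat.one_le_iff_ne_zero.2 h5
          exact_mod_cast this
        linarith
    have h2 : ∏ i, (N : ℝ) / (4 * ((k : ℝ) + 1) * ‖b i‖) ≤ ∏ i, (2 * (H i : ℝ) + 1) := by
      refine Finset.prod_le_prod (fun i _ => ?_) fun i _ => h1 i
      have := hbpos i
      positivity
    have h3 : ∏ i, (N : ℝ) / (4 * ((k : ℝ) + 1) * ‖b i‖) =
        (N : ℝ) ^ (k + 1) / ((4 * ((k : ℝ) + 1)) ^ (k + 1) * ∏ i, ‖b i‖) := by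
      rw [Finset.prod_div_distrib, Finset.prod_mul_distrib, Finset.prod_const, Finset.prod_const,
        Finset.card_univ, Fintype.card_fin]
    rw [h3] at h2
    have hPpos : 0 < ∏ i, ‖b i‖ := Finset.prod_pos fun i _ => hbpos i
    have h4 : (N : ℝ) ≤ (4 * ((k : ℝ) + 1) * κ) ^ (k + 1) *
        ((N : ℝ) ^ (k + 1) / ((4 * ((k : ℝ) + 1)) ^ (k + 1) * ∏ i, ‖b i‖)) := by
      rw [mul_div_assoc', le_div_iff₀ (by positivity)]
      calc (N : ℝ) * ((4 * ((k : ℝ) + 1)) ^ (k + 1) * ∏ i, ‖b i‖)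
          ≤ (N : ℝ) * ((4 * ((k : ℝ) + 1)) ^ (k + 1) * (κ ^ (k + 1) * (N : ℝ) ^ k)) := by gcongr
        _ = (4 * ((k : ℝ) + 1) * κ) ^ (k + 1) * (N : ℝ) ^ (k + 1) := by
          rw [mul_pow (4 * ((k : ℝ) + 1)) κ]
          ring
    exact h4.trans (mul_le_mul_of_nonneg_left h2 (by positivity))

end MPcb27
end

section
/-!
# MP_cb27ba_nt, project BD: basic lemmas on `wn`, `lin`, `ball`, `cnt`, `rk`
-/
set_option autoImplicit false

namespace MPcb27.Basic

open Finset MPcb27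

variable {ι : Type} [Fintype ι] {p : ℕ}

/-! ### `lin` -/

lemma lin_zero (a : ι → ZMod p) : lin a 0 = 0 := by simp [lin]

lemma lin_add (a : ι → ZMod p) (x y : ι → ℤ) : lin a (x + y) = lin a x + lin a y := by
  simp [lin, add_mul, sum_add_distrib]

lemma lin_sub (a : ι → ZMod p) (x y : ι → ℤ) : lin a (x - y) = lin a x - lin a y := by
  simp [lin, sub_mul, sum_sub_distrib]

lemma lin_neg (a : ι → ZMod p) (x : ι → ℤ) : lin a (-x) = -lin a x := by
  simp [lin]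

lemma lin_smul (a : ι → ZMod p) (k : ℤ) (x : ι → ℤ) : lin a (k • x) = (k : ZMod p) * lin a x := by
  simp [lin, mul_sum, mul_assoc]

lemma lin_sum {κ : Type} (a : ι → ZMod p) (s : Finset κ) (f : κ → ι → ℤ) :
    lin a (∑ j ∈ s, f j) = ∑ j ∈ s, lin a (f j) := by
  classical
  induction s using Finset.induction_on with
  | empty => simp [lin_zero]
  | insert j s hj ih => rw [sum_insert hj, sum_insert hj, lin_add, ih]

lemma lin_comb {κ : Type} [Fintype κ] (a : ι → ZMod p) (m : κ → ℤ) (f : κ → ι → ℤ) :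
    lin a (fun i => ∑ j, m j * f j i) = ∑ j, (m j : ZMod p) * lin a (f j) := by
  have : (fun i => ∑ j, m j * f j i) = ∑ j, m j • f j := by
    ext i; simp
  rw [this, lin_sum]
  exact sum_congr rfl fun j _ => lin_smul a _ _

lemma lin_single [DecidableEq ι] (a : ι → ZMod p) (i : ι) (k : ℤ) :
    lin a (Pi.single i k) = (k : ZMod p) * a i := by
  unfold lin
  rw [sum_eq_single i]
  · simp
  · intro j _ hj
    simp [Pi.single_eq_of_ne hj]
  · intro h
    exact absurd (mem_univ i) h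

lemma lin_cl (a : ι → ZMod p) (l : ZMod p) (w : ι ⊕ ι → ℤ) :
    lin (cl a l) w = lin a (fun i => w (Sum.inl i)) - l * lin a (fun i => w (Sum.inr i)) := by
  simp only [lin, cl, Fintype.sum_sum_type, Sum.elim_inl, Sum.elim_inr, mul_sum]
  rw [sub_eq_add_neg, ← sum_neg_distrib]
  congr 1
  exact sum_congr rfl fun i _ => by ring

omit [Fintype ι] in
lemma cl_ne_zero {a : ι → ZMod p} (l : ZMod p) (ha : a ≠ 0) : cl a l ≠ 0 := by
  intro h
  apply ha
  ext i
  have := congrFun h (Sum.inl i)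
  simpa [cl] using this

/-! ### `wn` -/

lemma wn_nonneg (N : ι → ℝ) (x : ι → ℝ) : 0 ≤ wn N x := Real.sqrt_nonneg _

lemma wn_sq (N : ι → ℝ) (x : ι → ℝ) : wn N x ^ 2 = ∑ i, (x i / N i) ^ 2 :=
  Real.sq_sqrt (sum_nonneg fun _ _ => sq_nonneg _)

/-- `wn` is a Euclidean norm -/
lemma wn_eq_norm (N : ι → ℝ) (x : ι → ℝ) :
    wn N x = ‖(WithLp.toLp 2 (fun i => x i / N i) : EuclideanSpace ℝ ι)‖ := by
  rw [EuclideanSpace.norm_eq]
  simp only [wn, Real.norm_eq_abs, sq_abs]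

lemma wn_zero (N : ι → ℝ) : wn N 0 = 0 := by simp [wn]

lemma wn_zero' (N : ι → ℝ) : wn N (fun _ => 0) = 0 := wn_zero N

lemma wn_smul (N : ι → ℝ) (c : ℝ) (x : ι → ℝ) : wn N (fun i => c * x i) = |c| * wn N x := by
  rw [wn_eq_norm, wn_eq_norm]
  rw [show (WithLp.toLp 2 (fun i => c * x i / N i) : EuclideanSpace ℝ ι) =
    c • (WithLp.toLp 2 (fun i => x i / N i) : EuclideanSpace ℝ ι) from ?_, norm_smul,
    Real.norm_eq_abs]
  ext i
  simp [mul_div_assoc]

lemma wn_add_le (N : ι → ℝ) (x y : ι → ℝ) : wn N (fun i => x i + y i) ≤ wn N x + wn N y := by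
  rw [wn_eq_norm, wn_eq_norm, wn_eq_norm]
  rw [show (WithLp.toLp 2 (fun i => (x i + y i) / N i) : EuclideanSpace ℝ ι) =
    (WithLp.toLp 2 (fun i => x i / N i) : EuclideanSpace ℝ ι) +
    (WithLp.toLp 2 (fun i => y i / N i) : EuclideanSpace ℝ ι) from ?_]
  · exact norm_add_le _ _
  · ext i
    simp [add_div]

lemma wn_sum_le {κ : Type} (s : Finset κ) (N : ι → ℝ) (f : κ → ι → ℝ) :
    wn N (fun i => ∑ j ∈ s, f j i) ≤ ∑ j ∈ s, wn N (f j) := by
  classical
  induction s using Finset.induction_on with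
  | empty => simp [wn_zero']
  | insert j s hj ih =>
    rw [sum_insert hj]
    refine le_trans (le_of_eq ?_) (le_trans (wn_add_le N (f j) (fun i => ∑ k ∈ s, f k i))
      (by linarith))
    congr 1
    ext i
    rw [sum_insert hj]

lemma wn_comb_le {κ : Type} [Fintype κ] (N : ι → ℝ) (x : κ → ℝ) (f : κ → ι → ℝ) :
    wn N (fun i => ∑ j, x j * f j i) ≤ ∑ j, |x j| * wn N (f j) := by
  refine (wn_sum_le univ N (fun j i => x j * f j i)).trans (le_of_eq ?_)
  exact sum_congr rfl fun j _ => wn_smul N _ _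

lemma wn_neg (N : ι → ℝ) (x : ι → ℝ) : wn N (fun i => -x i) = wn N x := by
  have := wn_smul N (-1) x
  simpa using this

/-- coordinates are controlled by `wn` -/
lemma abs_le_wn {N : ι → ℝ} (hN : ∀ i, 0 < N i) (x : ι → ℝ) (i : ι) : |x i| ≤ N i * wn N x := by
  have h1 : (x i / N i) ^ 2 ≤ wn N x ^ 2 := by
    rw [wn_sq]
    exact single_le_sum (f := fun i => (x i / N i) ^ 2) (fun _ _ => sq_nonneg _) (mem_univ i)
  have h2 : |x i / N i| ≤ wn N x := by
    have := Real.sqrt_le_sqrt h1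
    rwa [Real.sqrt_sq_eq_abs, Real.sqrt_sq (wn_nonneg N x)] at this
  rw [abs_div, abs_of_pos (hN i), div_le_iff₀ (hN i)] at h2
  linarith

lemma wn_eq_zero {N : ι → ℝ} (hN : ∀ i, 0 < N i) {x : ι → ℝ} (h : wn N x = 0) : x = 0 := by
  ext i
  have := abs_le_wn hN x i
  rw [h, mul_zero] at this
  exact abs_nonpos_iff.mp this

lemma wn_pos {N : ι → ℝ} (hN : ∀ i, 0 < N i) {x : ι → ℝ} (h : x ≠ 0) : 0 < wn N x :=
  lt_of_le_of_ne (wn_nonneg N x) fun h0 => h (wn_eq_zero hN h0.symm)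

/-- if all `|x_i| ≤ c N_i` then `wn N x ≤ sqrt(card) * c` -/
lemma wn_le_sqrt {N : ι → ℝ} (hN : ∀ i, 0 < N i) {x : ι → ℝ} {c : ℝ} (hc : 0 ≤ c)
    (h : ∀ i, |x i| ≤ c * N i) : wn N x ≤ Real.sqrt (Fintype.card ι) * c := by
  have h1 : ∑ i, (x i / N i) ^ 2 ≤ Fintype.card ι * c ^ 2 := by
    have : ∀ i ∈ (univ : Finset ι), (x i / N i) ^ 2 ≤ c ^ 2 := by
      intro i _
      rw [← sq_abs]
      refine pow_le_pow_left₀ (abs_nonneg _) ?_ 2
      rw [abs_div, abs_of_pos (hN i), div_le_iff₀ (hN i)]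
      exact h i
    refine (sum_le_sum this).trans (le_of_eq ?_)
    simp
  refine (Real.sqrt_le_sqrt h1).trans (le_of_eq ?_)
  rw [Real.sqrt_mul (by positivity), Real.sqrt_sq hc]

lemma wn_le_sqrt_one {N : ι → ℝ} (hN : ∀ i, 0 < N i) {x : ι → ℝ}
    (h : ∀ i, Real.sqrt (Fintype.card ι) * |x i| ≤ N i) : wn N x ≤ 1 := by
  rcases isEmpty_or_nonempty ι with he | hne
  · rw [show x = 0 from Subsingleton.elim _ _, wn_zero]; norm_num
  · have hpos : 0 < Real.sqrt (Fintype.card ι) := Real.sqrt_pos.mpr (by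
      exact_mod_cast Fintype.card_pos)
    have := wn_le_sqrt hN (x := x) (c := 1 / Real.sqrt (Fintype.card ι)) (by positivity)
      (fun i => by
        rw [div_mul_eq_mul_div, one_mul, le_div_iff₀ hpos, mul_comm]
        exact h i)
    rwa [mul_one_div_cancel hpos.ne'] at this

/-- rescaling the weights -/
lemma wn_scale (N : ι → ℝ) {t : ℝ} (ht : 0 < t) (x : ι → ℝ) :
    wn (fun i => N i * t) x = wn N x / t := by
  have := wn_smul N (1 / t) x
  rw [abs_of_pos (by positivity), one_div_mul_eq_div] at this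
  rw [← this]
  unfold wn
  congr 1
  refine sum_congr rfl fun i _ => ?_
  congr 1
  show x i / (N i * t) = 1 / t * x i / N i
  rw [one_div_mul_eq_div, div_div, mul_comm t]

lemma wn_mono {N N' : ι → ℝ} (hN : ∀ i, 0 < N i) (h : ∀ i, N i ≤ N' i) (x : ι → ℝ) :
    wn N' x ≤ wn N x := by
  refine Real.sqrt_le_sqrt (sum_le_sum fun i _ => ?_)
  rw [div_pow, div_pow]
  have := hN i
  have := h i
  gcongr

lemma wn_single [DecidableEq ι] {N : ι → ℝ} (hN : ∀ i, 0 < N i) (i : ι) (c : ℝ) :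
    wn N (Pi.single i c) = |c| / N i := by
  unfold wn
  rw [sum_eq_single i]
  · simp [Real.sqrt_sq_eq_abs, abs_div, abs_of_pos (hN i)]
  · intro j _ hj
    simp [Pi.single_eq_of_ne hj]
  · intro h
    exact absurd (mem_univ i) h

/-- pairing of `wn N` with the dual norm -/
lemma abs_inner_le {N : ι → ℝ} (hN : ∀ i, 0 < N i) (x y : ι → ℝ) :
    |∑ i, x i * y i| ≤ wn N x * Real.sqrt (∑ i, (N i * y i) ^ 2) := by
  have h := abs_real_inner_le_norm (WithLp.toLp 2 (fun i => x i / N i) : EuclideanSpace ℝ ι)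
    (WithLp.toLp 2 (fun i => N i * y i) : EuclideanSpace ℝ ι)
  rw [← wn_eq_norm, EuclideanSpace.norm_eq] at h
  simp only [Real.norm_eq_abs, sq_abs] at h
  refine le_trans (le_of_eq ?_) h
  congr 1
  simp only [PiLp.inner_apply, RCLike.inner_apply, conj_trivial]
  refine sum_congr rfl fun i _ => ?_
  have := (hN i).ne'
  field_simp

/-! ### `rv` -/

omit [Fintype ι] in
lemma rv_injective : Function.Injective (rv : (ι → ℤ) → ι → ℝ) := by
  intro x y h
  ext i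
  have := congrFun h i
  simpa [rv] using this

omit [Fintype ι] in
lemma rv_zero : rv (0 : ι → ℤ) = 0 := by ext i; simp [rv]

omit [Fintype ι] in
lemma rv_ne_zero {x : ι → ℤ} (h : x ≠ 0) : rv x ≠ 0 := fun h0 =>
  h (rv_injective (by rw [h0, rv_zero]))

omit [Fintype ι] in
lemma rv_single [DecidableEq ι] (i : ι) (k : ℤ) : rv (Pi.single i k) = Pi.single i (k : ℝ) := by
  ext j
  by_cases h : j = i
  · subst h; simp [rv]
  · simp [rv, Pi.single_eq_of_ne h]

lemma wn_sum_elim {κ : Type} [Fintype κ] (N : ι → ℝ) (M : κ → ℝ) (w : ι ⊕ κ → ℝ) :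
    wn (Sum.elim N M) w ^ 2 = wn N (fun i => w (Sum.inl i)) ^ 2 + wn M (fun i => w (Sum.inr i)) ^ 2 := by
  rw [wn_sq, wn_sq, wn_sq, Fintype.sum_sum_type]
  simp

lemma wn_inl_le (N : ι → ℝ) (w : ι ⊕ ι → ℝ) : wn N (fun i => w (Sum.inl i)) ≤ wn (N2 N) w := by
  have := wn_sum_elim N N w
  refine le_of_sq_le_sq ?_ (wn_nonneg _ _)
  rw [N2, this]
  nlinarith [sq_nonneg (wn N (fun i => w (Sum.inr i)))]
where
  le_of_sq_le_sq {x y : ℝ} (h : x ^ 2 ≤ y ^ 2) (hy : 0 ≤ y) : x ≤ y := by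
    nlinarith [sq_nonneg (x - y), abs_le_of_sq_le_sq' h hy]

lemma wn_inr_le (N : ι → ℝ) (w : ι ⊕ ι → ℝ) : wn N (fun i => w (Sum.inr i)) ≤ wn (N2 N) w := by
  have := wn_sum_elim N N w
  have h : wn N (fun i => w (Sum.inr i)) ^ 2 ≤ wn (N2 N) w ^ 2 := by
    rw [N2, this]
    nlinarith [sq_nonneg (wn N (fun i => w (Sum.inl i)))]
  exact (abs_le_of_sq_le_sq' h (wn_nonneg _ _)).2

omit [Fintype ι] in
lemma N2_pos {N : ι → ℝ} (hN : ∀ i, 0 < N i) : ∀ i, 0 < N2 N i := by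
  rintro (i | i) <;> simp [N2, hN]

lemma N2_prod (N : ι → ℝ) : ∏ i, N2 N i = (∏ i, N i) ^ 2 := by
  rw [Fintype.prod_sum_type, sq]
  simp [N2]

/-! ### balls -/

lemma finite_wn_le [DecidableEq ι] {N : ι → ℝ} (hN : ∀ i, 0 < N i) (t : ℝ) :
    {w : ι → ℤ | wn N (rv w) ≤ t}.Finite := by
  refine Set.Finite.subset (Set.finite_Icc (fun i => -⌈N i * |t|⌉) (fun i => ⌈N i * |t|⌉)) ?_
  intro w hw
  replace hw : wn N (rv w) ≤ t := hw
  have h : ∀ i, |w i| ≤ ⌈N i * |t|⌉ := by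
    intro i
    have h1 := abs_le_wn hN (rv w) i
    have h2 : |(w i : ℝ)| ≤ N i * |t| :=
      h1.trans (mul_le_mul_of_nonneg_left (hw.trans (le_abs_self t)) (hN i).le)
    have h3 : ((|w i| : ℤ) : ℝ) ≤ ⌈N i * |t|⌉ := by
      push_cast
      exact h2.trans (Int.le_ceil _)
    exact_mod_cast h3
  exact ⟨fun i => (abs_le.mp (h i)).1, fun i => (abs_le.mp (h i)).2⟩

lemma ball_finite [DecidableEq ι] (c : ι → ZMod p) {N : ι → ℝ} (hN : ∀ i, 0 < N i) (t : ℝ) :
    (ball c N t).Finite :=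
  (finite_wn_le hN t).subset fun _ hw => hw.2

lemma ball_mono (c : ι → ZMod p) (N : ι → ℝ) {t t' : ℝ} (h : t ≤ t') : ball c N t ⊆ ball c N t' :=
  fun _ hw => ⟨hw.1, hw.2.trans h⟩

lemma zero_mem_ball (c : ι → ZMod p) (N : ι → ℝ) {t : ℝ} (h : 0 ≤ t) : (0 : ι → ℤ) ∈ ball c N t :=
  ⟨lin_zero c, by rw [rv_zero, wn_zero]; exact h⟩

lemma one_le_cnt [DecidableEq ι] (c : ι → ZMod p) {N : ι → ℝ} (hN : ∀ i, 0 < N i) {t : ℝ}
    (h : 0 ≤ t) : 1 ≤ cnt c N t := by
  unfold cnt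
  have : 0 < (ball c N t).ncard :=
    (Set.ncard_pos (ball_finite c hN t)).mpr ⟨0, zero_mem_ball c N h⟩
  exact_mod_cast this

lemma one_lt_cnt_iff [DecidableEq ι] (c : ι → ZMod p) {N : ι → ℝ} (hN : ∀ i, 0 < N i) {t : ℝ}
    (h : 0 ≤ t) : 1 < cnt c N t ↔ ∃ w ∈ ball c N t, w ≠ 0 := by
  unfold cnt
  have h1 : (1 : ℝ) < ((ball c N t).ncard : ℝ) ↔ 1 < (ball c N t).ncard := by
    exact_mod_cast Iff.rfl
  rw [h1, Set.one_lt_ncard (ball_finite c hN t)]
  constructor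
  · rintro ⟨a, ha, b, hb, hab⟩
    by_cases ha0 : a = 0
    · exact ⟨b, hb, fun hb0 => hab (ha0.trans hb0.symm)⟩
    · exact ⟨a, ha, ha0⟩
  · rintro ⟨w, hw, hw0⟩
    exact ⟨w, hw, 0, zero_mem_ball c N h, hw0⟩

lemma cnt_mono [DecidableEq ι] (c : ι → ZMod p) {N : ι → ℝ} (hN : ∀ i, 0 < N i) {t t' : ℝ}
    (h : t ≤ t') : cnt c N t ≤ cnt c N t' := by
  unfold cnt
  exact_mod_cast Set.ncard_le_ncard (ball_mono c N h) (ball_finite c hN t')

lemma rk_mono (c : ι → ZMod p) (N : ι → ℝ) {t t' : ℝ} (h : t ≤ t') : rk c N t ≤ rk c N t' :=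
  Submodule.finrank_mono (Submodule.span_mono (Set.image_mono (ball_mono c N h)))

lemma rk_le (c : ι → ZMod p) (N : ι → ℝ) (t : ℝ) : rk c N t ≤ Fintype.card ι := by
  have := Submodule.finrank_le (Submodule.span ℝ (rv '' ball c N t))
  rwa [Module.finrank_fintype_fun_eq_card] at this

lemma rk_cl_le (a : ι → ZMod p) (l : ZMod p) (N : ι → ℝ) (t : ℝ) :
    rk (cl a l) (N2 N) t ≤ 2 * Fintype.card ι := by
  have := rk_le (cl a l) (N2 N) t
  rwa [Fintype.card_sum, ← two_mul] at this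

/-- linearly independent vectors in the ball give a lower bound for `rk` -/
lemma le_rk (c : ι → ZMod p) (N : ι → ℝ) (t : ℝ) {κ : Type} [Fintype κ] (f : κ → ι → ℤ)
    (hf : ∀ j, f j ∈ ball c N t) (hli : LinearIndependent ℝ (fun j => rv (f j))) :
    Fintype.card κ ≤ rk c N t := by
  rw [← finrank_span_eq_card hli]
  refine Submodule.finrank_mono (Submodule.span_mono ?_)
  rintro _ ⟨j, rfl⟩
  exact ⟨f j, hf j, rfl⟩

/-! ### systems -/

lemma Sys.pos {a : ι → ZMod p} {N : ι → ℝ} {T : ℝ} (h : Sys a N T) (i : ι) : 0 < N i :=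
  lt_of_lt_of_le one_pos (h.1 i)

lemma Sys.mono {a : ι → ZMod p} {N : ι → ℝ} {T T' : ℝ} (h : Sys a N T) (hT : T' ≤ T) :
    Sys a N T' := ⟨h.1, fun x hx hl => lt_of_le_of_lt hT (h.2 x hx hl)⟩

lemma Sys.ne [DecidableEq ι] {a : ι → ZMod p} {N : ι → ℝ} {T : ℝ} (h : Sys a N T) (hT : 1 ≤ T)
    (i : ι) : a i ≠ 0 := by
  intro h0
  have h1 := h.2 (Pi.single i 1) (by
    intro h2
    have := congrFun h2 i
    simp at this) (by rw [lin_single, h0, mul_zero])
  rw [rv_single, wn_single (Sys.pos h)] at h1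
  have : |((1 : ℤ) : ℝ)| / N i ≤ 1 := by
    rw [Int.cast_one, abs_one, div_le_one (Sys.pos h i)]
    exact h.1 i
  linarith

lemma one_le_prod {N : ι → ℝ} (h : ∀ i, 1 ≤ N i) : 1 ≤ ∏ i, N i := by
  have := Finset.prod_le_prod (s := univ) (f := fun _ : ι => (1 : ℝ)) (g := N)
    (fun _ _ => zero_le_one) (fun i _ => h i)
  simpa using this

/-- `esum` is monotone in the property -/
lemma esum_mono [Fact p.Prime] (a : ι → ZMod p) (N : ι → ℝ) {Q Q' : ZMod p → Prop}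
    (h : ∀ l, Q l → Q' l) : esum a N Q ≤ esum a N Q' := by
  classical
  unfold esum
  refine sum_le_sum_of_subset_of_nonneg ?_ (fun _ _ _ => sq_nonneg _)
  intro l hl
  simp only [mem_filter, mem_univ, true_and] at hl ⊢
  exact ⟨hl.1, hl.2.1, h l hl.2.2⟩

lemma esum_le_sum [Fact p.Prime] (a : ι → ZMod p) (N : ι → ℝ) (Q : ZMod p → Prop)
    (s : Finset (ZMod p)) (h : ∀ l, l ≠ 0 → 1 < cnt (cl a l) (N2 N) 1 → Q l → l ∈ s) :
    esum a N Q ≤ ∑ l ∈ s, (cnt (cl a l) (N2 N) 1) ^ 2 := by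
  classical
  unfold esum
  refine sum_le_sum_of_subset_of_nonneg ?_ (fun _ _ _ => sq_nonneg _)
  intro l hl
  simp only [mem_filter, mem_univ, true_and] at hl
  exact h l hl.1 hl.2.1 hl.2.2

lemma sum_le_esum [Fact p.Prime] (a : ι → ZMod p) (N : ι → ℝ) (Q : ZMod p → Prop)
    (s : Finset (ZMod p)) (h : ∀ l ∈ s, l ≠ 0 ∧ 1 < cnt (cl a l) (N2 N) 1 ∧ Q l) :
    ∑ l ∈ s, (cnt (cl a l) (N2 N) 1) ^ 2 ≤ esum a N Q := by
  classical
  unfold esum
  refine sum_le_sum_of_subset_of_nonneg ?_ (fun _ _ _ => sq_nonneg _)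
  intro l hl
  simp only [mem_filter, mem_univ, true_and]
  exact h l hl

lemma esum_nonneg [Fact p.Prime] (a : ι → ZMod p) (N : ι → ℝ) (Q : ZMod p → Prop) :
    0 ≤ esum a N Q := by
  unfold esum
  exact sum_nonneg fun _ _ => sq_nonneg _

end MPcb27.Basic
end

section
/-!
# MP_cb27ba_nt, project BD, module BOXC: integer points in a ball (helper40)
-/
set_option autoImplicit false

namespace MPcb27

open Finset

namespace BoxC

variable {ι : Type} [Fintype ι] [DecidableEq ι]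

/-- the box of integer vectors with `|w_i| ≤ t N_i` -/
noncomputable def box (N : ι → ℝ) (t : ℝ) : Finset (ι → ℤ) :=
  Fintype.piFinset (fun i => Finset.Icc (-⌊t * N i⌋) ⌊t * N i⌋)

lemma subset_box {N : ι → ℝ} (hN : ∀ i, 0 < N i) {t : ℝ} :
    {w : ι → ℤ | wn N (rv w) ≤ t} ⊆ (box N t : Set (ι → ℤ)) := by
  intro w hw
  rw [Finset.mem_coe, box, Fintype.mem_piFinset]
  intro i
  have h1 := Basic.abs_le_wn hN (rv w) i
  have h2 : |(w i : ℝ)| ≤ t * N i := by
    refine h1.trans ?_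
    rw [mul_comm]
    exact mul_le_mul_of_nonneg_right hw (hN i).le
  have h3 : |w i| ≤ ⌊t * N i⌋ := by
    rw [Int.le_floor]
    push_cast
    exact h2
  rw [Finset.mem_Icc]
  exact abs_le.mp h3

lemma card_box_le {N : ι → ℝ} (hN : ∀ i, 0 < N i) {t : ℝ} (ht : 0 ≤ t) :
    ((box N t).card : ℝ) ≤ ∏ i, (3 * max 1 (t * N i)) := by
  rw [box, Fintype.card_piFinset]
  push_cast
  refine Finset.prod_le_prod (fun _ _ => by positivity) (fun i _ => ?_)
  rw [Int.card_Icc]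
  have h0 : 0 ≤ t * N i := mul_nonneg ht (hN i).le
  have h1 : 0 ≤ ⌊t * N i⌋ := Int.floor_nonneg.mpr h0
  have h2 : ((⌊t * N i⌋ + 1 - -⌊t * N i⌋).toNat : ℝ) = 2 * (⌊t * N i⌋ : ℝ) + 1 := by
    have : ((⌊t * N i⌋ + 1 - -⌊t * N i⌋).toNat : ℤ) = 2 * ⌊t * N i⌋ + 1 := by
      rw [Int.toNat_of_nonneg (by omega)]; ring
    exact_mod_cast congrArg (Int.cast : ℤ → ℝ) this
  rw [h2]
  have h3 := Int.floor_le (t * N i)
  have h4 := le_max_left 1 (t * N i)
  have h5 := le_max_right 1 (t * N i)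
  linarith

end BoxC

theorem specBoxCnt : SpecBoxCnt := by
  intro ι _ _ N hN t ht
  refine ⟨(Finset.finite_toSet _).subset (BoxC.subset_box hN), ?_⟩
  refine le_trans ?_ (BoxC.card_box_le hN ht)
  have := Set.ncard_le_ncard (BoxC.subset_box (t := t) hN) (Finset.finite_toSet _)
  rw [Set.ncard_coe_finset] at this
  exact_mod_cast this

end MPcb27
end

section
/-!
# MP_cb27ba_nt, project BD: module TILE
-/
set_option autoImplicit false

namespace MPcb27

open Finset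

namespace Tile

variable {ι : Type} [Fintype ι] [DecidableEq ι]

theorem mem_bx {H n : ι → ℕ} : n ∈ bx H ↔ ∀ i, n i < H i := by
  simp [bx]

theorem card_bx (H : ι → ℕ) : #(bx H) = ∏ i, H i := by
  simp [bx, Fintype.card_piFinset]

theorem bx_mono {G H : ι → ℕ} (h : ∀ i, G i ≤ H i) : bx G ⊆ bx H := by
  intro n hn
  rw [mem_bx] at hn ⊢
  exact fun i => lt_of_lt_of_le (hn i) (h i)

/-- decomposition of a box into translates of a smaller one -/
theorem sum_split (q H : ι → ℕ) (hH : ∀ i, 1 ≤ H i) (F : (ι → ℕ) → ℂ) :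
    ∑ k ∈ bx (fun i => q i * H i), F k =
      ∑ m ∈ bx q, ∑ n ∈ bx H, F (fun i => m i * H i + n i) := by
  rw [← sum_product']
  refine sum_nbij' (fun k => (fun i => k i / H i, fun i => k i % H i))
    (fun x => fun i => x.1 i * H i + x.2 i) ?_ ?_ ?_ ?_ ?_
  · intro k hk
    rw [mem_bx] at hk
    rw [mem_product, mem_bx, mem_bx]
    exact ⟨fun i => Nat.div_lt_of_lt_mul (by rw [mul_comm]; exact hk i),
      fun i => Nat.mod_lt _ (hH i)⟩
  · rintro ⟨m, n⟩ hx
    rw [mem_product, mem_bx, mem_bx] at hx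
    rw [mem_bx]
    intro i
    have h1 := hx.1 i
    have h2 := hx.2 i
    simp only at h1 h2 ⊢
    calc m i * H i + n i < m i * H i + H i := by omega
      _ = (m i + 1) * H i := by ring
      _ ≤ q i * H i := Nat.mul_le_mul_right _ h1
  · intro k _
    funext i
    simp only
    rw [mul_comm]
    exact Nat.div_add_mod _ _
  · rintro ⟨m, n⟩ hx
    rw [mem_product, mem_bx, mem_bx] at hx
    have h2 := hx.2
    simp only at h2
    ext i
    · simp only
      rw [mul_comm, Nat.mul_add_div (hH i), Nat.div_eq_of_lt (h2 i), add_zero]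
    · simp only
      rw [mul_comm, Nat.mul_add_mod, Nat.mod_eq_of_lt (h2 i)]
  · intro k _
    congr 1
    funext i
    simp only
    rw [mul_comm]
    exact (Nat.div_add_mod _ _).symm

theorem sum_rest (G H : ι → ℕ) (h : ∀ i, G i ≤ H i) {ε : ℝ} (hε0 : 0 ≤ ε) (hε1 : ε ≤ 1)
    (hG : ∀ i, (1 - ε) * H i ≤ G i) (F : (ι → ℕ) → ℂ) (hF : ∀ n, ‖F n‖ ≤ 1) :
    ‖∑ n ∈ bx H, F n - ∑ n ∈ bx G, F n‖ ≤ Fintype.card ι * ε * ∏ i, (H i : ℝ) := by
  have h1 : ∑ n ∈ bx H, F n - ∑ n ∈ bx G, F n = ∑ n ∈ bx H \ bx G, F n := by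
    rw [← sum_sdiff (bx_mono h)]
    ring
  rw [h1]
  have h2 : ‖∑ n ∈ bx H \ bx G, F n‖ ≤ #(bx H \ bx G) := by
    refine (norm_sum_le _ _).trans ?_
    refine (sum_le_sum fun n _ => hF n).trans ?_
    simp
  refine h2.trans ?_
  rw [card_sdiff_of_subset (bx_mono h), Nat.cast_sub (card_le_card (bx_mono h)), card_bx, card_bx,
    Nat.cast_prod, Nat.cast_prod]
  have h3 : (1 - Fintype.card ι * ε) * ∏ i, (H i : ℝ) ≤ ∏ i, (G i : ℝ) := by
    have h4 : (1 - ε) ^ (Fintype.card ι) * ∏ i, (H i : ℝ) ≤ ∏ i, (G i : ℝ) := by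
      rw [← Finset.card_univ, ← Finset.prod_const, ← Finset.prod_mul_distrib]
      refine Finset.prod_le_prod (fun i _ => ?_) fun i _ => hG i
      have : (0 : ℝ) ≤ H i := Nat.cast_nonneg _
      have h5 : 0 ≤ 1 - ε := by linarith
      positivity
    refine le_trans ?_ h4
    refine mul_le_mul_of_nonneg_right ?_ (by positivity)
    have := one_add_mul_le_pow (a := -ε) (by linarith) (Fintype.card ι)
    calc 1 - Fintype.card ι * ε = 1 + Fintype.card ι * (-ε) := by ring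
      _ ≤ (1 + -ε) ^ Fintype.card ι := this
      _ = (1 - ε) ^ Fintype.card ι := by ring
  linarith

omit [DecidableEq ι] in
theorem linN_add {p : ℕ} (b : ι → ZMod p) (m n : ι → ℕ) :
    linN b (fun i => m i + n i) = linN b m + linN b n := by
  unfold linN
  rw [← sum_add_distrib]
  refine sum_congr rfl fun i _ => ?_
  push_cast
  ring

/-- The tiling inequality. -/
theorem tile_bound {p : ℕ} [Fact p.Prime] (b : ι → ZMod p) (H H' : ι → ℕ) (hH' : ∀ i, 1 ≤ H' i)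
    {ε : ℝ} (hε0 : 0 ≤ ε) (hε1 : ε ≤ 1) (hsmall : ∀ i, H' i = 1 ∨ (H' i : ℝ) ≤ ε * H i)
    (χ : MulChar (ZMod p) ℂ) (ψ : AddChar (ZMod p) ℂ) (z : ZMod p) (M : ℝ)
    (hM : ∀ z' : ZMod p, ‖∑ n ∈ bx H', χ (z' + linN b n) * ψ (linN b n)‖ ≤
      M * ∏ i, (H' i : ℝ)) (hM0 : 0 ≤ M) :
    ‖∑ n ∈ bx H, χ (z + linN b n) * ψ (linN b n)‖ ≤
      (M + Fintype.card ι * ε) * ∏ i, (H i : ℝ) := by
  set F : (ι → ℕ) → ℂ := fun n => χ (z + linN b n) * ψ (linN b n) with hF
  have hF1 : ∀ n, ‖F n‖ ≤ 1 := by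
    intro n
    rw [hF, norm_mul, AddChar.norm_apply, mul_one]
    exact DirichletCharacter.norm_le_one _ _
  set q : ι → ℕ := fun i => H i / H' i with hq
  have hGH : ∀ i, q i * H' i ≤ H i := fun i => Nat.div_mul_le_self _ _
  have hG : ∀ i, (1 - ε) * H i ≤ ((q i * H' i : ℕ) : ℝ) := by
    intro i
    rcases hsmall i with h1 | h1
    · have : q i * H' i = H i := by simp [hq, h1]
      rw [this]
      have : (0 : ℝ) ≤ H i := Nat.cast_nonneg _
      nlinarith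
    · have h2 : H i < q i * H' i + H' i := by
        have := Nat.lt_div_mul_add (a := H i) (hH' i)
        exact this
      have h3 : (H i : ℝ) ≤ ((q i * H' i : ℕ) : ℝ) + H' i := by exact_mod_cast h2.le
      linarith
  have h1 := sum_rest (fun i => q i * H' i) H hGH hε0 hε1 hG F hF1
  have h2 : ‖∑ n ∈ bx (fun i => q i * H' i), F n‖ ≤ M * ∏ i, (H i : ℝ) := by
    rw [sum_split q H' hH']
    have h3 : ∀ m ∈ bx q, ‖∑ n ∈ bx H', F (fun i => m i * H' i + n i)‖ ≤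
        M * ∏ i, (H' i : ℝ) := by
      intro m _
      have h4 : ∑ n ∈ bx H', F (fun i => m i * H' i + n i) =
          ψ (linN b (fun i => m i * H' i)) *
          ∑ n ∈ bx H', χ ((z + linN b (fun i => m i * H' i)) + linN b n) * ψ (linN b n) := by
        rw [mul_sum]
        refine sum_congr rfl fun n _ => ?_
        simp only [hF]
        rw [linN_add b (fun i => m i * H' i) n, AddChar.map_add_eq_mul, add_assoc]
        ring
      rw [h4, norm_mul, AddChar.norm_apply, one_mul]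
      exact hM _
    refine (norm_sum_le _ _).trans ((sum_le_sum h3).trans ?_)
    rw [sum_const, card_bx, nsmul_eq_mul, Nat.cast_prod]
    have h5 : (∏ i, (q i : ℝ)) * ∏ i, (H' i : ℝ) ≤ ∏ i, (H i : ℝ) := by
      rw [← prod_mul_distrib]
      refine prod_le_prod (fun i _ => by positivity) fun i _ => ?_
      exact_mod_cast hGH i
    calc (∏ i, (q i : ℝ)) * (M * ∏ i, (H' i : ℝ)) = M * ((∏ i, (q i : ℝ)) * ∏ i, (H' i : ℝ)) := by
          ring
      _ ≤ _ := mul_le_mul_of_nonneg_left h5 hM0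
  calc ‖∑ n ∈ bx H, F n‖ = ‖(∑ n ∈ bx H, F n - ∑ n ∈ bx (fun i => q i * H' i), F n) +
        ∑ n ∈ bx (fun i => q i * H' i), F n‖ := by rw [sub_add_cancel]
    _ ≤ _ := norm_add_le _ _
    _ ≤ (M + Fintype.card ι * ε) * ∏ i, (H i : ℝ) := by linarith

/-- the scaled sides -/
noncomputable def sc (H : ι → ℕ) (x : ℝ) (i : ι) : ℕ := max 1 ⌊(H i : ℝ) / x⌋₊

omit [Fintype ι] [DecidableEq ι] in
theorem sc_pos (H : ι → ℕ) (x : ℝ) (i : ι) : 1 ≤ sc H x i := le_max_left _ _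

omit [Fintype ι] [DecidableEq ι] in
theorem sc_le (H : ι → ℕ) (hH : ∀ i, 1 ≤ H i) {x : ℝ} (hx : 1 ≤ x) (i : ι) : sc H x i ≤ H i := by
  unfold sc
  refine max_le (hH i) ?_
  have h0 : (0 : ℝ) ≤ H i := Nat.cast_nonneg _
  have : (H i : ℝ) / x ≤ H i := div_le_self h0 hx
  calc ⌊(H i : ℝ) / x⌋₊ ≤ ⌊(H i : ℝ)⌋₊ := Nat.floor_mono this
    _ = H i := Nat.floor_natCast _

omit [Fintype ι] [DecidableEq ι] in
theorem sc_step (H : ι → ℕ) {x y : ℝ} (hx : 0 < x) (hy : 1 ≤ y) (i : ι) :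
    (sc H x i : ℝ) ≤ 2 * y * sc H (x * y) i := by
  unfold sc
  set u : ℝ := (H i : ℝ) / (x * y) with hu
  have hu0 : 0 ≤ u := by positivity
  have h1 : (H i : ℝ) / x = y * u := by rw [hu]; field_simp
  have h2 : u ≤ 2 * ((max 1 ⌊u⌋₊ : ℕ) : ℝ) := by
    have h3 := Nat.lt_floor_add_one u
    have h4 : ((1 : ℕ) : ℝ) ≤ ((max 1 ⌊u⌋₊ : ℕ) : ℝ) := Nat.cast_le.mpr (le_max_left _ _)
    have h5 : ((⌊u⌋₊ : ℕ) : ℝ) ≤ ((max 1 ⌊u⌋₊ : ℕ) : ℝ) := Nat.cast_le.mpr (le_max_right _ _)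
    rw [Nat.cast_one] at h4
    linarith
  have h6 : (1 : ℝ) ≤ ((max 1 ⌊u⌋₊ : ℕ) : ℝ) := by
    have h4 : ((1 : ℕ) : ℝ) ≤ ((max 1 ⌊u⌋₊ : ℕ) : ℝ) := Nat.cast_le.mpr (le_max_left _ _)
    rwa [Nat.cast_one] at h4
  rcases le_total 1 ⌊(H i : ℝ) / x⌋₊ with h7 | h7
  · rw [max_eq_right h7]
    calc ((⌊(H i : ℝ) / x⌋₊ : ℕ) : ℝ) ≤ (H i : ℝ) / x := Nat.floor_le (by positivity)
      _ = y * u := h1
      _ ≤ y * (2 * ((max 1 ⌊u⌋₊ : ℕ) : ℝ)) := mul_le_mul_of_nonneg_left h2 (by linarith)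
      _ = _ := by ring
  · rw [max_eq_left h7, Nat.cast_one]
    nlinarith

omit [Fintype ι] [DecidableEq ι] in
theorem sc_small (H : ι → ℕ) {x : ℝ} (hx : 0 < x) (i : ι) :
    sc H x i = 1 ∨ (sc H x i : ℝ) ≤ (1 / x) * H i := by
  unfold sc
  rcases le_total ⌊(H i : ℝ) / x⌋₊ 1 with h7 | h7
  · left
    exact max_eq_left h7
  · right
    rw [max_eq_right h7, one_div_mul_eq_div]
    exact Nat.floor_le (by positivity)

end Tile

open Tile

theorem specTile : SpecTile := by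
  intro d hB δ hδ
  set δ₁ : ℝ := min δ (1 / 16) with hδ₁
  have hδ₁0 : 0 < δ₁ := lt_min hδ (by norm_num)
  have hδ₁δ : δ₁ ≤ δ := min_le_left _ _
  have hδ₁16 : δ₁ ≤ 1 / 16 := min_le_right _ _
  obtain ⟨τ₁, hτ₁, hbox⟩ := hB δ₁ hδ₁0 (by linarith)
  set kp : ℝ := 1 / (64 * (d + 1)) with hkp
  have hkp0 : 0 < kp := by positivity
  have hdkp : 2 * d * kp ≤ 1 / 32 := by
    rw [hkp]
    have : (0 : ℝ) ≤ d := Nat.cast_nonneg _
    rw [mul_one_div, div_le_div_iff₀ (by positivity) (by norm_num)]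
    linarith
  set τ : ℝ := min τ₁ kp / 2 with hτ
  have hτ0 : 0 < τ := by
    have := lt_min hτ₁ hkp0
    rw [hτ]; linarith
  have hτ1 : 2 * τ ≤ τ₁ := by rw [hτ]; linarith [min_le_left τ₁ kp]
  have hτ2 : 2 * τ ≤ kp := by rw [hτ]; linarith [min_le_right τ₁ kp]
  refine ⟨τ, hτ0, ?_⟩
  intro η hη
  obtain ⟨P₁, hP₁⟩ := hbox η hη
  -- largeness of p
  have hlarge1 : ∀ᶠ x : ℕ in Filter.atTop, (1 + d : ℝ) ≤ (x : ℝ) ^ τ :=
    ((tendsto_rpow_atTop hτ0).comp tendsto_natCast_atTop_atTop).eventually_ge_atTop _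
  have hlarge2 : ∀ᶠ x : ℕ in Filter.atTop, (2 : ℝ) ≤ (x : ℝ) ^ kp :=
    ((tendsto_rpow_atTop hkp0).comp tendsto_natCast_atTop_atTop).eventually_ge_atTop _
  obtain ⟨P₂, hP₂⟩ := Filter.eventually_atTop.mp (hlarge1.and hlarge2)
  refine ⟨max P₁ (max P₂ 2), ?_⟩
  intro p _ hp ι _ _ hcard b H hH hprop hlo hhi χ hχ ψ z
  obtain ⟨hd1, h2kp⟩ := hP₂ p (by omega)
  have hp1 : (1 : ℝ) ≤ p := by exact_mod_cast (by omega : 1 ≤ p)
  have hp0 : (0 : ℝ) < p := by linarith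
  have hV0 : 0 < ∏ i, (H i : ℝ) := Finset.prod_pos fun i _ => by exact_mod_cast hH i
  have hlo' : (p : ℝ) ^ (1 / 4 + δ₁) ≤ ∏ i, (H i : ℝ) :=
    (Real.rpow_le_rpow_of_exponent_le hp1 (by linarith)).trans hlo
  by_cases hsm : ∏ i, (H i : ℝ) ≤ (p : ℝ) ^ (1 / 2 - δ₁)
  · refine (hP₁ p (by omega) ι hcard b H hH hprop hlo' hsm χ hχ ψ z).trans ?_
    refine mul_le_mul_of_nonneg_right ?_ hV0.le
    exact Real.rpow_le_rpow_of_exponent_le hp1 (by linarith)
  rw [not_le] at hsm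
  -- choice of the scale
  set y : ℝ := (p : ℝ) ^ kp with hy
  have hy1 : 1 ≤ y := by linarith
  have hy0 : 0 < y := by linarith
  have hex : ∃ k : ℕ, ∏ i, (sc H (y ^ k) i : ℝ) ≤ (p : ℝ) ^ (1 / 2 - δ₁) := by
    have h1 : Filter.Tendsto (fun k : ℕ => y ^ k) Filter.atTop Filter.atTop :=
      tendsto_pow_atTop_atTop_of_one_lt (by linarith)
    have h2 : ∀ᶠ k : ℕ in Filter.atTop, ∀ i, (H i : ℝ) < y ^ k := by
      rw [Filter.eventually_all]
      intro i
      exact h1.eventually_gt_atTop _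
    obtain ⟨k, hk⟩ := h2.exists
    refine ⟨k, ?_⟩
    have h3 : ∀ i, sc H (y ^ k) i = 1 := by
      intro i
      unfold sc
      refine max_eq_left ?_
      have h4 : (H i : ℝ) / y ^ k < 1 := by
        rw [div_lt_one (by positivity)]
        exact hk i
      rw [Nat.floor_eq_zero.mpr h4]
      omega
    simp only [h3, Nat.cast_one, prod_const_one]
    exact Real.one_le_rpow hp1 (by linarith)
  classical
  set k := Nat.find hex with hk
  have hkspec : ∏ i, (sc H (y ^ k) i : ℝ) ≤ (p : ℝ) ^ (1 / 2 - δ₁) := Nat.find_spec hex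
  have hk1 : 1 ≤ k := by
    by_contra h0
    have h1 : k = 0 := by omega
    rw [h1] at hkspec
    have h2 : ∀ i, sc H (y ^ 0) i = H i := by
      intro i
      unfold sc
      rw [pow_zero, div_one, Nat.floor_natCast]
      exact max_eq_right (hH i)
    simp only [h2] at hkspec
    linarith
  have hkmin : (p : ℝ) ^ (1 / 2 - δ₁) < ∏ i, (sc H (y ^ (k - 1)) i : ℝ) := by
    have := Nat.find_min hex (m := k - 1) (by omega)
    rwa [not_le] at this
  have hyk : y ^ (k - 1) * y = y ^ k := by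
    rw [← pow_succ]; congr 1; omega
  have hlow : (p : ℝ) ^ (1 / 4 + δ₁) ≤ ∏ i, (sc H (y ^ k) i : ℝ) := by
    have h1 : ∏ i, (sc H (y ^ (k - 1)) i : ℝ) ≤ (2 * y) ^ d * ∏ i, (sc H (y ^ k) i : ℝ) := by
      rw [← hcard, ← Finset.card_univ, ← Finset.prod_const, ← Finset.prod_mul_distrib]
      refine Finset.prod_le_prod (fun i _ => Nat.cast_nonneg _) fun i _ => ?_
      have := sc_step H (x := y ^ (k - 1)) (y := y) (by positivity) hy1 i
      rwa [hyk] at this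
    have h2 : (2 * y) ^ d ≤ (p : ℝ) ^ (2 * d * kp) := by
      have h3 : 2 * y ≤ (p : ℝ) ^ (2 * kp) := by
        have : (p : ℝ) ^ (2 * kp) = y * y := by
          rw [hy, ← Real.rpow_add hp0]; congr 1; ring
        rw [this]
        exact mul_le_mul_of_nonneg_right h2kp hy0.le
      calc (2 * y) ^ d ≤ ((p : ℝ) ^ (2 * kp)) ^ d := pow_le_pow_left₀ (by positivity) h3 d
        _ = (p : ℝ) ^ (2 * d * kp) := by
            rw [← Real.rpow_natCast, ← Real.rpow_mul hp0.le]; congr 1; ring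
    have h4 : 0 < ∏ i, (sc H (y ^ k) i : ℝ) :=
      Finset.prod_pos fun i _ => by exact_mod_cast sc_pos H _ i
    have h5 : (p : ℝ) ^ (1 / 2 - δ₁) ≤ (p : ℝ) ^ (2 * d * kp) * ∏ i, (sc H (y ^ k) i : ℝ) :=
      (hkmin.le.trans h1).trans (mul_le_mul_of_nonneg_right h2 h4.le)
    have h6 : (p : ℝ) ^ (1 / 2 - δ₁ - 2 * d * kp) ≤ ∏ i, (sc H (y ^ k) i : ℝ) := by
      rw [Real.rpow_sub hp0, div_le_iff₀ (by positivity), mul_comm]
      exact h5
    refine le_trans ?_ h6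
    refine Real.rpow_le_rpow_of_exponent_le hp1 ?_
    linarith
  -- application
  set H' : ι → ℕ := fun i => sc H (y ^ k) i with hH'
  have hyk1 : 1 ≤ y ^ k := one_le_pow₀ hy1
  have hykk : y ≤ y ^ k := by
    calc y = y ^ 1 := (pow_one y).symm
      _ ≤ y ^ k := pow_le_pow_right₀ hy1 hk1
  have hprop' : Proper b H' ((p : ℝ) ^ η) := by
    intro x hx hxi
    refine hprop x hx fun i => (hxi i).trans ?_
    refine mul_le_mul_of_nonneg_left ?_ (by positivity)
    exact_mod_cast sc_le H hH hyk1 i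
  have hmain := tile_bound b H H' (fun i => sc_pos H _ i) (ε := 1 / y) (by positivity)
    (by rw [div_le_one hy0]; exact hy1) (fun i => ?_) χ ψ z ((p : ℝ) ^ (-τ₁))
    (fun z' => hP₁ p (by omega) ι hcard b H' (fun i => sc_pos H _ i) hprop' hlow hkspec χ hχ ψ z')
    (by positivity)
  · refine hmain.trans (mul_le_mul_of_nonneg_right ?_ hV0.le)
    rw [hcard]
    have h1 : (p : ℝ) ^ (-τ₁) ≤ (p : ℝ) ^ (-(2 * τ)) :=
      Real.rpow_le_rpow_of_exponent_le hp1 (by linarith)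
    have h2 : 1 / y ≤ (p : ℝ) ^ (-(2 * τ)) := by
      rw [hy, one_div, ← Real.rpow_neg hp0.le]
      exact Real.rpow_le_rpow_of_exponent_le hp1 (by linarith)
    have h3 : (p : ℝ) ^ (-(2 * τ)) = (p : ℝ) ^ (-τ) * (p : ℝ) ^ (-τ) := by
      rw [← Real.rpow_add hp0]; congr 1; ring
    have h4 : (p : ℝ) ^ (-τ) * (p : ℝ) ^ τ = 1 := by
      rw [← Real.rpow_add hp0, neg_add_cancel, Real.rpow_zero]
    have h5 : 0 < (p : ℝ) ^ (-τ) := by positivity
    have hd0 : (0 : ℝ) ≤ d := Nat.cast_nonneg _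
    calc (p : ℝ) ^ (-τ₁) + d * (1 / y) ≤ (p : ℝ) ^ (-(2 * τ)) + d * (p : ℝ) ^ (-(2 * τ)) := by
          gcongr
      _ = (p : ℝ) ^ (-τ) * ((1 + d) * (p : ℝ) ^ (-τ)) := by rw [h3]; ring
      _ ≤ (p : ℝ) ^ (-τ) * ((p : ℝ) ^ τ * (p : ℝ) ^ (-τ)) := by gcongr
      _ = (p : ℝ) ^ (-τ) := by rw [mul_comm ((p : ℝ) ^ τ), h4, mul_one]
  · rcases sc_small H (x := y ^ k) (by positivity) i with h1 | h1
    · left; exact h1
    · right
      refine h1.trans (mul_le_mul_of_nonneg_right ?_ (Nat.cast_nonneg _))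
      exact one_div_le_one_div_of_le hy0 hykk

end MPcb27
end

section
/-!
# MP_cb27ba_nt, project BD: module BURG
-/
set_option autoImplicit false

namespace MPcb27

open Finset

namespace Burg

variable {ι : Type} [Fintype ι] [DecidableEq ι]

open Tile

/-- shifting a box changes a sum very little -/
theorem shift (H s : ι → ℕ) {ε : ℝ} (hε0 : 0 ≤ ε) (hε1 : ε ≤ 1)
    (hs : ∀ i, (s i : ℝ) ≤ ε * H i) (F : (ι → ℕ) → ℂ) (hF : ∀ n, ‖F n‖ ≤ 1) :
    ‖∑ n ∈ bx H, F n - ∑ n ∈ bx H, F (fun i => n i + s i)‖ ≤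
      2 * (Fintype.card ι * ε * ∏ i, (H i : ℝ)) := by
  set C : ι → ℕ := fun i => H i - s i with hC
  have hsH : ∀ i, s i ≤ H i := by
    intro i
    have h0 : (0 : ℝ) ≤ H i := Nat.cast_nonneg _
    have : (s i : ℝ) ≤ H i := (hs i).trans (by nlinarith)
    exact_mod_cast this
  have hCH : ∀ i, C i ≤ H i := fun i => Nat.sub_le _ _
  have hG : ∀ i, (1 - ε) * H i ≤ C i := by
    intro i
    rw [hC, Nat.cast_sub (hsH i)]
    linarith [hs i]
  have h1 := sum_rest C H hCH hε0 hε1 hG (fun n => F (fun i => n i + s i)) (fun n => hF _)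
  -- the image
  set D : Finset (ι → ℕ) := (bx C).image (fun n i => n i + s i) with hD
  have hinj : Function.Injective (fun (n : ι → ℕ) (i : ι) => n i + s i) := by
    intro a b hab
    funext i
    have := congrFun hab i
    simp only at this
    omega
  have hDs : D ⊆ bx H := by
    intro n hn
    rw [hD, mem_image] at hn
    obtain ⟨m, hm, rfl⟩ := hn
    rw [mem_bx] at hm ⊢
    intro i
    have := hm i
    simp only [hC] at this
    omega
  have hsum : ∑ n ∈ D, F n = ∑ n ∈ bx C, F (fun i => n i + s i) := by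
    rw [hD, sum_image (hinj.injOn)]
  have h2 : ‖∑ n ∈ bx H, F n - ∑ n ∈ D, F n‖ ≤ Fintype.card ι * ε * ∏ i, (H i : ℝ) := by
    have e1 : ∑ n ∈ bx H, F n - ∑ n ∈ D, F n = ∑ n ∈ bx H \ D, F n := by
      rw [← sum_sdiff hDs]
      ring
    rw [e1]
    have e2 : ‖∑ n ∈ bx H \ D, F n‖ ≤ #(bx H \ D) := by
      refine (norm_sum_le _ _).trans ?_
      refine (sum_le_sum fun n _ => hF n).trans ?_
      simp
    refine e2.trans ?_
    have e3 : #(bx H \ D) = #(bx H \ bx C) := by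
      rw [card_sdiff_of_subset hDs, card_sdiff_of_subset (bx_mono hCH), hD,
        card_image_of_injective _ hinj]
    rw [e3]
    have h4 := sum_rest C H hCH hε0 hε1 hG (fun _ => 1) (fun _ => by simp)
    have e4 : ∑ n ∈ bx H, (1 : ℂ) - ∑ n ∈ bx C, (1 : ℂ) = ((#(bx H \ bx C) : ℕ) : ℂ) := by
      rw [← sum_sdiff (bx_mono hCH)]
      simp
    rw [e4, Complex.norm_natCast] at h4
    exact h4
  calc ‖∑ n ∈ bx H, F n - ∑ n ∈ bx H, F (fun i => n i + s i)‖
      = ‖(∑ n ∈ bx H, F n - ∑ n ∈ D, F n) -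
        (∑ n ∈ bx H, F (fun i => n i + s i) - ∑ n ∈ bx C, F (fun i => n i + s i))‖ := by
          rw [hsum]; congr 1; ring
    _ ≤ _ := norm_sub_le _ _
    _ ≤ _ := by linarith

/-- rounding a point of the unit circle to a root of unity -/
theorem round (K : ℕ) (hK : 1 ≤ K) (ω : ℂ) (hω : ‖ω‖ = 1) :
    ∃ k ∈ Finset.Icc (-(K : ℤ)) K,
      ‖ω - Complex.exp (Complex.I * ((2 * Real.pi * k / K : ℝ) : ℂ))‖ ≤ 2 * Real.pi / K := by
  have hK0 : (0 : ℝ) < K := by exact_mod_cast hK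
  have hpi := Real.pi_pos
  set θ : ℝ := Complex.arg ω with hθ
  have hωexp : ω = Complex.exp (Complex.I * (θ : ℂ)) := by
    have := Complex.norm_mul_exp_arg_mul_I ω
    rw [hω] at this
    rw [← this, hθ]
    simp [mul_comm]
  set k : ℤ := ⌊K * θ / (2 * Real.pi)⌋ with hk
  have hθ1 : -Real.pi < θ := Complex.neg_pi_lt_arg ω
  have hθ2 : θ ≤ Real.pi := Complex.arg_le_pi ω
  have h1 : (k : ℝ) ≤ K * θ / (2 * Real.pi) := Int.floor_le _
  have h2 : K * θ / (2 * Real.pi) < k + 1 := Int.lt_floor_add_one _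
  have h1' : (k : ℝ) * (2 * Real.pi) ≤ K * θ := by rwa [le_div_iff₀ (by positivity)] at h1
  have h2' : K * θ < (k + 1) * (2 * Real.pi) := by rwa [div_lt_iff₀ (by positivity)] at h2
  refine ⟨k, ?_, ?_⟩
  · rw [Finset.mem_Icc]
    constructor
    · have h3 : -(K : ℝ) ≤ K * θ / (2 * Real.pi) := by
        rw [le_div_iff₀ (by positivity)]
        nlinarith
      have : (-(K : ℤ)) ≤ ⌊K * θ / (2 * Real.pi)⌋ := by
        rw [Int.le_floor]
        push_cast
        exact h3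
      exact this
    · have h3 : (k : ℝ) ≤ K := by
        refine h1.trans ?_
        rw [div_le_iff₀ (by positivity)]
        nlinarith
      exact_mod_cast h3
  · set φ : ℝ := 2 * Real.pi * k / K with hφ
    have h3 : ω - Complex.exp (Complex.I * (φ : ℂ)) =
        Complex.exp (Complex.I * (φ : ℂ)) * (Complex.exp (Complex.I * ((θ - φ : ℝ) : ℂ)) - 1) := by
      rw [mul_sub, ← Complex.exp_add, hωexp]
      congr 2
      · push_cast; ring
      · ring
    have h4 : ‖Complex.exp (Complex.I * (φ : ℂ))‖ = 1 := by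
      rw [mul_comm]; exact Complex.norm_exp_ofReal_mul_I φ
    rw [h3, norm_mul, h4, one_mul]
    refine (Real.norm_exp_I_mul_ofReal_sub_one_le).trans ?_
    rw [Real.norm_eq_abs, abs_le]
    have h5 : φ * K = 2 * Real.pi * k := by rw [hφ]; field_simp
    have h6 : 0 ≤ (θ - φ) * K := by nlinarith
    have h7 : (θ - φ) * K ≤ 2 * Real.pi := by nlinarith
    have h8 : 0 ≤ θ - φ := nonneg_of_mul_nonneg_left h6 hK0
    constructor
    · have : 0 ≤ 2 * Real.pi / K := by positivity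
      linarith
    · rw [le_div_iff₀ hK0]
      exact h7

theorem pow_sub_pow (ω ω' : ℂ) (h : ‖ω‖ ≤ 1) (h' : ‖ω'‖ ≤ 1) (n : ℕ) :
    ‖ω ^ n - ω' ^ n‖ ≤ n * ‖ω - ω'‖ := by
  induction n with
  | zero => simp
  | succ n ih =>
    have e : ω ^ (n + 1) - ω' ^ (n + 1) = (ω ^ n - ω' ^ n) * ω + ω' ^ n * (ω - ω') := by ring
    rw [e]
    refine (norm_add_le _ _).trans ?_
    rw [norm_mul, norm_mul, norm_pow]
    have h1 : ‖ω ^ n - ω' ^ n‖ * ‖ω‖ ≤ n * ‖ω - ω'‖ * 1 :=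
      mul_le_mul ih h (norm_nonneg _) (by positivity)
    have h2 : ‖ω'‖ ^ n * ‖ω - ω'‖ ≤ 1 * ‖ω - ω'‖ :=
      mul_le_mul_of_nonneg_right (pow_le_one₀ (norm_nonneg _) h') (norm_nonneg _)
    push_cast
    linarith

/-- Hölder's inequality in the form used by Burgess -/
theorem holder {α β : Type} [DecidableEq α] [DecidableEq β] (S : Finset α) (T : Finset β)
    (g : α → β) (hg : ∀ s ∈ S, g s ∈ T) (W : β → ℝ) (hW : ∀ t, 0 ≤ W t) (r : ℕ) (hr : 1 ≤ r) :
    (∑ s ∈ S, W (g s)) ^ (2 * r) ≤ (#S : ℝ) ^ (2 * (r - 1)) *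
      (#((S ×ˢ S).filter fun q => g q.1 = g q.2) : ℝ) * ∑ t ∈ T, W t ^ (2 * r) := by
  obtain ⟨n, rfl⟩ : ∃ n, r = n + 1 := ⟨r - 1, by omega⟩
  rw [Nat.add_sub_cancel]
  rcases S.eq_empty_or_nonempty with hS | hS
  · subst hS
    simp
  have hS0 : (0 : ℝ) < #S := by exact_mod_cast hS.card_pos
  have h1 : (∑ s ∈ S, W (g s)) ^ (n + 1) ≤ (#S : ℝ) ^ n * ∑ s ∈ S, W (g s) ^ (n + 1) := by
    have := pow_sum_div_card_le_sum_pow (s := S) (f := fun s => W (g s)) (fun s _ => hW _) n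
    rw [div_le_iff₀ (by positivity)] at this
    linarith
  have h2 : ∑ s ∈ S, W (g s) ^ (n + 1) =
      ∑ t ∈ T, (#(S.filter fun s => g s = t) : ℝ) * W t ^ (n + 1) := by
    rw [← sum_fiberwise_of_maps_to hg]
    refine sum_congr rfl fun t _ => ?_
    rw [← nsmul_eq_mul, ← sum_const]
    refine sum_congr rfl fun s hs => ?_
    rw [(mem_filter.mp hs).2]
  have h3 : ∑ t ∈ T, (#(S.filter fun s => g s = t) : ℝ) ^ 2 =
      (#((S ×ˢ S).filter fun q => g q.1 = g q.2) : ℝ) := by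
    have h4 : #((S ×ˢ S).filter fun q => g q.1 = g q.2) =
        ∑ t ∈ T, #(S.filter fun s => g s = t) ^ 2 := by
      rw [card_eq_sum_card_fiberwise (f := fun q : α × α => g q.1) (t := T)]
      · refine sum_congr rfl fun t _ => ?_
        rw [sq, ← card_product]
        congr 1
        ext q
        simp only [mem_filter, mem_product]
        constructor
        · rintro ⟨⟨⟨h1, h2⟩, h3⟩, h4⟩
          exact ⟨⟨h1, h4⟩, h2, h3.symm.trans h4⟩
        · rintro ⟨⟨h1, h4⟩, h2, h3⟩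
          exact ⟨⟨⟨h1, h2⟩, h4.trans h3.symm⟩, h4⟩
      · intro q hq
        rw [mem_coe, mem_filter, mem_product] at hq
        exact hg _ hq.1.1
    rw [h4]
    push_cast
    rfl
  have h5 := sum_mul_sq_le_sq_mul_sq T (fun t => (#(S.filter fun s => g s = t) : ℝ))
    (fun t => W t ^ (n + 1))
  rw [h3, ← h2] at h5
  have h6 : ∀ t, (W t ^ (n + 1)) ^ 2 = W t ^ (2 * (n + 1)) := by
    intro t; rw [← pow_mul, mul_comm]
  simp only [h6] at h5
  have h7 : 0 ≤ ∑ s ∈ S, W (g s) := sum_nonneg fun s _ => hW _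
  calc (∑ s ∈ S, W (g s)) ^ (2 * (n + 1)) = ((∑ s ∈ S, W (g s)) ^ (n + 1)) ^ 2 := by
        rw [← pow_mul, mul_comm]
    _ ≤ ((#S : ℝ) ^ n * ∑ s ∈ S, W (g s) ^ (n + 1)) ^ 2 :=
        pow_le_pow_left₀ (by positivity) h1 2
    _ = (#S : ℝ) ^ (2 * n) * (∑ s ∈ S, W (g s) ^ (n + 1)) ^ 2 := by
        rw [mul_pow, ← pow_mul, mul_comm n 2]
    _ ≤ (#S : ℝ) ^ (2 * n) * ((#((S ×ˢ S).filter fun q => g q.1 = g q.2) : ℝ) *
          ∑ t ∈ T, W t ^ (2 * (n + 1))) :=
        mul_le_mul_of_nonneg_left h5 (by positivity)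
    _ = _ := by ring


omit [DecidableEq ι] in
theorem linN_smul {p : ℕ} (b : ι → ZMod p) (x : ℕ) (m : ι → ℕ) :
    linN b (fun i => x * m i) = (x : ZMod p) * linN b m := by
  unfold linN
  rw [mul_sum]
  refine sum_congr rfl fun i _ => ?_
  push_cast
  ring

/-- the inner sums -/
noncomputable def WW {p : ℕ} [Fact p.Prime] (χ : MulChar (ZMod p) ℂ) (X : ℕ)
    (t : ZMod p × ℤ) : ℝ :=
  ‖∑ x ∈ range X, (Complex.exp (Complex.I * ((2 * Real.pi * t.2 / (X ^ 2 : ℕ) : ℝ) : ℂ))) ^ x *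
    χ (t.1 + (x : ZMod p))‖

theorem norm_root (y : ℝ) : ‖Complex.exp (Complex.I * (y : ℂ))‖ = 1 := by
  rw [mul_comm]; exact Complex.norm_exp_ofReal_mul_I y

theorem inner_bound {p : ℕ} [Fact p.Prime] (χ : MulChar (ZMod p) ℂ) (ψ : AddChar (ZMod p) ℂ)
    (X : ℕ) (hX : 1 ≤ X) (z c y : ZMod p) (hy : y ≠ 0) (k : ℤ)
    (hk : ‖ψ y - Complex.exp (Complex.I * ((2 * Real.pi * k / (X ^ 2 : ℕ) : ℝ) : ℂ))‖ ≤
      2 * Real.pi / (X ^ 2 : ℕ)) :
    ‖∑ x ∈ range X, χ (z + (c + (x : ZMod p) * y)) * ψ (c + (x : ZMod p) * y)‖ ≤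
      WW χ X ((z + c) / y, k) + 7 := by
  set ω := Complex.exp (Complex.I * ((2 * Real.pi * k / (X ^ 2 : ℕ) : ℝ) : ℂ)) with hω
  have h1 : ∑ x ∈ range X, χ (z + (c + (x : ZMod p) * y)) * ψ (c + (x : ZMod p) * y) =
      χ y * ψ c * ∑ x ∈ range X, ψ y ^ x * χ ((z + c) / y + (x : ZMod p)) := by
    rw [mul_sum]
    refine sum_congr rfl fun x _ => ?_
    have e1 : z + (c + (x : ZMod p) * y) = y * ((z + c) / y + (x : ZMod p)) := by
      field_simp
      ring
    have e2 : ψ (c + (x : ZMod p) * y) = ψ c * ψ y ^ x := by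
      rw [AddChar.map_add_eq_mul, ← nsmul_eq_mul, AddChar.map_nsmul_eq_pow]
    rw [e1, map_mul, e2]
    ring
  rw [h1, norm_mul, norm_mul, AddChar.norm_apply, mul_one]
  have h2 : ‖χ y‖ ≤ 1 := DirichletCharacter.norm_le_one _ _
  have h3 : ‖∑ x ∈ range X, ψ y ^ x * χ ((z + c) / y + (x : ZMod p))‖ ≤
      WW χ X ((z + c) / y, k) + 7 := by
    have h4 : ∑ x ∈ range X, ψ y ^ x * χ ((z + c) / y + (x : ZMod p)) =
        ∑ x ∈ range X, ω ^ x * χ ((z + c) / y + (x : ZMod p)) +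
        ∑ x ∈ range X, (ψ y ^ x - ω ^ x) * χ ((z + c) / y + (x : ZMod p)) := by
      rw [← sum_add_distrib]
      refine sum_congr rfl fun x _ => ?_
      ring
    rw [h4]
    refine (norm_add_le _ _).trans ?_
    have h5 : ‖∑ x ∈ range X, (ψ y ^ x - ω ^ x) * χ ((z + c) / y + (x : ZMod p))‖ ≤ 7 := by
      have hX0 : (0 : ℝ) < X := by exact_mod_cast hX
      have h6 : ∀ x ∈ range X, ‖(ψ y ^ x - ω ^ x) * χ ((z + c) / y + (x : ZMod p))‖ ≤
          X * (2 * Real.pi / (X ^ 2 : ℕ)) := by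
        intro x hx
        rw [norm_mul]
        have h7 : ‖χ ((z + c) / y + (x : ZMod p))‖ ≤ 1 := DirichletCharacter.norm_le_one _ _
        have h8 := pow_sub_pow (ψ y) ω (by rw [AddChar.norm_apply]) (by
          rw [hω, norm_root]) x
        have h9 : (x : ℝ) ≤ X := by exact_mod_cast (mem_range.mp hx).le
        calc ‖ψ y ^ x - ω ^ x‖ * ‖χ ((z + c) / y + (x : ZMod p))‖
            ≤ (x * ‖ψ y - ω‖) * 1 := mul_le_mul h8 h7 (norm_nonneg _) (by positivity)
          _ ≤ X * (2 * Real.pi / (X ^ 2 : ℕ)) := by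
            rw [mul_one]
            exact mul_le_mul h9 hk (norm_nonneg _) (by positivity)
      refine (norm_sum_le _ _).trans ((sum_le_sum h6).trans ?_)
      rw [sum_const, card_range, nsmul_eq_mul]
      have h10 : (X : ℝ) * (X * (2 * Real.pi / (X ^ 2 : ℕ))) = 2 * Real.pi := by
        push_cast
        field_simp
      rw [h10]
      linarith [Real.pi_lt_d2]
    have h11 : ‖∑ x ∈ range X, ω ^ x * χ ((z + c) / y + (x : ZMod p))‖ =
        WW χ X ((z + c) / y, k) := rfl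
    rw [h11]
    linarith
  calc ‖χ y‖ * ‖∑ x ∈ range X, ψ y ^ x * χ ((z + c) / y + (x : ZMod p))‖
      ≤ 1 * ‖∑ x ∈ range X, ψ y ^ x * χ ((z + c) / y + (x : ZMod p))‖ :=
        mul_le_mul_of_nonneg_right h2 (norm_nonneg _)
    _ ≤ _ := by rw [one_mul]; exact h3

/-- the Burgess averaging step -/
theorem core {p : ℕ} [Fact p.Prime] (b : ι → ZMod p) (H H' : ι → ℕ) (X : ℕ) (hX : 1 ≤ X)
    {ε : ℝ} (hε0 : 0 ≤ ε) (hε1 : ε ≤ 1) (hsm : ∀ i, (X : ℝ) * H' i ≤ ε * H i)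
    (hne : ∀ m ∈ bx (fun i => H' i + 1), m ≠ 0 → linN b m ≠ 0)
    (χ : MulChar (ZMod p) ℂ) (ψ : AddChar (ZMod p) ℂ) (z : ZMod p) (Y : Finset (ι → ℕ))
    (hY : Y = (bx (fun i => H' i + 1)).filter (fun m => m ≠ 0)) :
    ∃ g : (ι → ℕ) × (ι → ℕ) → ZMod p × ℤ,
      (∀ s ∈ bx H ×ˢ Y, g s ∈ (univ : Finset (ZMod p)) ×ˢ
        Finset.Icc (-((X ^ 2 : ℕ) : ℤ)) ((X ^ 2 : ℕ) : ℤ)) ∧
      (∀ s ∈ bx H ×ˢ Y, ∀ s' ∈ bx H ×ˢ Y, g s = g s' →
        (z + linN b s.1) * linN b s'.2 = (z + linN b s'.1) * linN b s.2) ∧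
      (X * #Y : ℝ) * ‖∑ n ∈ bx H, χ (z + linN b n) * ψ (linN b n)‖ ≤
        ∑ s ∈ bx H ×ˢ Y, WW χ X (g s) + 7 * ((∏ i, (H i : ℝ)) * #Y) +
          X * #Y * (2 * (Fintype.card ι * ε * ∏ i, (H i : ℝ))) := by
  set F : (ι → ℕ) → ℂ := fun n => χ (z + linN b n) * ψ (linN b n) with hF
  have hF1 : ∀ n, ‖F n‖ ≤ 1 := by
    intro n
    rw [hF, norm_mul, AddChar.norm_apply, mul_one]
    exact DirichletCharacter.norm_le_one _ _
  have hK : 1 ≤ X ^ 2 := Nat.one_le_pow _ _ hX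
  choose k hk1 hk2 using fun y : ZMod p =>
    round (X ^ 2) hK (ψ y) (AddChar.norm_apply ψ y)
  have hYne : ∀ m ∈ Y, linN b m ≠ 0 := by
    intro m hm
    rw [hY, mem_filter] at hm
    exact hne m hm.1 hm.2
  have hYle : ∀ m ∈ Y, ∀ i, m i ≤ H' i := by
    intro m hm i
    rw [hY, mem_filter, mem_bx] at hm
    exact Nat.lt_succ_iff.mp (hm.1 i)
  refine ⟨fun s => ((z + linN b s.1) / linN b s.2, k (linN b s.2)), ?_, ?_, ?_⟩
  · intro s _
    rw [mem_product]
    exact ⟨mem_univ _, hk1 _⟩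
  · intro s hs s' hs' hss
    have h1 := (Prod.mk.injEq _ _ _ _ ▸ hss : _ ∧ _).1
    rw [mem_product] at hs hs'
    exact (div_eq_div_iff (hYne _ hs.2) (hYne _ hs'.2)).mp h1
  · set Sg := ∑ n ∈ bx H, F n with hSg
    -- shifted sums
    have h1 : ∀ m ∈ Y, ∀ x ∈ range X,
        ‖Sg - ∑ n ∈ bx H, F (fun i => n i + x * m i)‖ ≤
          2 * (Fintype.card ι * ε * ∏ i, (H i : ℝ)) := by
      intro m hm x hx
      refine shift H (fun i => x * m i) hε0 hε1 (fun i => ?_) F hF1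
      refine le_trans ?_ (hsm i)
      rw [mem_range] at hx
      have h2 : x * m i ≤ X * H' i := Nat.mul_le_mul hx.le (hYle m hm i)
      exact_mod_cast h2
    have h2 : ‖∑ m ∈ Y, ∑ x ∈ range X, (Sg - ∑ n ∈ bx H, F (fun i => n i + x * m i))‖ ≤
        X * #Y * (2 * (Fintype.card ι * ε * ∏ i, (H i : ℝ))) := by
      refine (norm_sum_le _ _).trans ?_
      have h3 : ∀ m ∈ Y, ‖∑ x ∈ range X, (Sg - ∑ n ∈ bx H, F (fun i => n i + x * m i))‖ ≤
          X * (2 * (Fintype.card ι * ε * ∏ i, (H i : ℝ))) := by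
        intro m hm
        refine (norm_sum_le _ _).trans ((sum_le_sum (h1 m hm)).trans ?_)
        rw [sum_const, card_range, nsmul_eq_mul]
      refine (sum_le_sum h3).trans ?_
      rw [sum_const, nsmul_eq_mul]
      exact le_of_eq (by ring)
    have h4 : ∑ m ∈ Y, ∑ x ∈ range X, (Sg - ∑ n ∈ bx H, F (fun i => n i + x * m i)) =
        (X * #Y : ℂ) * Sg -
          ∑ s ∈ bx H ×ˢ Y, ∑ x ∈ range X, F (fun i => s.1 i + x * s.2 i) := by
      rw [sum_product_right]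
      simp only [sum_sub_distrib, sum_const, card_range, nsmul_eq_mul]
      congr 1
      · ring
      · refine sum_congr rfl fun m _ => ?_
        rw [sum_comm]
    have h5 : ‖∑ s ∈ bx H ×ˢ Y, ∑ x ∈ range X, F (fun i => s.1 i + x * s.2 i)‖ ≤
        ∑ s ∈ bx H ×ˢ Y, WW χ X ((z + linN b s.1) / linN b s.2, k (linN b s.2)) +
          7 * ((∏ i, (H i : ℝ)) * #Y) := by
      refine (norm_sum_le _ _).trans ?_
      have h6 : ∀ s ∈ bx H ×ˢ Y, ‖∑ x ∈ range X, F (fun i => s.1 i + x * s.2 i)‖ ≤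
          WW χ X ((z + linN b s.1) / linN b s.2, k (linN b s.2)) + 7 := by
        intro s hs
        rw [mem_product] at hs
        have h7 := inner_bound χ ψ X hX z (linN b s.1) (linN b s.2) (hYne _ hs.2)
          (k (linN b s.2)) (hk2 _)
        refine le_trans (le_of_eq ?_) h7
        congr 1
        refine sum_congr rfl fun x _ => ?_
        simp only [hF]
        rw [linN_add b s.1 (fun i => x * s.2 i), linN_smul]
      refine (sum_le_sum h6).trans ?_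
      rw [sum_add_distrib, sum_const, card_product, card_bx, nsmul_eq_mul]
      push_cast
      exact le_of_eq (by ring)
    rw [h4] at h2
    have h8 : ‖(X * #Y : ℂ) * Sg‖ = (X * #Y : ℝ) * ‖Sg‖ := by
      rw [norm_mul, norm_mul, Complex.norm_natCast, Complex.norm_natCast]
    rw [← h8]
    set R := ∑ s ∈ bx H ×ˢ Y, ∑ x ∈ range X, F (fun i => s.1 i + x * s.2 i)
    calc ‖(X * #Y : ℂ) * Sg‖ = ‖((X * #Y : ℂ) * Sg - R) + R‖ := by rw [sub_add_cancel]
      _ ≤ _ := norm_add_le _ _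
      _ ≤ _ := by linarith


/-- from the moment bound to the sum -/
theorem moment {p : ℕ} [Fact p.Prime] {r : ℕ} {C : ℝ} (hC : 0 ≤ C)
    (hM : ∀ (χ : MulChar (ZMod p) ℂ), χ ≠ 1 → ∀ (X : ℕ), X ≤ p → ∀ c : ℕ → ℂ, (∀ x, ‖c x‖ ≤ 1) →
      ∑ u : ZMod p, ‖∑ x ∈ range X, c x * χ (u + (x : ZMod p))‖ ^ (2 * r) ≤
        C * ((X : ℝ) ^ r * p + (X : ℝ) ^ (2 * r) * Real.sqrt p))
    (χ : MulChar (ZMod p) ℂ) (hχ : χ ≠ 1) (X : ℕ) (hX : 1 ≤ X) (hXp : X ≤ p)
    (hXr : Real.sqrt p ≤ (X : ℝ) ^ r) :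
    ∑ t ∈ (univ : Finset (ZMod p)) ×ˢ Finset.Icc (-((X ^ 2 : ℕ) : ℤ)) ((X ^ 2 : ℕ) : ℤ),
      WW χ X t ^ (2 * r) ≤ 6 * C * (X : ℝ) ^ 2 * (X : ℝ) ^ (2 * r) * Real.sqrt p := by
  rw [sum_product_right]
  have hX0 : (1 : ℝ) ≤ X := by exact_mod_cast hX
  have h1 : ∀ k ∈ Finset.Icc (-((X ^ 2 : ℕ) : ℤ)) ((X ^ 2 : ℕ) : ℤ),
      ∑ u : ZMod p, WW χ X (u, k) ^ (2 * r) ≤ 2 * C * (X : ℝ) ^ (2 * r) * Real.sqrt p := by
    intro k _
    have h2 := hM χ hχ X hXp (fun x =>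
      (Complex.exp (Complex.I * ((2 * Real.pi * k / (X ^ 2 : ℕ) : ℝ) : ℂ))) ^ x)
      (fun x => by rw [norm_pow, norm_root, one_pow])
    refine h2.trans ?_
    have h3 : (X : ℝ) ^ r * p ≤ (X : ℝ) ^ (2 * r) * Real.sqrt p := by
      have h4 : (p : ℝ) = Real.sqrt p * Real.sqrt p := (Real.mul_self_sqrt (Nat.cast_nonneg p)).symm
      have h5 : (X : ℝ) ^ (2 * r) = (X : ℝ) ^ r * (X : ℝ) ^ r := by rw [two_mul, pow_add]
      rw [h5]
      calc (X : ℝ) ^ r * p = (X : ℝ) ^ r * (Real.sqrt p * Real.sqrt p) := by rw [← h4]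
        _ ≤ (X : ℝ) ^ r * ((X : ℝ) ^ r * Real.sqrt p) := by gcongr
        _ = _ := by ring
    have h6 := mul_le_mul_of_nonneg_left h3 hC
    linarith
  refine (sum_le_sum h1).trans ?_
  rw [sum_const, Int.card_Icc, nsmul_eq_mul]
  have h7 : (((((X ^ 2 : ℕ) : ℤ) + 1 - -((X ^ 2 : ℕ) : ℤ)).toNat : ℕ) : ℝ) ≤ 3 * (X : ℝ) ^ 2 := by
    have h8 : (((X ^ 2 : ℕ) : ℤ) + 1 - -((X ^ 2 : ℕ) : ℤ)).toNat = 2 * X ^ 2 + 1 := by
      rw [show ((X ^ 2 : ℕ) : ℤ) + 1 - -((X ^ 2 : ℕ) : ℤ) = ((2 * X ^ 2 + 1 : ℕ) : ℤ) by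
        push_cast; ring]
      rfl
    rw [h8]
    push_cast
    nlinarith
  calc _ ≤ (3 * (X : ℝ) ^ 2) * (2 * C * (X : ℝ) ^ (2 * r) * Real.sqrt p) :=
        mul_le_mul_of_nonneg_right h7 (by positivity)
    _ = _ := by ring

/-- the algebra of Hölder's inequality -/
theorem finish {r : ℕ} (hr : 1 ≤ r) {Q A X E C D : ℝ} (hA : 0 < A) (hX : 0 ≤ X)
    (hE : 0 ≤ E) (hD : 0 < D) (h : Q ^ (2 * r) ≤ A ^ (2 * (r - 1)) * (E * (2 * A)) *
      (6 * C * X ^ 2 * X ^ (2 * r) * D)) (hC : 0 ≤ C) {ρ : ℝ} (hρ : 0 ≤ ρ)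
    (hb : 12 * C * E * X ^ 2 * D ≤ ρ ^ (2 * r) * A) : Q ≤ A * X * ρ := by
  obtain ⟨n, rfl⟩ : ∃ n, r = n + 1 := ⟨r - 1, by omega⟩
  rw [Nat.add_sub_cancel] at h
  have h1 : Q ^ (2 * (n + 1)) ≤ (A * X * ρ) ^ (2 * (n + 1)) := by
    refine h.trans ?_
    calc A ^ (2 * n) * (E * (2 * A)) * (6 * C * X ^ 2 * X ^ (2 * (n + 1)) * D)
        = (A ^ (2 * n) * A * X ^ (2 * (n + 1))) * (12 * C * E * X ^ 2 * D) := by ring
      _ ≤ (A ^ (2 * n) * A * X ^ (2 * (n + 1))) * (ρ ^ (2 * (n + 1)) * A) :=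
          mul_le_mul_of_nonneg_left hb (by positivity)
      _ = (A * X * ρ) ^ (2 * (n + 1)) := by
          rw [mul_pow, mul_pow]
          have : A ^ (2 * (n + 1)) = A ^ (2 * n) * A * A := by ring
          rw [this]; ring
  have h2 : 0 ≤ A * X * ρ := by positivity
  exact le_of_pow_le_pow_left₀ (by omega) h2 h1

end Burg

open Burg Tile

theorem specBurg (hE : SpecEn2) (hM : SpecMom) : SpecBurg := by
  intro d δ hδ hδ8
  have hd0 : (0 : ℝ) ≤ d := Nat.cast_nonneg _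
  set kp : ℝ := δ / (8 * (d + 1)) with hkp
  have hkp0 : 0 < kp := by positivity
  have hkpd : (d + 1) * kp = δ / 8 := by rw [hkp]; field_simp
  have hkp1 : kp ≤ 1 := by
    have : kp ≤ (d + 1) * kp := by nlinarith
    linarith
  set r : ℕ := ⌈1 / kp⌉₊ + 1 with hr
  have hr1 : 1 ≤ r := by omega
  have hrkp : 1 ≤ kp * r := by
    have h1 : 1 / kp ≤ r := by
      rw [hr]; push_cast
      linarith [Nat.le_ceil (1 / kp)]
    rw [div_le_iff₀ hkp0] at h1
    linarith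
  have hr0 : (0 : ℝ) < r := by exact_mod_cast hr1
  obtain ⟨C₀, hC₀⟩ := hM r hr1
  set C : ℝ := max C₀ 1 with hC
  have hC1 : 1 ≤ C := le_max_right _ _
  set τ : ℝ := min (δ / (2 * r)) kp / 2 with hτ
  have hτ0 : 0 < τ := by
    have := lt_min (show 0 < δ / (2 * r) by positivity) hkp0
    rw [hτ]; linarith
  have hτ1 : 2 * τ ≤ δ / (2 * r) := by rw [hτ]; linarith [min_le_left (δ / (2 * r)) kp]
  have hτ2 : 2 * τ ≤ kp := by rw [hτ]; linarith [min_le_right (δ / (2 * r)) kp]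
  refine ⟨τ, hτ0, ?_⟩
  intro η hη
  obtain ⟨P₁, hP₁⟩ := hE d (δ / 4) η δ (by positivity) hη hδ
  have hlarge : ∀ (M s : ℝ), 0 < s → ∀ᶠ x : ℕ in Filter.atTop, M ≤ (x : ℝ) ^ s := fun M s hs =>
    ((tendsto_rpow_atTop hs).comp tendsto_natCast_atTop_atTop).eventually_ge_atTop _
  obtain ⟨P₂, hP₂⟩ := Filter.eventually_atTop.mp ((hlarge 2 kp hkp0).and
    ((hlarge (2 ^ r) (1 / 2) (by norm_num)).and ((hlarge 2 (1 / 4) (by norm_num)).and
    ((hlarge (24 * C) (δ / 2) (by positivity)).and (hlarge (15 + 2 * d) τ hτ0)))))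
  refine ⟨max P₁ (max P₂ 2), ?_⟩
  intro p _ hp ι _ _ hcard b H hH hprop hlo hhi χ hχ ψ z
  obtain ⟨hL1, hL2, hL3, hL4, hL5⟩ := hP₂ p (by omega)
  have hp1 : (1 : ℝ) ≤ p := by exact_mod_cast (by omega : 1 ≤ p)
  have hp0 : (0 : ℝ) < p := by linarith
  set V : ℝ := ∏ i, (H i : ℝ) with hV
  have hV0 : 0 < V := Finset.prod_pos fun i _ => by exact_mod_cast hH i
  -- parameters
  set y : ℝ := (p : ℝ) ^ kp with hy
  have hy0 : 0 < y := by positivity
  have hyy : (p : ℝ) ^ (2 * kp) = y * y := by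
    rw [hy, ← Real.rpow_add hp0]; congr 1; ring
  set X : ℕ := ⌊y⌋₊ with hX
  have hXy : (X : ℝ) ≤ y := Nat.floor_le hy0.le
  have hX1 : 1 ≤ X := by
    rw [hX, Nat.one_le_floor_iff]; linarith
  have hXlow : y / 2 ≤ X := by
    have h1 := Nat.lt_floor_add_one y
    rw [← hX] at h1
    have h2 : (1 : ℝ) ≤ X := by exact_mod_cast hX1
    linarith
  have hX0 : (0 : ℝ) < X := by exact_mod_cast hX1
  have hXp : X ≤ p := by
    have : (X : ℝ) ≤ p := by
      refine hXy.trans ?_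
      calc y ≤ (p : ℝ) ^ (1 : ℝ) := Real.rpow_le_rpow_of_exponent_le hp1 hkp1
        _ = p := Real.rpow_one _
    exact_mod_cast this
  have hXr : Real.sqrt p ≤ (X : ℝ) ^ r := by
    have h1 : (y / 2) ^ r ≤ (X : ℝ) ^ r := pow_le_pow_left₀ (by positivity) hXlow r
    refine le_trans ?_ h1
    rw [div_pow, le_div_iff₀ (by positivity)]
    have h2 : (p : ℝ) ≤ y ^ r := by
      rw [hy, ← Real.rpow_natCast, ← Real.rpow_mul hp0.le]
      calc (p : ℝ) = (p : ℝ) ^ (1 : ℝ) := (Real.rpow_one _).symm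
        _ ≤ _ := Real.rpow_le_rpow_of_exponent_le hp1 hrkp
    refine le_trans ?_ h2
    calc Real.sqrt p * 2 ^ r ≤ Real.sqrt p * Real.sqrt p := by
          refine mul_le_mul_of_nonneg_left ?_ (Real.sqrt_nonneg _)
          rw [Real.sqrt_eq_rpow]
          exact hL2
      _ = p := Real.mul_self_sqrt hp0.le
  set H' : ι → ℕ := fun i => ⌊(H i : ℝ) / (y * y)⌋₊ with hH'
  have hyy1 : 1 ≤ y * y := by nlinarith
  have hH'1 : ∀ i, (H' i : ℝ) ≤ (H i : ℝ) / (y * y) := fun i => Nat.floor_le (by positivity)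
  have hH'le : ∀ i, H' i ≤ H i := by
    intro i
    have : (H' i : ℝ) ≤ H i := (hH'1 i).trans (div_le_self (Nat.cast_nonneg _) hyy1)
    exact_mod_cast this
  have hsm : ∀ i, (X : ℝ) * H' i ≤ (1 / y) * H i := by
    intro i
    calc (X : ℝ) * H' i ≤ y * ((H i : ℝ) / (y * y)) :=
          mul_le_mul hXy (hH'1 i) (Nat.cast_nonneg _) hy0.le
      _ = (1 / y) * H i := by field_simp
  have hne : ∀ m ∈ bx (fun i => H' i + 1), m ≠ 0 → linN b m ≠ 0 := by
    intro m hm hm0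
    rw [mem_bx] at hm
    have h1 := hprop (fun i => (m i : ℤ)) (fun h0 => hm0 (by
      funext i
      have := congrFun h0 i
      simpa using this)) (fun i => by
        have h2 : m i ≤ H i := (Nat.lt_succ_iff.mp (hm i)).trans (hH'le i)
        have h3 : (m i : ℝ) ≤ H i := by exact_mod_cast h2
        have h4 : 1 ≤ (p : ℝ) ^ η := Real.one_le_rpow hp1 hη.le
        have h5 : (0 : ℝ) ≤ H i := Nat.cast_nonneg _
        rw [Int.cast_natCast, abs_of_nonneg (Nat.cast_nonneg _)]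
        nlinarith)
    have h2 : lin b (fun i => (m i : ℤ)) = linN b m := by
      unfold lin linN
      refine sum_congr rfl fun i _ => ?_
      push_cast
      rfl
    rwa [h2] at h1
  set Y : Finset (ι → ℕ) := (bx (fun i => H' i + 1)).filter (fun m => m ≠ 0) with hY
  set N : ℝ := ∏ i, ((H' i : ℝ) + 1) with hN
  have hYcard : (#Y : ℝ) = N - 1 := by
    have h0 : (0 : ι → ℕ) ∈ bx (fun i => H' i + 1) := by
      rw [mem_bx]; intro i; simp
    have h1 : Y = (bx (fun i => H' i + 1)).erase 0 := by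
      rw [hY, Finset.filter_ne']
    rw [h1, card_erase_of_mem h0, Nat.cast_sub (card_pos.mpr ⟨0, h0⟩), card_bx]
    rw [hN]
    push_cast
    rfl
  have hN1 : V / (y * y) ^ d ≤ N := by
    have h1 : ∏ i, ((H i : ℝ) / (y * y)) = V / (y * y) ^ d := by
      rw [Finset.prod_div_distrib, Finset.prod_const, Finset.card_univ, hcard]
    rw [← h1]
    refine Finset.prod_le_prod (fun i _ => by positivity) fun i _ => ?_
    exact (Nat.lt_floor_add_one _).le
  have hyyd : (y * y) ^ d = (p : ℝ) ^ (2 * d * kp) := by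
    rw [← hyy, ← Real.rpow_natCast, ← Real.rpow_mul hp0.le]; congr 1; ring
  have h2dk : 2 * d * kp ≤ δ / 4 := by nlinarith
  have hVN : (p : ℝ) ^ (1 / 2 + 2 * δ - 2 * d * kp) ≤ V * N := by
    have h1 : (p : ℝ) ^ (1 / 2 + 2 * δ - 2 * d * kp) =
        (p : ℝ) ^ (1 / 4 + δ) * ((p : ℝ) ^ (1 / 4 + δ) / (y * y) ^ d) := by
      rw [hyyd, ← Real.rpow_sub hp0, ← Real.rpow_add hp0]; congr 1; ring
    rw [h1]
    refine mul_le_mul hlo ?_ (by positivity) hV0.le
    exact le_trans (div_le_div_of_nonneg_right hlo (by positivity)) hN1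
  have hN2 : 2 ≤ N := by
    refine hL3.trans (le_trans ?_ hN1)
    rw [le_div_iff₀ (by positivity), hyyd, ← Real.rpow_add hp0]
    refine le_trans (Real.rpow_le_rpow_of_exponent_le hp1 ?_) hlo
    linarith
  have hY0 : (1 : ℝ) ≤ #Y := by rw [hYcard]; linarith
  have hYN : N ≤ 2 * #Y := by rw [hYcard]; linarith
  set A : ℝ := V * #Y with hA
  have hA0 : 0 < A := by positivity
  have hAlow : (p : ℝ) ^ (1 / 2 + 2 * δ - 2 * d * kp) ≤ 2 * A := by
    refine hVN.trans ?_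
    rw [hA]
    nlinarith [mul_le_mul_of_nonneg_left hYN hV0.le]
  -- the averaging step
  obtain ⟨g, hg1, hg2, hg3⟩ := core b H H' X hX1 (ε := 1 / y) (by positivity)
    (by rw [div_le_one hy0]; linarith) hsm hne χ ψ z Y hY
  have hcardS : (#(bx H ×ˢ Y) : ℝ) = A := by
    rw [card_product, card_bx, hA, hV]; push_cast; rfl
  have hcount : (#(((bx H ×ˢ Y) ×ˢ (bx H ×ˢ Y)).filter fun q => g q.1 = g q.2) : ℝ) ≤
      (p : ℝ) ^ (δ / 4) * (2 * A) := by
    have h1 := hP₁ p (by omega) ι hcard b H H' hH hH'le hprop hhi z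
    have h2 : #(((bx H ×ˢ Y) ×ˢ (bx H ×ˢ Y)).filter fun q => g q.1 = g q.2) ≤
        #(((bx H ×ˢ bx (fun i => H' i + 1)) ×ˢ (bx H ×ˢ bx (fun i => H' i + 1))).filter
        (fun q => q.1.2 ≠ 0 ∧ q.2.2 ≠ 0 ∧
          (z + linN b q.1.1) * linN b q.2.2 = (z + linN b q.2.1) * linN b q.1.2)) := by
      refine card_le_card ?_
      intro q hq
      rw [mem_filter, mem_product] at hq
      obtain ⟨⟨hq1, hq2⟩, hq3⟩ := hq
      have h3 := hg2 q.1 hq1 q.2 hq2 hq3
      rw [mem_product] at hq1 hq2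
      have h4 := (mem_filter.mp (hY ▸ hq1.2))
      have h5 := (mem_filter.mp (hY ▸ hq2.2))
      rw [mem_filter, mem_product, mem_product, mem_product]
      exact ⟨⟨⟨hq1.1, h4.1⟩, hq2.1, h5.1⟩, h4.2, h5.2, h3⟩
    refine (Nat.cast_le.mpr h2).trans (h1.trans ?_)
    rw [hA]
    have h6 : 0 ≤ (p : ℝ) ^ (δ / 4) * V := by positivity
    calc (p : ℝ) ^ (δ / 4) * V * N ≤ (p : ℝ) ^ (δ / 4) * V * (2 * #Y) :=
          mul_le_mul_of_nonneg_left hYN h6
      _ = _ := by ring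
  have hmom := moment (p := p) (r := r) (C := C) (by linarith) (fun χ' hχ' X' hX' c hc => by
    refine (hC₀ p χ' hχ' X' hX' c hc).trans ?_
    exact mul_le_mul_of_nonneg_right (le_max_left _ _) (by positivity)) χ hχ X hX1 hXp hXr
  have hhol := holder (bx H ×ˢ Y) _ g hg1 (WW χ X) (fun t => norm_nonneg _) r hr1
  rw [hcardS] at hhol
  set Q := ∑ s ∈ bx H ×ˢ Y, WW χ X (g s) with hQ
  have hQ1 : Q ^ (2 * r) ≤ A ^ (2 * (r - 1)) * ((p : ℝ) ^ (δ / 4) * (2 * A)) *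
      (6 * C * (X : ℝ) ^ 2 * (X : ℝ) ^ (2 * r) * Real.sqrt p) := by
    refine hhol.trans ?_
    refine mul_le_mul ?_ hmom (sum_nonneg fun t _ => by
      have : 0 ≤ WW χ X t := norm_nonneg _
      positivity) (by positivity)
    exact mul_le_mul_of_nonneg_left hcount (by positivity)
  have hρ : ((p : ℝ) ^ (-(δ / (2 * r)))) ^ (2 * r) = (p : ℝ) ^ (-δ) := by
    rw [← Real.rpow_natCast, ← Real.rpow_mul hp0.le]
    congr 1
    push_cast
    field_simp
  have hQ2 : Q ≤ A * X * (p : ℝ) ^ (-(δ / (2 * r))) := by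
    refine finish hr1 hA0 hX0.le (by positivity) (Real.sqrt_pos.mpr hp0) hQ1 (by linarith)
      (by positivity) ?_
    rw [hρ]
    have h1 : (X : ℝ) ^ 2 ≤ (p : ℝ) ^ (2 * kp) := by
      rw [hyy, ← sq]
      exact pow_le_pow_left₀ hX0.le hXy 2
    have h2 : 24 * C * (p : ℝ) ^ (δ / 4) * (p : ℝ) ^ (2 * kp) * (p : ℝ) ^ (1 / 2 : ℝ) ≤
        (p : ℝ) ^ (-δ) * (p : ℝ) ^ (1 / 2 + 2 * δ - 2 * d * kp) := by
      have h3 : (p : ℝ) ^ (-δ) * (p : ℝ) ^ (1 / 2 + 2 * δ - 2 * d * kp) =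
          (p : ℝ) ^ (3 * δ / 4 - 2 * d * kp - 2 * kp) * ((p : ℝ) ^ (δ / 4) *
            (p : ℝ) ^ (2 * kp) * (p : ℝ) ^ (1 / 2 : ℝ)) := by
        rw [← Real.rpow_add hp0, ← Real.rpow_add hp0, ← Real.rpow_add hp0, ← Real.rpow_add hp0]
        congr 1; ring
      have h4 : 24 * C ≤ (p : ℝ) ^ (3 * δ / 4 - 2 * d * kp - 2 * kp) := by
        refine hL4.trans (Real.rpow_le_rpow_of_exponent_le hp1 ?_)
        nlinarith
      rw [h3]
      have h5 : 0 ≤ (p : ℝ) ^ (δ / 4) * (p : ℝ) ^ (2 * kp) * (p : ℝ) ^ (1 / 2 : ℝ) := by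
        positivity
      calc _ = 24 * C * ((p : ℝ) ^ (δ / 4) * (p : ℝ) ^ (2 * kp) * (p : ℝ) ^ (1 / 2 : ℝ)) := by
            ring
        _ ≤ _ := mul_le_mul_of_nonneg_right h4 h5
    rw [Real.sqrt_eq_rpow]
    have h6 : 12 * C * (p : ℝ) ^ (δ / 4) * (X : ℝ) ^ 2 * (p : ℝ) ^ (1 / 2 : ℝ) ≤
        12 * C * (p : ℝ) ^ (δ / 4) * (p : ℝ) ^ (2 * kp) * (p : ℝ) ^ (1 / 2 : ℝ) := by
      have : (0 : ℝ) ≤ 12 * C * (p : ℝ) ^ (δ / 4) := by
        have := hC1
        positivity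
      exact mul_le_mul_of_nonneg_right (mul_le_mul_of_nonneg_left h1 this) (by positivity)
    have h7 : (p : ℝ) ^ (-δ) * (p : ℝ) ^ (1 / 2 + 2 * δ - 2 * d * kp) ≤
        (p : ℝ) ^ (-δ) * (2 * A) := mul_le_mul_of_nonneg_left hAlow (by positivity)
    linarith
  -- conclusion
  rw [hcard] at hg3
  have hXY : 0 < (X : ℝ) * #Y := by positivity
  have h1 : (X * #Y : ℝ) * ‖∑ n ∈ bx H, χ (z + linN b n) * ψ (linN b n)‖ ≤
      (X * #Y : ℝ) * (((p : ℝ) ^ (-(δ / (2 * r))) + 14 * (1 / y) + 2 * d * (1 / y)) * V) := by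
    refine hg3.trans ?_
    have h2 : 7 * (V * #Y) ≤ (X * #Y : ℝ) * (14 * (1 / y) * V) := by
      have h3 : 1 ≤ X * (2 * (1 / y)) := by
        have : X * (2 * (1 / y)) = (2 * X) / y := by ring
        rw [this, le_div_iff₀ hy0]
        linarith
      have h4 : 0 ≤ V * #Y := hA0.le
      calc 7 * (V * #Y) = 7 * (V * #Y) * 1 := (mul_one _).symm
        _ ≤ 7 * (V * #Y) * (X * (2 * (1 / y))) :=
            mul_le_mul_of_nonneg_left h3 (by positivity)
        _ = _ := by ring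
    have h5 : A * X * (p : ℝ) ^ (-(δ / (2 * r))) =
        (X * #Y : ℝ) * ((p : ℝ) ^ (-(δ / (2 * r))) * V) := by rw [hA]; ring
    calc Q + 7 * (V * #Y) + X * #Y * (2 * (d * (1 / y) * V))
        ≤ (X * #Y : ℝ) * ((p : ℝ) ^ (-(δ / (2 * r))) * V) + (X * #Y : ℝ) * (14 * (1 / y) * V) +
          X * #Y * (2 * (d * (1 / y) * V)) := by linarith
      _ = _ := by ring
  have h2 := le_of_mul_le_mul_left h1 hXY
  refine h2.trans (mul_le_mul_of_nonneg_right ?_ hV0.le)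
  have h3 : (p : ℝ) ^ (-(δ / (2 * r))) ≤ (p : ℝ) ^ (-(2 * τ)) :=
    Real.rpow_le_rpow_of_exponent_le hp1 (by linarith)
  have h4 : 1 / y ≤ (p : ℝ) ^ (-(2 * τ)) := by
    rw [hy, one_div, ← Real.rpow_neg hp0.le]
    exact Real.rpow_le_rpow_of_exponent_le hp1 (by linarith)
  have h5 : (p : ℝ) ^ (-(2 * τ)) = (p : ℝ) ^ (-τ) * (p : ℝ) ^ (-τ) := by
    rw [← Real.rpow_add hp0]; congr 1; ring
  have h6 : (p : ℝ) ^ (-τ) * (p : ℝ) ^ τ = 1 := by
    rw [← Real.rpow_add hp0, neg_add_cancel, Real.rpow_zero]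
  calc (p : ℝ) ^ (-(δ / (2 * r))) + 14 * (1 / y) + 2 * d * (1 / y)
      ≤ (p : ℝ) ^ (-(2 * τ)) + 14 * (p : ℝ) ^ (-(2 * τ)) + 2 * d * (p : ℝ) ^ (-(2 * τ)) := by
        gcongr
    _ = (p : ℝ) ^ (-τ) * ((15 + 2 * d) * (p : ℝ) ^ (-τ)) := by rw [h5]; ring
    _ ≤ (p : ℝ) ^ (-τ) * ((p : ℝ) ^ τ * (p : ℝ) ^ (-τ)) := by gcongr
    _ = (p : ℝ) ^ (-τ) := by rw [mul_comm ((p : ℝ) ^ τ), h6, mul_one]

end MPcb27
end

section
/-!
# MP_cb27ba_nt, project BD: CASEA
-/
set_option autoImplicit false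

namespace MPcb27.CaseA

open Finset MPcb27 MPcb27.Basic

/-- number of `1 ≤ j ≤ m` with `R ^ j ≤ x` -/
noncomputable def kk (R : ℝ) (m : ℕ) (x : ℝ) : ℕ := by
  classical
  exact #((range m).filter (fun j => R ^ (j + 1) ≤ x))

lemma kk_le (R : ℝ) (m : ℕ) (x : ℝ) : kk R m x ≤ m := by
  unfold kk
  exact (card_filter_le _ _).trans (by simp)

/-- the filter is an initial segment -/
lemma filter_eq {R : ℝ} (hR : 1 < R) (m : ℕ) (x : ℝ) (j : ℕ) (hj : j < m) :
    R ^ (j + 1) ≤ x ↔ j < kk R m x := by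
  classical
  constructor
  · intro h
    have : range (j + 1) ⊆ (range m).filter (fun j => R ^ (j + 1) ≤ x) := by
      intro i hi
      rw [mem_range] at hi
      rw [mem_filter, mem_range]
      exact ⟨by omega, le_trans (pow_le_pow_right₀ hR.le (by omega)) h⟩
    have h2 := card_le_card this
    rw [card_range] at h2
    exact h2
  · intro h
    by_contra hc
    have : (range m).filter (fun j => R ^ (j + 1) ≤ x) ⊆ range j := by
      intro i hi
      rw [mem_filter, mem_range] at hi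
      rw [mem_range]
      by_contra hij
      exact hc (le_trans (pow_le_pow_right₀ hR.le (by omega)) hi.2)
    have h2 := card_le_card this
    rw [card_range] at h2
    unfold kk at h
    omega

lemma pow_kk_le {R : ℝ} (hR : 1 < R) (m : ℕ) {x : ℝ} (hx : 1 ≤ x) : R ^ kk R m x ≤ x := by
  rcases Nat.eq_zero_or_pos (kk R m x) with h | h
  · rw [h, pow_zero]; exact hx
  · have h1 := (filter_eq hR m x (kk R m x - 1) (by have := kk_le R m x; omega)).mpr (by omega)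
    rwa [Nat.sub_add_cancel h] at h1

/-- the basic multiplicative estimate -/
lemma max_le_aux {R : ℝ} (hR : 1 < R) (m : ℕ) {x : ℝ} (_hx : 0 < x) :
    max 1 x ≤ R * R ^ kk R m x * max 1 (x / R ^ (m + 1)) := by
  have hR0 : 0 < R := by linarith
  have hpk : (1 : ℝ) ≤ R ^ kk R m x := one_le_pow₀ hR.le
  have hRHS : R ^ (kk R m x + 1) ≤ R * R ^ kk R m x * max 1 (x / R ^ (m + 1)) := by
    rw [pow_succ']
    have : (1 : ℝ) ≤ max 1 (x / R ^ (m + 1)) := le_max_left _ _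
    have h2 : 0 ≤ R * R ^ kk R m x := by positivity
    nlinarith
  refine _root_.max_le ?_ ?_
  · exact le_trans (one_le_pow₀ hR.le) hRHS
  · by_cases h : R ^ (m + 1) ≤ x
    · -- large x
      have hk : kk R m x = m := by
        refine le_antisymm (kk_le _ _ _) ?_
        rcases Nat.eq_zero_or_pos m with h0 | h0
        · omega
        · have := (filter_eq hR m x (m - 1) (by omega)).mp
            (le_trans (pow_le_pow_right₀ hR.le (by omega)) h)
          omega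
      rw [hk]
      have hp : (0 : ℝ) < R ^ (m + 1) := by positivity
      calc x = R ^ (m + 1) * (x / R ^ (m + 1)) := by field_simp
        _ ≤ R ^ (m + 1) * max 1 (x / R ^ (m + 1)) :=
            mul_le_mul_of_nonneg_left (le_max_right _ _) hp.le
        _ = R * R ^ m * max 1 (x / R ^ (m + 1)) := by rw [pow_succ']
    · push Not at h
      refine le_trans ?_ hRHS
      rcases (kk_le R m x).eq_or_lt with hk | hk
      · rw [hk]; exact h.le
      · by_contra hc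
        push Not at hc
        have := (filter_eq hR m x (kk R m x) hk).mp hc.le
        omega

/-- double counting -/
lemma sum_kk {β : Type} [Fintype β] (R : ℝ) (m : ℕ) (x : β → ℝ) :
    ∑ i, kk R m (x i) = ∑ j ∈ range m, (by classical exact
      #((univ : Finset β).filter (fun i => R ^ (j + 1) ≤ x i))) := by
  classical
  unfold kk
  simp_rw [card_filter]
  rw [sum_comm]

lemma prod_bound {β ι : Type} [Fintype β] [Fintype ι] {R : ℝ} (hR : 1 < R) (m : ℕ)
    (x : β → ℝ) (hx : ∀ i, 0 < x i) (N : ι → ℝ) (hN : ∀ i, 1 ≤ N i)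
    (h : ∀ j, j < m → (by classical exact
      #((univ : Finset β).filter (fun i => R ^ (j + 1) ≤ x i))) ≤
      (by classical exact #((univ : Finset ι).filter (fun i => R ^ (j + 1) ≤ N i)))) :
    ∏ i, max 1 (x i) ≤ R ^ (Fintype.card β) * (∏ i, N i / max 1 ((R ^ m)⁻¹ * N i)) *
      ∏ i, max 1 (x i / R ^ (m + 1)) := by
  classical
  have hR0 : 0 < R := by linarith
  calc ∏ i, max 1 (x i) ≤ ∏ i, (R * R ^ kk R m (x i) * max 1 (x i / R ^ (m + 1))) :=
        prod_le_prod (fun i _ => le_trans zero_le_one (le_max_left _ _))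
          (fun i _ => max_le_aux hR m (hx i))
    _ = R ^ (Fintype.card β) * R ^ (∑ i, kk R m (x i)) * ∏ i, max 1 (x i / R ^ (m + 1)) := by
        rw [prod_mul_distrib, prod_mul_distrib, prod_const, card_univ, prod_pow_eq_pow_sum]
    _ ≤ R ^ (Fintype.card β) * R ^ (∑ i, kk R m (N i)) * ∏ i, max 1 (x i / R ^ (m + 1)) := by
        have h1 : ∑ i, kk R m (x i) ≤ ∑ i, kk R m (N i) := by
          rw [sum_kk, sum_kk]
          refine sum_le_sum fun j hj => ?_
          exact h j (mem_range.mp hj)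
        have h2 : R ^ (∑ i, kk R m (x i)) ≤ R ^ (∑ i, kk R m (N i)) :=
          pow_le_pow_right₀ hR.le h1
        have h3 : 0 ≤ ∏ i, max 1 (x i / R ^ (m + 1)) :=
          prod_nonneg fun i _ => le_trans zero_le_one (le_max_left _ _)
        have h4 : (0 : ℝ) ≤ R ^ (Fintype.card β) := by positivity
        exact mul_le_mul_of_nonneg_right (mul_le_mul_of_nonneg_left h2 h4) h3
    _ ≤ _ := by
        have h3 : 0 ≤ ∏ i, max 1 (x i / R ^ (m + 1)) :=
          prod_nonneg fun i _ => le_trans zero_le_one (le_max_left _ _)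
        have h4 : (0 : ℝ) ≤ R ^ (Fintype.card β) := by positivity
        refine mul_le_mul_of_nonneg_right (mul_le_mul_of_nonneg_left ?_ h4) h3
        rw [← prod_pow_eq_pow_sum]
        refine prod_le_prod (fun i _ => by positivity) (fun i _ => ?_)
        have hNi := hN i
        have hRm : (0 : ℝ) < R ^ m := by positivity
        rw [le_div_iff₀ (lt_of_lt_of_le one_pos (le_max_left _ _)), mul_max_of_nonneg _ _
          (by positivity)]
        refine _root_.max_le ?_ ?_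
        · rw [mul_one]; exact pow_kk_le hR m hNi
        · rw [← mul_assoc]
          have h5 : R ^ kk R m (N i) * (R ^ m)⁻¹ ≤ 1 := by
            rw [← div_eq_mul_inv, div_le_one hRm]
            exact pow_le_pow_right₀ hR.le (kk_le _ _ _)
          nlinarith

variable {ι : Type} [Fintype ι] [DecidableEq ι] {p : ℕ} [Fact p.Prime]

/-- the sides of a system are less than `p` -/
lemma side_lt {a : ι → ZMod p} {N : ι → ℝ} {T : ℝ} (h : Sys a N T) (hT : 1 ≤ T) (i : ι) :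
    N i < p := by
  have hp : (0 : ℝ) < p := by exact_mod_cast (Fact.out : p.Prime).pos
  have h1 := h.2 (Pi.single i (p : ℤ)) (by
    intro h2
    have := congrFun h2 i
    simp only [Pi.single_eq_same, Pi.zero_apply] at this
    exact (Fact.out : p.Prime).ne_zero (by exact_mod_cast this)) (by
      rw [lin_single]; simp)
  rw [rv_single, wn_single (Sys.pos h)] at h1
  have h2 : |(((p : ℤ)) : ℝ)| = p := by simp
  rw [h2, lt_div_iff₀ (Sys.pos h i)] at h1
  have := Sys.pos h i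
  nlinarith

/-- a nonzero integer vector has a coordinate with `1 ≤ M i * wn M w` -/
lemma exists_coord {β : Type} [Fintype β] {M : β → ℝ} (hM : ∀ i, 0 < M i) {w : β → ℤ}
    (hw : w ≠ 0) : ∃ i, w i ≠ 0 ∧ 1 ≤ M i * wn M (rv w) := by
  obtain ⟨i, hi⟩ := Function.ne_iff.mp hw
  refine ⟨i, hi, ?_⟩
  have h1 := abs_le_wn hM (rv w) i
  have h2 : (1 : ℝ) ≤ |rv w i| := by
    have : (1 : ℤ) ≤ |w i| := Int.one_le_abs hi
    unfold rv
    exact_mod_cast this
  linarith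

lemma row_ne {β : Type} [Fintype β] [DecidableEq β] {κ : ℝ} {c : β → ZMod p} {M : β → ℝ}
    {g : Matrix β β ℤ} (h : IsGB κ c M g) (j : β) : g j ≠ 0 := by
  intro h0
  have h1 := h.det
  rw [Matrix.det_eq_zero_of_row_eq_zero j (fun i => congrFun h0 i)] at h1
  exact (Fact.out : p.Prime).ne_zero (by simpa using h1.symm)

lemma rows_li {β : Type} [Fintype β] [DecidableEq β] {κ : ℝ} {c : β → ZMod p} {M : β → ℝ}
    {g : Matrix β β ℤ} (h : IsGB κ c M g) : LinearIndependent ℝ (fun j => rv (g j)) := by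
  have h1 : (g.map (Int.cast : ℤ → ℝ)).det ≠ 0 := by
    have h2 : (g.map (Int.cast : ℤ → ℝ)).det = ((g.det : ℤ) : ℝ) := by
      have := (RingHom.map_det (Int.castRingHom ℝ) g).symm
      simpa [RingHom.mapMatrix_apply] using this
    rw [h2]
    intro h3
    have h4 : g.det = 0 := by exact_mod_cast h3
    have h5 := h.det
    rw [h4] at h5
    exact (Fact.out : p.Prime).ne_zero (by simpa using h5.symm)
  exact Matrix.linearIndependent_rows_of_det_ne_zero h1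

/-- the classification of a single `l` -/
lemma single (hF : SpecFull) {d : ℕ} (hd : 1 ≤ d) (hcard : Fintype.card ι = d) {κ C0 : ℝ}
    (hC0 : 1 ≤ C0) {R : ℝ} (hR : 1 < R) (hR2 : 1 + 2 * (d : ℝ) ≤ R) {J : ℕ}
    (hJ : (p : ℝ) ≤ R ^ J) {a : ι → ZMod p} {N : ι → ℝ} (hS : Sys a N (R ^ (2 * d - 1)))
    {l : ZMod p} {g : Matrix (ι ⊕ ι) (ι ⊕ ι) ℤ} (hg : IsGB κ (cl a l) (N2 N) g)
    (hcnt : ∀ t : ℝ, 0 ≤ t →
      cnt (cl a l) (N2 N) t ≤ C0 * ∏ j, max 1 (t / wn (N2 N) (rv (g j))) ∧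
      ∏ j, max 1 (t / wn (N2 N) (rv (g j))) ≤ C0 * cnt (cl a l) (N2 N) t)
    (h1 : 1 < cnt (cl a l) (N2 N) 1) (hrK : rk (cl a l) (N2 N) (R ^ (2 * d - 1)) < 2 * d)
    (hr1 : rk (cl a l) (N2 N) 1 ≤ d) :
    (∃ j : ℕ, j ≤ J ∧ (∃ w ∈ ball (cl a l) (N2 N) (R ^ j)⁻¹, w ≠ 0) ∧
      cnt (cl a l) (N2 N) 1 ≤ C0 * R ^ (2 * d) * ∏ i, N i / max 1 ((R ^ j)⁻¹ * N i)) ∨
    (∃ j : ℕ, 1 ≤ j ∧ j ≤ J ∧ ∃ I : Finset ι, (∀ i, i ∈ I ↔ 1 ≤ N i * (R ^ j)⁻¹) ∧ #I < d ∧
      cnt (cl a l) (N2 N) 1 ≤ C0 ^ 2 * R ^ (2 * d) * (∏ i, N i / max 1 ((R ^ j)⁻¹ * N i)) *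
        cnt (cl a l) (N2 N) (R ^ j)⁻¹ ∧
      1 < cnt (cl a l) (N2 N) (R ^ j)⁻¹ ∧
      rk (cl (fun i : I => a i) l) (N2 (fun i : I => N i * (R ^ j)⁻¹)) (R ^ (2 * #I + 1)) <
        2 * #I) := by
  classical
  have hR0 : 0 < R := by linarith
  have hNpos : ∀ i, 0 < N i := Sys.pos hS
  have hN2 : ∀ i, 0 < N2 N i := N2_pos hNpos
  have hT1 : (1 : ℝ) ≤ R ^ (2 * d - 1) := one_le_pow₀ hR.le
  set x : ι ⊕ ι → ℝ := fun i => (wn (N2 N) (rv (g i)))⁻¹ with hx
  have hwpos : ∀ i, 0 < wn (N2 N) (rv (g i)) := fun i => wn_pos hN2 (rv_ne_zero (row_ne hg i))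
  have hxpos : ∀ i, 0 < x i := fun i => inv_pos.mpr (hwpos i)
  have hgball : ∀ (i : ι ⊕ ι) (j : ℕ), R ^ j ≤ x i → g i ∈ ball (cl a l) (N2 N) (R ^ j)⁻¹ := by
    intro i j h
    refine ⟨hg.mem i, ?_⟩
    rw [hx] at h
    exact (le_inv_comm₀ (by positivity) (hwpos i)).mp h
  have hballk : ∀ (j : ℕ) (w : ι ⊕ ι → ℤ), w ∈ ball (cl a l) (N2 N) (R ^ j)⁻¹ → w ≠ 0 →
      ∃ k : ι, R ^ j ≤ N k := by
    intro j w hw hw0
    obtain ⟨k, -, hk⟩ := exists_coord hN2 hw0
    have hle : (1 : ℝ) ≤ N2 N k * (R ^ j)⁻¹ :=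
      hk.trans (mul_le_mul_of_nonneg_left hw.2 (hN2 k).le)
    rw [← div_eq_mul_inv, one_le_div (by positivity)] at hle
    rcases k with k | k
    · exact ⟨k, hle⟩
    · exact ⟨k, hle⟩
  have hjJ : ∀ (j : ℕ) (k : ι), R ^ j ≤ N k → j < J := by
    intro j k h
    have h2 : R ^ j < R ^ J := lt_of_le_of_lt h (lt_of_lt_of_le (side_lt hS hT1 k) hJ)
    exact (pow_lt_pow_iff_right₀ hR).mp h2
  -- counts
  set A : ℕ → ℕ := fun j => #((univ : Finset (ι ⊕ ι)).filter (fun i => R ^ j ≤ x i)) with hA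
  set D : ℕ → ℕ := fun j => #((univ : Finset ι).filter (fun i => R ^ j ≤ N i)) with hD
  have hAanti : ∀ j, A j ≤ A 0 := by
    intro j
    refine card_le_card fun i hi => ?_
    rw [mem_filter] at hi ⊢
    exact ⟨hi.1, le_trans (pow_le_pow_right₀ hR.le (Nat.zero_le j)) hi.2⟩
  have hA0 : A 0 ≤ d := by
    refine le_trans ?_ hr1
    have := le_rk (cl a l) (N2 N) 1
      (κ := {i // i ∈ (univ : Finset (ι ⊕ ι)).filter (fun i => R ^ 0 ≤ x i)})
      (fun i => g i) (fun i => by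
        have h := (mem_filter.mp i.2).2
        have h2 := hgball i 0 h
        simpa using h2)
      ((rows_li hg).comp (fun i : {i // i ∈ (univ : Finset (ι ⊕ ι)).filter
        (fun i => R ^ 0 ≤ x i)} => (i : ι ⊕ ι)) Subtype.val_injective)
    rwa [Fintype.card_coe] at this
  have hAex : ∀ j, 1 ≤ A j → ∃ i, R ^ j ≤ x i := by
    intro j hj
    obtain ⟨i, hi⟩ := card_pos.mp hj
    exact ⟨i, (mem_filter.mp hi).2⟩
  have hAJ : ∀ j, 1 ≤ A j → j < J := by
    intro j hj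
    obtain ⟨i, hi⟩ := hAex j hj
    obtain ⟨k, hk⟩ := hballk j (g i) (hgball i j hi) (row_ne hg i)
    exact hjJ j k hk
  have hcardβ : Fintype.card (ι ⊕ ι) = 2 * d := by rw [Fintype.card_sum, hcard, two_mul]
  by_cases hH : ∃ j, 1 ≤ j ∧ D j + 1 ≤ A j
  · -- heavy
    right
    have hfind := Nat.find_spec hH
    have hmin : ∀ j, 1 ≤ j → j < Nat.find hH → A j ≤ D j := by
      intro j hj hlt
      have := Nat.find_min hH hlt
      push Not at this
      have h2 := this hj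
      omega
    set j := Nat.find hH with hjdef
    obtain ⟨hj1, hjH⟩ := hfind
    have hjJ' : j < J := hAJ j (by omega)
    refine ⟨j, hj1, hjJ'.le, (univ : Finset ι).filter (fun i => 1 ≤ N i * (R ^ j)⁻¹),
      fun i => by simp, ?_⟩
    have hRj : 0 < R ^ j := by positivity
    have hIeq : (univ : Finset ι).filter (fun i => 1 ≤ N i * (R ^ j)⁻¹) =
        (univ : Finset ι).filter (fun i => R ^ j ≤ N i) := by
      refine filter_congr fun i _ => ?_
      rw [← div_eq_mul_inv, one_le_div hRj]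
    set I := (univ : Finset ι).filter (fun i => 1 ≤ N i * (R ^ j)⁻¹) with hI
    have hIcard : #I = D j := by rw [hIeq]
    have hId : #I < d := by
      have := hAanti j
      omega
    obtain ⟨i0, hi0⟩ := hAex j (by omega)
    obtain ⟨k0, hk0⟩ := hballk j (g i0) (hgball i0 j hi0) (row_ne hg i0)
    have hk0I : k0 ∈ I := by
      rw [hIeq, mem_filter]
      exact ⟨mem_univ _, hk0⟩
    refine ⟨hId, ?_, ?_, ?_⟩
    · -- the bound
      have hb := prod_bound hR (j - 1) x hxpos N hS.1 (fun i hi => by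
        have := hmin (i + 1) (by omega) (by omega)
        simpa [hA, hD] using this)
      rw [Nat.sub_add_cancel hj1, hcardβ] at hb
      have hc1 := (hcnt 1 zero_le_one).1
      have hc2 := (hcnt (R ^ j)⁻¹ (by positivity)).2
      have e1 : ∏ i, max 1 (1 / wn (N2 N) (rv (g i))) = ∏ i, max 1 (x i) := by
        refine prod_congr rfl fun i _ => ?_
        rw [one_div]
      have e2 : ∏ i, max 1 ((R ^ j)⁻¹ / wn (N2 N) (rv (g i))) = ∏ i, max 1 (x i / R ^ j) := by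
        refine prod_congr rfl fun i _ => ?_
        rw [hx]
        congr 1
        rw [div_eq_mul_inv, div_eq_mul_inv, mul_comm]
      rw [e1] at hc1
      rw [e2] at hc2
      have e3 : ∏ i, N i / max 1 ((R ^ (j - 1))⁻¹ * N i) ≤ ∏ i, N i / max 1 ((R ^ j)⁻¹ * N i) := by
        refine prod_le_prod (fun i _ => ?_) (fun i _ => ?_)
        · have := hNpos i
          positivity
        · have hNi := hNpos i
          have hm : max 1 ((R ^ j)⁻¹ * N i) ≤ max 1 ((R ^ (j - 1))⁻¹ * N i) := by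
            refine max_le_max le_rfl (mul_le_mul_of_nonneg_right ?_ hNi.le)
            exact inv_anti₀ (by positivity) (pow_le_pow_right₀ hR.le (by omega))
          exact div_le_div_of_nonneg_left hNi.le (lt_of_lt_of_le one_pos (le_max_left _ _)) hm
      have hP0 : 0 ≤ ∏ i, N i / max 1 ((R ^ (j - 1))⁻¹ * N i) :=
        prod_nonneg fun i _ => div_nonneg (hNpos i).le (le_trans zero_le_one (le_max_left _ _))
      have hP1 : 0 ≤ ∏ i, N i / max 1 ((R ^ j)⁻¹ * N i) := hP0.trans e3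
      have hcn : 0 ≤ cnt (cl a l) (N2 N) (R ^ j)⁻¹ := by unfold cnt; positivity
      have hpr : 0 ≤ ∏ i, max 1 (x i / R ^ j) :=
        prod_nonneg fun i _ => le_trans zero_le_one (le_max_left _ _)
      calc cnt (cl a l) (N2 N) 1 ≤ C0 * ∏ i, max 1 (x i) := hc1
        _ ≤ C0 * (R ^ (2 * d) * (∏ i, N i / max 1 ((R ^ (j - 1))⁻¹ * N i)) *
              ∏ i, max 1 (x i / R ^ j)) := mul_le_mul_of_nonneg_left hb (by linarith)
        _ ≤ C0 * (R ^ (2 * d) * (∏ i, N i / max 1 ((R ^ j)⁻¹ * N i)) *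
              (C0 * cnt (cl a l) (N2 N) (R ^ j)⁻¹)) := by
            refine mul_le_mul_of_nonneg_left ?_ (by linarith)
            refine mul_le_mul ?_ hc2 hpr (by positivity)
            exact mul_le_mul_of_nonneg_left e3 (by positivity)
        _ = _ := by ring
    · exact (one_lt_cnt_iff (cl a l) hN2 (by positivity)).mpr
        ⟨g i0, hgball i0 j hi0, row_ne hg i0⟩
    · -- not full
      have hrk := rk_cl_le (fun i : I => a i) l (fun i : I => N i * (R ^ j)⁻¹) (R ^ (2 * d - 1))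
      rw [Fintype.card_coe] at hrk
      have hne : rk (cl (fun i : I => a i) l) (N2 (fun i : I => N i * (R ^ j)⁻¹))
          (R ^ (2 * d - 1)) ≠ 2 * #I := by
        intro heq
        have h2 := hF ι p a N l (R ^ j)⁻¹ (R ^ (2 * d - 1)) I hS.1 (by positivity)
          (by positivity) ⟨k0, hk0I, Sys.ne hS hT1 k0⟩ heq
        have h3 : 1 + 2 * ((Fintype.card ι : ℕ) : ℝ) * (R ^ (2 * d - 1) * (R ^ j)⁻¹) ≤
            R ^ (2 * d - 1) := by
          rw [hcard]
          have h4 : R ^ (2 * d - 1) * (R ^ j)⁻¹ ≤ R ^ (2 * d - 2) := by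
            rw [← div_eq_mul_inv, div_le_iff₀ hRj, ← pow_add]
            exact pow_le_pow_right₀ hR.le (by omega)
          have h5 : (1 : ℝ) ≤ R ^ (2 * d - 2) := one_le_pow₀ hR.le
          have h6 : R ^ (2 * d - 1) = R * R ^ (2 * d - 2) := by
            rw [← pow_succ']
            congr 1
            omega
          have h7 : (0 : ℝ) ≤ 2 * (d : ℝ) := by positivity
          have h8 : 2 * (d : ℝ) * (R ^ (2 * d - 1) * (R ^ j)⁻¹) ≤ 2 * (d : ℝ) * R ^ (2 * d - 2) :=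
            mul_le_mul_of_nonneg_left h4 h7
          rw [h6] at h8 ⊢
          nlinarith
        have h4 := rk_mono (cl a l) (N2 N) h3
        rw [h2, hcard] at h4
        omega
      have h5 := rk_mono (cl (fun i : I => a i) l) (N2 (fun i : I => N i * (R ^ j)⁻¹))
        (show R ^ (2 * #I + 1) ≤ R ^ (2 * d - 1) from pow_le_pow_right₀ hR.le (by omega))
      omega
  · -- light
    left
    push Not at hH
    set j := Nat.findGreatest (fun j => 1 ≤ A j) J with hjdef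
    have hjle : j ≤ J := Nat.findGreatest_le J
    have habove : ∀ i, j < i → A i = 0 := by
      intro i hi
      by_contra hne
      have h1 : 1 ≤ A i := by omega
      have h2 := hAJ i h1
      exact (Nat.findGreatest_is_greatest hi h2.le) h1
    refine ⟨j, hjle, ?_, ?_⟩
    · by_cases hj : j = 0
      · rw [hj]
        have := (one_lt_cnt_iff (cl a l) hN2 (zero_le_one)).mp h1
        simpa using this
      · have h2 : 1 ≤ A j := Nat.findGreatest_of_ne_zero (P := fun j => 1 ≤ A j) hjdef.symm hj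
        obtain ⟨i, hi⟩ := hAex j h2
        exact ⟨g i, hgball i j hi, row_ne hg i⟩
    · have hb := prod_bound hR j x hxpos N hS.1 (fun i hi => by
        have := hH (i + 1) (by omega)
        have h2 : A (i + 1) ≤ D (i + 1) := by omega
        simpa [hA, hD] using h2)
      rw [hcardβ] at hb
      have e3 : ∏ i, max 1 (x i / R ^ (j + 1)) = 1 := by
        refine prod_eq_one fun i _ => ?_
        refine max_eq_left ?_
        rw [div_le_one (by positivity)]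
        by_contra hc
        push Not at hc
        have h2 := habove (j + 1) (by omega)
        rw [hA] at h2
        have h3 : i ∈ (univ : Finset (ι ⊕ ι)).filter (fun i => R ^ (j + 1) ≤ x i) := by
          rw [mem_filter]
          exact ⟨mem_univ _, hc.le⟩
        rw [card_eq_zero.mp h2] at h3
        exact absurd h3 (notMem_empty _)
      rw [e3, mul_one] at hb
      have hc1 := (hcnt 1 zero_le_one).1
      have e1 : ∏ i, max 1 (1 / wn (N2 N) (rv (g i))) = ∏ i, max 1 (x i) := by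
        refine prod_congr rfl fun i _ => ?_
        rw [one_div]
      rw [e1] at hc1
      calc cnt (cl a l) (N2 N) 1 ≤ C0 * ∏ i, max 1 (x i) := hc1
        _ ≤ C0 * (R ^ (2 * d) * (∏ i, N i / max 1 ((R ^ j)⁻¹ * N i))) :=
            mul_le_mul_of_nonneg_left hb (by linarith)
        _ = _ := by ring

lemma sum_biUnion_le_sum {α β : Type} [DecidableEq α] [DecidableEq β] (s : Finset β)
    (t : β → Finset α) (f : α → ℝ) (hf : ∀ x, 0 ≤ f x) :
    ∑ x ∈ s.biUnion t, f x ≤ ∑ j ∈ s, ∑ x ∈ t j, f x := by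
  induction s using Finset.induction_on with
  | empty => simp
  | insert j s hj ih =>
    rw [biUnion_insert, sum_insert hj]
    have h1 : ∑ x ∈ t j ∪ s.biUnion t, f x ≤ ∑ x ∈ t j, f x + ∑ x ∈ s.biUnion t, f x := by
      rw [← sum_union_inter]
      have : 0 ≤ ∑ x ∈ t j ∩ s.biUnion t, f x := sum_nonneg fun _ _ => hf _
      linarith
    linarith

/-- `En` with a larger constant -/
lemma En.mono_const {d K : ℕ} {C C' : ℕ} (hC1 : 1 ≤ C) (hCC : C ≤ C')
    (h : ∀ R : ℝ, (C : ℝ) ≤ R → ∀ J : ℕ, ∀ (p : ℕ) [Fact p.Prime], (p : ℝ) ≤ R ^ J →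
      ∀ (ι : Type) [Fintype ι] [DecidableEq ι], Fintype.card ι = d →
      ∀ (a : ι → ZMod p) (N : ι → ℝ), Sys a N (R ^ K) →
      esum a N (fun l => rk (cl a l) (N2 N) (R ^ K) < 2 * d) ≤
        ((C : ℝ) * (J + 1) * R) ^ C * (∏ i, N i) ^ 2) :
    ∀ R : ℝ, (C' : ℝ) ≤ R → ∀ J : ℕ, ∀ (p : ℕ) [Fact p.Prime], (p : ℝ) ≤ R ^ J →
      ∀ (ι : Type) [Fintype ι] [DecidableEq ι], Fintype.card ι = d →
      ∀ (a : ι → ZMod p) (N : ι → ℝ), Sys a N (R ^ K) →
      esum a N (fun l => rk (cl a l) (N2 N) (R ^ K) < 2 * d) ≤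
        ((C' : ℝ) * (J + 1) * R) ^ C' * (∏ i, N i) ^ 2 := by
  intro R hR J p _ hp ι _ _ hc a N hS
  have h1 : (C : ℝ) ≤ C' := by exact_mod_cast hCC
  have h2 : (1 : ℝ) ≤ C := by exact_mod_cast hC1
  refine (h R (h1.trans hR) J p hp ι hc a N hS).trans ?_
  refine mul_le_mul_of_nonneg_right ?_ (sq_nonneg _)
  have hJ : (1 : ℝ) ≤ (J : ℝ) + 1 := by
    have : (0 : ℝ) ≤ J := by positivity
    linarith
  have hR1 : 1 ≤ R := by linarith
  have h3 : (1 : ℝ) ≤ (C' : ℝ) * (J + 1) := by nlinarith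
  have h3' : (1 : ℝ) ≤ (C' : ℝ) * (J + 1) * R := by nlinarith
  calc ((C : ℝ) * (J + 1) * R) ^ C ≤ ((C' : ℝ) * (J + 1) * R) ^ C := by
        refine pow_le_pow_left₀ (by positivity) ?_ _
        gcongr
    _ ≤ _ := pow_le_pow_right₀ h3' hCC

lemma exists_uniform (d : ℕ) (h : ∀ d' : ℕ, d' < d → En d' (2 * d' + 1)) :
    ∃ C : ℕ, 1 ≤ C ∧ ∀ d' : ℕ, d' < d → ∀ R : ℝ, (C : ℝ) ≤ R → ∀ J : ℕ,
      ∀ (p : ℕ) [Fact p.Prime], (p : ℝ) ≤ R ^ J →
      ∀ (ι : Type) [Fintype ι] [DecidableEq ι], Fintype.card ι = d' →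
      ∀ (a : ι → ZMod p) (N : ι → ℝ), Sys a N (R ^ (2 * d' + 1)) →
      esum a N (fun l => rk (cl a l) (N2 N) (R ^ (2 * d' + 1)) < 2 * d') ≤
        ((C : ℝ) * (J + 1) * R) ^ C * (∏ i, N i) ^ 2 := by
  induction d with
  | zero => exact ⟨1, le_rfl, fun d' hd' => absurd hd' (Nat.not_lt_zero d')⟩
  | succ d ih =>
    obtain ⟨C, hC1, hC⟩ := ih (fun d' hd' => h d' (by omega))
    obtain ⟨C2, hC2⟩ := h d (by omega)
    -- first make C2 at least one
    have hC2' : ∀ R : ℝ, ((C2 + 1 : ℕ) : ℝ) ≤ R → ∀ J : ℕ, ∀ (p : ℕ) [Fact p.Prime],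
        (p : ℝ) ≤ R ^ J → ∀ (ι : Type) [Fintype ι] [DecidableEq ι], Fintype.card ι = d →
        ∀ (a : ι → ZMod p) (N : ι → ℝ), Sys a N (R ^ (2 * d + 1)) →
        esum a N (fun l => rk (cl a l) (N2 N) (R ^ (2 * d + 1)) < 2 * d) ≤
          (((C2 + 1 : ℕ) : ℝ) * (J + 1) * R) ^ (C2 + 1) * (∏ i, N i) ^ 2 := by
      intro R hR J p _ hp ι _ _ hc a N hS
      push_cast at hR
      have hc0 : (0 : ℝ) ≤ C2 := by positivity
      refine (hC2 R (by linarith) J p hp ι hc a N hS).trans ?_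
      refine mul_le_mul_of_nonneg_right ?_ (sq_nonneg _)
      have hJ : (1 : ℝ) ≤ (J : ℝ) + 1 := by
        have : (0 : ℝ) ≤ J := by positivity
        linarith
      have hR1 : 1 ≤ R := by linarith
      push_cast
      have h3 : (1 : ℝ) ≤ ((C2 : ℝ) + 1) * (J + 1) := by nlinarith
      have h3' : (1 : ℝ) ≤ ((C2 : ℝ) + 1) * (J + 1) * R := by nlinarith
      calc ((C2 : ℝ) * (J + 1) * R) ^ C2 ≤ (((C2 : ℝ) + 1) * (J + 1) * R) ^ C2 := by
            refine pow_le_pow_left₀ (by positivity) ?_ _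
            gcongr
            linarith
        _ ≤ _ := pow_le_pow_right₀ h3' (by omega)
    refine ⟨max C (C2 + 1), hC1.trans (le_max_left _ _), ?_⟩
    intro d' hd'
    rcases (Nat.lt_succ_iff.mp hd').eq_or_lt with heq | hlt
    · subst heq
      exact En.mono_const (by omega) (le_max_right _ _) hC2'
    · exact En.mono_const hC1 (le_max_left _ _) (hC d' hlt)

theorem specCaseA (hL : SpecLat) (hC : SpecCnt) (hN : SpecNumL) (hSub : SpecSub)
    (hF : SpecFull) : SpecCaseA := by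
  classical
  intro d hd hIH
  obtain ⟨κ, hκ, hLat⟩ := hL (2 * d)
  obtain ⟨C0, hC0, hCnt⟩ := hC (2 * d) κ hκ
  obtain ⟨CI, hCI1, hCI⟩ := exists_uniform d hIH
  obtain ⟨C1, hC1⟩ := exists_nat_ge (max (9 ^ d * C0 ^ 2) (C0 ^ 4))
  set C2 : ℕ := C1 + CI + 1 with hC2
  refine ⟨2 * C2 + 4 * d + C2 + 4, ?_⟩
  intro R hR J p _ hp ι _ _ hcard a N hS
  set C : ℕ := 2 * C2 + 4 * d + C2 + 4 with hCdef
  have hCR : (C : ℝ) = 2 * C2 + 4 * d + C2 + 4 := by rw [hCdef]; push_cast; ring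
  have hd0 : (1 : ℝ) ≤ d := by exact_mod_cast hd
  have hC10 : (0 : ℝ) ≤ C1 := Nat.cast_nonneg _
  have hCI0 : (0 : ℝ) ≤ CI := Nat.cast_nonneg _
  have hC20 : (1 : ℝ) ≤ C2 := by
    rw [hC2]
    push_cast
    linarith
  have hR1 : 1 < R := by linarith
  have hR2 : 1 + 2 * (d : ℝ) ≤ R := by linarith
  have hR0 : 0 < R := by linarith
  have hRCI : (CI : ℝ) ≤ R := by
    have : (CI : ℝ) ≤ C2 := by
      rw [hC2]; push_cast; linarith
    linarith
  have hT1 : (1 : ℝ) ≤ R ^ (2 * d - 1) := one_le_pow₀ hR1.le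
  have hNpos : ∀ i, 0 < N i := Sys.pos hS
  have hN2 : ∀ i, 0 < N2 N i := N2_pos hNpos
  have hι : Nonempty ι := by
    rw [← Fintype.card_pos_iff, hcard]; omega
  have ha : a ≠ 0 := by
    obtain ⟨i⟩ := hι
    intro h0
    exact Sys.ne hS hT1 i (congrFun h0 i)
  have hcard2 : Fintype.card (ι ⊕ ι) = 2 * d := by rw [Fintype.card_sum, hcard, two_mul]
  have hVpos : 0 < ∏ i, N i := prod_pos fun i _ => hNpos i
  set M : ZMod p → ℝ := fun l => cnt (cl a l) (N2 N) 1 with hM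
  -- the two kinds of `l`
  set f : ℕ → ℝ := fun j => ∏ i, max 1 ((R ^ j)⁻¹ * N i) with hf
  have hfpos : ∀ j, 0 < f j := fun j => prod_pos fun i _ => lt_of_lt_of_le one_pos (le_max_left _ _)
  have hfprod : ∀ j, ∏ i, N i / max 1 ((R ^ j)⁻¹ * N i) = (∏ i, N i) / f j := by
    intro j
    rw [prod_div_distrib]
  set Lt : ℕ → Finset (ZMod p) := fun j => univ.filter (fun l =>
    (l ≠ 0 ∧ ∃ w ∈ ball (cl a l) (N2 N) (R ^ j)⁻¹, w ≠ 0) ∧
      M l ≤ C0 * R ^ (2 * d) * ((∏ i, N i) / f j)) with hLt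
  set I : ℕ → Finset ι := fun j => univ.filter (fun i => 1 ≤ N i * (R ^ j)⁻¹) with hI
  set Hv : ℕ → Finset (ZMod p) := fun j => univ.filter (fun l =>
    l ≠ 0 ∧ #(I j) < d ∧ M l ≤ C0 ^ 2 * R ^ (2 * d) * ((∏ i, N i) / f j) *
        cnt (cl a l) (N2 N) (R ^ j)⁻¹ ∧
      1 < cnt (cl a l) (N2 N) (R ^ j)⁻¹ ∧
      rk (cl (fun i : I j => a i) l) (N2 (fun i : I j => N i * (R ^ j)⁻¹))
        (R ^ (2 * #(I j) + 1)) < 2 * #(I j)) with hHv
  have hMnn : ∀ l, 0 ≤ M l := fun l => by rw [hM]; unfold cnt; positivity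
  -- classification
  have hclass : ∀ l, l ≠ 0 → 1 < cnt (cl a l) (N2 N) 1 →
      (rk (cl a l) (N2 N) (R ^ (2 * d - 1)) < 2 * d ∧ rk (cl a l) (N2 N) 1 ≤ d) →
      l ∈ (range (J + 1)).biUnion (fun j => Lt j ∪ Hv j) := by
    intro l hl0 h1 hl
    obtain ⟨hrK, hr1⟩ := hl
    obtain ⟨g, hg⟩ := hLat (ι ⊕ ι) hcard2 p (cl a l) (cl_ne_zero l ha) (N2 N) hN2
    have hcnt := fun (t : ℝ) (ht : 0 ≤ t) => (hCnt (ι ⊕ ι) hcard2 p (cl a l) (N2 N) g hN2 hg t ht).2
    rw [mem_biUnion]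
    rcases single hF hd hcard hC0 hR1 hR2 hp hS hg hcnt h1 hrK hr1 with
      ⟨j, hj, hw, hb⟩ | ⟨j, hj1, hj, I', hI', hId, hb, hc, hr⟩
    · refine ⟨j, by rw [mem_range]; omega, mem_union_left _ ?_⟩
      rw [hLt, mem_filter]
      rw [hfprod] at hb
      exact ⟨mem_univ _, ⟨hl0, hw⟩, hb⟩
    · have hII : I' = I j := by
        ext i
        rw [hI', hI]
        simp
      subst hII
      refine ⟨j, by rw [mem_range]; omega, mem_union_right _ ?_⟩
      rw [hHv, mem_filter]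
      rw [hfprod] at hb
      exact ⟨mem_univ _, hl0, hId, hb, hc, hr⟩
  -- light sums
  have hlight : ∀ j, ∑ l ∈ Lt j, (M l) ^ 2 ≤ (C1 : ℝ) * R ^ (4 * d) * (∏ i, N i) ^ 2 := by
    intro j
    have hcardle : ((#(Lt j) : ℕ) : ℝ) ≤ 9 ^ d * (f j) ^ 2 := by
      have h1 := hN ι p a N (R ^ (2 * d - 1)) (R ^ j)⁻¹ hS (by positivity)
        (le_trans (inv_le_one_of_one_le₀ (one_le_pow₀ hR1.le)) hT1)
      have h2 : #(Lt j) ≤ {l : ZMod p | l ≠ 0 ∧
          ∃ w ∈ ball (cl a l) (N2 N) (R ^ j)⁻¹, w ≠ 0}.ncard := by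
        rw [← Set.ncard_coe_finset]
        refine Set.ncard_le_ncard (fun l hl => ?_) (Set.toFinite _)
        rw [hLt] at hl
        have := mem_coe.mp hl
        rw [mem_filter] at this
        exact this.2.1
      have h3 : ∏ i, (3 * max 1 ((R ^ j)⁻¹ * N i)) ^ 2 = 9 ^ d * (f j) ^ 2 := by
        show _ = 9 ^ d * (∏ i, max 1 ((R ^ j)⁻¹ * N i)) ^ 2
        rw [prod_pow, prod_mul_distrib, prod_const, card_univ, hcard, mul_pow, ← pow_mul,
          mul_comm d 2, pow_mul]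
        norm_num
      rw [h3] at h1
      exact le_trans (by exact_mod_cast h2) h1
    calc ∑ l ∈ Lt j, (M l) ^ 2 ≤ ∑ l ∈ Lt j, (C0 * R ^ (2 * d) * ((∏ i, N i) / f j)) ^ 2 := by
          refine sum_le_sum fun l hl => ?_
          rw [hLt, mem_filter] at hl
          exact pow_le_pow_left₀ (hMnn l) hl.2.2 2
      _ = #(Lt j) * (C0 * R ^ (2 * d) * ((∏ i, N i) / f j)) ^ 2 := by
          rw [sum_const, nsmul_eq_mul]
      _ ≤ 9 ^ d * (f j) ^ 2 * (C0 * R ^ (2 * d) * ((∏ i, N i) / f j)) ^ 2 :=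
          mul_le_mul_of_nonneg_right hcardle (sq_nonneg _)
      _ = 9 ^ d * C0 ^ 2 * R ^ (4 * d) * (∏ i, N i) ^ 2 := by
          have := (hfpos j).ne'
          field_simp
          ring
      _ ≤ (C1 : ℝ) * R ^ (4 * d) * (∏ i, N i) ^ 2 := by
          have h1 := (le_max_left (9 ^ d * C0 ^ 2) (C0 ^ 4)).trans hC1
          have h2 : 0 ≤ R ^ (4 * d) * (∏ i, N i) ^ 2 := by positivity
          nlinarith
  -- heavy sums
  have hheavy : ∀ j, ∑ l ∈ Hv j, (M l) ^ 2 ≤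
      (C1 : ℝ) * R ^ (4 * d) * ((CI : ℝ) * (J + 1) * R) ^ CI * (∏ i, N i) ^ 2 := by
    intro j
    have hrhs : 0 ≤ (C1 : ℝ) * R ^ (4 * d) * ((CI : ℝ) * (J + 1) * R) ^ CI * (∏ i, N i) ^ 2 := by
      positivity
    by_cases hId : #(I j) < d
    swap
    · rw [sum_eq_zero]
      · exact hrhs
      · intro l hl
        rw [hHv, mem_filter] at hl
        exact absurd hl.2.2.1 hId
    have hRj : 0 < (R ^ j)⁻¹ := by positivity
    have hRj1 : (R ^ j)⁻¹ ≤ 1 := inv_le_one_of_one_le₀ (one_le_pow₀ hR1.le)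
    have hIiff : ∀ i, i ∈ I j ↔ 1 ≤ N i * (R ^ j)⁻¹ := fun i => by rw [hI]; simp
    obtain ⟨hs1, hs2⟩ := hSub ι p a N (R ^ j)⁻¹ (I j) hS.1 hRj hRj1 hIiff
    have hsys : Sys (fun i : I j => a i) (fun i : I j => N i * (R ^ j)⁻¹)
        (R ^ (2 * #(I j) + 1)) := by
      refine Sys.mono (hs2 (R ^ (2 * d - 1)) (by positivity) hS) ?_
      exact pow_le_pow_right₀ hR1.le (by omega)
    have hI' := hCI #(I j) hId R hRCI J p hp (I j) (Fintype.card_coe _) (fun i : I j => a i)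
      (fun i : I j => N i * (R ^ j)⁻¹) hsys
    have hprodI : ∏ i : I j, (N i * (R ^ j)⁻¹) = f j := by
      rw [prod_coe_sort (I j) (fun i => N i * (R ^ j)⁻¹)]
      show ∏ i ∈ I j, N i * (R ^ j)⁻¹ = ∏ i, max 1 ((R ^ j)⁻¹ * N i)
      rw [← prod_subset (subset_univ (I j))]
      · refine prod_congr rfl fun i hi => ?_
        rw [hIiff] at hi
        rw [max_eq_right (by rw [mul_comm]; exact hi), mul_comm]
      · intro i _ hi
        rw [hIiff] at hi
        push Not at hi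
        exact max_eq_left (by rw [mul_comm]; exact hi.le)
    rw [hprodI] at hI'
    have hsum : ∑ l ∈ Hv j, (cnt (cl a l) (N2 N) (R ^ j)⁻¹) ^ 2 ≤
        ((CI : ℝ) * (J + 1) * R) ^ CI * (f j) ^ 2 := by
      refine le_trans ?_ hI'
      refine le_trans (le_of_eq (sum_congr rfl fun l _ => by rw [hs1 l]))
        (sum_le_esum _ _ _ (Hv j) ?_)
      intro l hl
      rw [hHv, mem_filter] at hl
      refine ⟨hl.2.1, ?_, hl.2.2.2.2.2⟩
      rw [← hs1 l]
      exact hl.2.2.2.2.1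
    calc ∑ l ∈ Hv j, (M l) ^ 2 ≤ ∑ l ∈ Hv j, ((C0 ^ 2 * R ^ (2 * d) * ((∏ i, N i) / f j)) ^ 2 *
            (cnt (cl a l) (N2 N) (R ^ j)⁻¹) ^ 2) := by
          refine sum_le_sum fun l hl => ?_
          rw [hHv, mem_filter] at hl
          rw [← mul_pow]
          exact pow_le_pow_left₀ (hMnn l) hl.2.2.2.1 2
      _ = (C0 ^ 2 * R ^ (2 * d) * ((∏ i, N i) / f j)) ^ 2 *
            ∑ l ∈ Hv j, (cnt (cl a l) (N2 N) (R ^ j)⁻¹) ^ 2 := by rw [mul_sum]
      _ ≤ (C0 ^ 2 * R ^ (2 * d) * ((∏ i, N i) / f j)) ^ 2 *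
            (((CI : ℝ) * (J + 1) * R) ^ CI * (f j) ^ 2) :=
          mul_le_mul_of_nonneg_left hsum (sq_nonneg _)
      _ = C0 ^ 4 * (R ^ (4 * d) * ((CI : ℝ) * (J + 1) * R) ^ CI * (∏ i, N i) ^ 2) := by
          have := (hfpos j).ne'
          field_simp
          ring
      _ ≤ (C1 : ℝ) * (R ^ (4 * d) * ((CI : ℝ) * (J + 1) * R) ^ CI * (∏ i, N i) ^ 2) := by
          have h1 := (le_max_right (9 ^ d * C0 ^ 2) (C0 ^ 4)).trans hC1
          exact mul_le_mul_of_nonneg_right h1 (by positivity)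
      _ = _ := by ring
  -- conclusion
  have hJ0 : (0 : ℝ) ≤ J := by positivity
  set Y : ℝ := 2 * C2 * (J + 1) * R with hY
  have hY2 : 2 ≤ Y := by
    rw [hY]
    have h1 : (1 : ℝ) ≤ C2 * (J + 1) := by nlinarith
    nlinarith
  have hYR : R ≤ Y := by
    rw [hY]
    have h1 : (1 : ℝ) ≤ 2 * C2 * (J + 1) := by nlinarith
    nlinarith
  have hYJ : (J : ℝ) + 1 ≤ Y := by
    rw [hY]
    have h1 : (1 : ℝ) ≤ 2 * C2 * R := by nlinarith
    nlinarith
  have hC1le : (C1 : ℝ) ≤ C2 := by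
    rw [hC2]; push_cast; linarith
  have hCIle : (CI : ℝ) ≤ C2 := by
    rw [hC2]; push_cast; linarith
  have hYC : (C1 : ℝ) ≤ Y := by
    rw [hY]
    have h1 : (1 : ℝ) ≤ 2 * (J + 1) * R := by nlinarith
    nlinarith
  have hpowCI : ((CI : ℝ) * (J + 1) * R) ^ CI ≤ Y ^ C2 := by
    calc ((CI : ℝ) * (J + 1) * R) ^ CI ≤ Y ^ CI := by
          refine pow_le_pow_left₀ (by positivity) ?_ _
          rw [hY]
          gcongr
          linarith
      _ ≤ Y ^ C2 := pow_le_pow_right₀ (by linarith) (by rw [hC2]; omega)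
  have hY1 : (1 : ℝ) ≤ Y := by linarith
  have hsum : esum a N (fun l => rk (cl a l) (N2 N) (R ^ (2 * d - 1)) < 2 * d ∧
      rk (cl a l) (N2 N) 1 ≤ d) ≤ (J + 1) * ((C1 : ℝ) * R ^ (4 * d) * (∏ i, N i) ^ 2 +
        (C1 : ℝ) * R ^ (4 * d) * ((CI : ℝ) * (J + 1) * R) ^ CI * (∏ i, N i) ^ 2) := by
    refine le_trans (esum_le_sum a N _ _ hclass) ?_
    refine le_trans (sum_biUnion_le_sum _ _ _ (fun _ => sq_nonneg _)) ?_
    calc ∑ j ∈ range (J + 1), ∑ l ∈ Lt j ∪ Hv j, (cnt (cl a l) (N2 N) 1) ^ 2 ≤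
        ∑ j ∈ range (J + 1), ((C1 : ℝ) * R ^ (4 * d) * (∏ i, N i) ^ 2 +
        (C1 : ℝ) * R ^ (4 * d) * ((CI : ℝ) * (J + 1) * R) ^ CI * (∏ i, N i) ^ 2) := by
          refine sum_le_sum fun j _ => ?_
          have h1 : ∑ l ∈ Lt j ∪ Hv j, (M l) ^ 2 ≤ ∑ l ∈ Lt j, (M l) ^ 2 +
              ∑ l ∈ Hv j, (M l) ^ 2 := by
            rw [← sum_union_inter]
            have : 0 ≤ ∑ l ∈ Lt j ∩ Hv j, (M l) ^ 2 := sum_nonneg fun _ _ => sq_nonneg _
            linarith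
          exact h1.trans (add_le_add (hlight j) (hheavy j))
      _ = _ := by rw [sum_const, card_range, nsmul_eq_mul]; push_cast; ring
  refine hsum.trans ?_
  have hV2 : 0 ≤ (∏ i, N i) ^ 2 := sq_nonneg _
  have hmain : ((J : ℝ) + 1) * ((C1 : ℝ) * R ^ (4 * d) +
      (C1 : ℝ) * R ^ (4 * d) * ((CI : ℝ) * (J + 1) * R) ^ CI) ≤ ((C : ℝ) * (J + 1) * R) ^ C := by
    have h1 : (C1 : ℝ) * R ^ (4 * d) ≤ Y * Y ^ (4 * d) :=
      mul_le_mul hYC (pow_le_pow_left₀ hR0.le hYR _) (by positivity) (by linarith)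
    have h2 : (C1 : ℝ) * R ^ (4 * d) * ((CI : ℝ) * (J + 1) * R) ^ CI ≤
        Y * Y ^ (4 * d) * Y ^ C2 := mul_le_mul h1 hpowCI (by positivity) (by positivity)
    have h3 : Y * Y ^ (4 * d) ≤ Y * Y ^ (4 * d) * Y ^ C2 :=
      le_mul_of_one_le_right (by positivity) (one_le_pow₀ hY1)
    calc ((J : ℝ) + 1) * ((C1 : ℝ) * R ^ (4 * d) +
          (C1 : ℝ) * R ^ (4 * d) * ((CI : ℝ) * (J + 1) * R) ^ CI)
        ≤ Y * (Y * Y ^ (4 * d) * Y ^ C2 + Y * Y ^ (4 * d) * Y ^ C2) := by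
          refine mul_le_mul hYJ ?_ (by positivity) (by linarith)
          linarith
      _ = 2 * (Y ^ 2 * Y ^ (4 * d) * Y ^ C2) := by ring
      _ ≤ Y * (Y ^ 2 * Y ^ (4 * d) * Y ^ C2) := mul_le_mul_of_nonneg_right hY2 (by positivity)
      _ = Y ^ (4 * d + C2 + 3) := by ring
      _ ≤ ((C : ℝ) * (J + 1) * R) ^ (4 * d + C2 + 3) := by
          refine pow_le_pow_left₀ (by linarith) ?_ _
          rw [hY, hCR]
          have hd00 : (0 : ℝ) ≤ d := by linarith
          gcongr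
          linarith
      _ ≤ ((C : ℝ) * (J + 1) * R) ^ C := by
          refine pow_le_pow_right₀ ?_ (by rw [hCdef]; omega)
          have h4 : (1 : ℝ) ≤ (C : ℝ) * (J + 1) := by
            rw [hCR]
            nlinarith
          nlinarith
  calc ((J : ℝ) + 1) * ((C1 : ℝ) * R ^ (4 * d) * (∏ i, N i) ^ 2 +
        (C1 : ℝ) * R ^ (4 * d) * ((CI : ℝ) * (J + 1) * R) ^ CI * (∏ i, N i) ^ 2)
      = (((J : ℝ) + 1) * ((C1 : ℝ) * R ^ (4 * d) +
        (C1 : ℝ) * R ^ (4 * d) * ((CI : ℝ) * (J + 1) * R) ^ CI)) * (∏ i, N i) ^ 2 := by ring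
    _ ≤ _ := mul_le_mul_of_nonneg_right hmain hV2

end MPcb27.CaseA

namespace MPcb27

theorem specCaseA (hL : SpecLat) (hC : SpecCnt) (hN : SpecNumL) (hSub : SpecSub)
    (hF : SpecFull) : SpecCaseA := CaseA.specCaseA hL hC hN hSub hF

end MPcb27
end

section
/-!
# MP_cb27ba_nt, project BD: module CASEB
-/
set_option autoImplicit false

namespace MPcb27

open Finset Basic

namespace CaseB

/-- comparison of two energy sums through `l ↦ -l` -/
lemma esum_le_neg {p : ℕ} [Fact p.Prime] {ι : Type} [Fintype ι] (a a' : ι → ZMod p)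
    (N N' : ι → ℝ) (Q Q' : ZMod p → Prop) (c : ℝ)
    (h : ∀ l, l ≠ 0 → 1 < cnt (cl a l) (N2 N) 1 → Q l →
      1 < cnt (cl a' (-l)) (N2 N') 1 ∧ Q' (-l) ∧
        cnt (cl a l) (N2 N) 1 ≤ c * cnt (cl a' (-l)) (N2 N') 1) :
    esum a N Q ≤ c ^ 2 * esum a' N' Q' := by
  classical
  unfold esum
  rw [mul_sum]
  have h1 : ∀ l ∈ (univ : Finset (ZMod p)).filter
      (fun l => l ≠ 0 ∧ 1 < cnt (cl a l) (N2 N) 1 ∧ Q l),
      (cnt (cl a l) (N2 N) 1) ^ 2 ≤ c ^ 2 * (cnt (cl a' (-l)) (N2 N') 1) ^ 2 := by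
    intro l hl
    simp only [mem_filter, mem_univ, true_and] at hl
    have h2 := (h l hl.1 hl.2.1 hl.2.2).2.2
    rw [← mul_pow]
    exact pow_le_pow_left₀ (by linarith [hl.2.1]) h2 2
  refine (sum_le_sum h1).trans ?_
  rw [← sum_image (s := (univ : Finset (ZMod p)).filter
      (fun l => l ≠ 0 ∧ 1 < cnt (cl a l) (N2 N) 1 ∧ Q l)) (g := fun l => -l)
      (f := fun l => c ^ 2 * (cnt (cl a' l) (N2 N') 1) ^ 2)
      (fun x _ y _ hxy => neg_injective hxy)]
  refine sum_le_sum_of_subset_of_nonneg ?_ fun _ _ _ => by positivity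
  intro l hl
  rw [mem_image] at hl
  obtain ⟨m, hm, rfl⟩ := hl
  simp only [mem_filter, mem_univ, true_and] at hm ⊢
  have h2 := h m hm.1 hm.2.1 hm.2.2
  exact ⟨neg_ne_zero.mpr hm.1, h2.1, h2.2.1⟩

end CaseB

open CaseB in
theorem specCaseB (hD : SpecDual) : SpecCaseB := by
  intro d hd hA
  obtain ⟨C0, hA⟩ := hA
  obtain ⟨κ, hκ, hD⟩ := hD d
  refine ⟨C0 + 8 * d ^ 2 + ⌈κ⌉₊ + 4, ?_⟩
  intro R hR J p _ hp ι _ _ hι a N hSys
  have hκ' : κ ≤ (⌈κ⌉₊ : ℝ) := Nat.le_ceil κ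
  push_cast at hR
  have hC0R : (C0 : ℝ) ≤ R := by
    have : (0 : ℝ) ≤ 8 * (d : ℝ) ^ 2 := by positivity
    have : (0 : ℝ) ≤ (⌈κ⌉₊ : ℝ) := by positivity
    linarith
  have hκR : κ ≤ R := by
    have : (0 : ℝ) ≤ 8 * (d : ℝ) ^ 2 := by positivity
    have : (0 : ℝ) ≤ (C0 : ℝ) := by positivity
    linarith
  have hR1 : 1 ≤ R := hκ.trans hκR
  have hR0 : 0 < R := by linarith
  have hκ0 : 0 < κ := by linarith
  have hNpos : ∀ i, 0 < N i := Sys.pos hSys
  have hprodN : 0 < ∏ i, N i := prod_pos fun i _ => hNpos i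
  have hp0 : (0 : ℝ) < p := by exact_mod_cast (Fact.out : p.Prime).pos
  set s : ℝ := 1 / R ^ (2 * d) with hs
  have hs0 : 0 < s := by positivity
  have hs1 : s ≤ 1 := by
    rw [hs, div_le_one (by positivity)]
    exact one_le_pow₀ hR1
  have hsT : s * R ^ (2 * d + 1) = R := by
    rw [hs, pow_succ]
    field_simp
  have hne : Nonempty ι := by
    rw [← Fintype.card_pos_iff, hι]
    exact hd
  have ha : a ≠ 0 := by
    obtain ⟨i⟩ := hne
    intro h
    exact Sys.ne hSys (one_le_pow₀ hR1) i (congrFun h i)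
  obtain ⟨a', N', ha', hSys', hN', hl⟩ := hD ι hι p a N (R ^ (2 * d + 1)) s ha hSys hs0 hs1
    (by rw [hsT]; exact hR1)
  have hks : R ^ (2 * d - 1) ≤ 1 / (κ * s) := by
    rw [hs]
    obtain ⟨e, he⟩ : ∃ e, 2 * d = e + 1 := ⟨2 * d - 1, by omega⟩
    rw [he, Nat.add_sub_cancel, le_div_iff₀ (by positivity), pow_succ]
    have : R ^ e * (κ * (1 / (R ^ e * R))) = κ / R := by
      have : R ^ e ≠ 0 := by positivity
      field_simp
    rw [this, div_le_one hR0]
    exact hκR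
  have hSysA : Sys a' N' (R ^ (2 * d - 1)) := Sys.mono hSys' hks
  have hEA := hA R hC0R J p hp ι hι a' N' hSysA
  set c : ℝ := κ * ((∏ i, N i) ^ 2 / p) * (1 / s) ^ (2 * d) with hc
  have hcomp := esum_le_neg a a' N N'
    (fun l => rk (cl a l) (N2 N) (R ^ (2 * d + 1)) < 2 * d ∧ d < rk (cl a l) (N2 N) 1)
    (fun l => rk (cl a' l) (N2 N') (R ^ (2 * d - 1)) < 2 * d ∧ rk (cl a' l) (N2 N') 1 ≤ d)
    c (by
      intro l hl0 hcnt hQ
      obtain ⟨h1, h2, h3⟩ := hl l hl0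
      have h4 : rk (cl a' (-l)) (N2 N') (R ^ (2 * d - 1)) ≤
          rk (cl a' (-l)) (N2 N') (1 / (κ * s)) := rk_mono _ _ hks
      have h5 : rk (cl a' (-l)) (N2 N') 1 ≤ rk (cl a' (-l)) (N2 N') (R ^ (2 * d - 1)) :=
        rk_mono _ _ (one_le_pow₀ hR1)
      obtain ⟨w, hw, hw0⟩ := h2 (R ^ (2 * d + 1)) (by positivity) hQ.1
      refine ⟨?_, ⟨by omega, by omega⟩, h3⟩
      rw [one_lt_cnt_iff _ (N2_pos (Sys.pos hSys')) zero_le_one]
      refine ⟨w, ball_mono _ _ ?_ hw, hw0⟩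
      rw [hsT, div_le_one hR0]
      exact hκR)
  refine hcomp.trans ?_
  have hN'pos : 0 < ∏ i, N' i := prod_pos fun i _ => Sys.pos hSys' i
  have h6 : (∏ i, N' i) ^ 2 ≤ (κ * ((p : ℝ) / ∏ i, N i)) ^ 2 :=
    pow_le_pow_left₀ hN'pos.le hN' 2
  have hJ : (1 : ℝ) ≤ (J : ℝ) + 1 := by
    have : (0 : ℝ) ≤ J := by positivity
    linarith
  set D : ℕ := C0 + 8 * d ^ 2 + ⌈κ⌉₊ + 4 with hDdef
  set W : ℝ := (D : ℝ) * (J + 1) * R with hW
  have hD4 : (4 : ℝ) ≤ D := by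
    have : 4 ≤ D := by omega
    exact_mod_cast this
  have hWR : R ≤ W := by
    have : 1 ≤ (D : ℝ) * (J + 1) := by nlinarith
    rw [hW]
    nlinarith
  have hWκ : κ ≤ W := hκR.trans hWR
  have hW1 : 1 ≤ W := hR1.trans hWR
  have hWC : (C0 : ℝ) * (J + 1) * R ≤ W := by
    rw [hW]
    have : (C0 : ℝ) ≤ D := by
      have : C0 ≤ D := by omega
      exact_mod_cast this
    gcongr
  have h7 : c ^ 2 * (((C0 : ℝ) * (J + 1) * R) ^ C0 * (κ * ((p : ℝ) / ∏ i, N i)) ^ 2) =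
      κ ^ 4 * R ^ (8 * d ^ 2) * ((C0 : ℝ) * (J + 1) * R) ^ C0 * (∏ i, N i) ^ 2 := by
    have e1 : (1 / s) ^ (2 * d) = R ^ (4 * d ^ 2) := by
      rw [hs, one_div_one_div, ← pow_mul]
      congr 1
      ring
    rw [hc, e1, show 8 * d ^ 2 = 4 * d ^ 2 * 2 by ring, pow_mul R (4 * d ^ 2) 2]
    field_simp
  calc c ^ 2 * esum a' N' _ ≤
      c ^ 2 * (((C0 : ℝ) * (J + 1) * R) ^ C0 * (∏ i, N' i) ^ 2) := by gcongr
    _ ≤ c ^ 2 * (((C0 : ℝ) * (J + 1) * R) ^ C0 * (κ * ((p : ℝ) / ∏ i, N i)) ^ 2) := by gcongr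
    _ = κ ^ 4 * R ^ (8 * d ^ 2) * ((C0 : ℝ) * (J + 1) * R) ^ C0 * (∏ i, N i) ^ 2 := h7
    _ ≤ W ^ 4 * W ^ (8 * d ^ 2) * W ^ C0 * (∏ i, N i) ^ 2 := by gcongr
    _ = W ^ (4 + 8 * d ^ 2 + C0) * (∏ i, N i) ^ 2 := by rw [pow_add, pow_add]
    _ ≤ W ^ D * (∏ i, N i) ^ 2 := by
      gcongr
      omega

end MPcb27
end

section
/-!
# MP_cb27ba_nt, project BD, module CNT: counting with a good basis (helper40)
-/
set_option autoImplicit false

namespace MPcb27

open Finset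

namespace CntM

variable {ι : Type} [Fintype ι] [DecidableEq ι] {p : ℕ}

/-- the norms of a good basis are positive -/
lemma nu_pos [Fact p.Prime] {κ : ℝ} {c : ι → ZMod p} {N : ι → ℝ} {g : Matrix ι ι ℤ}
    (hN : ∀ i, 0 < N i) (h : IsGB κ c N g) (j : ι) : 0 < wn N (rv (g j)) := by
  have h1 : 0 < ∏ j, wn N (rv (g j)) := by
    refine lt_of_lt_of_le ?_ h.lo
    have : 0 < (p : ℝ) := by exact_mod_cast (Fact.out : p.Prime).pos
    exact div_pos this (Finset.prod_pos fun i _ => hN i)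
  have h2 := (Finset.prod_ne_zero_iff.mp h1.ne') j (mem_univ j)
  exact lt_of_le_of_ne (Basic.wn_nonneg _ _) (Ne.symm h2)

/-- integer combinations of the rows -/
def comb (g : Matrix ι ι ℤ) (m : ι → ℤ) : ι → ℤ := fun i => ∑ j, m j * g j i

omit [DecidableEq ι] in
lemma rv_comb (g : Matrix ι ι ℤ) (m : ι → ℤ) :
    rv (comb g m) = fun i => ∑ j, (m j : ℝ) * (g j i : ℝ) := by
  funext i
  simp [rv, comb]

lemma comb_injective [Fact p.Prime] {κ : ℝ} {c : ι → ZMod p} {N : ι → ℝ} {g : Matrix ι ι ℤ}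
    (hN : ∀ i, 0 < N i) (h : IsGB κ c N g) : Function.Injective (comb g) := by
  intro m m' hm
  have h1 := h.good (fun j => ((m j - m' j : ℤ) : ℝ))
  have h2 : (fun i => ∑ j, ((m j - m' j : ℤ) : ℝ) * (g j i : ℝ)) = fun _ => 0 := by
    funext i
    have h3 := congrFun hm i
    unfold comb at h3
    have h4 : ∑ j, (m j - m' j) * g j i = 0 := by
      simp only [sub_mul, Finset.sum_sub_distrib]
      rw [h3, sub_self]
    have h5 := congrArg (Int.cast : ℤ → ℝ) h4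
    push_cast at h5
    push_cast
    exact h5
  rw [h2, Basic.wn_zero', mul_zero] at h1
  funext j
  have h6 : |((m j - m' j : ℤ) : ℝ)| * wn N (rv (g j)) ≤ 0 :=
    (Finset.single_le_sum (f := fun j => |((m j - m' j : ℤ) : ℝ)| * wn N (rv (g j)))
      (fun j _ => mul_nonneg (abs_nonneg _) (Basic.wn_nonneg _ _)) (mem_univ j)).trans h1
  have h7 : |((m j - m' j : ℤ) : ℝ)| ≤ 0 := by
    by_contra h8
    have := mul_pos (not_le.mp h8) (nu_pos hN h j)
    linarith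
  have h9 : ((m j - m' j : ℤ) : ℝ) = 0 := abs_nonpos_iff.mp h7
  have h10 : m j - m' j = 0 := by exact_mod_cast h9
  omega

/-- the box with small coefficients is mapped into the ball -/
lemma comb_mem_ball {κ : ℝ} {c : ι → ZMod p} {N : ι → ℝ} {g : Matrix ι ι ℤ}
    (h : IsGB κ c N g) {t : ℝ} {m : ι → ℤ} (hm : ∑ j, |(m j : ℝ)| * wn N (rv (g j)) ≤ t) :
    comb g m ∈ ball c N t := by
  refine ⟨?_, ?_⟩
  · refine (Basic.lin_comb c m (fun j => g j)).trans ?_
    exact Finset.sum_eq_zero fun j _ => by rw [h.mem, mul_zero]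
  · rw [rv_comb]
    exact (Basic.wn_comb_le N _ _).trans hm

lemma upper [Fact p.Prime] {κ : ℝ} (hκ : 1 ≤ κ) {c : ι → ZMod p} {N : ι → ℝ} {g : Matrix ι ι ℤ}
    (hN : ∀ i, 0 < N i) (h : IsGB κ c N g) {t : ℝ} (ht : 0 ≤ t) :
    cnt c N t ≤ (3 * κ) ^ Fintype.card ι * ∏ j, max 1 (t / wn N (rv (g j))) := by
  have hν := nu_pos hN h
  have hsub : ball c N t ⊆ comb g '' (BoxC.box (fun j => κ / wn N (rv (g j))) t : Set (ι → ℤ)) := by
    intro w hw
    obtain ⟨m, hm⟩ := h.gen w hw.1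
    refine ⟨m, ?_, (funext hm).symm⟩
    rw [Finset.mem_coe, BoxC.box, Fintype.mem_piFinset]
    intro j
    have h1 := h.good (fun j => (m j : ℝ))
    have h2 : (fun i => ∑ j, (m j : ℝ) * (g j i : ℝ)) = rv w := by
      funext i
      rw [rv, hm i]
      push_cast
      rfl
    rw [h2] at h1
    have h3 : |(m j : ℝ)| * wn N (rv (g j)) ≤ κ * t := by
      refine (Finset.single_le_sum (f := fun j => |(m j : ℝ)| * wn N (rv (g j)))
        (fun j _ => mul_nonneg (abs_nonneg _) (Basic.wn_nonneg _ _)) (mem_univ j)).trans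
        (h1.trans ?_)
      exact mul_le_mul_of_nonneg_left hw.2 (by linarith)
    have h4 : |(m j : ℝ)| ≤ t * (κ / wn N (rv (g j))) := by
      rw [mul_div_assoc', le_div_iff₀ (hν j)]
      linarith
    have h5 : |m j| ≤ ⌊t * (κ / wn N (rv (g j)))⌋ := by
      rw [Int.le_floor]
      push_cast
      exact h4
    rw [Finset.mem_Icc]
    exact abs_le.mp h5
  have h1 : cnt c N t ≤ ((BoxC.box (fun j => κ / wn N (rv (g j))) t).card : ℝ) := by
    unfold cnt
    have h2 := (Set.ncard_le_ncard hsub ((Finset.finite_toSet _).image _)).trans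
      (Set.ncard_image_le (Finset.finite_toSet _))
    rw [Set.ncard_coe_finset] at h2
    exact_mod_cast h2
  refine h1.trans ((BoxC.card_box_le (fun j => div_pos (by linarith) (hν j)) ht).trans ?_)
  rw [← Finset.card_univ, ← Finset.prod_const, ← Finset.prod_mul_distrib]
  refine Finset.prod_le_prod (fun _ _ => by positivity) fun j _ => ?_
  rw [mul_assoc]
  refine mul_le_mul_of_nonneg_left ?_ (by norm_num)
  have h3 : t * (κ / wn N (rv (g j))) = κ * (t / wn N (rv (g j))) := by ring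
  rw [h3]
  apply max_le
  · have := le_max_left 1 (t / wn N (rv (g j)))
    nlinarith
  · exact mul_le_mul_of_nonneg_left (le_max_right _ _) (by linarith)

lemma lower [Fact p.Prime] {κ : ℝ} {c : ι → ZMod p} {N : ι → ℝ} {g : Matrix ι ι ℤ}
    (hN : ∀ i, 0 < N i) (h : IsGB κ c N g) {t : ℝ} (ht : 0 ≤ t) :
    ∏ j, max 1 (t / wn N (rv (g j))) ≤
      ((Fintype.card ι : ℝ) + 1) ^ Fintype.card ι * cnt c N t := by
  have hν := nu_pos hN h
  set n := Fintype.card ι with hn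
  have hn1 : (0 : ℝ) < (n : ℝ) + 1 := by positivity
  let F : Finset (ι → ℤ) :=
    Fintype.piFinset (fun j => Finset.Icc (-⌊t / (n + 1) / wn N (rv (g j))⌋)
      ⌊t / (n + 1) / wn N (rv (g j))⌋)
  have hsub : comb g '' (F : Set (ι → ℤ)) ⊆ ball c N t := by
    rintro _ ⟨m, hm, rfl⟩
    rw [Finset.mem_coe, Fintype.mem_piFinset] at hm
    apply comb_mem_ball h
    have h1 : ∀ j ∈ (univ : Finset ι), |(m j : ℝ)| * wn N (rv (g j)) ≤ t / (n + 1) := by
      intro j _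
      have h2 := hm j
      rw [Finset.mem_Icc] at h2
      have h3 : |m j| ≤ ⌊t / (n + 1) / wn N (rv (g j))⌋ := abs_le.mpr h2
      rw [Int.le_floor] at h3
      push_cast at h3
      rwa [le_div_iff₀ (hν j)] at h3
    refine (Finset.sum_le_sum h1).trans ?_
    rw [Finset.sum_const, Finset.card_univ, ← hn, nsmul_eq_mul, mul_div_assoc', div_le_iff₀ hn1]
    nlinarith
  have hcard : (F.card : ℝ) ≤ cnt c N t := by
    unfold cnt
    have h1 := Set.ncard_le_ncard hsub (Basic.ball_finite c hN t)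
    rw [Set.ncard_image_of_injective _ (comb_injective hN h), Set.ncard_coe_finset] at h1
    exact_mod_cast h1
  refine le_trans ?_ (mul_le_mul_of_nonneg_left hcard (by positivity))
  rw [Fintype.card_piFinset]
  push_cast
  rw [hn, ← Finset.card_univ, ← Finset.prod_const, ← Finset.prod_mul_distrib]
  refine Finset.prod_le_prod (fun _ _ => by positivity) fun j _ => ?_
  rw [Int.card_Icc]
  set y := t / (n + 1) / wn N (rv (g j)) with hy
  have h0 : 0 ≤ y := by have := hν j; positivity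
  have h1 : 0 ≤ ⌊y⌋ := Int.floor_nonneg.mpr h0
  have h2 : ((⌊y⌋ + 1 - -⌊y⌋).toNat : ℝ) = 2 * (⌊y⌋ : ℝ) + 1 := by
    have : ((⌊y⌋ + 1 - -⌊y⌋).toNat : ℤ) = 2 * ⌊y⌋ + 1 := by
      rw [Int.toNat_of_nonneg (by omega)]; ring
    exact_mod_cast congrArg (Int.cast : ℤ → ℝ) this
  rw [Finset.card_univ, ← hn]
  have hy2 : t / wn N (rv (g j)) = (n + 1) * y := by
    rw [hy]; field_simp
  rw [hy2]
  have h3 : (((⌊y⌋ + 1 - -⌊y⌋).toNat : ℕ) : ℝ) = 2 * (⌊y⌋ : ℝ) + 1 := h2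
  rw [h3]
  have h4 := Int.lt_floor_add_one y
  have h5 : (0 : ℝ) ≤ ⌊y⌋ := by exact_mod_cast h1
  apply max_le
  · nlinarith [mul_nonneg (Nat.cast_nonneg (α := ℝ) n) h5, Nat.cast_nonneg (α := ℝ) n]
  · refine mul_le_mul_of_nonneg_left ?_ hn1.le
    linarith

end CntM

theorem specCnt : SpecCnt := by
  intro n κ hκ
  refine ⟨(3 * κ) ^ n * ((n : ℝ) + 1) ^ n, ?_, ?_⟩
  · have h1 : (1 : ℝ) ≤ (3 * κ) ^ n := one_le_pow₀ (by linarith)
    have h2 : (1 : ℝ) ≤ ((n : ℝ) + 1) ^ n := one_le_pow₀ (by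
      have := Nat.cast_nonneg (α := ℝ) n; linarith)
    nlinarith
  · intro ι _ _ hι p _ c N g hN h t ht
    have h1 : (1 : ℝ) ≤ (3 * κ) ^ n := one_le_pow₀ (by linarith)
    have h2 : (1 : ℝ) ≤ ((n : ℝ) + 1) ^ n := one_le_pow₀ (by
      have := Nat.cast_nonneg (α := ℝ) n; linarith)
    have hU := CntM.upper hκ hN h ht
    have hL := CntM.lower hN h ht
    rw [hι] at hU hL
    have hp : 0 ≤ ∏ j, max 1 (t / wn N (rv (g j))) :=
      Finset.prod_nonneg fun j _ => le_trans zero_le_one (le_max_left _ _)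
    have hc : 0 ≤ cnt c N t := Nat.cast_nonneg _
    refine ⟨Basic.ball_finite c hN t, hU.trans ?_, hL.trans ?_⟩
    · refine mul_le_mul_of_nonneg_right ?_ hp
      nlinarith
    · refine mul_le_mul_of_nonneg_right ?_ hc
      nlinarith

end MPcb27
end

section
/-!
# DET: Hadamard's inequality and its converse for good bases
-/
set_option autoImplicit false

namespace MPcb27.Det

open Finset MPcb27 MPcb27.Basic

lemma hadamard_fin (n : ℕ) (W : Matrix (Fin n) (Fin n) ℝ) :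
    |W.det| ≤ ∏ j, Real.sqrt (∑ i, (W j i) ^ 2) := by
  haveI : Fact (Module.finrank ℝ (EuclideanSpace ℝ (Fin n)) = n) := ⟨by simp⟩
  have h := (EuclideanSpace.basisFun (Fin n) ℝ).toBasis.orientation.abs_volumeForm_apply_le
    (fun j => (WithLp.toLp 2 (W j) : EuclideanSpace ℝ (Fin n)))
  rw [Orientation.volumeForm_robust' _ (EuclideanSpace.basisFun (Fin n) ℝ),
    Module.Basis.det_apply] at h
  have h1 : (EuclideanSpace.basisFun (Fin n) ℝ).toBasis.toMatrix
      (fun j => (WithLp.toLp 2 (W j) : EuclideanSpace ℝ (Fin n))) = W.transpose := by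
    ext i j
    simp [Module.Basis.toMatrix_apply, EuclideanSpace.basisFun_repr]
  rw [h1, Matrix.det_transpose] at h
  refine h.trans (le_of_eq (prod_congr rfl fun j _ => ?_))
  rw [EuclideanSpace.norm_eq]
  simp only [Real.norm_eq_abs, sq_abs]

variable {ι : Type} [Fintype ι] [DecidableEq ι]

lemma wn_one (x : ι → ℝ) : wn (fun _ => 1) x = Real.sqrt (∑ i, x i ^ 2) := by
  simp [wn]

lemma hadamard (V : Matrix ι ι ℝ) : |V.det| ≤ ∏ j, wn (fun _ => 1) (V j) := by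
  let e := Fintype.equivFin ι
  have h := hadamard_fin (Fintype.card ι) (V.submatrix e.symm e.symm)
  rw [Matrix.det_submatrix_equiv_self] at h
  refine h.trans (le_of_eq ?_)
  rw [← Equiv.prod_comp e.symm (fun j => wn (fun _ => 1) (V j))]
  refine prod_congr rfl fun j _ => ?_
  rw [wn_one, ← Equiv.sum_comp e.symm (fun i => V (e.symm j) i ^ 2)]
  rfl

lemma wn_one_le (x : ι → ℝ) : wn (fun _ => 1) x ≤ ∑ j, |x j| := by
  have h := wn_comb_le (fun _ : ι => (1 : ℝ)) x (fun j => Pi.single j (1 : ℝ))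
  have h1 : (fun i => ∑ j, x j * (Pi.single j (1 : ℝ) : ι → ℝ) i) = x := by
    ext i
    simp [Pi.single_apply]
  rw [h1] at h
  refine h.trans (le_of_eq (sum_congr rfl fun j _ => ?_))
  rw [wn_single (fun _ => one_pos)]
  simp

lemma converse {κ : ℝ} (hκ : 1 ≤ κ) (V : Matrix ι ι ℝ)
    (h : ∀ x : ι → ℝ, ∑ j, |x j| * wn (fun _ => 1) (V j) ≤
      κ * wn (fun _ => 1) (fun i => ∑ j, x j * V j i)) :
    ∏ j, wn (fun _ => 1) (V j) ≤ κ ^ (Fintype.card ι) * |V.det| := by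
  by_cases h0 : ∃ j, wn (fun _ => 1) (V j) = 0
  · obtain ⟨j, hj⟩ := h0
    rw [prod_eq_zero (mem_univ j) hj]
    positivity
  push Not at h0
  have hpos : ∀ j, 0 < wn (fun _ => 1) (V j) := fun j =>
    lt_of_le_of_ne (wn_nonneg _ _) (Ne.symm (h0 j))
  set w : ι → ℝ := fun j => wn (fun _ => 1) (V j) with hw
  set T : Matrix ι ι ℝ := Matrix.diagonal (fun j => (w j)⁻¹) * V with hT
  have hdet : T.det = (∏ j, (w j)⁻¹) * V.det := by
    rw [hT, Matrix.det_mul, Matrix.det_diagonal]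
  have hgood : ∀ x : ι → ℝ, wn (fun _ => 1) x ≤ κ * wn (fun _ => 1) (Matrix.vecMul x T) := by
    intro x
    have h1 := h (fun j => x j / w j)
    have h2 : ∑ j, |x j / w j| * wn (fun _ => 1) (V j) = ∑ j, |x j| := by
      refine sum_congr rfl fun j _ => ?_
      rw [abs_div, abs_of_pos (hpos j)]
      exact div_mul_cancel₀ _ (hpos j).ne'
    have h3 : (fun i => ∑ j, x j / w j * V j i) = Matrix.vecMul x T := by
      ext i
      simp only [hT, Matrix.vecMul, dotProduct, Matrix.diagonal_mul]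
      exact sum_congr rfl fun j _ => by rw [div_eq_mul_inv, mul_assoc]
    rw [h2, h3] at h1
    exact (wn_one_le x).trans h1
  have hT0 : T.det ≠ 0 := by
    intro h1
    obtain ⟨x, hx, hx0⟩ := Matrix.exists_vecMul_eq_zero_iff.mpr h1
    have h2 := hgood x
    rw [hx0, wn_zero, mul_zero] at h2
    exact hx (wn_eq_zero (fun _ => one_pos) (le_antisymm h2 (wn_nonneg _ _)))
  have hinv : T⁻¹ * T = 1 := Matrix.nonsing_inv_mul T (Ne.isUnit hT0)
  have hrow : ∀ i, wn (fun _ => 1) (T⁻¹ i) ≤ κ := by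
    intro i
    have h1 := hgood (T⁻¹ i)
    have h2 : Matrix.vecMul (T⁻¹ i) T = Pi.single i 1 := by
      ext k
      have h3 := congrFun (congrFun hinv i) k
      rw [Matrix.mul_apply] at h3
      rw [Matrix.vecMul, dotProduct, h3, Matrix.one_apply, Pi.single_apply]
      simp only [eq_comm]
    rw [h2, wn_single (fun _ => one_pos)] at h1
    simpa using h1
  have h4 : |T⁻¹.det| ≤ κ ^ (Fintype.card ι) := by
    refine (hadamard T⁻¹).trans ?_
    refine (prod_le_prod (fun i _ => wn_nonneg _ _) fun i _ => hrow i).trans (le_of_eq ?_)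
    simp
  have h5 : T⁻¹.det * T.det = 1 := by
    rw [← Matrix.det_mul, hinv, Matrix.det_one]
  have h6 : 1 ≤ κ ^ (Fintype.card ι) * |T.det| := by
    have : |T⁻¹.det| * |T.det| = 1 := by rw [← abs_mul, h5, abs_one]
    rw [← this]
    exact mul_le_mul_of_nonneg_right h4 (abs_nonneg _)
  have hprod : 0 < ∏ j, w j := prod_pos fun j _ => hpos j
  rw [hdet, abs_mul, prod_inv_distrib, abs_of_pos (inv_pos.mpr hprod)] at h6
  have h7 : κ ^ (Fintype.card ι) * ((∏ j, w j)⁻¹ * |V.det|) * ∏ j, w j =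
      κ ^ (Fintype.card ι) * |V.det| := by
    field_simp
  calc ∏ j, w j = 1 * ∏ j, w j := (one_mul _).symm
    _ ≤ κ ^ (Fintype.card ι) * ((∏ j, w j)⁻¹ * |V.det|) * ∏ j, w j :=
        mul_le_mul_of_nonneg_right h6 hprod.le
    _ = κ ^ (Fintype.card ι) * |V.det| := h7

end MPcb27.Det

namespace MPcb27

/-- **DET** -/
theorem specDet : SpecDet := by
  intro κ hκ ι _ _ V
  exact ⟨Det.hadamard V, fun h => Det.converse hκ V h⟩

end MPcb27
end
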