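import Pool.Agent.Lib.MP_cb27ba_nt.BD.Defs

/-!
# MP_cb27ba_nt, project BD: exact statements of the modules
Paper proofs: /team-store/MP_cb27ba_nt_PROOF.md
-/

set_option autoImplicit false

namespace MPcb27

open Finset
open scoped Pointwise

/-! ### Geometry of numbers -/

/-- GB: every lattice has a good (almost orthogonal) basis. -/
def SpecGB : Prop :=
  ∀ n : ℕ, ∃ κ : ℝ, 1 ≤ κ ∧
    ∀ (E : Type) [NormedAddCommGroup E] [InnerProductSpace ℝ E] (v : Fin n → E),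
      LinearIndependent ℝ v →
      ∃ b : Fin n → E, LinearIndependent ℝ b ∧
        Submodule.span ℤ (Set.range b) = Submodule.span ℤ (Set.range v) ∧
        ∀ x : Fin n → ℝ, ∑ i, |x i| * ‖b i‖ ≤ κ * ‖∑ i, x i • b i‖

/-- DET: Hadamard and its converse for good bases. -/
def SpecDet : Prop :=
  ∀ (κ : ℝ), 1 ≤ κ → ∀ (ι : Type) [Fintype ι] [DecidableEq ι] (V : Matrix ι ι ℝ),
    |V.det| ≤ ∏ j, wn (fun _ => 1) (V j) ∧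
    ((∀ x : ι → ℝ, ∑ j, |x j| * wn (fun _ => 1) (V j) ≤
        κ * wn (fun _ => 1) (fun i => ∑ j, x j * V j i)) →
      ∏ j, wn (fun _ => 1) (V j) ≤ κ ^ (Fintype.card ι) * |V.det|)

/-- LAT: good basis of the lattice `lin c w = 0`. -/
def SpecLat : Prop :=
  ∀ n : ℕ, ∃ κ : ℝ, 1 ≤ κ ∧
    ∀ (ι : Type) [Fintype ι] [DecidableEq ι], Fintype.card ι = n →
    ∀ (p : ℕ) [Fact p.Prime] (c : ι → ZMod p), c ≠ 0 →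
    ∀ N : ι → ℝ, (∀ i, 0 < N i) → ∃ g : Matrix ι ι ℤ, IsGB κ c N g

/-- CNT: counting with a good basis. -/
def SpecCnt : Prop :=
  ∀ (n : ℕ) (κ : ℝ), 1 ≤ κ → ∃ C : ℝ, 1 ≤ C ∧
    ∀ (ι : Type) [Fintype ι] [DecidableEq ι], Fintype.card ι = n →
    ∀ (p : ℕ) [Fact p.Prime] (c : ι → ZMod p) (N : ι → ℝ) (g : Matrix ι ι ℤ),
      (∀ i, 0 < N i) → IsGB κ c N g → ∀ t : ℝ, 0 ≤ t →
      (ball c N t).Finite ∧
      cnt c N t ≤ C * ∏ j, max 1 (t / wn N (rv (g j))) ∧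
      ∏ j, max 1 (t / wn N (rv (g j))) ≤ C * cnt c N t

/-- BOXC: integer points in a ball. -/
def SpecBoxCnt : Prop :=
  ∀ (ι : Type) [Fintype ι] [DecidableEq ι] (N : ι → ℝ), (∀ i, 0 < N i) → ∀ t : ℝ, 0 ≤ t →
    {w : ι → ℤ | wn N (rv w) ≤ t}.Finite ∧
    (({w : ι → ℤ | wn N (rv w) ≤ t}.ncard : ℕ) : ℝ) ≤ ∏ i, (3 * max 1 (t * N i))

/-- NUML: few `l` have a short vector. -/
def SpecNumL : Prop :=
  ∀ (ι : Type) [Fintype ι] [DecidableEq ι] (p : ℕ) [Fact p.Prime] (a : ι → ZMod p) (N : ι → ℝ)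
    (T t : ℝ), Sys a N T → 0 ≤ t → t ≤ T →
    (({l : ZMod p | l ≠ 0 ∧ ∃ w ∈ ball (cl a l) (N2 N) t, w ≠ 0}.ncard : ℕ) : ℝ) ≤
      ∏ i, (3 * max 1 (t * N i)) ^ 2

/-- SUB: passage to the subsystem of the large sides. -/
def SpecSub : Prop :=
  ∀ (ι : Type) [Fintype ι] [DecidableEq ι] (p : ℕ) [Fact p.Prime] (a : ι → ZMod p) (N : ι → ℝ)
    (t : ℝ) (I : Finset ι), (∀ i, 1 ≤ N i) → 0 < t → t ≤ 1 → (∀ i, i ∈ I ↔ 1 ≤ N i * t) →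
    (∀ l : ZMod p, cnt (cl a l) (N2 N) t =
      cnt (cl (fun i : I => a i) l) (N2 (fun i : I => N i * t)) 1) ∧
    (∀ T : ℝ, 0 ≤ T → Sys a N T → Sys (fun i : I => a i) (fun i : I => N i * t) T)

/-- FULL: a full sublattice makes the whole lattice full. -/
def SpecFull : Prop :=
  ∀ (ι : Type) [Fintype ι] [DecidableEq ι] (p : ℕ) [Fact p.Prime] (a : ι → ZMod p) (N : ι → ℝ)
    (l : ZMod p) (t T : ℝ) (I : Finset ι), (∀ i, 1 ≤ N i) → 0 < t → 0 ≤ T →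
    (∃ i ∈ I, a i ≠ 0) →
    rk (cl (fun i : I => a i) l) (N2 (fun i : I => N i * t)) T = 2 * I.card →
    rk (cl a l) (N2 N) (1 + 2 * (Fintype.card ι) * (T * t)) = 2 * Fintype.card ι

/-- DUAL: the dual system. -/
def SpecDual : Prop :=
  ∀ d : ℕ, ∃ κ : ℝ, 1 ≤ κ ∧
    ∀ (ι : Type) [Fintype ι] [DecidableEq ι], Fintype.card ι = d →
    ∀ (p : ℕ) [Fact p.Prime] (a : ι → ZMod p) (N : ι → ℝ) (T s : ℝ),
      a ≠ 0 → Sys a N T → 0 < s → s ≤ 1 → 1 ≤ s * T →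
      ∃ (a' : ι → ZMod p) (N' : ι → ℝ), a' ≠ 0 ∧ Sys a' N' (1 / (κ * s)) ∧
        ∏ i, N' i ≤ κ * ((p : ℝ) / ∏ i, N i) ∧
        ∀ l : ZMod p, l ≠ 0 →
          rk (cl a' (-l)) (N2 N') (1 / (κ * s)) + rk (cl a l) (N2 N) 1 ≤ 2 * d ∧
          (∀ T' : ℝ, 0 < T' → rk (cl a l) (N2 N) T' < 2 * d →
            ∃ w ∈ ball (cl a' (-l)) (N2 N') (κ / (s * T')), w ≠ 0) ∧
          cnt (cl a l) (N2 N) 1 ≤
            κ * ((∏ i, N i) ^ 2 / p) * (1 / s) ^ (2 * d) * cnt (cl a' (-l)) (N2 N') 1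

/-! ### Multiplicative energy of generalized arithmetic progressions -/

/-- CASEA -/
def SpecCaseA : Prop :=
  ∀ d : ℕ, 1 ≤ d → (∀ d' : ℕ, d' < d → En d' (2 * d' + 1)) → EnA d (2 * d - 1)

/-- CASEB -/
def SpecCaseB : Prop := ∀ d : ℕ, 1 ≤ d → EnA d (2 * d - 1) → EnB d (2 * d + 1)

/-- IND -/
def SpecInd : Prop := ∀ d : ℕ, En d (2 * d + 1)

/-- NF: a full lattice has large balls. -/
def SpecNF : Prop :=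
  ∀ (ι : Type) [Fintype ι] [DecidableEq ι] (p : ℕ) [Fact p.Prime] (c : ι → ZMod p) (N : ι → ℝ)
    (t : ℝ), c ≠ 0 → (∀ i, 0 < N i) → 0 ≤ t → rk c N t = Fintype.card ι →
    (p : ℝ) ≤ t ^ (Fintype.card ι) * ∏ i, N i

/-- ENERGY -/
def SpecEnergy : Prop :=
  ∀ (d : ℕ) (ε η δ : ℝ), 0 < ε → 0 < η → 0 < δ → ∃ P : ℕ, ∀ (p : ℕ) [Fact p.Prime], P ≤ p →
    ∀ (ι : Type) [Fintype ι] [DecidableEq ι], Fintype.card ι = d →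
    ∀ (a : ι → ZMod p) (N : ι → ℝ), Sys a N ((p : ℝ) ^ η) →
      ∏ i, N i ≤ (p : ℝ) ^ (1 / 2 - δ) →
      esum a N (fun _ => True) ≤ (p : ℝ) ^ ε * (∏ i, N i) ^ 2

/-- EN2: the count needed in the Burgess argument. -/
def SpecEn2 : Prop :=
  ∀ (d : ℕ) (ε η δ : ℝ), 0 < ε → 0 < η → 0 < δ → ∃ P : ℕ, ∀ (p : ℕ) [Fact p.Prime], P ≤ p →
    ∀ (ι : Type) [Fintype ι] [DecidableEq ι], Fintype.card ι = d →
    ∀ (b : ι → ZMod p) (H H' : ι → ℕ), (∀ i, 1 ≤ H i) → (∀ i, H' i ≤ H i) →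
      Proper b H ((p : ℝ) ^ η) → ∏ i, (H i : ℝ) ≤ (p : ℝ) ^ (1 / 2 - δ) →
      ∀ z : ZMod p,
      ((#(((bx H ×ˢ bx (fun i => H' i + 1)) ×ˢ (bx H ×ˢ bx (fun i => H' i + 1))).filter
        (fun q => q.1.2 ≠ 0 ∧ q.2.2 ≠ 0 ∧
          (z + linN b q.1.1) * linN b q.2.2 = (z + linN b q.2.1) * linN b q.1.2)) : ℕ) : ℝ) ≤
        (p : ℝ) ^ ε * (∏ i, (H i : ℝ)) * ∏ i, ((H' i : ℝ) + 1)

/-- ENP: the multiplicative energy of a proper progression. -/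
def SpecEnP : Prop :=
  ∀ (d : ℕ) (ε η δ : ℝ), 0 < ε → 0 < η → 0 < δ → ∃ P : ℕ, ∀ p : ℕ, p.Prime → P ≤ p →
    ∀ (b : Fin d → ZMod p) (H : Fin d → ℕ), (∀ i, 1 ≤ H i) →
      Proper b H ((p : ℝ) ^ η) → ∏ i, (H i : ℝ) ≤ (p : ℝ) ^ (1 / 2 - δ) →
      ∀ (Q : Finset (ZMod p)), (∀ x ∈ Q, ∃ n : Fin d → ℤ, (∀ i, |n i| ≤ H i) ∧ x = lin b n) →
        ((#((Q ×ˢ Q ×ˢ Q ×ˢ Q).filter
          (fun x => x.1 * x.2.1 = x.2.2.1 * x.2.2.2)) : ℕ) : ℝ) ≤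
          (p : ℝ) ^ ε * (∏ i, (H i : ℝ)) ^ 2

/-! ### Weil's bound for products of shifted multiplicative characters -/

/-- LID: the recursion between character sums and the coefficients of the L-function. -/
def SpecLid : Prop :=
  ∀ (p : ℕ) [Fact p.Prime] (S : Finset (ZMod p)) (ψ : ZMod p → MulChar (ZMod p) ℂ) (m : ℕ),
    1 ≤ m → (m : ℂ) * aa p S ψ m = ∑ k ∈ range m, SS p S ψ (k + 1) * aa p S ψ (m - 1 - k)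

/-- LVAN: the L-function is a polynomial of degree less than `#S`. -/
def SpecLvan : Prop :=
  ∀ (p : ℕ) [Fact p.Prime] (S : Finset (ZMod p)) (ψ : ZMod p → MulChar (ZMod p) ℂ),
    aa p S ψ 0 = 1 ∧ aa p S ψ 1 = WS p S ψ ∧
    ((∃ s ∈ S, ψ s ≠ 1) → ∀ m : ℕ, #S ≤ m → aa p S ψ m = 0)

/-- ANA: the analytic argument. -/
def SpecAna : Prop :=
  ∀ (D : ℕ) (a S : ℕ → ℂ) (ρ C : ℝ), 0 < ρ → a 0 = 1 → (∀ m : ℕ, D ≤ m → a m = 0) →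
    (∀ m : ℕ, 1 ≤ m → (m : ℂ) * a m = ∑ k ∈ range m, S (k + 1) * a (m - 1 - k)) →
    (∀ n : ℕ, 1 ≤ n → ‖S n‖ ≤ C * ρ ^ n) → ‖a 1‖ ≤ D * ρ

open Polynomial in
/-- KUM: independence of the `(p-1)`-th roots of `(Y+s)/(x+s)` (Kummer theory). -/
def SpecKum : Prop :=
  ∀ (p : ℕ) [Fact p.Prime] (F : Type) [Field F] [Algebra (ZMod p) F] (S : Finset (ZMod p)),
    ∃ (Ω : Type) (_ : Field Ω) (φ : Polynomial (Polynomial F) →+* Ω) (w : ZMod p → Ω),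
      (∀ s ∈ S, w s ^ (p - 1) * φ (C (X + C (algebraMap (ZMod p) F s))) =
        φ (X + C (C (algebraMap (ZMod p) F s)))) ∧
      ∀ H : (S → Fin (p - 1)) → Polynomial (Polynomial F),
        ∑ i, φ (H i) * ∏ s : S, w s ^ ((i s : ℕ)) = 0 → H = 0

open Polynomial in
/-- NV: the nonvanishing lemma of Stepanov's method. -/
def SpecNV : Prop :=
  ∀ (p : ℕ) [Fact p.Prime] (n : ℕ) (F : Type) [Field F] [Fintype F] [Algebra (ZMod p) F],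
    Fintype.card F = p ^ n → 1 ≤ n → ∀ (S : Finset (ZMod p)) (B : ℕ),
    (p - 1) ^ #S * (B + #S) < p ^ n → ∀ H : (S → Fin (p - 1)) → Polynomial (Polynomial F),
    (∀ i j, ((H i).coeff j).natDegree ≤ B) →
    ∑ i, (H i).eval (X ^ (p ^ n)) * ∏ s : S,
      (X + C (algebraMap (ZMod p) F s)) ^ ((i s : ℕ) * ((p ^ n - 1) / (p - 1))) = 0 → H = 0

/-- STEP: Stepanov's upper bound for simultaneous power residue classes. -/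
def SpecStep : Prop :=
  ∀ (p : ℕ) [Fact p.Prime] (S : Finset (ZMod p)), ∃ C : ℝ, ∀ (n : ℕ), 1 ≤ n →
    ∀ (F : Type) [Field F] [Fintype F] [Algebra (ZMod p) F], Fintype.card F = p ^ n →
    ∀ ζ : ZMod p → ZMod p, (∀ s ∈ S, ζ s ≠ 0) →
      (({u : F | ∀ s ∈ S, (u + algebraMap (ZMod p) F s) ^ ((p ^ n - 1) / (p - 1)) =
        algebraMap (ZMod p) F (ζ s)}.ncard : ℕ) : ℝ) ≤
        (p : ℝ) ^ n / ((p : ℝ) - 1) ^ #S + C * Real.sqrt ((p : ℝ) ^ n)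

/-- SN: square root bound for the sums over extensions. -/
def SpecSn : Prop :=
  ∀ (p : ℕ) [Fact p.Prime] (S : Finset (ZMod p)) (ψ : ZMod p → MulChar (ZMod p) ℂ),
    (∃ s ∈ S, ψ s ≠ 1) → ∃ C : ℝ, ∀ n : ℕ, 1 ≤ n → ‖SS p S ψ n‖ ≤ C * (Real.sqrt p) ^ n

/-- WEIL -/
def SpecWeil : Prop :=
  ∀ (p : ℕ) [Fact p.Prime] (S : Finset (ZMod p)) (ψ : ZMod p → MulChar (ZMod p) ℂ),
    (∃ s ∈ S, ψ s ≠ 1) → ‖WS p S ψ‖ ≤ #S * Real.sqrt p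

/-- MOM: high moments of short character sums with bounded weights. -/
def SpecMom : Prop :=
  ∀ r : ℕ, 1 ≤ r → ∃ C : ℝ, ∀ (p : ℕ) [Fact p.Prime] (χ : MulChar (ZMod p) ℂ), χ ≠ 1 →
    ∀ (X : ℕ), X ≤ p → ∀ c : ℕ → ℂ, (∀ x, ‖c x‖ ≤ 1) →
      ∑ u : ZMod p, ‖∑ x ∈ range X, c x * χ (u + (x : ZMod p))‖ ^ (2 * r) ≤
        C * ((X : ℝ) ^ r * p + (X : ℝ) ^ (2 * r) * Real.sqrt p)

/-! ### Character sums over proper progressions -/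

/-- power saving for twisted character sums over proper boxes of rank `d`, volume between
`p ^ lo` and `p ^ hi` -/
def BoxSum (d : ℕ) (lo hi : ℝ) : Prop :=
  ∃ τ : ℝ, 0 < τ ∧ ∀ η : ℝ, 0 < η → ∃ P : ℕ, ∀ (p : ℕ) [Fact p.Prime], P ≤ p →
    ∀ (ι : Type) [Fintype ι] [DecidableEq ι], Fintype.card ι = d →
    ∀ (b : ι → ZMod p) (H : ι → ℕ), (∀ i, 1 ≤ H i) → Proper b H ((p : ℝ) ^ η) →
      (p : ℝ) ^ lo ≤ ∏ i, (H i : ℝ) → ∏ i, (H i : ℝ) ≤ (p : ℝ) ^ hi →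
      ∀ (χ : MulChar (ZMod p) ℂ), χ ≠ 1 → ∀ (ψ : AddChar (ZMod p) ℂ) (z : ZMod p),
        ‖∑ n ∈ bx H, χ (z + linN b n) * ψ (linN b n)‖ ≤ (p : ℝ) ^ (-τ) * ∏ i, (H i : ℝ)

/-- BURG: Burgess's method, volume between `p^(1/4+δ)` and `p^(1/2-δ)`. -/
def SpecBurg : Prop :=
  ∀ (d : ℕ) (δ : ℝ), 0 < δ → δ ≤ 1 / 8 → BoxSum d (1 / 4 + δ) (1 / 2 - δ)

/-- TILE: large boxes are tiled by small ones. -/
def SpecTile : Prop :=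
  ∀ d : ℕ, (∀ δ : ℝ, 0 < δ → δ ≤ 1 / 8 → BoxSum d (1 / 4 + δ) (1 / 2 - δ)) →
    ∀ δ : ℝ, 0 < δ → BoxSum d (1 / 4 + δ) 1

/-- FOUR: the Fourier (Toeplitz) inequality. -/
def SpecFour : Prop :=
  ∀ (p : ℕ) [Fact p.Prime] (f : ZMod p → ℂ) (M : ℝ),
    (∀ ψ : AddChar (ZMod p) ℂ, ‖∑ x, f x * ψ x‖ ≤ M) →
    ∀ A B : Finset (ZMod p), ‖∑ a ∈ A, ∑ b ∈ B, f (a - b)‖ ≤ M * Real.sqrt ((#A : ℝ) * #B)

/-- PROPER: every progression is contained in a proper one of at most the same rank. -/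
def SpecProper : Prop :=
  ∀ d : ℕ, ∃ C : ℕ, ∀ (p : ℕ) [Fact p.Prime] (θ : ℝ), 1 ≤ θ →
    ∀ (b : Fin d → ZMod p) (H : Fin d → ℕ), (∀ i, 1 ≤ H i) →
      ((C : ℝ) * θ) ^ C * ∏ i, (H i : ℝ) < p →
      ∃ (d' : ℕ) (b' : Fin d' → ZMod p) (H' : Fin d' → ℕ), d' ≤ d ∧ (∀ i, 1 ≤ H' i) ∧
        ∏ i, (H' i : ℝ) ≤ ((C : ℝ) * θ) ^ C * ∏ i, (H i : ℝ) ∧ Proper b' H' θ ∧
        ∀ n : Fin d → ℤ, (∀ i, |n i| ≤ H i) →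
          ∃ n' : Fin d' → ℤ, (∀ i, |n' i| ≤ H' i) ∧ lin b n = lin b' n'

/-- GAPP: bilinear sums over subsets of (not necessarily proper) progressions. -/
def SpecGapP : Prop :=
  ∀ (d : ℕ) (δ : ℝ), 0 < δ → ∃ τ : ℝ, 0 < τ ∧ ∃ P : ℕ, ∀ (p : ℕ) [Fact p.Prime], P ≤ p →
    ∀ (b : Fin d → ZMod p) (H : Fin d → ℕ), (∀ i, 1 ≤ H i) →
      (p : ℝ) ^ (1 / 4 + δ) ≤ ∏ i, (H i : ℝ) →
      ∀ (A B : Finset (ZMod p)) (x y : ZMod p),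
        (∀ u ∈ A, ∃ n : Fin d → ℤ, (∀ i, |n i| ≤ H i) ∧ u = x + lin b n) →
        (∀ u ∈ B, ∃ n : Fin d → ℤ, (∀ i, |n i| ≤ H i) ∧ u = y + lin b n) →
        ∀ (χ : MulChar (ZMod p) ℂ), χ ≠ 1 →
          ‖∑ u ∈ A, ∑ v ∈ B, χ (u - v)‖ ≤
            (p : ℝ) ^ (-τ) * (∏ i, (H i : ℝ)) * Real.sqrt ((#A : ℝ) * #B)

/-- ES: Erdős–Shapiro. -/
def SpecES : Prop :=
  ∀ (p : ℕ) [Fact p.Prime] (χ : MulChar (ZMod p) ℂ), χ ≠ 1 → ∀ A B : Finset (ZMod p),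
    ‖∑ a ∈ A, ∑ b ∈ B, χ (a - b)‖ ≤ Real.sqrt (p * #A * #B)

/-! ### Freiman's theorem in `ZMod p` -/

/-- MODEL: Ruzsa's model lemma. -/
def SpecModel : Prop :=
  ∀ (p N : ℕ) [Fact p.Prime] [NeZero N] (A : Finset (ZMod p)), A.Nonempty → N ≤ p →
    (∀ T : Finset (ZMod p),
      (∀ v, v ∈ T ↔ ∃ s t : Fin 8 → ZMod p, (∀ i, s i ∈ A) ∧ (∀ i, t i ∈ A) ∧
        v = ∑ i, s i - ∑ i, t i) → 8 * #T ≤ N) →
    ∃ (A' : Finset (ZMod p)) (φ : ZMod p → ZMod N), A' ⊆ A ∧ #A ≤ 8 * #A' ∧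
      ∀ s t : Fin 8 → ZMod p, (∀ i, s i ∈ A') → (∀ i, t i ∈ A') →
        (∑ i, s i = ∑ i, t i ↔ ∑ i, φ (s i) = ∑ i, φ (t i))

/-- BOGO: Bogolyubov's lemma in `ZMod N`. -/
def SpecBogo : Prop :=
  ∀ (N : ℕ) [Fact N.Prime] (S : Finset (ZMod N)), S.Nonempty →
    ∃ R : Finset (ZMod N), (#R : ℝ) * (#S : ℝ) ^ 2 ≤ 2 * (N : ℝ) ^ 2 ∧
      ∀ x : ZMod N, (∀ r ∈ R, 0 ≤ Real.cos (2 * Real.pi * ((r * x).val : ℝ) / N)) →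
        ∃ s₁ ∈ S, ∃ s₂ ∈ S, ∃ s₃ ∈ S, ∃ s₄ ∈ S, x = s₁ + s₂ - s₃ - s₄

/-- BOHR: a proper progression in a Bohr set. -/
def SpecBohr : Prop :=
  ∀ k : ℕ, ∃ C : ℝ, ∀ (N : ℕ) [Fact N.Prime] (R : Finset (ZMod N)), #R ≤ k →
    ∃ (b : Fin (k + 1) → ZMod N) (H : Fin (k + 1) → ℕ),
      (∀ n : Fin (k + 1) → ℤ, (∀ i, |n i| ≤ H i) →
        ∀ r ∈ R, 0 ≤ Real.cos (2 * Real.pi * ((r * lin b n).val : ℝ) / N)) ∧
      (∀ n n' : Fin (k + 1) → ℤ, (∀ i, |n i| ≤ H i) → (∀ i, |n' i| ≤ H i) →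
        lin b n = lin b n' → n = n') ∧
      (N : ℝ) ≤ C * ∏ i, (2 * (H i : ℝ) + 1)

/-- FR: a large proper progression inside `2A - 2A`. -/
def SpecFr : Prop :=
  ∀ K : ℝ, ∃ (d : ℕ) (C : ℝ), ∀ (p : ℕ) [Fact p.Prime] (A : Finset (ZMod p)), A.Nonempty →
    (#(A + A) : ℝ) ≤ K * #A →
    ∃ (b : Fin d → ZMod p) (H : Fin d → ℕ),
      (∀ n : Fin d → ℤ, (∀ i, |n i| ≤ H i) →
        ∃ a₁ ∈ A, ∃ a₂ ∈ A, ∃ a₃ ∈ A, ∃ a₄ ∈ A, lin b n = a₁ + a₂ - a₃ - a₄) ∧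
      (∀ n n' : Fin d → ℤ, (∀ i, |n i| ≤ H i) → (∀ i, |n' i| ≤ H i) →
        lin b n = lin b n' → n = n') ∧
      (#A : ℝ) ≤ C * ∏ i, (2 * (H i : ℝ) + 1)

/-! ### Final statements -/

/-- the final theorem, bilinear form for sets of bounded doubling -/
def FinalDbl : Prop :=
  ∀ K L δ : ℝ, 0 < δ → ∃ τ : ℝ, 0 < τ ∧ ∃ P : ℕ, ∀ (p : ℕ) [Fact p.Prime], P ≤ p →
    ∀ A B : Finset (ZMod p), (p : ℝ) ^ (1 / 4 + δ) < #A → (#(A + A) : ℝ) ≤ K * #A →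
      (#(A + B) : ℝ) ≤ L * #B →
      ∀ (χ : MulChar (ZMod p) ℂ), χ ≠ 1 →
        ‖∑ a ∈ A, ∑ b ∈ B, χ (a - b)‖ ≤ (p : ℝ) ^ (-τ) * #A * #B

end MPcb27
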